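import Pool.Agent.ESGcd.LS

/-!
# Kernel bound and spacing
-/

namespace ESGcd

open Finset Complex
open scoped ComplexConjugate

lemma norm_ee_sub_one {ν : ℝ} (h1 : |ν| ≤ 1 / 2) : 4 * |ν| ≤ ‖ee ν - 1‖ := by
  have e1 : ee ν = Complex.exp (I * (2 * Real.pi * ν : ℝ)) := by unfold ee; rw [mul_comm]
  rw [e1, Complex.norm_exp_I_mul_ofReal_sub_one, norm_mul, Real.norm_ofNat]
  have e2 : 2 * Real.pi * ν / 2 = Real.pi * ν := by ring
  rw [e2]
  have e3 : ‖Real.sin (Real.pi * ν)‖ = Real.sin (Real.pi * |ν|) := by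
    rcases le_total 0 ν with h | h
    · rw [abs_of_nonneg h] at *
      rw [Real.norm_of_nonneg]
      apply Real.sin_nonneg_of_nonneg_of_le_pi (by positivity)
      nlinarith [Real.pi_pos]
    · rw [abs_of_nonpos h] at *
      have : Real.pi * ν = -(Real.pi * -ν) := by ring
      rw [this, Real.sin_neg, norm_neg, Real.norm_of_nonneg]
      apply Real.sin_nonneg_of_nonneg_of_le_pi
      · apply mul_nonneg Real.pi_pos.le; linarith
      · nlinarith [Real.pi_pos]
  rw [e3]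
  have h2 : 0 ≤ Real.pi * |ν| := by positivity
  have h3 : Real.pi * |ν| ≤ Real.pi / 2 := by nlinarith [Real.pi_pos]
  have h4 := Real.mul_le_sin h2 h3
  have h5 : 2 / Real.pi * (Real.pi * |ν|) = 2 * |ν| := by field_simp
  rw [h5] at h4
  linarith

lemma norm_KK_le_inv (N : ℕ) {θ ν : ℝ} (k : ℤ) (h : θ = k + ν) (h0 : ν ≠ 0) (h1 : |ν| ≤ 1 / 2) :
    ‖KK N θ‖ ≤ 1 / (2 * |ν|) := by
  have h2 := norm_ee_sub_one h1
  have h3 : 0 < |ν| := abs_pos.2 h0
  have h4 : ee θ = ee ν := by rw [h, ee_add, ee_int, one_mul]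
  have h5 : KK N θ = ∑ n ∈ range N, ee ν ^ n := by
    unfold KK
    refine sum_congr rfl fun n _ => ?_
    rw [ee_nat_mul, h4]
  have h6 : ee ν ≠ 1 := by
    intro hc
    rw [hc, sub_self, norm_zero] at h2
    linarith
  rw [h5, geom_sum_eq h6, norm_div]
  have h7 : ‖ee ν ^ N - 1‖ ≤ 2 := by
    refine (norm_sub_le _ _).trans ?_
    rw [norm_pow, norm_ee, one_pow, norm_one]
    norm_num
  calc ‖ee ν ^ N - 1‖ / ‖ee ν - 1‖ ≤ 2 / (4 * |ν|) := by gcongr
    _ = _ := by field_simp; norm_num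

lemma spacing_sum {ι : Type*} [DecidableEq ι] (R : Finset ι) (θ : ι → ℝ) (N : ℕ) (δ : ℝ)
    (hδ : 0 < δ) (hδ1 : δ ≤ 1 / 2)
    (hsp : ∀ r ∈ R, ∀ r' ∈ R, r ≠ r' → ∀ k : ℤ, δ ≤ |θ r - θ r' - k|) (r : ι) (hr : r ∈ R) :
    ∑ r' ∈ R, ‖KK N (θ r - θ r')‖ ≤ N + 2 / δ * (1 + Real.log (1 / δ)) := by
  set Q : ℕ := ⌊1 / δ⌋₊ with hQ
  set ν : ι → ℝ := fun r' => (θ r - θ r') - round (θ r - θ r') with hν
  set q : ι → ℤ := fun r' => ⌊ν r' / δ⌋ with hq
  have hν1 : ∀ r', |ν r'| ≤ 1 / 2 := fun r' => abs_sub_round _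
  have hν2 : ∀ r' ∈ R.erase r, δ ≤ |ν r'| := fun r' hr' =>
    hsp r hr r' (mem_of_mem_erase hr') (ne_of_mem_erase hr').symm _
  have hd2 : 2 ≤ 1 / δ := by
    rw [le_div_iff₀ hδ]; linarith
  have hq1 : ∀ r', (q r' : ℝ) ≤ ν r' / δ ∧ ν r' / δ < q r' + 1 := fun r' =>
    ⟨Int.floor_le _, Int.lt_floor_add_one _⟩
  have hb : ∀ r', |ν r' / δ| ≤ 1 / δ / 2 := by
    intro r'
    rw [abs_div, abs_of_pos hδ, div_div, mul_comm δ 2, ← div_div]
    exact div_le_div_of_nonneg_right (hν1 r') hδ.le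
  have hq2 : ∀ r' ∈ R.erase r, 1 ≤ (q r').natAbs ∧ (q r').natAbs ≤ Q ∧
      1 / (2 * |ν r'|) ≤ 1 / (((q r').natAbs : ℕ) * δ) := by
    intro r' hr'
    have h1 := hν2 r' hr'
    obtain ⟨h2, h3⟩ := hq1 r'
    have h4 := abs_le.1 (hb r')
    have h5 : 1 ≤ |ν r' / δ| := by
      rw [abs_div, abs_of_pos hδ, le_div_iff₀ hδ]; linarith
    have h6 : |ν r'| = |ν r' / δ| * δ := by
      rw [abs_div, abs_of_pos hδ]; field_simp
    have hc : ((q r').natAbs : ℝ) = |(q r' : ℝ)| := by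
      rw [Nat.cast_natAbs, Int.cast_abs]
    have hne : q r' ≠ 0 := by
      intro h0
      rw [h0] at h2 h3
      push_cast at h2 h3
      rw [abs_of_nonneg h2] at h5
      linarith
    have h7 : 1 ≤ (q r').natAbs := Int.natAbs_pos.2 hne
    refine ⟨h7, ?_, ?_⟩
    · rw [hQ]
      apply Nat.le_floor
      rw [hc, abs_le]
      constructor <;> linarith
    · have h8 : ((q r').natAbs : ℝ) ≤ 2 * |ν r' / δ| := by
        rw [hc]
        rcases le_total 0 (q r' : ℝ) with h9 | h9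
        · rw [abs_of_nonneg h9, abs_of_nonneg (h9.trans h2)]
          linarith
        · rw [abs_of_nonpos h9]
          have h10 : (q r' : ℝ) ≤ -1 := by
            have : q r' ≤ -1 := by
              have : q r' ≤ 0 := by exact_mod_cast h9
              omega
            exact_mod_cast this
          have h11 : ν r' / δ < 0 ∨ ν r' / δ = 0 := by
            rcases lt_or_ge (ν r' / δ) 0 with h | h
            · left; exact h
            · right; linarith
          rcases h11 with h11 | h11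
          · rw [abs_of_neg h11] at h5 ⊢
            linarith
          · rw [h11, abs_zero] at h5; linarith
      have h9 : (0 : ℝ) < (q r').natAbs := by exact_mod_cast h7
      apply one_div_le_one_div_of_le (by positivity)
      rw [h6]
      nlinarith
  have h1 : ∑ r' ∈ R, ‖KK N (θ r - θ r')‖ = ‖KK N (θ r - θ r)‖ +
      ∑ r' ∈ R.erase r, ‖KK N (θ r - θ r')‖ := (add_sum_erase _ _ hr).symm
  rw [h1]
  have h2 : ∑ r' ∈ R.erase r, ‖KK N (θ r - θ r')‖ ≤
      ∑ r' ∈ R.erase r, 1 / (((q r').natAbs : ℕ) * δ) := by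
    refine sum_le_sum fun r' hr' => ?_
    refine le_trans ?_ (hq2 r' hr').2.2
    apply norm_KK_le_inv N (round (θ r - θ r')) (by rw [hν]; ring) _ (hν1 r')
    intro h0
    have := hν2 r' hr'
    rw [h0, abs_zero] at this
    linarith
  have h3 : ∑ r' ∈ R.erase r, 1 / (((q r').natAbs : ℕ) * δ) ≤
      ∑ c ∈ Icc 1 Q ×ˢ (univ : Finset Bool), 1 / ((c.1 : ℕ) * δ) := by
    have e1 : Set.InjOn (fun r' => ((q r').natAbs, decide (0 < q r'))) (R.erase r : Finset ι) := by
      intro a ha b hb hab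
      simp only [Prod.mk.injEq, decide_eq_decide] at hab
      by_contra hne
      have hqq : q a = q b := by
        have := hab.1; have := hab.2; omega
      obtain ⟨a1, a2⟩ := hq1 a
      obtain ⟨b1, b2⟩ := hq1 b
      rw [hqq] at a1 a2
      have h4 : |ν a / δ - ν b / δ| < 1 := by
        rw [abs_lt]; constructor <;> linarith
      have h5 : |ν a - ν b| < δ := by
        rw [← sub_div, abs_div, abs_of_pos hδ, div_lt_one hδ] at h4; exact h4
      have h6 := hsp b (mem_of_mem_erase (mem_coe.1 hb)) a (mem_of_mem_erase (mem_coe.1 ha))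
        (Ne.symm hne) (round (θ r - θ a) - round (θ r - θ b))
      have h7 : θ b - θ a - ((round (θ r - θ a) - round (θ r - θ b) : ℤ) : ℝ) = ν a - ν b := by
        rw [hν]; push_cast; ring
      rw [h7] at h6
      linarith
    have e2 : ∑ r' ∈ R.erase r, 1 / (((q r').natAbs : ℕ) * δ) =
        ∑ c ∈ (R.erase r).image (fun r' => ((q r').natAbs, decide (0 < q r'))),
          1 / ((c.1 : ℕ) * δ) := by
      rw [sum_image e1]
    rw [e2]
    apply sum_le_sum_of_subset_of_nonneg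
    · intro c hc
      rw [mem_image] at hc
      obtain ⟨r', hr', rfl⟩ := hc
      rw [mem_product, mem_Icc]
      exact ⟨⟨(hq2 r' hr').1, (hq2 r' hr').2.1⟩, mem_univ _⟩
    · intro _ _ _; positivity
  have h4 : ∑ c ∈ Icc 1 Q ×ˢ (univ : Finset Bool), 1 / ((c.1 : ℕ) * δ) =
      2 / δ * ∑ j ∈ Icc 1 Q, ((j : ℝ))⁻¹ := by
    rw [sum_product, mul_sum]
    refine sum_congr rfl fun j _ => ?_
    simp only [sum_const, card_univ, Fintype.card_bool, nsmul_eq_mul]
    push_cast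
    ring
  have h5 : ∑ j ∈ Icc 1 Q, ((j : ℝ))⁻¹ ≤ 1 + Real.log (1 / δ) := by
    have e1 := harmonic_le_one_add_log Q
    rw [harmonic_eq_sum_Icc] at e1
    push_cast at e1
    refine e1.trans ?_
    have hQ1 : 1 ≤ Q := by
      rw [hQ]; apply Nat.le_floor; push_cast; linarith
    have : Real.log Q ≤ Real.log (1 / δ) := by
      apply Real.log_le_log (by exact_mod_cast hQ1)
      exact Nat.floor_le (by positivity)
    linarith
  have h6 := norm_KK_le N (θ r - θ r)
  have h7 : 2 / δ * ∑ j ∈ Icc 1 Q, ((j : ℝ))⁻¹ ≤ 2 / δ * (1 + Real.log (1 / δ)) :=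
    mul_le_mul_of_nonneg_left h5 (by positivity)
  linarith

end ESGcd
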