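import Pool.Agent.ESGcd.Rot

/-!
# The cost of the low digits
-/

namespace ESGcd

open Finset

lemma digit_low (l T t d u : ℕ) (ht : t < T) : ((l ^ T * d + u) / l ^ t) % l = (u / l ^ t) % l := by
  rcases Nat.eq_zero_or_pos l with h0 | h0
  · subst h0
    have : (0 : ℕ) ^ T = 0 := zero_pow (by omega)
    rw [this, Nat.zero_mul, Nat.zero_add]
  · have h1 : l ^ T * d + u = u + l ^ t * (l * (l ^ (T - t - 1) * d)) := by
      have : l ^ T = l ^ t * (l * l ^ (T - t - 1)) := by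
        rw [← pow_succ', ← pow_add]; congr 1; omega
      rw [this]; ring
    rw [h1, Nat.add_mul_div_left _ _ (by positivity), Nat.add_mul_mod_self_left]

lemma digit_top (l T d u : ℕ) (hd : d < l) (hu : u < l ^ T) :
    ((l ^ T * d + u) / l ^ T) % l = d := by
  have h0 : 0 < l ^ T := by omega
  rw [Nat.mul_add_div h0, Nat.div_eq_of_lt hu, add_zero, Nat.mod_eq_of_lt hd]

/-- product formula -/
lemma sum_prod_digits (l : ℕ) (φ : ℕ → ℝ) (T : ℕ) :
    ∑ u ∈ range (l ^ T), ∏ t ∈ range T, φ ((u / l ^ t) % l) = (∑ g ∈ range l, φ g) ^ T := by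
  induction T with
  | zero => simp
  | succ T ih =>
    have h1 : ∀ D : ℕ, ∑ u ∈ range (l ^ T * D), ∏ t ∈ range (T + 1), φ ((u / l ^ t) % l) =
        ∑ d ∈ range D, ∑ u ∈ range (l ^ T), ∏ t ∈ range (T + 1),
          φ (((l ^ T * d + u) / l ^ t) % l) := by
      intro D
      induction D with
      | zero => simp
      | succ D ihD =>
        rw [Nat.mul_succ, sum_range_add, ihD, sum_range_succ _ D]
    rw [pow_succ, h1 l, pow_succ, ← ih, mul_comm, sum_mul]
    refine sum_congr rfl fun d hd => ?_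
    rw [mul_sum]
    refine sum_congr rfl fun u hu => ?_
    rw [mem_range] at hd hu
    rw [prod_range_succ, digit_top l T d u hd hu, mul_comm]
    congr 1
    refine prod_congr rfl fun t ht => ?_
    rw [mem_range] at ht
    rw [digit_low l T t d u ht]

lemma sum_inv_sqrt (n : ℕ) : ∑ k ∈ range n, 1 / √((k : ℝ) + 1) ≤ 2 * √n := by
  induction n with
  | zero => simp
  | succ n ih =>
    rw [sum_range_succ]
    have h1 : 0 < √((n : ℝ) + 1) := Real.sqrt_pos.2 (by positivity)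
    have h2 : √((n : ℝ) + 1) ^ 2 = n + 1 := Real.sq_sqrt (by positivity)
    have h3 : √(n : ℝ) ^ 2 = n := Real.sq_sqrt (by positivity)
    have h4 : 0 ≤ √(n : ℝ) := Real.sqrt_nonneg _
    have h5 : 1 / √((n : ℝ) + 1) ≤ 2 * (√((n : ℝ) + 1) - √n) := by
      rw [div_le_iff₀ h1]
      nlinarith [sq_nonneg (√((n : ℝ) + 1) - √n)]
    push_cast
    linarith

/-- the cost of a digit. -/
def cost (l g : ℕ) : ℕ := Nat.log 2 (l / (g + 1))

lemma sqrt_two_pow_cost {l g : ℕ} (hg : g < l) : (√2) ^ cost l g ≤ √l * (1 / √((g : ℝ) + 1)) := by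
  have h1 : 1 ≤ l / (g + 1) := (Nat.one_le_div_iff (by omega)).2 (by omega)
  have h2 : 2 ^ cost l g ≤ l / (g + 1) := Nat.pow_log_le_self 2 (by omega)
  have h3 : (2 : ℝ) ^ cost l g ≤ l / ((g : ℝ) + 1) := by
    have h4 : ((2 ^ cost l g : ℕ) : ℝ) ≤ ((l / (g + 1) : ℕ) : ℝ) := by exact_mod_cast h2
    push_cast at h4
    refine h4.trans ?_
    have := Nat.cast_div_le (α := ℝ) (m := l) (n := g + 1)
    push_cast at this; exact this
  have h5 : (√2) ^ cost l g = √(2 ^ cost l g) := by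
    rw [Real.sqrt_eq_rpow, Real.sqrt_eq_rpow, ← Real.rpow_natCast, ← Real.rpow_natCast,
      ← Real.rpow_mul (by norm_num), ← Real.rpow_mul (by norm_num), mul_comm]
  rw [h5, mul_one_div, ← Real.sqrt_div (by positivity)]
  exact Real.sqrt_le_sqrt h3

lemma sum_cost (l : ℕ) : ∑ g ∈ range l, (√2) ^ cost l g ≤ 2 * l := by
  calc ∑ g ∈ range l, (√2) ^ cost l g ≤ ∑ g ∈ range l, √l * (1 / √((g : ℝ) + 1)) :=
        sum_le_sum fun g hg => sqrt_two_pow_cost (mem_range.1 hg)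
    _ = √l * ∑ g ∈ range l, 1 / √((g : ℝ) + 1) := by rw [mul_sum]
    _ ≤ √l * (2 * √l) := mul_le_mul_of_nonneg_left (sum_inv_sqrt l) (Real.sqrt_nonneg _)
    _ = 2 * (√l * √l) := by ring
    _ = 2 * l := by rw [Real.mul_self_sqrt (by positivity)]

/-- the residues with costly digits. -/
def costly (l T h : ℕ) : Finset ℕ :=
  {u ∈ range (l ^ T) | 2 * h < ∑ t ∈ range T, cost l ((u / l ^ t) % l)}

lemma card_costly (l T h : ℕ) : (#(costly l T h) : ℝ) * 2 ^ h ≤ (2 * l) ^ T := by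
  have h2 : (√2) ^ (2 * h) = 2 ^ h := by rw [pow_mul, Real.sq_sqrt (by norm_num)]
  have h3 : (1 : ℝ) ≤ √2 := by
    rw [Real.one_le_sqrt]; norm_num
  calc (#(costly l T h) : ℝ) * 2 ^ h = ∑ u ∈ costly l T h, (√2) ^ (2 * h) := by
        rw [sum_const, nsmul_eq_mul, h2]
    _ ≤ ∑ u ∈ costly l T h, ∏ t ∈ range T, (√2) ^ cost l ((u / l ^ t) % l) := by
        refine sum_le_sum fun u hu => ?_
        unfold costly at hu
        rw [mem_filter] at hu
        rw [prod_pow_eq_pow_sum]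
        exact pow_le_pow_right₀ h3 hu.2.le
    _ ≤ ∑ u ∈ range (l ^ T), ∏ t ∈ range T, (√2) ^ cost l ((u / l ^ t) % l) := by
        apply sum_le_sum_of_subset_of_nonneg (filter_subset _ _)
        intro _ _ _; positivity
    _ = (∑ g ∈ range l, (√2) ^ cost l g) ^ T :=
        sum_prod_digits l (fun g => (√2) ^ cost l g) T
    _ ≤ (2 * l) ^ T := pow_le_pow_left₀ (by positivity) (sum_cost l) T

/-- The number of `P ∈ (Y, 2 Y]` with `P s mod M` in `U`, for `s` coprime to `M`. -/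
lemma residue' (s M Y : ℕ) (U : Finset ℕ) (hM : 0 < M) (hs : Nat.Coprime s M) :
    #{P ∈ Ioc Y (2 * Y) | (P * s) % M ∈ U} ≤ (Y / M + 2) * #U := by
  have h1 : ({P ∈ Ioc Y (2 * Y) | (P * s) % M ∈ U} : Finset ℕ) ⊆
      U.biUnion fun r => {P ∈ Ioc Y (2 * Y) | (P * s) % M = r} := by
    intro P hP
    rw [mem_filter] at hP
    rw [mem_biUnion]
    exact ⟨(P * s) % M, hP.2, by rw [mem_filter]; exact ⟨hP.1, rfl⟩⟩
  refine (card_le_card h1).trans (card_biUnion_le.trans ?_)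
  have h2 : ∀ r ∈ U, #{P ∈ Ioc Y (2 * Y) | (P * s) % M = r} ≤ Y / M + 2 := by
    intro r _
    have h3 : #{P ∈ Ioc Y (2 * Y) | (P * s) % M = r} ≤ #(Icc (Y / M) (2 * Y / M)) := by
      apply card_le_card_of_injOn (fun P => P / M)
      · intro P hP
        simp only [coe_filter, mem_Ioc, Set.mem_ofPred_eq] at hP
        simp only [coe_Icc, Set.mem_Icc]
        exact ⟨Nat.div_le_div_right hP.1.1.le, Nat.div_le_div_right hP.1.2⟩
      · intro P hP P' hP' heq
        simp only [coe_filter, mem_Ioc, Set.mem_ofPred_eq] at hP hP'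
        simp only at heq
        have h4 : P * s ≡ P' * s [MOD M] := by
          unfold Nat.ModEq; rw [hP.2, hP'.2]
        have h5 : P ≡ P' [MOD M] := Nat.ModEq.cancel_right_of_coprime (by
          rw [Nat.gcd_comm]; exact hs) h4
        rw [← Nat.div_add_mod P M, ← Nat.div_add_mod P' M, heq, h5]
    refine h3.trans ?_
    rw [Nat.card_Icc]
    have h6 : 2 * Y / M ≤ Y / M + Y / M + 1 := by
      rw [two_mul, Nat.add_div hM]
      split_ifs <;> omega
    generalize 2 * Y / M = u at *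
    generalize Y / M = v at *
    omega
  refine (sum_le_card_nsmul _ _ _ h2).trans ?_
  rw [smul_eq_mul, mul_comm]

/-- for `s` prime to `l` few `P` make the digits of `P s` costly. -/
lemma card_costly_P (l T h s Y : ℕ) (hl : l.Prime) (hs : ¬ l ∣ s) (hY : l ^ T ≤ Y) :
    (#{P ∈ Ioc Y (2 * Y) | 2 * h < ∑ t ∈ range T, cost l ((P * s / l ^ t) % l)} : ℝ) * 2 ^ h ≤
      3 * Y * 2 ^ T := by
  have hl0 : 0 < l := hl.pos
  have h1 : ({P ∈ Ioc Y (2 * Y) | 2 * h < ∑ t ∈ range T, cost l ((P * s / l ^ t) % l)} :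
      Finset ℕ) ⊆ {P ∈ Ioc Y (2 * Y) | (P * s) % l ^ T ∈ costly l T h} := by
    intro P hP
    rw [mem_filter] at hP ⊢
    refine ⟨hP.1, ?_⟩
    unfold costly
    rw [mem_filter, mem_range]
    refine ⟨Nat.mod_lt _ (by positivity), ?_⟩
    refine lt_of_lt_of_le hP.2 (le_of_eq ?_)
    refine sum_congr rfl fun t ht => ?_
    rw [mem_range] at ht
    congr 1
    conv_lhs => rw [← Nat.div_add_mod (P * s) (l ^ T)]
    exact digit_low l T t _ _ ht
  have h2 := (card_le_card h1).trans (residue' s (l ^ T) Y (costly l T h) (by positivity)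
    (Nat.Coprime.pow_right _ (((Nat.Prime.coprime_iff_not_dvd hl).2 hs).symm)))
  have h3 := card_costly l T h
  have hlT : (0 : ℝ) < (l : ℝ) ^ T := by positivity
  have h4 : (((Y / l ^ T : ℕ) : ℝ) + 2) * (l : ℝ) ^ T ≤ 3 * Y := by
    have e1 : ((Y / l ^ T : ℕ) : ℝ) * (l : ℝ) ^ T ≤ Y := by
      exact_mod_cast Nat.div_mul_le_self Y (l ^ T)
    have e2 : (l : ℝ) ^ T ≤ Y := by exact_mod_cast hY
    linarith
  calc (#{P ∈ Ioc Y (2 * Y) | 2 * h < ∑ t ∈ range T, cost l ((P * s / l ^ t) % l)} : ℝ) * 2 ^ h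
      ≤ ((((Y / l ^ T : ℕ) : ℝ) + 2) * #(costly l T h)) * 2 ^ h := by
        gcongr
        exact_mod_cast h2
    _ = (((Y / l ^ T : ℕ) : ℝ) + 2) * (#(costly l T h) * 2 ^ h) := by ring
    _ ≤ (((Y / l ^ T : ℕ) : ℝ) + 2) * (2 * l) ^ T := by gcongr
    _ = ((((Y / l ^ T : ℕ) : ℝ) + 2) * (l : ℝ) ^ T) * 2 ^ T := by rw [mul_pow]; ring
    _ ≤ 3 * Y * 2 ^ T := by gcongr

end ESGcd
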