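import Pool.Agent.CoprimeSieve.Mertens

/-!
# An upper bound sieve for integers free of primes in a set (Hall–Tenenbaum)
-/

namespace ESGcd

open Finset Real Pool.Agent.CoprimeSieve
open ArithmeticFunction hiding log id
open Nat (factoredNumbers)

/-- `n ↦ 1/n`. -/
noncomputable def recip : ℕ →* ℝ where
  toFun n := (n : ℝ)⁻¹
  map_one' := by simp
  map_mul' a b := by push_cast; rw [mul_inv]

lemma recip_apply (n : ℕ) : recip n = (n : ℝ)⁻¹ := rfl

/-- Euler product bound. -/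
lemma sum_recip_le_prod (S : Finset ℕ) (hS : ∀ p ∈ S, p.Prime) (T : Finset ℕ)
    (hT : ∀ n ∈ T, n ≠ 0 ∧ ∀ p, p.Prime → p ∣ n → p ∈ S) :
    ∑ n ∈ T, (n : ℝ)⁻¹ ≤ ∏ p ∈ S, (1 - (p : ℝ)⁻¹)⁻¹ := by
  classical
  have h1 : ∀ {p : ℕ}, p.Prime → ‖recip p‖ < 1 := by
    intro p hp
    rw [recip_apply, norm_inv, Real.norm_natCast]
    exact inv_lt_one_of_one_lt₀ (by exact_mod_cast hp.one_lt)
  have h2 := (EulerProduct.summable_and_hasSum_factoredNumbers_prod_filter_prime_geometric h1 S).2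
  rw [filter_true_of_mem hS] at h2
  have h3 : ∀ n ∈ T, n ∈ factoredNumbers S := by
    intro n hn
    rw [Nat.mem_factoredNumbers']
    intro p hp hd
    exact (hT n hn).2 p hp hd
  have h4 := sum_le_hasSum (T.subtype (· ∈ factoredNumbers S)) (fun m _ => by
    rw [recip_apply]; positivity) h2
  refine le_trans (le_of_eq ?_) h4
  exact (sum_subtype_of_mem (fun n : ℕ => (n : ℝ)⁻¹) h3).symm

lemma inv_le_exp {u : ℝ} (h0 : 0 ≤ u) (h1 : u ≤ 1 / 2) : (1 - u)⁻¹ ≤ exp (u + 2 * u ^ 2) := by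
  have h2 : 0 < 1 - u := by linarith
  have h3 : 1 ≤ (1 - u) * (1 + (u + 2 * u ^ 2)) := by nlinarith [mul_nonneg h0 h0]
  have h4 := add_one_le_exp (u + 2 * u ^ 2)
  rw [inv_le_iff_one_le_mul₀ h2]
  calc (1 : ℝ) ≤ (1 - u) * (1 + (u + 2 * u ^ 2)) := h3
    _ ≤ (1 - u) * exp (u + 2 * u ^ 2) := by
        apply mul_le_mul_of_nonneg_left _ h2.le
        linarith
    _ = exp (u + 2 * u ^ 2) * (1 - u) := by ring

lemma sum_inv_sq (S : Finset ℕ) (hS : ∀ p ∈ S, 2 ≤ p) : ∑ p ∈ S, ((p : ℝ) ^ 2)⁻¹ ≤ 1 := by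
  have h1 := sum_Ioo_inv_sq_le (α := ℝ) 1 (S.sup id + 1)
  have h2 : S ⊆ Ioo 1 (S.sup id + 1) := by
    intro p hp
    rw [mem_Ioo]
    have h3 : p ≤ S.sup id := le_sup (f := id) hp
    have := hS p hp
    omega
  refine (sum_le_sum_of_subset_of_nonneg h2 (fun _ _ _ => by positivity)).trans ?_
  refine h1.trans ?_
  norm_num

lemma prod_le_exp (S : Finset ℕ) (hS : ∀ p ∈ S, p.Prime) :
    ∏ p ∈ S, (1 - (p : ℝ)⁻¹)⁻¹ ≤ exp (∑ p ∈ S, (1 : ℝ) / p + 2) := by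
  have h1 : ∏ p ∈ S, (1 - (p : ℝ)⁻¹)⁻¹ ≤ ∏ p ∈ S, exp ((p : ℝ)⁻¹ + 2 * ((p : ℝ)⁻¹) ^ 2) := by
    apply prod_le_prod
    · intro p hp
      rw [inv_nonneg, sub_nonneg]
      exact inv_le_one_of_one_le₀ (by exact_mod_cast (hS p hp).one_lt.le)
    · intro p hp
      apply inv_le_exp (by positivity)
      rw [one_div]
      apply inv_anti₀ (by norm_num)
      exact_mod_cast (hS p hp).two_le
  refine h1.trans ?_
  rw [← exp_sum]
  apply exp_le_exp.2
  rw [sum_add_distrib, ← mul_sum]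
  have h2 := sum_inv_sq S (fun p hp => (hS p hp).two_le)
  have h3 : ∑ p ∈ S, ((p : ℝ)⁻¹) ^ 2 = ∑ p ∈ S, ((p : ℝ) ^ 2)⁻¹ :=
    sum_congr rfl fun p _ => by rw [inv_pow]
  have h4 : ∑ p ∈ S, (p : ℝ)⁻¹ = ∑ p ∈ S, (1 : ℝ) / p :=
    sum_congr rfl fun p _ => by rw [one_div]
  rw [h3, h4]
  linarith

/-- The primes up to `x` which are at most `w` or in `(a, b]`. -/
lemma exists_mertens : ∃ C : ℝ, 0 ≤ C ∧ ∀ (w a b : ℝ) (S : Finset ℕ), 2 ≤ w → w ≤ a → a ≤ b →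
    (∀ p ∈ S, p.Prime ∧ ((p : ℝ) ≤ w ∨ (a < p ∧ (p : ℝ) ≤ b))) →
    ∏ p ∈ S, (1 - (p : ℝ)⁻¹)⁻¹ ≤ C * (log w * (log b / log a)) := by
  classical
  obtain ⟨C, hC, h⟩ := mertens_second_upper
  have hl2 : 0 < log 2 := log_pos (by norm_num)
  refine ⟨exp ((1 / 2 - log (log 2) + C / log 2) + C / log 2 + 2), (exp_pos _).le, ?_⟩
  intro w a b S hw hwa hab hS
  have hlw : 0 < log w := log_pos (by linarith)
  have hla : 0 < log a := log_pos (by linarith)
  have hlb : 0 < log b := log_pos (by linarith)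
  refine (prod_le_exp S fun p hp => (hS p hp).1).trans ?_
  have h1 : ∑ p ∈ S, (1 : ℝ) / p ≤ 1 / 2 + ∑ p ∈ (pr w).filter (fun p : ℕ => 2 < (p : ℝ)), (1 : ℝ) / p
      + ∑ p ∈ (pr b).filter (fun p : ℕ => a < (p : ℝ)), (1 : ℝ) / p := by
    have h2 : S ⊆ ({2} ∪ (pr w).filter (fun p : ℕ => 2 < (p : ℝ))) ∪
        (pr b).filter (fun p : ℕ => a < (p : ℝ)) := by
      intro p hp
      obtain ⟨p1, p2⟩ := hS p hp
      rw [mem_union, mem_union, mem_filter, mem_filter, mem_pr, mem_pr, mem_singleton]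
      rcases p2 with p2 | p2
      · rcases eq_or_lt_of_le p1.two_le with h3 | h3
        · left; left; exact h3.symm
        · left; right; exact ⟨⟨p1, p2⟩, by exact_mod_cast h3⟩
      · right; exact ⟨⟨p1, p2.2⟩, p2.1⟩
    refine (sum_le_sum_of_subset_of_nonneg h2 (fun _ _ _ => by positivity)).trans ?_
    have h3 : ∀ (A B : Finset ℕ), ∑ p ∈ A ∪ B, (1 : ℝ) / p ≤ ∑ p ∈ A, (1 : ℝ) / p +
        ∑ p ∈ B, (1 : ℝ) / p := by
      intro A B
      rw [← sum_union_inter]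
      have : 0 ≤ ∑ p ∈ A ∩ B, (1 : ℝ) / p := sum_nonneg fun _ _ => by positivity
      linarith
    have h4 := h3 {2} ((pr w).filter (fun p : ℕ => 2 < (p : ℝ)))
    have h5 := h3 ({2} ∪ (pr w).filter (fun p : ℕ => 2 < (p : ℝ)))
      ((pr b).filter (fun p : ℕ => a < (p : ℝ)))
    rw [sum_singleton] at h4
    push_cast at h4
    linarith
  have h2 := h 2 w le_rfl hw
  have h3 := h a b (by linarith) hab
  have h4 : C / log a ≤ C / log 2 := by
    apply div_le_div_of_nonneg_left hC hl2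
    exact log_le_log (by norm_num) (by linarith)
  rw [log_div hlw.ne' hl2.ne'] at h2
  have h5 : exp ((1 / 2 - log (log 2) + C / log 2) + C / log 2 + 2) * (log w * (log b / log a)) =
      exp ((1 / 2 - log (log 2) + C / log 2) + C / log 2 + 2 + (log (log w) +
        log (log b / log a))) := by
    rw [exp_add _ (log (log w) + log (log b / log a)), exp_add (log (log w)), exp_log hlw,
      exp_log (by positivity)]
  rw [h5]
  apply exp_le_exp.2
  linarith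

/-- **Hall–Tenenbaum.** -/
lemma card_mul_log_le (x : ℕ) (hx : 1 ≤ x) (F : ℕ → Prop) [DecidablePred F]
    (hF : ∀ a b, F (a * b) → F b) :
    (#{n ∈ Icc 1 x | F n} : ℝ) * log x ≤ (log 4 + 5) * x * ∑ n ∈ Icc 1 x with F n, (n : ℝ)⁻¹ := by
  classical
  set T : Finset ℕ := {n ∈ Icc 1 x | F n} with hT
  have hxr : (0 : ℝ) < x := by exact_mod_cast hx
  have h1 : ∑ n ∈ T, log n ≤ (log 4 + 4) * x * ∑ n ∈ T, (n : ℝ)⁻¹ := by
    have e1 : ∀ n ∈ T, log (n : ℝ) = ∑ m ∈ T with m ∣ n, Λ (n / m) := by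
      intro n hn
      rw [hT, mem_filter, mem_Icc] at hn
      have e2 : ∑ d ∈ n.divisors, Λ d = log n := vonMangoldt_sum
      rw [← e2, ← Nat.sum_div_divisors]
      apply sum_congr _ fun _ _ => rfl
      ext m
      rw [Nat.mem_divisors, mem_filter, hT, mem_filter, mem_Icc]
      constructor
      · rintro ⟨h3, h4⟩
        refine ⟨⟨⟨Nat.pos_of_dvd_of_pos h3 (by omega),
          (Nat.le_of_dvd (by omega) h3).trans hn.1.2⟩, ?_⟩, h3⟩
        obtain ⟨c, hc⟩ := h3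
        apply hF c m
        rw [mul_comm, ← hc]; exact hn.2
      · rintro ⟨_, h4⟩
        exact ⟨h4, by omega⟩
    rw [sum_congr rfl e1]
    simp only [sum_filter]
    rw [sum_comm]
    simp only [← sum_filter]
    rw [mul_sum]
    refine sum_le_sum fun m hm => ?_
    rw [hT, mem_filter, mem_Icc] at hm
    have hm1 : 1 ≤ m := hm.1.1
    have e3 : ∑ n ∈ T with m ∣ n, Λ (n / m) ≤ ∑ n ∈ Icc 1 x with m ∣ n, Λ (n / m) := by
      apply sum_le_sum_of_subset_of_nonneg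
      · exact filter_subset_filter _ (filter_subset _ _)
      · intro _ _ _; exact vonMangoldt_nonneg
    refine e3.trans ?_
    have e4 : ({n ∈ Icc 1 x | m ∣ n} : Finset ℕ) = (Ioc 0 (x / m)).image (m * ·) := by
      ext n
      simp only [mem_filter, mem_Icc, mem_image, mem_Ioc]
      constructor
      · rintro ⟨⟨h3, h4⟩, c, rfl⟩
        refine ⟨c, ⟨?_, ?_⟩, rfl⟩
        · exact Nat.pos_of_ne_zero fun h => by subst h; simp at h3
        · rw [Nat.le_div_iff_mul_le hm1, mul_comm]; exact h4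
      · rintro ⟨c, ⟨h3, h4⟩, rfl⟩
        rw [Nat.le_div_iff_mul_le hm1, mul_comm] at h4
        exact ⟨⟨Nat.mul_pos hm1 h3, h4⟩, Dvd.intro _ rfl⟩
    rw [e4, sum_image (fun a _ b _ hab => Nat.eq_of_mul_eq_mul_left hm1 hab)]
    have e5 : ∑ d ∈ Ioc 0 (x / m), Λ (m * d / m) = Chebyshev.psi ((x / m : ℕ) : ℝ) := by
      unfold Chebyshev.psi
      rw [Nat.floor_natCast]
      exact sum_congr rfl fun d _ => by rw [Nat.mul_div_cancel_left _ hm1]
    rw [e5]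
    refine (Chebyshev.psi_le_const_mul_self (by positivity)).trans ?_
    have e6 : ((x / m : ℕ) : ℝ) ≤ x * (m : ℝ)⁻¹ := by
      rw [← div_eq_mul_inv]; exact Nat.cast_div_le
    have e7 : 0 ≤ log 4 + 4 := by
      have := log_nonneg (show (1 : ℝ) ≤ 4 by norm_num)
      linarith
    rw [mul_assoc]
    exact mul_le_mul_of_nonneg_left e6 e7
  have h2 : ∀ n ∈ T, log x ≤ log n + x * (n : ℝ)⁻¹ := by
    intro n hn
    rw [hT, mem_filter, mem_Icc] at hn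
    have hn0 : (0 : ℝ) < n := by exact_mod_cast hn.1.1
    have e1 := log_le_self (show 0 ≤ (x : ℝ) / n by positivity)
    rw [log_div hxr.ne' hn0.ne', div_eq_mul_inv] at e1
    linarith
  calc (#T : ℝ) * log x = ∑ n ∈ T, log (x : ℝ) := by rw [sum_const, nsmul_eq_mul]
    _ ≤ ∑ n ∈ T, (log n + x * (n : ℝ)⁻¹) := sum_le_sum h2
    _ = ∑ n ∈ T, log n + x * ∑ n ∈ T, (n : ℝ)⁻¹ := by rw [sum_add_distrib, mul_sum]
    _ ≤ (log 4 + 4) * x * ∑ n ∈ T, (n : ℝ)⁻¹ + x * ∑ n ∈ T, (n : ℝ)⁻¹ := by linarith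
    _ = _ := by ring

/-- **Sieve bounds.** `n ≤ x` all of whose prime factors are at most `w` or in `(a, b]`. -/
lemma sieve_bound : ∃ C : ℝ, 0 < C ∧ ∀ (w a b : ℝ), 2 ≤ w → w ≤ a → a ≤ b →
    (∀ T : Finset ℕ, (∀ n ∈ T, n ≠ 0 ∧ ∀ p, p.Prime → p ∣ n →
      ((p : ℝ) ≤ w ∨ (a < p ∧ (p : ℝ) ≤ b))) →
      ∑ n ∈ T, (n : ℝ)⁻¹ ≤ C * (log w * (log b / log a))) ∧
    (∀ (x : ℕ) (T : Finset ℕ), 2 ≤ x → (∀ n ∈ T, n ∈ Icc 1 x ∧ ∀ p, p.Prime → p ∣ n →
      ((p : ℝ) ≤ w ∨ (a < p ∧ (p : ℝ) ≤ b))) →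
      (#T : ℝ) ≤ C * x / log x * (log w * (log b / log a))) := by
  classical
  obtain ⟨C, hC, h⟩ := exists_mertens
  have h4 : 0 < log 4 + 5 := by
    have := log_nonneg (show (1 : ℝ) ≤ 4 by norm_num)
    linarith
  refine ⟨(C + 1) * (log 4 + 6), by positivity, ?_⟩
  intro w a b hw hwa hab
  have hlw : 0 < log w := log_pos (by linarith)
  have hla : 0 < log a := log_pos (by linarith)
  have hlb : 0 < log b := log_pos (by linarith)
  have key : ∀ T : Finset ℕ, (∀ n ∈ T, n ≠ 0 ∧ ∀ p, p.Prime → p ∣ n →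
      ((p : ℝ) ≤ w ∨ (a < p ∧ (p : ℝ) ≤ b))) →
      ∑ n ∈ T, (n : ℝ)⁻¹ ≤ C * (log w * (log b / log a)) := by
    intro T hT
    set S : Finset ℕ := T.biUnion Nat.primeFactors with hS
    have h1 : ∀ p ∈ S, p.Prime ∧ ((p : ℝ) ≤ w ∨ (a < p ∧ (p : ℝ) ≤ b)) := by
      intro p hp
      rw [hS, mem_biUnion] at hp
      obtain ⟨n, hn, hp⟩ := hp
      have hpp := Nat.prime_of_mem_primeFactors hp
      exact ⟨hpp, (hT n hn).2 p hpp (Nat.dvd_of_mem_primeFactors hp)⟩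
    refine (sum_recip_le_prod S (fun p hp => (h1 p hp).1) T ?_).trans (h w a b S hw hwa hab h1)
    intro n hn
    refine ⟨(hT n hn).1, fun p hp hd => ?_⟩
    rw [hS, mem_biUnion]
    exact ⟨n, hn, Nat.mem_primeFactors.2 ⟨hp, hd, (hT n hn).1⟩⟩
  refine ⟨fun T hT => (key T hT).trans ?_, ?_⟩
  · apply mul_le_mul_of_nonneg_right _ (by positivity)
    nlinarith
  · intro x T hx hT
    have hlx : 0 < log (x : ℝ) := log_pos (by exact_mod_cast (by omega : 1 < x))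
    have hxr : (0 : ℝ) < x := by exact_mod_cast (by omega : 0 < x)
    have h1 := card_mul_log_le x (by omega) (fun n => n ≠ 0 ∧ ∀ p, p.Prime → p ∣ n →
      ((p : ℝ) ≤ w ∨ (a < p ∧ (p : ℝ) ≤ b))) (by
        rintro c d ⟨h2, h3⟩
        exact ⟨right_ne_zero_of_mul h2, fun p hp hd => h3 p hp (Dvd.dvd.mul_left hd c)⟩)
    have h2 := key {n ∈ Icc 1 x | n ≠ 0 ∧ ∀ p, p.Prime → p ∣ n →
      ((p : ℝ) ≤ w ∨ (a < p ∧ (p : ℝ) ≤ b))} (fun n hn => (mem_filter.1 hn).2)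
    have h3 : (#T : ℝ) ≤ (#({n ∈ Icc 1 x | n ≠ 0 ∧ ∀ p : ℕ, p.Prime → p ∣ n →
        ((p : ℝ) ≤ w ∨ (a < p ∧ (p : ℝ) ≤ b))} : Finset ℕ) : ℝ) := by
      have h5 : T ⊆ ({n ∈ Icc 1 x | n ≠ 0 ∧ ∀ p : ℕ, p.Prime → p ∣ n →
          ((p : ℝ) ≤ w ∨ (a < p ∧ (p : ℝ) ≤ b))} : Finset ℕ) := by
        intro n hn
        rw [mem_filter]
        refine ⟨(hT n hn).1, ?_, (hT n hn).2⟩
        have := mem_Icc.1 (hT n hn).1
        omega
      exact_mod_cast card_le_card h5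
    rw [div_mul_eq_mul_div, le_div_iff₀ hlx]
    calc (#T : ℝ) * log x ≤ _ := mul_le_mul_of_nonneg_right h3 hlx.le
      _ ≤ _ := h1
      _ ≤ (log 4 + 5) * x * (C * (log w * (log b / log a))) :=
          mul_le_mul_of_nonneg_left h2 (by positivity)
      _ = (C * (log 4 + 5)) * (x * (log w * (log b / log a))) := by ring
      _ ≤ ((C + 1) * (log 4 + 6)) * (x * (log w * (log b / log a))) := by
          apply mul_le_mul_of_nonneg_right _ (by positivity)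
          nlinarith
      _ = _ := by ring

end ESGcd
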