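import Mathlib

/-!
# Carries in blocks of digits

`u ↦ #{t < T : a carry leaves the first (t+1) blocks when j u and j' u are added in base Q}`.
-/

namespace ESGcd

open Finset

/-- `y / Q` counts the `k ≥ 1` with `k Q ≤ y`. -/
lemma div_eq_card (y Q j : ℕ) (hQ : 0 < Q) (hy : y < j * Q) :
    y / Q = #{k ∈ Ico 1 j | k * Q ≤ y} := by
  have h : ({k ∈ Ico 1 j | k * Q ≤ y} : Finset ℕ) = Ico 1 (y / Q + 1) := by
    ext k
    simp only [mem_filter, mem_Ico]
    rw [← Nat.le_div_iff_mul_le hQ]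
    have : y / Q < j := (Nat.div_lt_iff_lt_mul hQ).2 hy
    omega
  rw [h]; simp

/-- the number of `d < Q` with `a + j d < k Q`. -/
lemma card_lt (Q j a k : ℕ) (hj : 0 < j) (ha : a < j) (hjQ : j ≤ Q) (hk1 : 1 ≤ k) (hk : k < j) :
    ((k * Q : ℝ) - a) / j ≤ (#{d ∈ range Q | a + j * d < k * Q} : ℝ) ∧
      (#{d ∈ range Q | a + j * d < k * Q} : ℝ) ≤ ((k * Q : ℝ) - a) / j + 1 := by
  have haQ : a ≤ k * Q := by nlinarith
  have h : ({d ∈ range Q | a + j * d < k * Q} : Finset ℕ) = range ⌈((k * Q : ℝ) - a) / j⌉₊ := by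
    ext d
    simp only [mem_filter, mem_range]
    rw [Nat.lt_ceil, lt_div_iff₀ (by positivity)]
    constructor
    · rintro ⟨_, h⟩
      have : (a : ℝ) + j * d < k * Q := by exact_mod_cast h
      linarith
    · intro h
      have h' : (a : ℝ) + j * d < k * Q := by linarith
      have h'' : a + j * d < k * Q := by exact_mod_cast h'
      refine ⟨?_, h''⟩
      have : j * d < j * Q := by nlinarith
      exact Nat.lt_of_mul_lt_mul_left this
  rw [h, card_range]
  have hnn : (0 : ℝ) ≤ ((k * Q : ℝ) - a) / j := by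
    apply div_nonneg _ (by positivity)
    have : (a : ℝ) ≤ k * Q := by exact_mod_cast haQ
    linarith
  exact ⟨Nat.le_ceil _, (Nat.ceil_lt_add_one hnn).le⟩

/-- Upper and lower bounds for `∑_{d < Q} ⌊(a + j d) / Q⌋`. -/
lemma sum_floor (Q j a : ℕ) (hj : 0 < j) (ha : a < j) (hjQ : j ≤ Q) :
    (Q : ℝ) * (j - 1) / 2 + a - j ≤ ((∑ d ∈ range Q, (a + j * d) / Q : ℕ) : ℝ) ∧
      ((∑ d ∈ range Q, (a + j * d) / Q : ℕ) : ℝ) ≤ (Q : ℝ) * (j - 1) / 2 + a := by
  have hQ : 0 < Q := lt_of_lt_of_le hj hjQ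
  have h1 : (∑ d ∈ range Q, (a + j * d) / Q : ℕ) =
      ∑ k ∈ Ico 1 j, #{d ∈ range Q | k * Q ≤ a + j * d} := by
    have h2 := sum_card_bipartiteAbove_eq_sum_card_bipartiteBelow (s := range Q) (t := Ico 1 j)
      (fun d k => k * Q ≤ a + j * d)
    simp only [bipartiteAbove, bipartiteBelow] at h2
    rw [← h2]
    refine sum_congr rfl fun d hd => ?_
    rw [mem_range] at hd
    apply div_eq_card _ _ _ hQ
    have : j * (d + 1) ≤ j * Q := Nat.mul_le_mul_left j hd
    nlinarith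
  have h3 : ∀ k ∈ Ico 1 j, (#{d ∈ range Q | k * Q ≤ a + j * d} : ℝ) =
      Q - (#{d ∈ range Q | a + j * d < k * Q} : ℝ) := by
    intro k _
    have := card_filter_add_card_filter_not (s := range Q) (fun d => k * Q ≤ a + j * d)
    simp only [not_le, card_range] at this
    have h4 : (#{d ∈ range Q | k * Q ≤ a + j * d} : ℝ) +
      (#{d ∈ range Q | a + j * d < k * Q} : ℝ) = Q := by exact_mod_cast this
    linarith
  have hj' : (0 : ℝ) < j := by exact_mod_cast hj
  have h5 : ∑ k ∈ Ico 1 j, ((k * Q : ℝ) - a) / j = Q * (j - 1) / 2 - a * (j - 1) / j := by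
    have h6 : ∑ k ∈ Ico 1 j, (k : ℝ) = j * (j - 1) / 2 := by
      have h7 : ∀ n : ℕ, 1 ≤ n → ∑ k ∈ Ico 1 n, (k : ℝ) = n * (n - 1) / 2 := by
        intro n hn
        induction n, hn using Nat.le_induction with
        | base => simp
        | succ n hn ih => rw [sum_Ico_succ_top hn, ih]; push_cast; ring
      exact h7 j hj
    rw [← sum_div, sum_sub_distrib, ← sum_mul, h6]
    simp only [sum_const, Nat.card_Ico, nsmul_eq_mul]
    rw [Nat.cast_sub hj]
    field_simp
    push_cast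
    ring
  rw [h1]
  push_cast
  rw [sum_congr rfl h3, sum_sub_distrib]
  have hc : ∑ _k ∈ Ico 1 j, (Q : ℝ) = (j - 1) * Q := by
    simp only [sum_const, Nat.card_Ico, nsmul_eq_mul]
    rw [Nat.cast_sub hj]; push_cast; ring
  rw [hc]
  have hlow : ∑ k ∈ Ico 1 j, ((k * Q : ℝ) - a) / j ≤
      ∑ k ∈ Ico 1 j, (#{d ∈ range Q | a + j * d < k * Q} : ℝ) := by
    refine sum_le_sum fun k hk => ?_
    rw [mem_Ico] at hk
    exact (card_lt Q j a k hj ha hjQ hk.1 hk.2).1
  have hupp : ∑ k ∈ Ico 1 j, (#{d ∈ range Q | a + j * d < k * Q} : ℝ) ≤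
      ∑ k ∈ Ico 1 j, (((k * Q : ℝ) - a) / j + 1) := by
    refine sum_le_sum fun k hk => ?_
    rw [mem_Ico] at hk
    exact (card_lt Q j a k hj ha hjQ hk.1 hk.2).2
  rw [sum_add_distrib] at hupp
  have hone : ∑ _k ∈ Ico 1 j, (1 : ℝ) = j - 1 := by
    simp only [sum_const, Nat.card_Ico, nsmul_eq_mul]
    rw [Nat.cast_sub hj]; push_cast; ring
  rw [h5] at hlow hupp
  rw [hone] at hupp
  have haj : (a : ℝ) * (j - 1) / j = a - a / j := by field_simp
  have haj1 : (a : ℝ) / j ≤ 1 := by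
    rw [div_le_one hj']; exact_mod_cast ha.le
  have haj0 : (0 : ℝ) ≤ (a : ℝ) / j := by positivity
  constructor <;> nlinarith

/-- The number of `d < Q` with a carry in `(a + j d) + (a' + j' d)` modulo `Q`. -/
lemma carry_block (Q j j' a a' : ℕ) (hj : 0 < j) (hj' : 0 < j') (ha : a < j) (ha' : a' < j')
    (hQ : j + j' ≤ Q) :
    (Q : ℝ) / 2 - (j + j') ≤
      (#{d ∈ range Q | Q ≤ (a + j * d) % Q + (a' + j' * d) % Q} : ℝ) := by
  have hQ0 : 0 < Q := by omega
  have h1 : (∑ d ∈ range Q, ((a + a') + (j + j') * d) / Q : ℕ) =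
      (∑ d ∈ range Q, (a + j * d) / Q : ℕ) + (∑ d ∈ range Q, (a' + j' * d) / Q : ℕ) +
      #{d ∈ range Q | Q ≤ (a + j * d) % Q + (a' + j' * d) % Q} := by
    rw [card_filter, ← sum_add_distrib, ← sum_add_distrib]
    refine sum_congr rfl fun d _ => ?_
    have : (a + a') + (j + j') * d = (a + j * d) + (a' + j' * d) := by ring
    rw [this, Nat.add_div hQ0]
  have h2 := sum_floor Q (j + j') (a + a') (by omega) (by omega) hQ
  have h3 := sum_floor Q j a hj ha (by omega)
  have h4 := sum_floor Q j' a' hj' ha' (by omega)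
  have h5 : ((∑ d ∈ range Q, ((a + a') + (j + j') * d) / Q : ℕ) : ℝ) =
      ((∑ d ∈ range Q, (a + j * d) / Q : ℕ) : ℝ) + ((∑ d ∈ range Q, (a' + j' * d) / Q : ℕ) : ℝ) +
      (#{d ∈ range Q | Q ≤ (a + j * d) % Q + (a' + j' * d) % Q} : ℝ) := by
    exact_mod_cast h1
  have h6 := h2.1
  have h7 := h3.2
  have h8 := h4.2
  rw [Nat.cast_add j j', Nat.cast_add a a'] at h6
  nlinarith

/-- the number of carries between blocks -/
def cc (Q j j' T u : ℕ) : ℕ :=
  #{t ∈ range T | Q ^ (t + 1) ≤ (j * u) % Q ^ (t + 1) + (j' * u) % Q ^ (t + 1)}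

lemma cc_zero (Q j j' u : ℕ) : cc Q j j' 0 u = 0 := by simp [cc]

lemma cc_succ (Q j j' T u : ℕ) : cc Q j j' (T + 1) u = cc Q j j' T u +
    if Q ^ (T + 1) ≤ (j * u) % Q ^ (T + 1) + (j' * u) % Q ^ (T + 1) then 1 else 0 := by
  simp only [cc, card_filter, sum_range_succ]

lemma mul_mod_pow (Q j t T u d : ℕ) (h : t ≤ T) :
    (j * (Q ^ T * d + u)) % Q ^ t = (j * u) % Q ^ t := by
  obtain ⟨s, rfl⟩ := Nat.exists_eq_add_of_le h
  have : j * (Q ^ (t + s) * d + u) = j * u + Q ^ t * (j * (Q ^ s * d)) := by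
    rw [pow_add]; ring
  rw [this, Nat.add_mul_mod_self_left]

lemma cc_add (Q j j' T u d : ℕ) : cc Q j j' T (Q ^ T * d + u) = cc Q j j' T u := by
  unfold cc
  congr 1
  apply filter_congr
  intro t ht
  rw [mem_range] at ht
  rw [mul_mod_pow _ _ _ _ _ _ (by omega), mul_mod_pow _ _ _ _ _ _ (by omega)]

lemma mod_top (Q j T u d : ℕ) :
    (j * (Q ^ T * d + u)) % Q ^ (T + 1) =
      (j * u) % Q ^ T + Q ^ T * (((j * u) / Q ^ T + j * d) % Q) := by
  rcases Nat.eq_zero_or_pos (Q ^ T) with h0 | h0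
  · have hQ : Q = 0 := by
      rcases Nat.eq_zero_or_pos Q with h | h
      · exact h
      · exact absurd h0 (by positivity)
    subst hQ
    have hT : T ≠ 0 := by rintro rfl; simp at h0
    simp [hT]
  · rw [pow_succ, Nat.mod_mul]
    have h1 : j * (Q ^ T * d + u) = j * u + Q ^ T * (j * d) := by ring
    rw [h1, Nat.add_mul_mod_self_left, Nat.add_mul_div_left _ _ h0]

/-- Weighted count of the `u < Q^T`. -/
lemma weight (Q j j' : ℕ) (hj : 0 < j) (hj' : 0 < j') (hQ : 8 * (j + j') ≤ Q) (T : ℕ) :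
    ∑ u ∈ range (Q ^ T), ((1 : ℝ) / 2) ^ cc Q j j' T u ≤ (13 / 16 * Q) ^ T := by
  have hQ0 : 0 < Q := by omega
  induction T with
  | zero => simp [cc_zero]
  | succ T ih =>
    have h1 : ∀ D : ℕ, ∑ u ∈ range (Q ^ T * D), ((1 : ℝ) / 2) ^ cc Q j j' (T + 1) u =
        ∑ u ∈ range (Q ^ T), ∑ d ∈ range D,
          ((1 : ℝ) / 2) ^ cc Q j j' (T + 1) (Q ^ T * d + u) := by
      intro D
      induction D with
      | zero => simp
      | succ D ihD =>
        rw [Nat.mul_succ, sum_range_add, ihD, ← sum_add_distrib]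
        exact sum_congr rfl fun u _ => (sum_range_succ _ _).symm
    have h2 : ∀ u ∈ range (Q ^ T), ∑ d ∈ range Q,
          ((1 : ℝ) / 2) ^ cc Q j j' (T + 1) (Q ^ T * d + u) ≤
        (13 / 16 * Q) * ((1 : ℝ) / 2) ^ cc Q j j' T u := by
      intro u hu
      rw [mem_range] at hu
      have hQT : 0 < Q ^ T := by positivity
      have ha : (j * u) / Q ^ T < j := by
        rw [Nat.div_lt_iff_lt_mul hQT]; exact Nat.mul_lt_mul_of_pos_left hu hj
      have ha' : (j' * u) / Q ^ T < j' := by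
        rw [Nat.div_lt_iff_lt_mul hQT]; exact Nat.mul_lt_mul_of_pos_left hu hj'
      have hb := carry_block Q j j' _ _ hj hj' ha ha' (by omega)
      have h3 : ∀ d ∈ range Q, ((1 : ℝ) / 2) ^ cc Q j j' (T + 1) (Q ^ T * d + u) ≤
          ((1 : ℝ) / 2) ^ cc Q j j' T u * (1 - (1 / 2) *
            (if Q ≤ ((j * u) / Q ^ T + j * d) % Q + ((j' * u) / Q ^ T + j' * d) % Q
              then 1 else 0)) := by
        intro d _
        rw [cc_succ, cc_add, pow_add]
        apply mul_le_mul_of_nonneg_left _ (by positivity)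
        split_ifs with h4 h5 h5
        · norm_num
        · norm_num
        · exfalso
          apply h4
          rw [mod_top, mod_top]
          have : Q ^ T * Q ≤ Q ^ T * (((j * u) / Q ^ T + j * d) % Q +
            ((j' * u) / Q ^ T + j' * d) % Q) := Nat.mul_le_mul_left _ h5
          rw [pow_succ]
          rw [Nat.mul_add] at this
          linarith [Nat.zero_le ((j * u) % Q ^ T), Nat.zero_le ((j' * u) % Q ^ T)]
        · norm_num
      refine (sum_le_sum h3).trans ?_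
      rw [← mul_sum, mul_comm (13 / 16 * (Q : ℝ))]
      apply mul_le_mul_of_nonneg_left _ (by positivity)
      rw [sum_sub_distrib, ← mul_sum]
      have h6 : ∑ d ∈ range Q, (if Q ≤ ((j * u) / Q ^ T + j * d) % Q +
          ((j' * u) / Q ^ T + j' * d) % Q then (1 : ℝ) else 0) =
          (#{d ∈ range Q | Q ≤ ((j * u) / Q ^ T + j * d) % Q +
            ((j' * u) / Q ^ T + j' * d) % Q} : ℝ) := by
        rw [card_filter]; push_cast; rfl
      rw [h6]
      simp only [sum_const, card_range, nsmul_eq_mul, mul_one]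
      have h7 : (8 : ℝ) * (j + j') ≤ Q := by exact_mod_cast hQ
      linarith
    rw [pow_succ, h1 Q, pow_succ]
    refine (sum_le_sum h2).trans ?_
    rw [← mul_sum, mul_comm]
    exact mul_le_mul_of_nonneg_right ih (by positivity)

/-- Few `u < Q^T` have fewer than `a` carries. -/
lemma few_carries (Q j j' : ℕ) (hj : 0 < j) (hj' : 0 < j') (hQ : 8 * (j + j') ≤ Q) (T a : ℕ) :
    (#{u ∈ range (Q ^ T) | cc Q j j' T u < a} : ℝ) ≤ 2 ^ a * (13 / 16 * Q) ^ T := by
  have h1 := weight Q j j' hj hj' hQ T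
  have h2 : (#{u ∈ range (Q ^ T) | cc Q j j' T u < a} : ℝ) * (1 / 2) ^ a ≤
      ∑ u ∈ range (Q ^ T), ((1 : ℝ) / 2) ^ cc Q j j' T u := by
    calc (#{u ∈ range (Q ^ T) | cc Q j j' T u < a} : ℝ) * (1 / 2) ^ a
        = ∑ u ∈ range (Q ^ T) with cc Q j j' T u < a, (1 / 2 : ℝ) ^ a := by
          simp [sum_const]
      _ ≤ ∑ u ∈ range (Q ^ T) with cc Q j j' T u < a, ((1 : ℝ) / 2) ^ cc Q j j' T u := by
          refine sum_le_sum fun u hu => ?_
          rw [mem_filter] at hu
          exact pow_le_pow_of_le_one (by norm_num) (by norm_num) hu.2.le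
      _ ≤ _ := sum_le_sum_of_subset_of_nonneg (filter_subset _ _) fun _ _ _ => by positivity
  have h3 : (2 : ℝ) ^ a * (1 / 2) ^ a = 1 := by rw [← mul_pow]; norm_num
  calc (#{u ∈ range (Q ^ T) | cc Q j j' T u < a} : ℝ)
      = 2 ^ a * ((#{u ∈ range (Q ^ T) | cc Q j j' T u < a} : ℝ) * (1 / 2) ^ a) := by
        rw [mul_comm _ ((1 / 2 : ℝ) ^ a), ← mul_assoc, h3, one_mul]
    _ ≤ 2 ^ a * (13 / 16 * Q) ^ T := by
        apply mul_le_mul_of_nonneg_left (h2.trans h1) (by positivity)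

/-- Kummer: the block carries are carries. -/
lemma cc_le_factorization (q l j j' T u : ℕ) (hq : q.Prime) (hl : 0 < l) :
    cc (q ^ l) j j' T u ≤ (((j + j') * u).choose (j * u)).factorization q := by
  have h1 : (j + j') * u = j' * u + j * u := by ring
  rw [h1]
  set b := Nat.log q (j' * u + j * u) + l * T + 2 with hb
  rw [Nat.factorization_choose' (b := b) hq (by omega)]
  unfold cc
  refine card_le_card_of_injOn (fun t => l * (t + 1)) ?_ ?_
  · intro t ht
    simp only [coe_filter, mem_range, Set.mem_ofPred_eq] at ht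
    simp only [coe_filter, mem_Ico, Set.mem_ofPred_eq]
    have h2 : l * (t + 1) ≤ l * T := Nat.mul_le_mul_left l ht.1
    refine ⟨⟨Nat.mul_pos hl (by omega), by omega⟩, ?_⟩
    rw [pow_mul]
    exact ht.2
  · intro s _ t _ hst
    simp only at hst
    have := Nat.eq_of_mul_eq_mul_left hl hst
    omega

end ESGcd
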