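import Pool.Agent.ESGcd.Defs

/-!
# The criterion for `n = m P` with `P` prime and `m < P`
-/

namespace ESGcd

open Finset

lemma maxPrime_mul {m P : ℕ} (hm : 1 ≤ m) (hP : P.Prime) (hmP : m < P) :
    maxPrime (m * P) = P := by
  apply le_antisymm
  · refine Finset.sup_le fun q hq => ?_
    have hq' := Nat.prime_of_mem_primeFactors hq
    have hqd := Nat.dvd_of_mem_primeFactors hq
    rcases (Nat.Prime.dvd_mul hq').1 hqd with h | h
    · exact (Nat.le_of_dvd (by omega) h).trans hmP.le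
    · exact Nat.le_of_dvd hP.pos h
  · have : P ∈ (m * P).primeFactors := by
      rw [Nat.mem_primeFactors]
      exact ⟨hP, Dvd.intro_left _ rfl, by have := hP.pos; positivity⟩
    exact Finset.le_sup (f := id) this

lemma not_dvd_choose {m P j : ℕ} (hP : P.Prime) (hmP : m < P) (hj : j ≤ m) :
    ¬ P ∣ (m * P).choose (j * P) := by
  have := Fact.mk hP
  have h := Choose.choose_modEq_choose_mod_mul_choose_div_nat (n := m * P) (k := j * P) (p := P)
  rw [Nat.mul_mod_left, Nat.mul_mod_left, Nat.mul_div_cancel _ hP.pos,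
    Nat.mul_div_cancel _ hP.pos, Nat.choose_self, one_mul] at h
  intro hd
  have h1 : P ∣ m.choose j := (Nat.ModEq.dvd_iff h dvd_rfl).1 hd
  have h2 := (Nat.choose_pos hj)
  have h3 : (m.choose j).factorization P = 0 := Nat.factorization_choose_eq_zero_of_lt hmP
  have h4 := hP.factorization_pos_of_dvd h2.ne' h1
  omega

lemma gcd_choose {m P j : ℕ} (hP : P.Prime) (hmP : m < P) (hj : j ≤ m) :
    Nat.gcd (m * P) ((m * P).choose (j * P)) = Nat.gcd m ((m * P).choose (j * P)) := by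
  apply Nat.Coprime.gcd_mul_right_cancel
  exact (Nat.Prime.coprime_iff_not_dvd hP).2 (not_dvd_choose hP hmP hj)

/-- `n / gcd (n, k)` divides `C(n, k)`. -/
lemma div_gcd_dvd {n k : ℕ} (hk : 0 < k) : n / Nat.gcd n k ∣ n.choose k := by
  have hg : 0 < Nat.gcd n k := Nat.gcd_pos_of_pos_right _ hk
  have h0 : n ∣ n.choose k * k := by
    rcases Nat.eq_zero_or_pos n with hn | hn
    · subst hn; rw [Nat.choose_eq_zero_of_lt hk]; simp
    · obtain ⟨n', rfl⟩ : ∃ n', n = n' + 1 := ⟨n - 1, by omega⟩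
      obtain ⟨k', rfl⟩ : ∃ k', k = k' + 1 := ⟨k - 1, by omega⟩
      exact ⟨n'.choose k', (Nat.add_one_mul_choose_eq n' k').symm⟩
  have h1 : (n / Nat.gcd n k) * Nat.gcd n k ∣ (n.choose k * (k / Nat.gcd n k)) * Nat.gcd n k := by
    rw [Nat.div_mul_cancel (Nat.gcd_dvd_left n k), mul_assoc,
      Nat.div_mul_cancel (Nat.gcd_dvd_right n k)]
    exact h0
  have h2 := Nat.dvd_of_mul_dvd_mul_right hg h1
  exact (Nat.coprime_div_gcd_div_gcd hg).dvd_of_dvd_mul_right h2

lemma f_le {n k : ℕ} (h1 : 1 < k) (h2 : 2 * k ≤ n) : f n ≤ Nat.gcd n (n.choose k) :=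
  Nat.sInf_le ⟨k, h1, h2, rfl⟩

lemma le_f {n g : ℕ} (hn : 4 ≤ n)
    (h : ∀ k, 1 < k → 2 * k ≤ n → g ≤ Nat.gcd n (n.choose k)) : g ≤ f n := by
  have hne : {g | ∃ k, 1 < k ∧ 2 * k ≤ n ∧ g = Nat.gcd n (n.choose k)}.Nonempty :=
    ⟨_, 2, by omega, by omega, rfl⟩
  obtain ⟨k, hk1, hk2, hk3⟩ := Nat.sInf_mem hne
  unfold f
  rw [hk3]
  exact h k hk1 hk2

/-- **Criterion.** For a prime `P > m ≥ 2`: `f (m P) = m` iff `m ∣ C(m P, j P)` for `0 < j < m`. -/
theorem f_eq_iff {m P : ℕ} (hm : 2 ≤ m) (hP : P.Prime) (hmP : m < P) :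
    f (m * P) = m ↔ ∀ j, 0 < j → j < m → m ∣ (m * P).choose (j * P) := by
  have hP3 : 3 ≤ P := by omega
  have hn4 : 4 ≤ m * P := by nlinarith
  constructor
  · intro hf
    -- first the case `2 j ≤ m`
    have key : ∀ j, 0 < j → 2 * j ≤ m → m ∣ (m * P).choose (j * P) := by
      intro j hj0 hjm
      have h1 : f (m * P) ≤ Nat.gcd (m * P) ((m * P).choose (j * P)) :=
        f_le (by nlinarith) (by nlinarith)
      rw [hf, gcd_choose hP hmP (by omega)] at h1
      have h2 : Nat.gcd m ((m * P).choose (j * P)) ∣ m := Nat.gcd_dvd_left _ _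
      have h3 : Nat.gcd m ((m * P).choose (j * P)) = m :=
        le_antisymm (Nat.le_of_dvd (by omega) h2) h1
      exact Nat.gcd_eq_left_iff_dvd.1 h3
    intro j hj0 hjm
    rcases le_or_gt (2 * j) m with h | h
    · exact key j hj0 h
    · have h1 := key (m - j) (by omega) (by omega)
      have h2 : (m - j) * P = m * P - j * P := Nat.sub_mul _ _ _
      rw [h2, Nat.choose_symm (Nat.mul_le_mul_right P hjm.le)] at h1
      exact h1
  · intro h
    apply le_antisymm
    · have h1 : f (m * P) ≤ Nat.gcd (m * P) ((m * P).choose (1 * P)) :=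
        f_le (by omega) (by nlinarith)
      rw [gcd_choose hP hmP (by omega)] at h1
      exact h1.trans (Nat.le_of_dvd (by omega) (Nat.gcd_dvd_left _ _))
    · apply le_f hn4
      intro k hk1 hk2
      by_cases hPk : P ∣ k
      · obtain ⟨j, rfl⟩ := hPk
        have hj0 : 0 < j := by
          rcases Nat.eq_zero_or_pos j with h0 | h0
          · subst h0; omega
          · exact h0
        have hjm : j < m := by
          have : P * (2 * j) ≤ P * m := by nlinarith
          have := Nat.le_of_mul_le_mul_left this hP.pos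
          omega
        rw [mul_comm P j, gcd_choose hP hmP hjm.le, Nat.gcd_eq_left (h j hj0 hjm)]
      · have h1 : Nat.gcd (m * P) k = Nat.gcd m k :=
          Nat.Coprime.gcd_mul_right_cancel _ ((Nat.Prime.coprime_iff_not_dvd hP).2 hPk)
        have h2 : Nat.gcd m k ≤ m := Nat.le_of_dvd (by omega) (Nat.gcd_dvd_left _ _)
        have hg0 : 0 < Nat.gcd m k := Nat.gcd_pos_of_pos_left _ (by omega)
        have h3 : (m * P) / Nat.gcd (m * P) k ∣ Nat.gcd (m * P) ((m * P).choose k) :=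
          Nat.dvd_gcd (Nat.div_dvd_of_dvd (Nat.gcd_dvd_left _ _)) (div_gcd_dvd (by omega))
        have h4 := Nat.le_of_dvd (Nat.gcd_pos_of_pos_left _ (by omega)) h3
        refine le_trans ?_ h4
        rw [h1, Nat.le_div_iff_mul_le hg0]
        calc m * Nat.gcd m k ≤ m * m := Nat.mul_le_mul_left _ h2
          _ ≤ m * P := Nat.mul_le_mul_left _ hmP.le

/-- For a prime `P > m ≥ 2`, `n = m P` is a solution iff `m ∣ C(m P, j P)` for `0 < j < m`. -/
theorem isSolution_iff {m P : ℕ} (hm : 2 ≤ m) (hP : P.Prime) (hmP : m < P) :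
    IsSolution (m * P) ↔ ∀ j, 0 < j → j < m → m ∣ (m * P).choose (j * P) := by
  rw [← f_eq_iff hm hP hmP]
  unfold IsSolution
  rw [maxPrime_mul (by omega) hP hmP, Nat.mul_div_cancel _ hP.pos]
  constructor
  · exact fun h => h.2.2
  · refine fun h => ⟨by nlinarith, ?_, h⟩
    exact Nat.not_prime_mul (by omega) hP.one_lt.ne'

end ESGcd
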