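import Pool.Agent.ESGcd.Typical

/-!
# The good integers, and the final count
-/

namespace ESGcd

open Finset Real Filter Pool.Agent.CoprimeSieve

/-- primes of `(z^{1/2^j}, z]`. -/
noncomputable def win (z : ℝ) (j : ℕ) : Finset ℕ :=
  (pr z).filter (fun p : ℕ => z ^ ((1 : ℝ) / 2 ^ j) < (p : ℝ))

lemma win_prime {z : ℝ} {j p : ℕ} (h : p ∈ win z j) : p.Prime := by
  rw [win, mem_filter, mem_pr] at h; exact h.1.1

/-- membership in the window for `z = x^{1/B}`. -/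
lemma win_pow {x B j p : ℕ} (hB : 0 < B) (h : p ∈ win ((x : ℝ) ^ ((1 : ℝ) / B)) j) :
    p ^ B ≤ x ∧ x < p ^ (B * 2 ^ j) := by
  rw [win, mem_filter, mem_pr] at h
  obtain ⟨⟨-, h1⟩, h2⟩ := h
  have hB' : (0 : ℝ) < B := by exact_mod_cast hB
  have hx0 : (0 : ℝ) ≤ x := by positivity
  constructor
  · have e1 : (p : ℝ) ^ B ≤ ((x : ℝ) ^ ((1 : ℝ) / B)) ^ B := by gcongr
    rw [← rpow_natCast ((x : ℝ) ^ ((1 : ℝ) / B)) B, ← rpow_mul hx0, one_div_mul_cancel hB'.ne',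
      rpow_one] at e1
    exact_mod_cast e1
  · have e1 : (((x : ℝ) ^ ((1 : ℝ) / B)) ^ ((1 : ℝ) / 2 ^ j)) ^ (B * 2 ^ j) < (p : ℝ) ^ (B * 2 ^ j) := by
      apply pow_lt_pow_left₀ h2 (by positivity) (by positivity)
    rw [← rpow_natCast _ (B * 2 ^ j), ← rpow_mul (by positivity), ← rpow_mul hx0] at e1
    have e2 : (1 : ℝ) / B * ((1 : ℝ) / 2 ^ j * ((B * 2 ^ j : ℕ) : ℝ)) = 1 := by
      push_cast; field_simp
    rw [e2, rpow_one] at e1
    exact_mod_cast e1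

lemma maxPrime_spec {n : ℕ} (hn : 2 ≤ n) : (maxPrime n).Prime ∧ maxPrime n ∣ n := by
  have hne : n.primeFactors.Nonempty := by
    rw [Nat.nonempty_primeFactors]; omega
  obtain ⟨p, hp, hp2⟩ := exists_mem_eq_sup n.primeFactors hne (id : ℕ → ℕ)
  have : maxPrime n = p := hp2
  rw [this]
  exact ⟨Nat.prime_of_mem_primeFactors hp, Nat.dvd_of_mem_primeFactors hp⟩

lemma le_maxPrime {n p : ℕ} (hn : n ≠ 0) (hp : p.Prime) (hd : p ∣ n) : p ≤ maxPrime n :=
  Finset.le_sup (f := (id : ℕ → ℕ)) (Nat.mem_primeFactors.2 ⟨hp, hd, hn⟩)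

/-- **Integers outside the exceptional sets.** -/
lemma good_n {x j u n : ℕ} (hn : n ∈ Icc 1 x)
    (hbig : (5 * (u ^ 3) ^ 4) ^ ((2 ^ (2 * j + 5) + 1) * 2 ^ (2 * j + 5)) ≤ x)
    (hu : Nat.log 2 x < u)
    (h1 : ∃ l ∈ win ((x : ℝ) ^ ((1 : ℝ) / (2 ^ (j + 5) : ℕ))) j, l ∣ n)
    (h2 : ∃ p ∈ win ((x : ℝ) ^ ((1 : ℝ) / (4 : ℕ))) j, p ∣ n)
    (h3 : n ∉ Z3 x (2 ^ (j + 2))) (h4 : n ∉ Z4 x (2 ^ (2 * j + 5)) (u ^ 3) u) :
    (f n : ℝ) * maxPrime n ≤ (n : ℝ) ^ (1 - 1 / (2 ^ (2 * j + 5) : ℝ)) := by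
  classical
  obtain ⟨l, hl, hln⟩ := h1
  obtain ⟨p, hp, hpn⟩ := h2
  rw [mem_Icc] at hn
  obtain ⟨hn1, hnx⟩ := hn
  have hlp := win_prime hl
  have hpp := win_prime hp
  obtain ⟨hl1, hl2⟩ := win_pow (by positivity) hl
  obtain ⟨-, hp2⟩ := win_pow (by norm_num) hp
  set C := 2 ^ (j + 2) with hC
  set B := 2 ^ (j + 5) with hB
  set A := 2 ^ (2 * j + 5) with hA
  have eA : B * 2 ^ j = A := by rw [hB, hA, ← pow_add]; congr 1; ring
  have eB : B = 8 * C := by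
    rw [hB, hC]
    have : j + 5 = (j + 2) + 3 := by ring
    rw [this, pow_add]; ring
  have eC : 4 * 2 ^ j = C := by rw [hC, pow_add]; ring
  rw [eA] at hl2
  rw [eC] at hp2
  have hC0 : C ≠ 0 := by positivity
  have hl2' := hlp.two_le
  have hn2 : 2 ≤ n := hlp.two_le.trans (Nat.le_of_dvd (by omega) hln)
  obtain ⟨hP, hPn⟩ := maxPrime_spec hn2
  set P := maxPrime n with hPdef
  have hpP : p ≤ P := le_maxPrime (by omega) hpp hpn
  have hPC : x < P ^ C := hp2.trans_le (Nat.pow_le_pow_left hpP C)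
  -- `l ^ 8 < P`
  have hl8 : l ^ 8 < P := by
    have e1 : (l ^ 8) ^ C < P ^ C := by
      rw [← pow_mul, ← eB]; exact hl1.trans_lt hPC
    exact lt_of_pow_lt_pow_left₀ C (by positivity) e1
  have hlP : l < P := lt_of_le_of_lt (Nat.le_self_pow (by norm_num) l) hl8
  obtain ⟨m, hm⟩ := hPn
  have hmC : x < m ^ C := by
    by_contra hc
    push Not at hc
    apply h3
    simp only [Z3, mem_filter, mem_Icc]
    exact ⟨⟨hn1, hnx⟩, P, m, hP, hm, hc⟩
  have hm8 : l ^ 8 < m := by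
    have e1 : (l ^ 8) ^ C < m ^ C := by
      rw [← pow_mul, ← eB]; exact hl1.trans_lt hmC
    exact lt_of_pow_lt_pow_left₀ C (by positivity) e1
  have hlm : l ∣ m := by
    rw [hm] at hln
    rcases (Nat.Prime.dvd_mul hlp).1 hln with h | h
    · exact absurd ((Nat.prime_dvd_prime_iff_eq hlp hP).1 h) hlP.ne
    · exact h
  obtain ⟨s, hs⟩ := hlm
  have hs7 : l ^ 7 < s := by
    have : l * l ^ 7 < l * s := by
      rw [← hs]; calc l * l ^ 7 = l ^ 8 := by ring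
        _ < m := hm8
    exact Nat.lt_of_mul_lt_mul_left this
  have hns : n = P * l * s := by rw [hm, hs]; ring
  -- dyadic interval
  set κ := Nat.log 2 (P - 1) with hκ
  have hP2 := hP.two_le
  have hκ1 : 2 ^ κ ≤ P - 1 := Nat.pow_log_le_self 2 (by omega)
  have hκ2 : P - 1 < 2 ^ (κ + 1) := Nat.lt_pow_succ_log_self (by norm_num) _
  have hPn' : P ≤ n := Nat.le_of_dvd (by omega) ⟨m, hm⟩
  have hκu : κ < u := by
    refine lt_of_le_of_lt ?_ hu
    exact Nat.log_mono_right (by omega)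
  have hκ3 : P ≤ 2 * 2 ^ κ := by rw [pow_succ] at hκ2; omega
  have hu1 : 1 ≤ u := by omega
  set L := u ^ 3 with hL
  have hL1 : 1 ≤ L := Nat.one_le_iff_ne_zero.2 (by positivity)
  have hbl : (5 * L ^ 4) ^ (A + 1) ≤ l := by
    by_contra hc
    push Not at hc
    have e1 : l ^ A < ((5 * L ^ 4) ^ (A + 1)) ^ A := Nat.pow_lt_pow_left hc (by positivity)
    rw [← pow_mul] at e1
    exact absurd (e1.trans_le hbig) (by omega)
  have h2L : 2 * L ≤ l := by
    refine le_trans ?_ hbl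
    calc 2 * L ≤ 5 * L ^ 4 := by
          have : L ≤ L ^ 4 := Nat.le_self_pow (by norm_num) L
          linarith
      _ = (5 * L ^ 4) ^ 1 := (pow_one _).symm
      _ ≤ (5 * L ^ 4) ^ (A + 1) := Nat.pow_le_pow_right (by positivity) (by omega)
  have hpar : Par x A L l (2 ^ κ) := by
    refine ⟨hlp, hl2, by omega, hL1, hbl, ?_, ?_⟩
    · have e1 : 2 * (l ^ 4 * L) ≤ l ^ 8 := by
        calc 2 * (l ^ 4 * L) = l ^ 4 * (2 * L) := by ring
          _ ≤ l ^ 4 * l := Nat.mul_le_mul_left _ h2L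
          _ = l ^ 5 := by ring
          _ ≤ l ^ 8 := Nat.pow_le_pow_right hlp.pos (by norm_num)
      omega
    · have e1 : s ≤ x / (2 ^ κ * l) := by
        rw [Nat.le_div_iff_mul_le (Nat.mul_pos (by positivity) hlp.pos)]
        calc s * (2 ^ κ * l) ≤ s * (P * l) := by gcongr; omega
          _ = n := by rw [hns]; ring
          _ ≤ x := hnx
      refine le_trans ?_ e1
      calc 4 * l ^ 3 * L = 2 * l ^ 3 * (2 * L) := by ring
        _ ≤ l * l ^ 3 * l := by gcongr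
        _ = l ^ 5 := by ring
        _ ≤ l ^ 7 := Nat.pow_le_pow_right hlp.pos (by norm_num)
        _ ≤ s := hs7.le
  have hfs : f n ≤ s := by
    by_contra hc
    push Not at hc
    apply h4
    simp only [Z4, mem_biUnion]
    refine ⟨l, ?_, κ, mem_range.2 hκu, ?_⟩
    · rw [mem_Icc]; exact ⟨hlp.pos, (Nat.le_of_dvd (by omega) hln).trans hnx⟩
    · rw [if_pos hpar]
      simp only [failSet, mem_biUnion, mem_filter, mem_Ioc, mem_image, mem_Icc]
      refine ⟨P, ⟨⟨by omega, hκ3⟩, hP⟩, s, ⟨⟨by omega, ?_⟩, ?_⟩, hns.symm⟩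
      · rw [Nat.le_div_iff_mul_le (Nat.mul_pos hP.pos hlp.pos)]
        calc s * (P * l) = n := by rw [hns]; ring
          _ ≤ x := hnx
      · rw [← hns]; exact hc
  -- conclusion
  have hnr : (0 : ℝ) < n := by exact_mod_cast (by omega : 0 < n)
  have hlr : (0 : ℝ) < l := by exact_mod_cast hlp.pos
  have hAr : (0 : ℝ) < (2 ^ (2 * j + 5) : ℝ) := by positivity
  have e1 : (n : ℝ) ^ (1 / (2 ^ (2 * j + 5) : ℝ)) ≤ l := by
    have e2 : ((l : ℝ) ^ A) ^ (1 / (2 ^ (2 * j + 5) : ℝ)) = l := by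
      rw [← rpow_natCast, ← rpow_mul hlr.le, hA]
      push_cast
      rw [mul_one_div_cancel hAr.ne', rpow_one]
    rw [← e2]
    apply rpow_le_rpow hnr.le _ (by positivity)
    exact_mod_cast (hnx.trans_lt hl2).le
  rw [rpow_sub hnr, rpow_one, le_div_iff₀ (by positivity)]
  calc (f n : ℝ) * P * (n : ℝ) ^ (1 / (2 ^ (2 * j + 5) : ℝ)) ≤ s * P * l := by
        have : (f n : ℝ) ≤ s := by exact_mod_cast hfs
        gcongr
    _ = n := by rw [hns]; push_cast; ring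

/-- **For almost all `n`: `f(n) P(n) ≤ n^(1-c)`.** -/
theorem typical (η : ℝ) (hη : 0 < η) : ∃ c : ℝ, 0 < c ∧ ∀ᶠ x : ℕ in atTop,
    ({n : ℕ | 1 ≤ n ∧ n ≤ x ∧ (n : ℝ) ^ (1 - c) < f n * maxPrime n}.ncard : ℝ) ≤ η * x := by
  classical
  obtain ⟨j, hj⟩ := exists_nat_ge (62 / η + 1)
  have hj1 : (1 : ℝ) ≤ j := by
    have : 0 < 62 / η := by positivity
    linarith
  have hj0 : (0 : ℝ) < j := by linarith
  have hjη : 31 / (j : ℝ) ≤ η / 2 := by
    rw [div_le_div_iff₀ hj0 (by norm_num)]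
    have : 62 / η ≤ j := by linarith
    rw [div_le_iff₀ hη] at this
    linarith
  set A : ℕ := 2 ^ (2 * j + 5) with hA
  refine ⟨1 / (2 ^ (2 * j + 5) : ℝ), by positivity, ?_⟩
  obtain ⟨x0, hx01, hM⟩ := sum_inv_primes_lower j
  set K : ℝ := 3 ^ (A + 1) + 5 * A + 8 with hK
  have hK0 : 0 < K := by positivity
  -- eventual conditions
  have t1 : Tendsto (fun x : ℕ => (x : ℝ)) atTop atTop := tendsto_natCast_atTop_atTop
  have t2 : Tendsto (fun x : ℕ => ((x : ℝ) ^ ((1 : ℝ) / (2 ^ (j + 5) : ℕ)))) atTop atTop :=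
    (tendsto_rpow_atTop (by positivity)).comp t1
  have t3 : Tendsto (fun x : ℕ => ((x : ℝ) ^ ((1 : ℝ) / (4 : ℕ)))) atTop atTop :=
    (tendsto_rpow_atTop (by positivity)).comp t1
  have t4 : Tendsto (fun x : ℕ => Nat.log 2 x) atTop atTop := by
    apply tendsto_atTop_mono (f := fun x => Nat.log 2 x) (fun _ => le_rfl)
    rw [tendsto_atTop]
    intro b
    filter_upwards [eventually_ge_atTop (2 ^ b)] with x hx
    calc b = Nat.log 2 (2 ^ b) := (Nat.log_pow (by norm_num) b).symm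
      _ ≤ Nat.log 2 x := Nat.log_mono_right hx
  have t5 : Tendsto (fun x : ℕ => log (x : ℝ)) atTop atTop := tendsto_log_atTop.comp t1
  -- polynomial versus exponential
  have t6 : ∀ᶠ v : ℕ in atTop, (5 * ((v + 1) ^ 3) ^ 4) ^ ((A + 1) * A) ≤ 2 ^ v := by
    set D := (A + 1) * A with hD
    have e1 := tendsto_pow_const_div_const_pow_of_one_lt (12 * D) (show (1 : ℝ) < 2 by norm_num)
    have e2 : ∀ᶠ n : ℕ in atTop, (n : ℝ) ^ (12 * D) / 2 ^ n < 1 / (2 * 5 ^ D) :=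
      e1.eventually_lt_const (by positivity)
    have e3 := (tendsto_add_atTop_nat 1).eventually e2
    filter_upwards [e3] with v hv
    rw [div_lt_div_iff₀ (by positivity) (by positivity)] at hv
    have e4 : ((v + 1 : ℕ) : ℝ) ^ (12 * D) * (2 * 5 ^ D) < 1 * 2 ^ (v + 1) := hv
    have e5 : (5 * ((v + 1) ^ 3) ^ 4) ^ D = 5 ^ D * (v + 1) ^ (12 * D) := by
      rw [mul_pow, ← pow_mul, ← pow_mul]
      congr 2
      ring
    rw [e5]
    have e6 : (v + 1) ^ (12 * D) * (2 * 5 ^ D) < 1 * 2 ^ (v + 1) := by exact_mod_cast e4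
    rw [one_mul, pow_succ] at e6
    have e7 : (v + 1) ^ (12 * D) * (2 * 5 ^ D) = (5 ^ D * (v + 1) ^ (12 * D)) * 2 := by ring
    rw [e7] at e6
    exact (Nat.lt_of_mul_lt_mul_right e6).le
  have t7 : ∀ᶠ x : ℕ in atTop, log (x : ℝ) ≤ √(√x) := by
    have e1 := (isLittleO_log_rpow_atTop (show (0 : ℝ) < 1 / 4 by norm_num)).bound
      (show (0 : ℝ) < 1 by norm_num)
    filter_upwards [t1.eventually e1, eventually_ge_atTop 1] with x hx hx1
    have hx0 : (0 : ℝ) ≤ x := by positivity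
    rw [one_mul, norm_of_nonneg (log_natCast_nonneg x), norm_of_nonneg (by positivity)] at hx
    have e2 : √(√(x : ℝ)) = (x : ℝ) ^ ((1 : ℝ) / 4) := by
      rw [sqrt_eq_rpow, sqrt_eq_rpow, ← rpow_mul hx0]; norm_num
    rw [e2]; exact hx
  have t8 : ∀ᶠ x : ℕ in atTop, 7 / log (x : ℝ) ≤ η / 4 := by
    have := t5.eventually_ge_atTop (28 / η)
    filter_upwards [this, t5.eventually_gt_atTop 0] with x h1 h2
    rw [div_le_div_iff₀ h2 (by norm_num)]
    rw [div_le_iff₀ hη] at h1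
    linarith
  have t9 : ∀ᶠ x : ℕ in atTop, 8 * K / η ≤ (Nat.log 2 x : ℝ) :=
    (tendsto_natCast_atTop_atTop.comp t4).eventually_ge_atTop _
  filter_upwards [t2.eventually_ge_atTop x0, t3.eventually_ge_atTop x0, t4.eventually t6, t7, t8,
    t9, eventually_ge_atTop 16] with x h1 h2 h3 h4 h5 h6 h7
  have hx0 : (0 : ℝ) < x := by exact_mod_cast (by omega : 0 < x)
  set u := Nat.log 2 x + 1 with hu
  have hbig : (5 * (u ^ 3) ^ 4) ^ ((A + 1) * A) ≤ x := by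
    refine h3.trans ?_
    exact Nat.pow_log_le_self 2 (by omega)
  -- the two windows
  set W1 := win ((x : ℝ) ^ ((1 : ℝ) / (2 ^ (j + 5) : ℕ))) j with hW1
  set W2 := win ((x : ℝ) ^ ((1 : ℝ) / (4 : ℕ))) j with hW2
  have hwcard : ∀ z : ℝ, z ≤ x → #(win z j) ≤ x := by
    intro z hz
    have : win z j ⊆ Icc 1 x := by
      intro p hp
      have hpp := win_prime hp
      rw [win, mem_filter, mem_pr] at hp
      rw [mem_Icc]
      exact ⟨hpp.pos, by exact_mod_cast hp.1.2.trans hz⟩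
    simpa using card_le_card this
  have hz1 : (x : ℝ) ^ ((1 : ℝ) / (2 ^ (j + 5) : ℕ)) ≤ x := by
    calc (x : ℝ) ^ ((1 : ℝ) / (2 ^ (j + 5) : ℕ)) ≤ (x : ℝ) ^ (1 : ℝ) := by
          apply rpow_le_rpow_of_exponent_le (by exact_mod_cast (by omega : 1 ≤ x))
          rw [div_le_one (by positivity)]
          exact_mod_cast Nat.one_le_iff_ne_zero.2 (by positivity)
      _ = x := rpow_one _
  have hz2 : (x : ℝ) ^ ((1 : ℝ) / (4 : ℕ)) ≤ x := by
    calc (x : ℝ) ^ ((1 : ℝ) / (4 : ℕ)) ≤ (x : ℝ) ^ (1 : ℝ) := by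
          apply rpow_le_rpow_of_exponent_le (by exact_mod_cast (by omega : 1 ≤ x))
          norm_num
      _ = x := rpow_one _
  have c1 : (#{n ∈ Icc 1 x | ∀ p ∈ W1, ¬ p ∣ n} : ℝ) ≤ 12 * x / j := by
    have e := few_free W1 (fun p hp => win_prime hp) x (j / 4) (by positivity)
      (hM _ h1)
    refine e.trans ?_
    have e2 : (#W1 : ℝ) ≤ x := by exact_mod_cast hwcard _ hz1
    rw [div_div_eq_mul_div]
    apply div_le_div_of_nonneg_right _ hj0.le
    linarith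
  have c2 : (#{n ∈ Icc 1 x | ∀ p ∈ W2, ¬ p ∣ n} : ℝ) ≤ 12 * x / j := by
    have e := few_free W2 (fun p hp => win_prime hp) x (j / 4) (by positivity)
      (hM _ h2)
    refine e.trans ?_
    have e2 : (#W2 : ℝ) ≤ x := by exact_mod_cast hwcard _ hz2
    rw [div_div_eq_mul_div]
    apply div_le_div_of_nonneg_right _ hj0.le
    linarith
  have c3 : (#(Z3 x (2 ^ (j + 2))) : ℝ) ≤ 7 * x / j + η / 4 * x := by
    have e := card_Z3 x (2 ^ (j + 2)) (by
      calc 2 = 2 ^ 1 := by norm_num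
        _ ≤ 2 ^ (j + 2) := Nat.pow_le_pow_right (by norm_num) (by omega)) h7 h4
    refine e.trans ?_
    have e2 : (j : ℝ) ≤ ((2 ^ (j + 2) : ℕ) : ℝ) := by
      have : j < 2 ^ (j + 2) := lt_trans (Nat.lt_two_pow_self) (Nat.pow_lt_pow_right
        (by norm_num) (by omega))
      exact_mod_cast this.le
    have e3 : 7 * (x : ℝ) / ((2 ^ (j + 2) : ℕ) : ℝ) ≤ 7 * x / j := by gcongr
    have e4 : 7 * (x : ℝ) / log x = 7 / log x * x := by ring
    have e5 : 7 / log x * x ≤ η / 4 * x := by gcongr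
    linarith
  have c4 : (#(Z4 x A (u ^ 3) u) : ℝ) ≤ η / 4 * x := by
    have e := card_Z4 x A (u ^ 3) u (by omega)
    refine e.trans ?_
    have hu0 : (0 : ℝ) < u := by positivity
    have e1 : 1 + log (x : ℝ) ≤ 2 * u := by
      have e2 : x < 2 ^ u := Nat.lt_pow_succ_log_self (by norm_num) x
      have e3 : log (x : ℝ) ≤ u * log 2 := by
        rw [← log_pow]
        apply log_le_log hx0
        exact_mod_cast e2.le
      have e4 := log_two_lt_d9
      have e5 : (1 : ℝ) ≤ u := by exact_mod_cast (by omega : 1 ≤ u)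
      nlinarith
    have e6 : K * x / ((u ^ 3 : ℕ) : ℝ) * u * (1 + log x) ≤
        K * x / ((u ^ 3 : ℕ) : ℝ) * u * (2 * u) := by
      gcongr
    refine e6.trans ?_
    have e7 : K * x / ((u ^ 3 : ℕ) : ℝ) * u * (2 * u) = (2 * K / u) * x := by
      push_cast; field_simp
    rw [e7]
    apply mul_le_mul_of_nonneg_right _ hx0.le
    rw [div_le_div_iff₀ hu0 (by norm_num)]
    have e8 : 8 * K / η ≤ u := by
      refine h6.trans ?_
      exact_mod_cast (by omega : Nat.log 2 x ≤ u)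
    rw [div_le_iff₀ hη] at e8
    linarith
  -- the union
  have hsub : {n : ℕ | 1 ≤ n ∧ n ≤ x ∧
      (n : ℝ) ^ (1 - 1 / (2 ^ (2 * j + 5) : ℝ)) < f n * maxPrime n} ⊆
      ((({n ∈ Icc 1 x | ∀ p ∈ W1, ¬ p ∣ n} ∪ {n ∈ Icc 1 x | ∀ p ∈ W2, ¬ p ∣ n}) ∪
        Z3 x (2 ^ (j + 2))) ∪ Z4 x A (u ^ 3) u : Finset ℕ) := by
    rintro n ⟨hn1, hn2, hn3⟩
    by_contra hc
    rw [mem_coe, mem_union, mem_union, mem_union, mem_filter, mem_filter] at hc
    push Not at hc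
    obtain ⟨⟨⟨g1, g2⟩, g3⟩, g4⟩ := hc
    have hnI : n ∈ Icc 1 x := mem_Icc.2 ⟨hn1, hn2⟩
    have := good_n hnI hbig (by omega) (g1 hnI) (g2 hnI) g3 g4
    linarith
  have hcard := Set.ncard_le_ncard hsub (Finset.finite_toSet _)
  rw [Set.ncard_coe_finset] at hcard
  have hcard2 := hcard.trans ((card_union_le _ _).trans (Nat.add_le_add_right
    ((card_union_le _ _).trans (Nat.add_le_add_right (card_union_le _ _) _)) _))
  have hfin : ({n : ℕ | 1 ≤ n ∧ n ≤ x ∧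
      (n : ℝ) ^ (1 - 1 / (2 ^ (2 * j + 5) : ℝ)) < f n * maxPrime n}.ncard : ℝ) ≤
      (((#{n ∈ Icc 1 x | ∀ p ∈ W1, ¬ p ∣ n} : ℝ) + #{n ∈ Icc 1 x | ∀ p ∈ W2, ¬ p ∣ n}) +
        #(Z3 x (2 ^ (j + 2)))) + #(Z4 x A (u ^ 3) u) := by exact_mod_cast hcard2
  refine hfin.trans ?_
  have e1 : 12 * (x : ℝ) / j + 12 * x / j + 7 * x / j = 31 / j * x := by ring
  have e2 : 31 / (j : ℝ) * x ≤ η / 2 * x := by gcongr
  linarith

end ESGcd
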