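import Pool.Agent.ESGcd.Class

/-!
# The upper bound for the number of solutions
-/

namespace ESGcd

open Finset Real Filter

lemma card_prod_prime (x : ℕ) (hx1 : 16 ≤ x) (hx : log x ≤ √(√x)) (M Z : Finset ℕ)
    (hM : ∀ m ∈ M, 1 ≤ m ∧ m ^ 2 ≤ x)
    (hZ : ∀ n ∈ Z, n ≤ x ∧ ∃ P m : ℕ, P.Prime ∧ n = P * m ∧ m ∈ M) :
    (#Z : ℝ) ≤ 7 * x / log x * ∑ m ∈ M, (m : ℝ)⁻¹ := by
  classical
  have hsub : Z ⊆ M.biUnion fun m =>
      ({P ∈ Icc 1 (x / m) | P.Prime} : Finset ℕ).image fun P => P * m := by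
    intro n hn
    obtain ⟨hnx, P, m, hP, rfl, hm⟩ := hZ n hn
    rw [mem_biUnion]
    refine ⟨m, hm, ?_⟩
    rw [mem_image]
    refine ⟨P, ?_, rfl⟩
    rw [mem_filter, mem_Icc]
    exact ⟨⟨hP.pos, (Nat.le_div_iff_mul_le (hM m hm).1).2 hnx⟩, hP⟩
  have hpi : ∀ z : ℕ, #({P ∈ Icc 1 z | P.Prime} : Finset ℕ) = Nat.primeCounting z := by
    intro z
    rw [Nat.primeCounting, Nat.primeCounting', Nat.count_eq_card_filter_range]
    congr 1
    ext P
    simp only [mem_filter, mem_range, mem_Icc]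
    constructor
    · rintro ⟨h1, h2⟩; exact ⟨by omega, h2⟩
    · rintro ⟨h1, h2⟩; exact ⟨⟨h2.pos, by omega⟩, h2⟩
  have h1 : (#Z : ℝ) ≤ ∑ m ∈ M, (Nat.primeCounting (x / m) : ℝ) := by
    have e1 := (card_le_card hsub).trans (card_biUnion_le.trans
      (sum_le_sum fun m _ => card_image_le))
    have e2 : #Z ≤ ∑ m ∈ M, Nat.primeCounting (x / m) := by
      refine e1.trans (le_of_eq (sum_congr rfl fun m _ => hpi _))
    exact_mod_cast e2
  refine h1.trans ?_
  rw [mul_sum]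
  refine sum_le_sum fun m hm => ?_
  refine (pi_upper x m (hM m hm).1 (hM m hm).2 hx1 hx).trans (le_of_eq ?_)
  field_simp

/-- **Upper bound for the number of solutions.** -/
theorem count_upper : ∃ C : ℝ, 0 < C ∧ ∀ᶠ x : ℕ in atTop,
    ({n | n ≤ x ∧ IsSolution n}.ncard : ℝ) ≤ C * (x / √(log x)) := by
  classical
  obtain ⟨C, hC, hsv⟩ := sieve_bound
  refine ⟨7008 + 2280 * C, by positivity, ?_⟩
  have t1 : Tendsto (fun x : ℕ => (x : ℝ)) atTop atTop := tendsto_natCast_atTop_atTop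
  have t5 : Tendsto (fun x : ℕ => log (x : ℝ)) atTop atTop := tendsto_log_atTop.comp t1
  have t7 : ∀ᶠ x : ℕ in atTop, log (x : ℝ) ≤ √(√x) := by
    have e1 := (isLittleO_log_rpow_atTop (show (0 : ℝ) < 1 / 4 by norm_num)).bound
      (show (0 : ℝ) < 1 by norm_num)
    filter_upwards [t1.eventually e1, eventually_ge_atTop 1] with x hx hx1
    have hx0 : (0 : ℝ) ≤ x := by positivity
    rw [one_mul, norm_of_nonneg (log_natCast_nonneg x), norm_of_nonneg (by positivity)] at hx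
    have e2 : √(√(x : ℝ)) = (x : ℝ) ^ ((1 : ℝ) / 4) := by
      rw [sqrt_eq_rpow, sqrt_eq_rpow, ← rpow_mul hx0]; norm_num
    rw [e2]; exact hx
  -- `log log x` is small
  have t8 : ∀ᶠ y : ℝ in atTop, 90 * (8 * log y + 1) ^ 2 ≤ √y := by
    have e1 := (isLittleO_log_rpow_atTop (show (0 : ℝ) < 1 / 8 by norm_num)).bound
      (show (0 : ℝ) < 1 by norm_num)
    filter_upwards [e1, eventually_ge_atTop (7290 ^ 4 : ℝ)] with y hy hy1
    have hy0 : (1 : ℝ) ≤ y := by
      refine le_trans ?_ hy1; norm_num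
    have hl0 : 0 ≤ log y := log_nonneg hy0
    rw [one_mul, norm_of_nonneg hl0, norm_of_nonneg (by positivity)] at hy
    set v : ℝ := y ^ ((1 : ℝ) / 8) with hv
    have hv1 : 1 ≤ v := one_le_rpow hy0 (by norm_num)
    have e2 : √y = v ^ 2 * v ^ 2 := by
      rw [sqrt_eq_rpow, hv, ← rpow_natCast, ← rpow_mul (by linarith), ← rpow_add (by linarith)]
      norm_num
    have e3 : 7290 ≤ v ^ 2 := by
      rw [hv, ← rpow_natCast, ← rpow_mul (by linarith)]
      have : (7290 : ℝ) = ((7290 : ℝ) ^ 4) ^ ((1 : ℝ) / 4) := by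
        rw [← rpow_natCast, ← rpow_mul (by norm_num)]; norm_num
      rw [this]
      have e4 : (1 : ℝ) / 8 * ((2 : ℕ) : ℝ) = 1 / 4 := by norm_num
      rw [e4]
      exact rpow_le_rpow (by positivity) hy1 (by norm_num)
    have e5 : 8 * log y + 1 ≤ 9 * v := by linarith
    calc 90 * (8 * log y + 1) ^ 2 ≤ 90 * (9 * v) ^ 2 := by gcongr
      _ = 7290 * v ^ 2 := by ring
      _ ≤ v ^ 2 * v ^ 2 := by
          apply mul_le_mul_of_nonneg_right e3; positivity
      _ = √y := e2.symm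
  filter_upwards [t7, t5.eventually t8, t5.eventually_ge_atTop (4000000 ^ 2 : ℝ),
    eventually_ge_atTop 16] with x h1 h2 h3 h4
  have hx0 : (0 : ℝ) < x := by exact_mod_cast (by omega : 0 < x)
  set lam := log (x : ℝ) with hlam
  set s := √lam with hs
  have hlam1 : (4000000 : ℝ) ^ 2 ≤ lam := h3
  have hlam0 : 0 < lam := by
    refine lt_of_lt_of_le ?_ hlam1; norm_num
  have hs2 : s ^ 2 = lam := sq_sqrt hlam0.le
  have hs1 : (4000000 : ℝ) ≤ s := le_sqrt_of_sq_le hlam1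
  have hs0 : 0 < s := by linarith
  have hxexp : (x : ℝ) = exp (s ^ 2) := by rw [hs2, hlam, exp_log hx0]
  -- `b`
  set b : ℕ := ⌈8 * log lam⌉₊ with hb
  have hll : 1 ≤ log lam := by
    rw [le_log_iff_exp_le hlam0]
    have : exp 1 < 3 := exp_one_lt_three
    refine le_trans this.le (le_trans ?_ hlam1); norm_num
  have hb1 : 8 * log lam ≤ b := Nat.le_ceil _
  have hb2 : (b : ℝ) ≤ 8 * log lam + 1 := (Nat.ceil_lt_add_one (by positivity)).le
  have hb3 : 1 ≤ b := by
    have : (1 : ℝ) ≤ b := by linarith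
    exact_mod_cast this
  have hb4 : 90 * (b : ℝ) ^ 2 ≤ s := by
    refine le_trans ?_ h2
    have : (0 : ℝ) ≤ b := by positivity
    gcongr
  have h2b : lam ^ 5 ≤ 2 ^ b := by
    have e1 : lam ^ 5 = exp (5 * log lam) := by
      rw [mul_comm, exp_mul, exp_log hlam0]; norm_cast
    have e2 : (2 : ℝ) ^ b = exp (b * log 2) := by
      rw [mul_comm, exp_mul, exp_log (by norm_num)]; norm_cast
    rw [e1, e2]
    apply exp_le_exp.2
    have e3 := log_two_gt_d9
    have e4 : 8 * log lam * log 2 ≤ b * log 2 :=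
      mul_le_mul_of_nonneg_right hb1 (by linarith)
    nlinarith
  have hlam16 : (16 : ℝ) ≤ lam := le_trans (by norm_num) hlam1
  have hlam4 : (16 : ℝ) ^ 4 ≤ lam ^ 4 := pow_le_pow_left₀ (by norm_num) hlam16 4
  have h6 : 32 * (lam + 1) ≤ 2 ^ b := by
    refine le_trans ?_ h2b
    have : lam ^ 5 = lam ^ 4 * lam := by ring
    rw [this]
    nlinarith
  -- `u`
  set u : ℕ := Nat.log 2 x + 1 with hu
  have hu1 : (u : ℝ) ≤ 3 * lam := by
    have e1 : 2 ^ Nat.log 2 x ≤ x := Nat.pow_log_le_self 2 (by omega)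
    have e2 : ((2 ^ Nat.log 2 x : ℕ) : ℝ) ≤ x := by exact_mod_cast e1
    push_cast at e2
    have e3 := log_le_log (by positivity) e2
    rw [log_pow] at e3
    have e4 := log_two_gt_d9
    have e5 : (Nat.log 2 x : ℝ) * (1 / 2) ≤ (Nat.log 2 x : ℝ) * log 2 := by
      apply mul_le_mul_of_nonneg_left _ (by positivity); linarith
    rw [hu]; push_cast
    linarith
  -- the sets
  set A0 : Finset ℕ := {n ∈ Icc 1 x | ∃ P m : ℕ, P.Prime ∧ n = P * m ∧
    (m : ℝ) ≤ exp (kap s 0)} with hA0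
  set B0 : Finset ℕ := {n ∈ Icc 1 x | Sm (exp (kap s 0)) (exp (kap s 0)) (exp (kap s 0)) n}
    with hB0
  set J : Finset ℕ := {j ∈ range ⌈s⌉₊ | 1000 * (4 : ℝ) ^ j ≤ s} with hJ
  set Cs : ℕ → Finset ℕ := fun j => {n ∈ Icc 1 x | ∃ P m : ℕ, P.Prime ∧ n = P * m ∧ m ≤ P ∧
        Sm (exp (s / 2 ^ j)) (exp (kap s j / 20)) (exp (4 * kap s j)) m} with hCs
  set Ds : ℕ → Finset ℕ := fun j => {n ∈ Icc 1 x |
        Sm (exp (s / 2 ^ j)) (exp (kap s j / 20)) (exp (4 * kap s j)) n} with hDs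
  have hkap0 : kap s 0 = 1000 * s := by unfold kap; ring
  have hsub : {n | n ≤ x ∧ IsSolution n} ⊆
      ((A0 ∪ B0 ∪ Z5 x b u ∪ J.biUnion fun j => Cs j ∪ Ds j : Finset ℕ) : Set ℕ) := by
    intro n hn
    obtain ⟨hnx, hsol⟩ := hn
    have hnI : n ∈ Icc 1 x := by
      rw [mem_Icc]; exact ⟨by have := hsol.1; omega, hnx⟩
    have hc := classify (x := x) (n := n) (b := b) (u := u) (s := s) hs2 (by linarith) hb3 hb4 h6
      hnI hsol (by omega)
    rw [mem_coe, mem_union, mem_union, mem_union, mem_biUnion]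
    rcases hc with hc | hc | hc | ⟨j, hj, hc⟩
    · left; left; left; rw [hA0, mem_filter]; exact ⟨hnI, hc⟩
    · left; left; right; rw [hB0, mem_filter]; exact ⟨hnI, hc⟩
    · left; right; exact hc
    · right
      refine ⟨j, ?_, ?_⟩
      · rw [hJ, mem_filter, mem_range]
        refine ⟨?_, hj⟩
        rw [Nat.lt_ceil]
        have e1 : (j : ℝ) < 4 ^ j := by
          have : j < 4 ^ j := Nat.lt_pow_self (by norm_num)
          exact_mod_cast this
        have e2 : (0 : ℝ) < 4 ^ j := by positivity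
        linarith
      · rw [mem_union]
        rcases hc with hc | hc
        · left; rw [hCs, mem_filter]; exact ⟨hnI, hc⟩
        · right; rw [hDs, mem_filter]; exact ⟨hnI, hc⟩
  have hcard : ({n | n ≤ x ∧ IsSolution n}.ncard : ℝ) ≤
      #A0 + #B0 + #(Z5 x b u) + ∑ j ∈ J, ((#(Cs j) : ℝ) + #(Ds j)) := by
    have e1 := Set.ncard_le_ncard hsub (finite_toSet _)
    rw [Set.ncard_coe_finset] at e1
    have e2 : #(A0 ∪ B0 ∪ Z5 x b u ∪ J.biUnion fun j => Cs j ∪ Ds j) ≤
        #A0 + #B0 + #(Z5 x b u) + ∑ j ∈ J, (#(Cs j) + #(Ds j)) := by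
      refine (card_union_le _ _).trans (Nat.add_le_add ((card_union_le _ _).trans
        (Nat.add_le_add (card_union_le _ _) le_rfl)) ?_)
      exact card_biUnion_le.trans (sum_le_sum fun j _ => card_union_le _ _)
    exact_mod_cast e1.trans e2
  -- bounds
  have hxs : 0 < (x : ℝ) / s := by positivity
  have bA : (#A0 : ℝ) ≤ 7007 * (x / s) := by
    set N0 := ⌊exp (kap s 0)⌋₊ with hN0
    have e1 : (N0 : ℝ) ≤ exp (kap s 0) := Nat.floor_le (exp_pos _).le
    have e2 := card_prod_prime x h4 h1 (Icc 1 N0) A0 (by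
      intro m hm
      rw [mem_Icc] at hm
      refine ⟨hm.1, ?_⟩
      have e3 : (m : ℝ) ≤ exp (kap s 0) := le_trans (by exact_mod_cast hm.2) e1
      have e4 : (m : ℝ) ^ 2 ≤ x := by
        calc (m : ℝ) ^ 2 ≤ (exp (kap s 0)) ^ 2 := by gcongr
          _ = exp (2000 * s) := by rw [← exp_nat_mul, hkap0]; push_cast; ring_nf
          _ ≤ exp (s ^ 2) := by
            apply exp_le_exp.2; nlinarith
          _ = x := hxexp.symm
      exact_mod_cast e4) (by
      intro n hn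
      rw [hA0, mem_filter, mem_Icc] at hn
      obtain ⟨⟨n1, n2⟩, P, m, hP, hm, hm2⟩ := hn
      refine ⟨n2, P, m, hP, hm, ?_⟩
      rw [mem_Icc]
      refine ⟨Nat.pos_of_ne_zero (by rintro rfl; simp at hm; omega), ?_⟩
      exact Nat.le_floor hm2)
    have e3 : ∑ m ∈ Icc 1 N0, (m : ℝ)⁻¹ ≤ 1 + 1000 * s := by
      have e4 := harmonic_le_one_add_log N0
      rw [harmonic_eq_sum_Icc] at e4
      push_cast at e4
      have e5 : log N0 ≤ 1000 * s := by
        rcases Nat.eq_zero_or_pos N0 with h0 | h0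
        · rw [h0]; simp only [Nat.cast_zero, log_zero]; positivity
        · have e7 := log_le_log (by exact_mod_cast h0) e1
          rwa [log_exp, hkap0] at e7
      linarith
    refine e2.trans ?_
    rw [← hlam, ← hs2]
    calc 7 * (x : ℝ) / s ^ 2 * ∑ m ∈ Icc 1 N0, (m : ℝ)⁻¹ ≤ 7 * (x : ℝ) / s ^ 2 * (1 + 1000 * s) := by
          gcongr
      _ ≤ 7 * (x : ℝ) / s ^ 2 * (1001 * s) := by gcongr; linarith
      _ = 7007 * (x / s) := by field_simp; norm_num
  have bB : (#B0 : ℝ) ≤ 1000 * C * (x / s) := by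
    have e1 := (hsv (exp (kap s 0)) (exp (kap s 0)) (exp (kap s 0)) (by
      rw [hkap0]
      have := add_one_le_exp (1000 * s)
      linarith) le_rfl le_rfl).2 x B0 (by omega) (by
      intro n hn
      rw [hB0, mem_filter] at hn
      exact hn)
    refine e1.trans (le_of_eq ?_)
    rw [log_exp, ← hlam, ← hs2, hkap0]
    field_simp
  have bZ : (#(Z5 x b u) : ℝ) ≤ x / s := by
    refine (card_Z5 x b u).trans ?_
    have e1 : 10 * (x : ℝ) / 2 ^ b ≤ 10 * x / lam ^ 5 := by gcongr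
    have e2 : 1 + lam ≤ 2 * lam := by linarith
    calc 10 * (x : ℝ) / 2 ^ b * u * (1 + log x) ≤ 10 * x / lam ^ 5 * (3 * lam) * (2 * lam) := by
          gcongr
      _ = 60 * x / lam ^ 3 := by field_simp; norm_num
      _ ≤ x / s := by
          rw [div_le_div_iff₀ (by positivity) hs0, ← hs2]
          have e3 : (s ^ 2) ^ 3 = s * s ^ 5 := by ring
          rw [e3]
          have e4 : (60 : ℝ) ≤ s ^ 5 := by
            calc (60 : ℝ) ≤ 4000000 ^ 5 := by norm_num
              _ ≤ s ^ 5 := pow_le_pow_left₀ (by norm_num) hs1 5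
          calc 60 * (x : ℝ) * s ≤ s ^ 5 * x * s := by gcongr
            _ = x * (s * s ^ 5) := by ring
  have bj : ∀ j ∈ J, (#(Cs j) : ℝ) + #(Ds j) ≤ 640 * C * (x / s) * (1 / 2) ^ j := by
    intro j hj
    rw [hJ, mem_filter] at hj
    have h2j : (0 : ℝ) < 2 ^ j := by positivity
    have h2j1 : (1 : ℝ) ≤ 2 ^ j := one_le_pow₀ (by norm_num)
    have h44 : (4 : ℝ) ^ j = 2 ^ j * 2 ^ j := by rw [← mul_pow]; norm_num
    have hkj : kap s j = 1000 * s * 4 ^ j := rfl
    have h4j1 : (1 : ℝ) ≤ 4 ^ j := one_le_pow₀ (by norm_num)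
    have hκ : 1000 * s ≤ kap s j := by
      rw [hkj]; nlinarith
    have hs2j : 1 ≤ s / 2 ^ j := by
      rw [le_div_iff₀ h2j, one_mul]
      have : (2 : ℝ) ^ j ≤ 4 ^ j := pow_le_pow_left₀ (by norm_num) (by norm_num) j
      linarith [hj.2]
    have hs2j' : s / 2 ^ j ≤ s := div_le_self hs0.le h2j1
    have hsv' := hsv (exp (s / 2 ^ j)) (exp (kap s j / 20)) (exp (4 * kap s j)) (by
      have := add_one_le_exp (s / 2 ^ j)
      linarith) (exp_le_exp.2 (by linarith)) (exp_le_exp.2 (by linarith))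
    obtain ⟨v1, v2⟩ := hsv'
    rw [log_exp, log_exp, log_exp] at v1
    simp only [log_exp] at v2
    have ev : s / 2 ^ j * (4 * kap s j / (kap s j / 20)) = 80 * s * (1 / 2) ^ j := by
      have : kap s j ≠ 0 := by
        have : 0 < kap s j := by linarith
        exact this.ne'
      rw [one_div, inv_pow]
      field_simp
      norm_num
    rw [ev] at v1 v2
    have c1 : (#(Cs j) : ℝ) ≤ 560 * C * (x / s) * (1 / 2) ^ j := by
      have e2 := card_prod_prime x h4 h1 ({m ∈ Icc 1 x | m ^ 2 ≤ x ∧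
        Sm (exp (s / 2 ^ j)) (exp (kap s j / 20)) (exp (4 * kap s j)) m}) (Cs j) (by
        intro m hm
        rw [mem_filter, mem_Icc] at hm
        exact ⟨hm.1.1, hm.2.1⟩) (by
        intro n hn
        rw [hCs, mem_filter, mem_Icc] at hn
        obtain ⟨⟨n1, n2⟩, P, m, hP, hm, hm2, hm3⟩ := hn
        have hm0 : 0 < m := Nat.pos_of_ne_zero (by rintro rfl; simp at hm; omega)
        have hmx : m ^ 2 ≤ x := by
          calc m ^ 2 = m * m := sq m
            _ ≤ P * m := Nat.mul_le_mul_right _ hm2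
            _ = n := hm.symm
            _ ≤ x := n2
        refine ⟨n2, P, m, hP, hm, ?_⟩
        rw [mem_filter, mem_Icc]
        exact ⟨⟨hm0, (Nat.le_self_pow (by norm_num) m).trans hmx⟩, hmx, hm3⟩)
      have e3 := v1 ({m ∈ Icc 1 x | m ^ 2 ≤ x ∧
        Sm (exp (s / 2 ^ j)) (exp (kap s j / 20)) (exp (4 * kap s j)) m}) (by
        intro m hm
        rw [mem_filter, mem_Icc] at hm
        exact ⟨by omega, hm.2.2⟩)
      refine e2.trans ?_
      rw [← hlam, ← hs2]
      calc 7 * (x : ℝ) / s ^ 2 * _ ≤ 7 * (x : ℝ) / s ^ 2 * (C * (80 * s * (1 / 2) ^ j)) := by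
            gcongr
        _ = 560 * C * (x / s) * (1 / 2) ^ j := by field_simp; norm_num
    have c2 : (#(Ds j) : ℝ) ≤ 80 * C * (x / s) * (1 / 2) ^ j := by
      have e1 := v2 x (Ds j) (by omega) (by
        intro n hn
        rw [hDs, mem_filter] at hn
        exact hn)
      refine e1.trans (le_of_eq ?_)
      rw [← hlam, ← hs2]
      field_simp
    have c3 : 640 * C * ((x : ℝ) / s) * (1 / 2) ^ j = 560 * C * (x / s) * (1 / 2) ^ j +
        80 * C * (x / s) * (1 / 2) ^ j := by ring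
    rw [c3]
    exact add_le_add c1 c2
  have bJ : ∑ j ∈ J, ((#(Cs j) : ℝ) + #(Ds j)) ≤ 1280 * C * (x / s) := by
    refine (sum_le_sum bj).trans ?_
    rw [← mul_sum]
    have e1 : ∑ j ∈ J, (1 / 2 : ℝ) ^ j ≤ 2 := by
      refine (sum_le_sum_of_subset_of_nonneg (filter_subset _ _)
        fun _ _ _ => by positivity).trans ?_
      rw [geom_sum_eq (by norm_num), div_le_iff_of_neg (by norm_num)]
      have : (0 : ℝ) ≤ (1 / 2) ^ ⌈s⌉₊ := by positivity
      linarith
    calc 640 * C * ((x : ℝ) / s) * ∑ j ∈ J, (1 / 2 : ℝ) ^ j ≤ 640 * C * ((x : ℝ) / s) * 2 := by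
          gcongr
      _ = _ := by ring
  have hfin : (7008 + 2280 * C) * ((x : ℝ) / s) = 7007 * (x / s) + 1000 * C * (x / s) + x / s +
      1280 * C * (x / s) := by ring
  rw [hfin]
  linarith

end ESGcd
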