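import Pool.Agent.ESGcd.HT

/-!
# Few integers without large prime factors
-/

namespace ESGcd

open Finset Real
open Nat (factoredNumbers)

/-- `n ↦ (3/2)^Ω(n) / n`. -/
noncomputable def wOm : ℕ →* ℝ where
  toFun n := if n = 0 then 0 else (3 / 2 : ℝ) ^ (ArithmeticFunction.cardFactors n) / n
  map_one' := by simp
  map_mul' a b := by
    rcases eq_or_ne a 0 with rfl | ha
    · simp
    rcases eq_or_ne b 0 with rfl | hb
    · simp
    rw [if_neg (mul_ne_zero ha hb), if_neg ha, if_neg hb,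
      ArithmeticFunction.cardFactors_mul ha hb, pow_add]
    push_cast
    have : (a : ℝ) ≠ 0 := by exact_mod_cast ha
    have : (b : ℝ) ≠ 0 := by exact_mod_cast hb
    field_simp

lemma wOm_apply {n : ℕ} (hn : n ≠ 0) :
    wOm n = (3 / 2 : ℝ) ^ (ArithmeticFunction.cardFactors n) / n := if_neg hn

lemma wOm_nonneg (n : ℕ) : 0 ≤ wOm n := by
  show 0 ≤ if n = 0 then (0 : ℝ) else _
  split_ifs
  · exact le_rfl
  · positivity

lemma wOm_prime {p : ℕ} (hp : p.Prime) : wOm p = 3 / 2 * (p : ℝ)⁻¹ := by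
  rw [wOm_apply hp.ne_zero, ArithmeticFunction.cardFactors_apply_prime hp, pow_one, div_eq_mul_inv]

lemma sum_wOm_le (S : Finset ℕ) (hS : ∀ p ∈ S, p.Prime) (T : Finset ℕ)
    (hT : ∀ n ∈ T, n ≠ 0 ∧ ∀ p, p.Prime → p ∣ n → p ∈ S) :
    ∑ n ∈ T, wOm n ≤ (∏ p ∈ S, (1 - (p : ℝ)⁻¹)⁻¹) ^ 2 := by
  classical
  have hhalf : ∀ {p : ℕ}, p.Prime → (p : ℝ)⁻¹ ≤ 1 / 2 := by
    intro p hp
    rw [one_div]
    apply inv_anti₀ (by norm_num)
    exact_mod_cast hp.two_le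
  have h1 : ∀ {p : ℕ}, p.Prime → ‖wOm p‖ < 1 := by
    intro p hp
    rw [norm_of_nonneg (wOm_nonneg p), wOm_prime hp]
    have := hhalf hp
    linarith
  have h2 := (EulerProduct.summable_and_hasSum_factoredNumbers_prod_filter_prime_geometric h1 S).2
  rw [filter_true_of_mem hS] at h2
  have h3 : ∀ n ∈ T, n ∈ factoredNumbers S := by
    intro n hn
    rw [Nat.mem_factoredNumbers']
    intro p hp hd
    exact (hT n hn).2 p hp hd
  have h4 := sum_le_hasSum (T.subtype (· ∈ factoredNumbers S)) (fun m _ => wOm_nonneg m) h2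
  have h5 : ∑ n ∈ T, wOm n ≤ ∏ p ∈ S, (1 - wOm p)⁻¹ := by
    refine le_trans (le_of_eq ?_) h4
    exact (sum_subtype_of_mem (fun n : ℕ => wOm n) h3).symm
  refine h5.trans ?_
  rw [← prod_pow]
  apply prod_le_prod
  · intro p hp
    rw [inv_nonneg, wOm_prime (hS p hp)]
    have := hhalf (hS p hp)
    linarith
  · intro p hp
    have h6 := hhalf (hS p hp)
    have h7 : 0 < (p : ℝ)⁻¹ := by
      have : (0 : ℝ) < p := by exact_mod_cast (hS p hp).pos
      positivity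
    rw [wOm_prime (hS p hp), inv_pow]
    apply inv_anti₀ (by nlinarith)
    nlinarith

lemma le_pow_cardFactors {n y : ℕ} (hn : n ≠ 0) (h : ∀ p, p.Prime → p ∣ n → p ≤ y) :
    n ≤ y ^ (ArithmeticFunction.cardFactors n) := by
  rw [ArithmeticFunction.cardFactors_apply]
  conv_lhs => rw [← Nat.prod_primeFactorsList hn]
  apply List.prod_le_pow_card
  intro p hp
  exact h p (Nat.prime_of_mem_primeFactorsList hp) (Nat.dvd_of_mem_primeFactorsList hp)

/-- **Smooth numbers are rare.** -/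
lemma smooth_bound : ∃ C : ℝ, 0 ≤ C ∧ ∀ (y : ℝ) (v x : ℕ) (T : Finset ℕ), 2 ≤ y →
    y ^ v ≤ √x → (∀ n ∈ T, n ∈ Icc 1 x ∧ ∀ p : ℕ, p.Prime → p ∣ n → (p : ℝ) ≤ y) →
    (#T : ℝ) ≤ √x + C * x * (log y) ^ 2 * (2 / 3) ^ v := by
  classical
  obtain ⟨C, hC, h⟩ := exists_mertens
  refine ⟨C ^ 2, by positivity, ?_⟩
  intro y v x T hy hv hT
  have hly : 0 < log y := log_pos (by linarith)
  set T1 : Finset ℕ := {n ∈ T | (n : ℝ) ≤ √x} with hT1
  set T2 : Finset ℕ := {n ∈ T | ¬ (n : ℝ) ≤ √x} with hT2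
  have h0 : #T = #T1 + #T2 := (card_filter_add_card_filter_not _).symm
  have h1 : (#T1 : ℝ) ≤ √x := by
    have e1 : T1 ⊆ Icc 1 ⌊√(x : ℝ)⌋₊ := by
      intro n hn
      rw [hT1, mem_filter] at hn
      rw [mem_Icc]
      exact ⟨(mem_Icc.1 (hT n hn.1).1).1, Nat.le_floor hn.2⟩
    have e2 := card_le_card e1
    rw [Nat.card_Icc, Nat.add_sub_cancel] at e2
    exact le_trans (by exact_mod_cast e2) (Nat.floor_le (sqrt_nonneg _))
  set S : Finset ℕ := T.biUnion Nat.primeFactors with hS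
  have hS1 : ∀ p ∈ S, p.Prime ∧ ((p : ℝ) ≤ y ∨ (y < p ∧ (p : ℝ) ≤ y)) := by
    intro p hp
    rw [hS, mem_biUnion] at hp
    obtain ⟨n, hn, hp⟩ := hp
    have hpp := Nat.prime_of_mem_primeFactors hp
    exact ⟨hpp, Or.inl ((hT n hn).2 p hpp (Nat.dvd_of_mem_primeFactors hp))⟩
  have h2 : ∏ p ∈ S, (1 - (p : ℝ)⁻¹)⁻¹ ≤ C * log y := by
    have := h y y y S hy le_rfl le_rfl hS1
    rwa [div_self hly.ne', mul_one] at this
  have h3 : 0 ≤ ∏ p ∈ S, (1 - (p : ℝ)⁻¹)⁻¹ := by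
    apply prod_nonneg
    intro p hp
    rw [inv_nonneg, sub_nonneg]
    exact inv_le_one_of_one_le₀ (by exact_mod_cast (hS1 p hp).1.one_lt.le)
  have hne : ∀ n ∈ T, n ≠ 0 := fun n hn => by
    have := mem_Icc.1 (hT n hn).1; omega
  have h4 : ∑ n ∈ T, wOm n ≤ (C * log y) ^ 2 := by
    refine (sum_wOm_le S (fun p hp => (hS1 p hp).1) T ?_).trans (pow_le_pow_left₀ h3 h2 2)
    intro n hn
    refine ⟨hne n hn, fun p hp hd => ?_⟩
    rw [hS, mem_biUnion]
    exact ⟨n, hn, Nat.mem_primeFactors.2 ⟨hp, hd, hne n hn⟩⟩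
  have h5 : ∀ n ∈ T2, (1 : ℝ) ≤ x * (2 / 3) ^ v * wOm n := by
    intro n hn
    rw [hT2, mem_filter, not_le] at hn
    obtain ⟨hn1, hn2⟩ := hn
    have hn0 := hne n hn1
    have hnr : (0 : ℝ) < n := by exact_mod_cast Nat.pos_of_ne_zero hn0
    have hnx : (n : ℝ) ≤ x := by exact_mod_cast (mem_Icc.1 (hT n hn1).1).2
    have e1 : v ≤ ArithmeticFunction.cardFactors n := by
      by_contra hcon
      push Not at hcon
      have e2 : n ≤ ⌊y⌋₊ ^ (ArithmeticFunction.cardFactors n) := by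
        apply le_pow_cardFactors hn0
        intro p hp hd
        exact Nat.le_floor ((hT n hn1).2 p hp hd)
      have e3 : (n : ℝ) ≤ (⌊y⌋₊ : ℝ) ^ (ArithmeticFunction.cardFactors n) := by exact_mod_cast e2
      have e4 : (n : ℝ) ≤ y ^ v := by
        calc (n : ℝ) ≤ (⌊y⌋₊ : ℝ) ^ (ArithmeticFunction.cardFactors n) := e3
          _ ≤ y ^ (ArithmeticFunction.cardFactors n) := by
              gcongr
              exact Nat.floor_le (by linarith)
          _ ≤ y ^ v := pow_le_pow_right₀ (by linarith) hcon.le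
      linarith
    rw [wOm_apply hn0]
    have e2 : (3 / 2 : ℝ) ^ v ≤ (3 / 2 : ℝ) ^ ArithmeticFunction.cardFactors n :=
      pow_le_pow_right₀ (by norm_num) e1
    have e3 : (2 / 3 : ℝ) ^ v * (3 / 2) ^ v = 1 := by rw [← mul_pow]; norm_num
    calc (1 : ℝ) = (2 / 3 : ℝ) ^ v * (3 / 2) ^ v := e3.symm
      _ ≤ (2 / 3 : ℝ) ^ v * (3 / 2 : ℝ) ^ ArithmeticFunction.cardFactors n := by gcongr
      _ = n * (2 / 3 : ℝ) ^ v * ((3 / 2 : ℝ) ^ ArithmeticFunction.cardFactors n / n) := by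
          field_simp
      _ ≤ x * (2 / 3 : ℝ) ^ v * ((3 / 2 : ℝ) ^ ArithmeticFunction.cardFactors n / n) := by
          gcongr
  have h6 : (#T2 : ℝ) ≤ C ^ 2 * x * (log y) ^ 2 * (2 / 3) ^ v := by
    calc (#T2 : ℝ) = ∑ n ∈ T2, (1 : ℝ) := by simp
      _ ≤ ∑ n ∈ T2, x * (2 / 3) ^ v * wOm n := sum_le_sum h5
      _ = x * (2 / 3) ^ v * ∑ n ∈ T2, wOm n := by rw [mul_sum]
      _ ≤ x * (2 / 3) ^ v * ∑ n ∈ T, wOm n := by
          apply mul_le_mul_of_nonneg_left _ (by positivity)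
          exact sum_le_sum_of_subset_of_nonneg (filter_subset _ _) fun n _ _ => wOm_nonneg n
      _ ≤ x * (2 / 3) ^ v * (C * log y) ^ 2 := by gcongr
      _ = _ := by ring
  rw [h0]
  push_cast
  linarith

end ESGcd
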