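import Pool.Agent.ESGcd.Class
import Pool.Agent.ESGcd.Order
import Pool.Agent.ESGcd.Smooth

/-!
# Solutions with large `n / P(n)`
-/

namespace ESGcd

open Finset Real Filter

lemma exists_scale' {s μ : ℝ} {j1 : ℕ} (hs : 1 ≤ s) (hμ : exp (kap s j1) < μ) :
    ∃ j, j1 ≤ j ∧ exp (kap s j) < μ ∧ μ ≤ exp (4 * kap s j) := by
  have hmono : ∀ i j : ℕ, i ≤ j → kap s i ≤ kap s j := by
    intro i j hij
    unfold kap
    have : (4 : ℝ) ^ i ≤ 4 ^ j := pow_le_pow_right₀ (by norm_num) hij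
    have h0 : (0 : ℝ) ≤ 1000 * s := by linarith
    exact mul_le_mul_of_nonneg_left this h0
  have hex : ∃ j, μ ≤ exp (kap s j) := by
    obtain ⟨j, hj⟩ := exists_nat_ge μ
    refine ⟨j, hj.trans ?_⟩
    have h1 : (j : ℝ) ≤ 4 ^ j := by
      have : j < 4 ^ j := Nat.lt_pow_self (by norm_num)
      exact_mod_cast this.le
    have h2 : (4 : ℝ) ^ j ≤ kap s j := by
      unfold kap
      have : (0 : ℝ) < 4 ^ j := by positivity
      nlinarith
    have h3 := add_one_le_exp (kap s j)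
    linarith
  classical
  set j0 := Nat.find hex with hj0
  have h1 := Nat.find_spec hex
  have h2 : j1 < j0 := by
    by_contra hc
    push Not at hc
    have := exp_le_exp.2 (hmono j0 j1 hc)
    rw [← hj0] at h1
    linarith
  obtain ⟨j, hj⟩ := Nat.exists_eq_succ_of_ne_zero (by omega : j0 ≠ 0)
  have h3 := Nat.find_min hex (m := j) (by omega)
  push Not at h3
  refine ⟨j, by omega, h3, ?_⟩
  rw [← kap_succ]
  rw [← hj0, hj] at h1
  exact h1

lemma classify' {x n b u j1 : ℕ} {s : ℝ} (hs : s ^ 2 = log x) (hs1 : 1 ≤ s)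
    (hb : 1 ≤ b) (hb2 : 90 * (b : ℝ) ^ 2 ≤ s) (h6 : 32 * (log x + 1) ≤ 2 ^ b)
    (hn : n ∈ Icc 1 x) (hsol : IsSolution n) (hu : Nat.log 2 x < u)
    (hbig : exp (kap s j1) < ((n / maxPrime n : ℕ) : ℝ)) :
    (∀ p : ℕ, p.Prime → p ∣ n → (p : ℝ) ≤ exp (kap s j1)) ∨ n ∈ Z5 x b u ∨
    ∃ j, j1 ≤ j ∧ 1000 * 4 ^ j ≤ s ∧
      ((∃ P m : ℕ, P.Prime ∧ n = P * m ∧ m ≤ P ∧
        Sm (exp (s / 2 ^ j)) (exp (kap s j / 20)) (exp (4 * kap s j)) m) ∨
      Sm (exp (s / 2 ^ j)) (exp (kap s j / 20)) (exp (4 * kap s j)) n) := by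
  classical
  rw [mem_Icc] at hn
  obtain ⟨hn1, hnx⟩ := hn
  obtain ⟨hn2, hnp, hfn⟩ := hsol
  obtain ⟨hP, hPn⟩ := maxPrime_spec (by omega : 2 ≤ n)
  set P := maxPrime n with hPdef
  obtain ⟨m, hm⟩ := hPn
  have hPle : ∀ p, p.Prime → p ∣ n → p ≤ P := fun p hp hd => le_maxPrime (by omega) hp hd
  have hm0 : 0 < m := Nat.pos_of_ne_zero (by rintro rfl; simp at hm; omega)
  have hfm : f n = m := by rw [hfn, hm, Nat.mul_div_cancel_left _ hP.pos]
  have hx0 : 0 < x := by omega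
  have hxr : (0 : ℝ) < x := by exact_mod_cast hx0
  have c1 : exp (kap s j1) < (m : ℝ) := by
    have e : n / P = m := by rw [hm, Nat.mul_div_cancel_left _ hP.pos]
    rw [← e]; exact hbig
  by_cases c2 : (P : ℝ) ≤ exp (kap s j1)
  · left
    intro p hp hd
    exact le_trans (by exact_mod_cast hPle p hp hd) c2
  right
  push Not at c2
  obtain ⟨j, hj1j, hj1, hj2⟩ := exists_scale' hs1
    (show exp (kap s j1) < min (P : ℝ) m from lt_min c2 c1)
  set κ := kap s j with hκ
  have hκP : exp κ < P := hj1.trans_le (min_le_left _ _)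
  have hκm : exp κ < m := hj1.trans_le (min_le_right _ _)
  have hs0 : 0 < s := by linarith
  have h4j : (1 : ℝ) ≤ 4 ^ j := one_le_pow₀ (by norm_num)
  have hκpos : 1000 * s ≤ κ := by
    rw [hκ]; unfold kap
    have : (0 : ℝ) ≤ 1000 * s := by positivity
    nlinarith
  have h2κ : 2 * κ < s ^ 2 := by
    have e1 : exp (2 * κ) < x := by
      calc exp (2 * κ) = exp κ * exp κ := by rw [← exp_add]; ring_nf
        _ < P * m := by
          apply mul_lt_mul'' hκP hκm (exp_pos _).le (exp_pos _).le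
        _ = n := by rw [hm]; push_cast; ring
        _ ≤ x := by exact_mod_cast hnx
    have e2 := (lt_log_iff_exp_lt hxr).2 e1
    rw [hs]; exact e2
  have h1000 : 1000 * 4 ^ j ≤ s := by
    have e1 : 2 * κ = 2000 * 4 ^ j * s := by rw [hκ]; unfold kap; ring
    rw [e1, sq] at h2κ
    have e2 : 2000 * (4 : ℝ) ^ j < s := lt_of_mul_lt_mul_right h2κ hs0.le
    have e3 : (0 : ℝ) < 4 ^ j := by positivity
    linarith
  by_cases c3 : ∃ l, l.Prime ∧ l ∣ m ∧ exp (s / 2 ^ j) < l ∧ (l : ℝ) ≤ exp (κ / 20)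
  · left
    obtain ⟨l, hl, hlm, hl1, hl2⟩ := c3
    obtain ⟨s', hs'⟩ := hlm
    have hlr : (0 : ℝ) < l := by exact_mod_cast hl.pos
    have hns : n = P * l * s' := by rw [hm, hs']; ring
    have hs'0 : 0 < s' := Nat.pos_of_ne_zero (by rintro rfl; simp at hs'; omega)
    set k := Nat.log 2 (P - 1) with hk
    have hP2 := hP.two_le
    have hk1 : 2 ^ k ≤ P - 1 := Nat.pow_log_le_self 2 (by omega)
    have hk2 : P - 1 < 2 ^ (k + 1) := Nat.lt_pow_succ_log_self (by norm_num) _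
    have hPn' : P ≤ n := Nat.le_of_dvd (by omega) ⟨m, hm⟩
    have hku : k < u := by
      refine lt_of_le_of_lt ?_ hu
      exact Nat.log_mono_right (by omega)
    have hk3 : P ≤ 2 * 2 ^ k := by rw [pow_succ] at hk2; omega
    have hu1 : s / 2 ^ j < log l := (lt_log_iff_exp_lt hlr).2 hl1
    have hu2 : log l ≤ κ / 20 := (log_le_iff_le_exp hlr).2 hl2
    have h2j : (0 : ℝ) < 2 ^ j := by positivity
    have h44 : (4 : ℝ) ^ j = 2 ^ j * 2 ^ j := by rw [← mul_pow]; norm_num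
    have hpar : ∃ D h I, Par2 x l (2 ^ k) D h b (2 ^ b) I := by
      apply exists_par (κ := κ) hl hx0
      · have e1 : (P : ℝ) ≤ 2 * ((2 ^ k : ℕ) : ℝ) := by exact_mod_cast hk3
        have e2 : exp κ = exp (κ - 1) * exp 1 := by rw [← exp_add]; ring_nf
        have e3 : (2 : ℝ) ≤ exp 1 := by have := add_one_le_exp (1 : ℝ); linarith
        have e4 := exp_pos (κ - 1)
        nlinarith
      · have e1 : ((2 ^ k : ℕ) : ℝ) ≤ P := by exact_mod_cast (by omega : 2 ^ k ≤ P)
        calc exp κ * ((2 ^ k : ℕ) : ℝ) ≤ m * P := by gcongr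
          _ = n := by rw [hm]; push_cast; ring
          _ ≤ x := by exact_mod_cast hnx
      · linarith
      · rw [← hs]
        have e1 : κ * (s / 2 ^ j) ≤ κ * log l := by
          apply mul_le_mul_of_nonneg_left hu1.le
          linarith
        have e2 : κ * (s / 2 ^ j) = 1000 * s ^ 2 * 2 ^ j := by
          rw [hκ]; unfold kap; rw [h44]; field_simp
        have e3 : (1 : ℝ) ≤ 2 ^ j := one_le_pow₀ (by norm_num)
        have e4 : 1000 * s ^ 2 * 1 ≤ 1000 * s ^ 2 * 2 ^ j :=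
          mul_le_mul_of_nonneg_left e3 (by positivity)
        linarith
      · have e1 : 300 * (b : ℝ) * 2 ^ j ≤ s := by
          apply le_of_sq_le_sq _ hs0.le
          rw [h44] at h1000
          calc (300 * (b : ℝ) * 2 ^ j) ^ 2 = 90 * (b : ℝ) ^ 2 * (1000 * (2 ^ j * 2 ^ j)) := by ring
            _ ≤ s * s := by gcongr
            _ = s ^ 2 := by ring
        have e2 : 300 * (b : ℝ) ≤ s / 2 ^ j := by rw [le_div_iff₀ h2j]; exact e1
        linarith
      · exact hb
      · exact h6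
    simp only [Z5, mem_biUnion]
    refine ⟨l, ?_, k, mem_range.2 hku, ?_⟩
    · rw [mem_Icc]
      refine ⟨hl.pos, (Nat.le_of_dvd (by omega) ?_).trans hnx⟩
      exact ⟨P * s', by rw [hns]; ring⟩
    · rw [if_pos hpar]
      simp only [failSet, mem_biUnion, mem_filter, mem_Ioc, mem_image, mem_Icc]
      refine ⟨P, ⟨⟨by omega, hk3⟩, hP⟩, s', ⟨⟨by omega, ?_⟩, ?_⟩, hns.symm⟩
      · rw [Nat.le_div_iff_mul_le (Nat.mul_pos hP.pos hl.pos)]
        calc s' * (P * l) = n := by rw [hns]; ring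
          _ ≤ x := hnx
      · rw [← hns, hfm, hs']
        calc s' = 1 * s' := (one_mul _).symm
          _ < l * s' := Nat.mul_lt_mul_of_pos_right hl.one_lt hs'0
  · right
    push Not at c3
    refine ⟨j, hj1j, h1000, ?_⟩
    have hsm : ∀ p, p.Prime → p ∣ m → (p : ℝ) ≤ exp (4 * κ) →
        ((p : ℝ) ≤ exp (s / 2 ^ j) ∨ (exp (κ / 20) < p ∧ (p : ℝ) ≤ exp (4 * κ))) := by
      intro p hp hd hb
      by_cases c4 : (p : ℝ) ≤ exp (s / 2 ^ j)
      · left; exact c4
      · right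
        push Not at c4
        exact ⟨c3 p hp hd c4, hb⟩
    rcases le_or_gt m P with c5 | c5
    · left
      refine ⟨P, m, hP, hm, c5, fun p hp hd => hsm p hp hd ?_⟩
      have e1 : min (P : ℝ) m = m := min_eq_right (by exact_mod_cast c5)
      rw [e1] at hj2
      exact le_trans (by exact_mod_cast Nat.le_of_dvd hm0 hd) hj2
    · right
      have e1 : min (P : ℝ) m = P := min_eq_left (by exact_mod_cast c5.le)
      rw [e1] at hj2
      intro p hp hd
      have hpb : (p : ℝ) ≤ exp (4 * κ) := le_trans (by exact_mod_cast hPle p hp hd) hj2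
      have hd' := hd
      rw [hm] at hd'
      rcases (Nat.Prime.dvd_mul hp).1 hd' with h | h
      · right
        refine ⟨?_, hpb⟩
        have e2 : p = P := (Nat.prime_dvd_prime_iff_eq hp hP).1 h
        rw [e2]
        refine lt_of_le_of_lt ?_ hκP
        apply exp_le_exp.2
        linarith
      · exact hsm p hp h hpb


set_option maxHeartbeats 4000000 in
/-- **Few solutions have a large `n / P(n)`.** -/
theorem few_large (ε : ℝ) (hε : 0 < ε) : ∃ K : ℝ, 0 < K ∧ ∀ᶠ x : ℕ in atTop,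
    ({n | n ≤ x ∧ IsSolution n ∧ exp (K * √(log x)) < ((n / maxPrime n : ℕ) : ℝ)}.ncard : ℝ) ≤
      ε * (x / √(log x)) := by
  classical
  obtain ⟨C, hC, hsv⟩ := sieve_bound
  obtain ⟨C', hC', hsm⟩ := smooth_bound
  obtain ⟨j1, hj1⟩ : ∃ j1 : ℕ, 1280 * C * (1 / 2) ^ j1 ≤ ε / 2 := by
    obtain ⟨j1, hj1⟩ := exists_pow_lt_of_lt_one (show 0 < ε / 2 / (1280 * C) by positivity)
      (show (1 / 2 : ℝ) < 1 by norm_num)
    refine ⟨j1, ?_⟩
    rw [lt_div_iff₀ (by positivity)] at hj1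
    linarith
  set K : ℝ := 1000 * 4 ^ j1 with hK
  refine ⟨K, by positivity, ?_⟩
  have t1 : Tendsto (fun x : ℕ => (x : ℝ)) atTop atTop := tendsto_natCast_atTop_atTop
  have t5 : Tendsto (fun x : ℕ => log (x : ℝ)) atTop atTop := tendsto_log_atTop.comp t1
  have t7 : ∀ᶠ x : ℕ in atTop, log (x : ℝ) ≤ √(√x) := by
    have e1 := (isLittleO_log_rpow_atTop (show (0 : ℝ) < 1 / 4 by norm_num)).bound
      (show (0 : ℝ) < 1 by norm_num)
    filter_upwards [t1.eventually e1, eventually_ge_atTop 1] with x hx hx1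
    have hx0 : (0 : ℝ) ≤ x := by positivity
    rw [one_mul, norm_of_nonneg (log_natCast_nonneg x), norm_of_nonneg (by positivity)] at hx
    have e2 : √(√(x : ℝ)) = (x : ℝ) ^ ((1 : ℝ) / 4) := by
      rw [sqrt_eq_rpow, sqrt_eq_rpow, ← rpow_mul hx0]; norm_num
    rw [e2]; exact hx
  -- `log log x` is small
  have t8 : ∀ᶠ y : ℝ in atTop, 90 * (8 * log y + 1) ^ 2 ≤ √y := by
    have e1 := (isLittleO_log_rpow_atTop (show (0 : ℝ) < 1 / 8 by norm_num)).bound
      (show (0 : ℝ) < 1 by norm_num)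
    filter_upwards [e1, eventually_ge_atTop (7290 ^ 4 : ℝ)] with y hy hy1
    have hy0 : (1 : ℝ) ≤ y := by
      refine le_trans ?_ hy1; norm_num
    have hl0 : 0 ≤ log y := log_nonneg hy0
    rw [one_mul, norm_of_nonneg hl0, norm_of_nonneg (by positivity)] at hy
    set v : ℝ := y ^ ((1 : ℝ) / 8) with hv
    have hv1 : 1 ≤ v := one_le_rpow hy0 (by norm_num)
    have e2 : √y = v ^ 2 * v ^ 2 := by
      rw [sqrt_eq_rpow, hv, ← rpow_natCast, ← rpow_mul (by linarith), ← rpow_add (by linarith)]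
      norm_num
    have e3 : 7290 ≤ v ^ 2 := by
      rw [hv, ← rpow_natCast, ← rpow_mul (by linarith)]
      have : (7290 : ℝ) = ((7290 : ℝ) ^ 4) ^ ((1 : ℝ) / 4) := by
        rw [← rpow_natCast, ← rpow_mul (by norm_num)]; norm_num
      rw [this]
      have e4 : (1 : ℝ) / 8 * ((2 : ℕ) : ℝ) = 1 / 4 := by norm_num
      rw [e4]
      exact rpow_le_rpow (by positivity) hy1 (by norm_num)
    have e5 : 8 * log y + 1 ≤ 9 * v := by linarith
    calc 90 * (8 * log y + 1) ^ 2 ≤ 90 * (9 * v) ^ 2 := by gcongr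
      _ = 7290 * v ^ 2 := by ring
      _ ≤ v ^ 2 * v ^ 2 := by
          apply mul_le_mul_of_nonneg_right e3; positivity
      _ = √y := e2.symm
  -- the square root of `log x`
  have ts : Tendsto (fun x : ℕ => √(log (x : ℝ))) atTop atTop := tendsto_sqrt_atTop.comp t5
  have hK0 : 0 < K := by positivity
  -- negligible terms
  have t9 : ∀ᶠ s : ℝ in atTop, C' * K ^ 2 * s ^ 3 * (2 / 3) ^ ⌊s / (2 * K)⌋₊ ≤ ε / 8 := by
    set c : ℝ := log (3 / 2) / (2 * K) with hc
    have hc0 : 0 < c := by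
      have := log_pos (show (1 : ℝ) < 3 / 2 by norm_num)
      positivity
    have e1 := (tendsto_pow_mul_exp_neg_atTop_nhds_zero 3).comp
      (tendsto_id.const_mul_atTop hc0)
    have e2 : Tendsto (fun s : ℝ => (C' * K ^ 2 * (3 / 2) / c ^ 3) *
        ((c * s) ^ 3 * exp (-(c * s)))) atTop (nhds ((C' * K ^ 2 * (3 / 2) / c ^ 3) * 0)) :=
      e1.const_mul _
    rw [mul_zero] at e2
    filter_upwards [e2.eventually_lt_const (by positivity : 0 < ε / 8), eventually_ge_atTop 0]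
      with s hs hs0
    refine le_trans ?_ hs.le
    have e3 : ((2 : ℝ) / 3) ^ ⌊s / (2 * K)⌋₊ ≤ (3 / 2) * exp (-(c * s)) := by
      have e4 : ((2 : ℝ) / 3) ^ ⌊s / (2 * K)⌋₊ = exp (-(⌊s / (2 * K)⌋₊ * log (3 / 2))) := by
        have : (2 : ℝ) / 3 = exp (-log (3 / 2)) := by
          rw [exp_neg, exp_log (by norm_num)]; norm_num
        rw [this, ← exp_nat_mul]; ring_nf
      have e5 : (3 : ℝ) / 2 = exp (log (3 / 2)) := (exp_log (by norm_num)).symm
      rw [e4]
      calc exp (-(⌊s / (2 * K)⌋₊ * log (3 / 2))) ≤ exp (log (3 / 2) + -(c * s)) := by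
            apply exp_le_exp.2
            have e6 : s / (2 * K) < ⌊s / (2 * K)⌋₊ + 1 := Nat.lt_floor_add_one _
            have e7 : c * s = s / (2 * K) * log (3 / 2) := by rw [hc]; ring
            have e8 := log_pos (show (1 : ℝ) < 3 / 2 by norm_num)
            rw [e7]
            nlinarith
        _ = (3 / 2) * exp (-(c * s)) := by rw [exp_add, ← e5]
    calc C' * K ^ 2 * s ^ 3 * (2 / 3) ^ ⌊s / (2 * K)⌋₊ ≤
        C' * K ^ 2 * s ^ 3 * ((3 / 2) * exp (-(c * s))) := by gcongr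
      _ = _ := by field_simp
  have t10 : ∀ᶠ s : ℝ in atTop, s * exp (-(s ^ 2 / 2)) ≤ ε / 8 := by
    have e1 := tendsto_pow_mul_exp_neg_atTop_nhds_zero 1
    filter_upwards [e1.eventually_lt_const (by positivity : 0 < ε / 8), eventually_ge_atTop 2]
      with s hs hs0
    refine le_trans ?_ hs.le
    rw [pow_one]
    apply mul_le_mul_of_nonneg_left _ (by linarith)
    apply exp_le_exp.2
    nlinarith
  have t11 : ∀ᶠ s : ℝ in atTop, 60 / s ≤ ε / 8 := by
    filter_upwards [eventually_ge_atTop (480 / ε), eventually_gt_atTop 0] with s hs hs0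
    rw [div_le_div_iff₀ hs0 (by norm_num)]
    rw [div_le_iff₀ hε] at hs
    linarith
  filter_upwards [t7, t5.eventually t8, t5.eventually_ge_atTop (4000000 ^ 2 : ℝ),
    eventually_ge_atTop 16, ts.eventually t9, ts.eventually t10, ts.eventually t11] with
    x h1 h2 h3 h4 g1 g2 g3
  have hx0 : (0 : ℝ) < x := by exact_mod_cast (by omega : 0 < x)
  set lam := log (x : ℝ) with hlam
  set s := √lam with hs
  have hlam1 : (4000000 : ℝ) ^ 2 ≤ lam := h3
  have hlam0 : 0 < lam := by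
    refine lt_of_lt_of_le ?_ hlam1; norm_num
  have hs2 : s ^ 2 = lam := sq_sqrt hlam0.le
  have hs1 : (4000000 : ℝ) ≤ s := le_sqrt_of_sq_le hlam1
  have hs0 : 0 < s := by linarith
  have hxexp : (x : ℝ) = exp (s ^ 2) := by rw [hs2, hlam, exp_log hx0]
  -- `b`
  set b : ℕ := ⌈8 * log lam⌉₊ with hb
  have hll : 1 ≤ log lam := by
    rw [le_log_iff_exp_le hlam0]
    have : exp 1 < 3 := exp_one_lt_three
    refine le_trans this.le (le_trans ?_ hlam1); norm_num
  have hb1 : 8 * log lam ≤ b := Nat.le_ceil _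
  have hb2 : (b : ℝ) ≤ 8 * log lam + 1 := (Nat.ceil_lt_add_one (by positivity)).le
  have hb3 : 1 ≤ b := by
    have : (1 : ℝ) ≤ b := by linarith
    exact_mod_cast this
  have hb4 : 90 * (b : ℝ) ^ 2 ≤ s := by
    refine le_trans ?_ h2
    have : (0 : ℝ) ≤ b := by positivity
    gcongr
  have h2b : lam ^ 5 ≤ 2 ^ b := by
    have e1 : lam ^ 5 = exp (5 * log lam) := by
      rw [mul_comm, exp_mul, exp_log hlam0]; norm_cast
    have e2 : (2 : ℝ) ^ b = exp (b * log 2) := by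
      rw [mul_comm, exp_mul, exp_log (by norm_num)]; norm_cast
    rw [e1, e2]
    apply exp_le_exp.2
    have e3 := log_two_gt_d9
    have e4 : 8 * log lam * log 2 ≤ b * log 2 :=
      mul_le_mul_of_nonneg_right hb1 (by linarith)
    nlinarith
  have hlam16 : (16 : ℝ) ≤ lam := le_trans (by norm_num) hlam1
  have hlam4 : (16 : ℝ) ^ 4 ≤ lam ^ 4 := pow_le_pow_left₀ (by norm_num) hlam16 4
  have h6 : 32 * (lam + 1) ≤ 2 ^ b := by
    refine le_trans ?_ h2b
    have : lam ^ 5 = lam ^ 4 * lam := by ring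
    rw [this]
    nlinarith
  -- `u`
  set u : ℕ := Nat.log 2 x + 1 with hu
  have hu1 : (u : ℝ) ≤ 3 * lam := by
    have e1 : 2 ^ Nat.log 2 x ≤ x := Nat.pow_log_le_self 2 (by omega)
    have e2 : ((2 ^ Nat.log 2 x : ℕ) : ℝ) ≤ x := by exact_mod_cast e1
    push_cast at e2
    have e3 := log_le_log (by positivity) e2
    rw [log_pow] at e3
    have e4 := log_two_gt_d9
    have e5 : (Nat.log 2 x : ℝ) * (1 / 2) ≤ (Nat.log 2 x : ℝ) * log 2 := by
      apply mul_le_mul_of_nonneg_left _ (by positivity); linarith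
    rw [hu]; push_cast
    linarith
  -- the sets
  set B0 : Finset ℕ := {n ∈ Icc 1 x | ∀ p : ℕ, p.Prime → p ∣ n → (p : ℝ) ≤ exp (kap s j1)}
    with hB0
  set J : Finset ℕ := {j ∈ Ico j1 (j1 + ⌈s⌉₊) | 1000 * (4 : ℝ) ^ j ≤ s} with hJ
  set Cs : ℕ → Finset ℕ := fun j => {n ∈ Icc 1 x | ∃ P m : ℕ, P.Prime ∧ n = P * m ∧ m ≤ P ∧
        Sm (exp (s / 2 ^ j)) (exp (kap s j / 20)) (exp (4 * kap s j)) m} with hCs
  set Ds : ℕ → Finset ℕ := fun j => {n ∈ Icc 1 x |
        Sm (exp (s / 2 ^ j)) (exp (kap s j / 20)) (exp (4 * kap s j)) n} with hDs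
  have hkap1 : kap s j1 = K * s := by unfold kap; rw [hK]; ring
  have hsub : {n | n ≤ x ∧ IsSolution n ∧ exp (K * s) < ((n / maxPrime n : ℕ) : ℝ)} ⊆
      ((B0 ∪ Z5 x b u ∪ J.biUnion fun j => Cs j ∪ Ds j : Finset ℕ) : Set ℕ) := by
    intro n hn
    obtain ⟨hnx, hsol, hbig⟩ := hn
    have hnI : n ∈ Icc 1 x := by
      rw [mem_Icc]; exact ⟨by have := hsol.1; omega, hnx⟩
    rw [← hkap1] at hbig
    have hc := classify' (x := x) (n := n) (b := b) (u := u) (s := s) hs2 (by linarith) hb3 hb4 h6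
      hnI hsol (by omega) hbig
    rw [mem_coe, mem_union, mem_union, mem_biUnion]
    rcases hc with hc | hc | ⟨j, hjj, hj, hc⟩
    · left; left; rw [hB0, mem_filter]; exact ⟨hnI, hc⟩
    · left; right; exact hc
    · right
      refine ⟨j, ?_, ?_⟩
      · rw [hJ, mem_filter, mem_Ico]
        refine ⟨⟨hjj, ?_⟩, hj⟩
        have e0 : j < ⌈s⌉₊ := by
          rw [Nat.lt_ceil]
          have e1 : (j : ℝ) < 4 ^ j := by
            have : j < 4 ^ j := Nat.lt_pow_self (by norm_num)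
            exact_mod_cast this
          have e2 : (0 : ℝ) < 4 ^ j := by positivity
          linarith
        omega
      · rw [mem_union]
        rcases hc with hc | hc
        · left; rw [hCs, mem_filter]; exact ⟨hnI, hc⟩
        · right; rw [hDs, mem_filter]; exact ⟨hnI, hc⟩
  have hcard : ({n | n ≤ x ∧ IsSolution n ∧
      exp (K * s) < ((n / maxPrime n : ℕ) : ℝ)}.ncard : ℝ) ≤
      #B0 + #(Z5 x b u) + ∑ j ∈ J, ((#(Cs j) : ℝ) + #(Ds j)) := by
    have e1 := Set.ncard_le_ncard hsub (finite_toSet _)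
    rw [Set.ncard_coe_finset] at e1
    have e2 : #(B0 ∪ Z5 x b u ∪ J.biUnion fun j => Cs j ∪ Ds j) ≤
        #B0 + #(Z5 x b u) + ∑ j ∈ J, (#(Cs j) + #(Ds j)) := by
      refine (card_union_le _ _).trans (Nat.add_le_add (card_union_le _ _) ?_)
      exact card_biUnion_le.trans (sum_le_sum fun j _ => card_union_le _ _)
    exact_mod_cast e1.trans e2
  -- bounds
  have hxs : 0 < (x : ℝ) / s := by positivity
  have bB : (#B0 : ℝ) ≤ ε / 4 * (x / s) := by
    set v := ⌊s / (2 * K)⌋₊ with hv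
    have hsx : √(x : ℝ) = exp (s ^ 2 / 2) := by
      rw [hxexp, ← exp_half]
    have hv1 : (v : ℝ) ≤ s / (2 * K) := Nat.floor_le (by positivity)
    have e1 := hsm (exp (kap s j1)) v x B0 (by
      rw [hkap1]
      have := add_one_le_exp (K * s)
      have e2 : 1 * s ≤ K * s := by
        apply mul_le_mul_of_nonneg_right _ hs0.le
        rw [hK]
        have : (1 : ℝ) ≤ 4 ^ j1 := one_le_pow₀ (by norm_num)
        linarith
      linarith) (by
      rw [hsx, ← exp_nat_mul]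
      apply exp_le_exp.2
      rw [hkap1]
      calc (v : ℝ) * (K * s) ≤ s / (2 * K) * (K * s) := by gcongr
        _ = s ^ 2 / 2 := by field_simp) (by
      intro n hn
      rw [hB0, mem_filter] at hn
      exact hn)
    refine e1.trans ?_
    rw [log_exp, hkap1]
    have e2 : √(x : ℝ) ≤ ε / 8 * (x / s) := by
      rw [hsx, hxexp]
      have e3 : exp (s ^ 2 / 2) = s * exp (-(s ^ 2 / 2)) * (exp (s ^ 2) / s) := by
        have : exp (s ^ 2 / 2) = exp (-(s ^ 2 / 2)) * exp (s ^ 2) := by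
          rw [← exp_add]; ring_nf
        rw [this]; field_simp
      rw [e3]
      exact mul_le_mul_of_nonneg_right g2 (by positivity)
    have e3 : C' * x * (K * s) ^ 2 * (2 / 3) ^ v ≤ ε / 8 * (x / s) := by
      calc C' * x * (K * s) ^ 2 * (2 / 3) ^ v =
          (C' * K ^ 2 * s ^ 3 * (2 / 3) ^ v) * (x / s) := by field_simp
        _ ≤ ε / 8 * (x / s) := mul_le_mul_of_nonneg_right g1 hxs.le
    linarith
  have bZ : (#(Z5 x b u) : ℝ) ≤ ε / 8 * (x / s) := by
    refine (card_Z5 x b u).trans ?_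
    have e1 : 10 * (x : ℝ) / 2 ^ b ≤ 10 * x / lam ^ 5 := by gcongr
    have e2 : 1 + lam ≤ 2 * lam := by linarith
    calc 10 * (x : ℝ) / 2 ^ b * u * (1 + log x) ≤ 10 * x / lam ^ 5 * (3 * lam) * (2 * lam) := by
          gcongr
      _ = 60 * x / lam ^ 3 := by field_simp; norm_num
      _ ≤ 60 / s * (x / s) := by
          rw [← hs2, div_mul_div_comm, div_le_div_iff₀ (by positivity) (by positivity)]
          have e3 : (s ^ 2) ^ 3 = s * s * s ^ 4 := by ring
          rw [e3]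
          have e4 : (1 : ℝ) ≤ s ^ 4 := one_le_pow₀ (by linarith)
          calc 60 * (x : ℝ) * (s * s) = 60 * x * (s * s * 1) := by ring
            _ ≤ 60 * x * (s * s * s ^ 4) := by gcongr
      _ ≤ ε / 8 * (x / s) := mul_le_mul_of_nonneg_right g3 hxs.le
  have bj : ∀ j ∈ J, (#(Cs j) : ℝ) + #(Ds j) ≤ 640 * C * (x / s) * (1 / 2) ^ j := by
    intro j hj
    rw [hJ, mem_filter] at hj
    have h2j : (0 : ℝ) < 2 ^ j := by positivity
    have h2j1 : (1 : ℝ) ≤ 2 ^ j := one_le_pow₀ (by norm_num)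
    have h44 : (4 : ℝ) ^ j = 2 ^ j * 2 ^ j := by rw [← mul_pow]; norm_num
    have hkj : kap s j = 1000 * s * 4 ^ j := rfl
    have h4j1 : (1 : ℝ) ≤ 4 ^ j := one_le_pow₀ (by norm_num)
    have hκ : 1000 * s ≤ kap s j := by
      rw [hkj]; exact le_mul_of_one_le_right (by positivity) h4j1
    have hs2j : 1 ≤ s / 2 ^ j := by
      rw [le_div_iff₀ h2j, one_mul]
      have : (2 : ℝ) ^ j ≤ 4 ^ j := pow_le_pow_left₀ (by norm_num) (by norm_num) j
      linarith [hj.2]
    have hs2j' : s / 2 ^ j ≤ s := div_le_self hs0.le h2j1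
    have hsv' := hsv (exp (s / 2 ^ j)) (exp (kap s j / 20)) (exp (4 * kap s j)) (by
      have := add_one_le_exp (s / 2 ^ j)
      linarith) (exp_le_exp.2 (by linarith)) (exp_le_exp.2 (by linarith))
    obtain ⟨v1, v2⟩ := hsv'
    rw [log_exp, log_exp, log_exp] at v1
    simp only [log_exp] at v2
    have ev : s / 2 ^ j * (4 * kap s j / (kap s j / 20)) = 80 * s * (1 / 2) ^ j := by
      have : kap s j ≠ 0 := by
        have : 0 < kap s j := by linarith
        exact this.ne'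
      rw [one_div, inv_pow]
      field_simp
      norm_num
    rw [ev] at v1 v2
    have c1 : (#(Cs j) : ℝ) ≤ 560 * C * (x / s) * (1 / 2) ^ j := by
      have e2 := card_prod_prime x h4 h1 ({m ∈ Icc 1 x | m ^ 2 ≤ x ∧
        Sm (exp (s / 2 ^ j)) (exp (kap s j / 20)) (exp (4 * kap s j)) m}) (Cs j) (by
        intro m hm
        rw [mem_filter, mem_Icc] at hm
        exact ⟨hm.1.1, hm.2.1⟩) (by
        intro n hn
        rw [hCs, mem_filter, mem_Icc] at hn
        obtain ⟨⟨n1, n2⟩, P, m, hP, hm, hm2, hm3⟩ := hn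
        have hm0 : 0 < m := Nat.pos_of_ne_zero (by rintro rfl; simp at hm; omega)
        have hmx : m ^ 2 ≤ x := by
          calc m ^ 2 = m * m := sq m
            _ ≤ P * m := Nat.mul_le_mul_right _ hm2
            _ = n := hm.symm
            _ ≤ x := n2
        refine ⟨n2, P, m, hP, hm, ?_⟩
        rw [mem_filter, mem_Icc]
        exact ⟨⟨hm0, (Nat.le_self_pow (by norm_num) m).trans hmx⟩, hmx, hm3⟩)
      have e3 := v1 ({m ∈ Icc 1 x | m ^ 2 ≤ x ∧
        Sm (exp (s / 2 ^ j)) (exp (kap s j / 20)) (exp (4 * kap s j)) m}) (by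
        intro m hm
        rw [mem_filter, mem_Icc] at hm
        exact ⟨by omega, hm.2.2⟩)
      refine e2.trans ?_
      rw [← hlam, ← hs2]
      calc 7 * (x : ℝ) / s ^ 2 * _ ≤ 7 * (x : ℝ) / s ^ 2 * (C * (80 * s * (1 / 2) ^ j)) := by
            gcongr
        _ = 560 * C * (x / s) * (1 / 2) ^ j := by field_simp; norm_num
    have c2 : (#(Ds j) : ℝ) ≤ 80 * C * (x / s) * (1 / 2) ^ j := by
      have e1 := v2 x (Ds j) (by omega) (by
        intro n hn
        rw [hDs, mem_filter] at hn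
        exact hn)
      refine e1.trans (le_of_eq ?_)
      rw [← hlam, ← hs2]
      field_simp
    have c3 : 640 * C * ((x : ℝ) / s) * (1 / 2) ^ j = 560 * C * (x / s) * (1 / 2) ^ j +
        80 * C * (x / s) * (1 / 2) ^ j := by ring
    rw [c3]
    exact add_le_add c1 c2
  have bJ : ∑ j ∈ J, ((#(Cs j) : ℝ) + #(Ds j)) ≤ ε / 2 * (x / s) := by
    refine (sum_le_sum bj).trans ?_
    rw [← mul_sum]
    have e1 : ∑ j ∈ J, (1 / 2 : ℝ) ^ j ≤ 2 * (1 / 2) ^ j1 := by
      refine (sum_le_sum_of_subset_of_nonneg (filter_subset _ _)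
        fun _ _ _ => by positivity).trans ?_
      rw [sum_Ico_eq_sum_range]
      simp only [pow_add, Nat.add_sub_cancel_left]
      rw [← mul_sum, geom_sum_eq (by norm_num), mul_comm]
      apply mul_le_mul_of_nonneg_right _ (by positivity)
      rw [div_le_iff_of_neg (by norm_num)]
      have : (0 : ℝ) ≤ (1 / 2) ^ ⌈s⌉₊ := by positivity
      linarith
    calc 640 * C * ((x : ℝ) / s) * ∑ j ∈ J, (1 / 2 : ℝ) ^ j ≤
          640 * C * ((x : ℝ) / s) * (2 * (1 / 2) ^ j1) := by gcongr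
      _ = (1280 * C * (1 / 2) ^ j1) * (x / s) := by ring
      _ ≤ ε / 2 * (x / s) := mul_le_mul_of_nonneg_right hj1 hxs.le
  have hfin : ε / 4 * ((x : ℝ) / s) + ε / 8 * (x / s) + ε / 2 * (x / s) ≤ ε * (x / s) := by
    have : 0 ≤ ε * ((x : ℝ) / s) := by positivity
    linarith
  linarith

end ESGcd
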