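import Pool.Agent.ESGcd.Count

/-!
# At least `x / (320 √(log x))` solutions up to `x`
-/

namespace ESGcd

open Finset Real Filter

/-- Chebyshev. -/
lemma pi_lower (z : ℕ) (hz : 20 ≤ z) : (z : ℝ) / 2 / log z ≤ Nat.primeCounting z := by
  have h1 := Chebyshev.pi_ge z
  refine le_trans ?_ h1
  have hz' : (20 : ℝ) ≤ z := by exact_mod_cast hz
  have hlog : 0 < log z := log_pos (by linarith)
  apply div_le_div_of_nonneg_right _ hlog.le
  have h2 : log ((z + 1 : ℝ) / 16) ≤ (z + 1) / 16 - 1 := log_le_sub_one_of_pos (by positivity)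
  rw [log_div (by positivity) (by norm_num)] at h2
  have h3 : log 16 = 4 * log 2 := by
    rw [show (16 : ℝ) = 2 ^ 4 by norm_num, log_pow]; norm_num
  have h4 := log_two_lt_d9
  have h5 := log_two_gt_d9
  nlinarith

/-- the bound for one cofactor -/
lemma good_lower (x m M : ℕ) (s : ℝ) (hs : 3000 ≤ s) (hx : (x : ℝ) = exp (s ^ 2)) (hm : 2 ≤ m)
    (hmM : m ≤ M) (hM : (M : ℝ) ≤ exp (s / 20)) :
    (x : ℝ) / (8 * s ^ 2) * (m : ℝ)⁻¹ ≤ #(good M m (x / m)) := by
  have hm0 : (0 : ℝ) < m := by exact_mod_cast (by omega : 0 < m)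
  have hm2 : (2 : ℝ) ≤ m := by exact_mod_cast hm
  have hmY : (m : ℝ) ≤ exp (s / 20) := (by exact_mod_cast hmM : (m : ℝ) ≤ M).trans hM
  have hs0 : 0 < s := by linarith
  obtain ⟨R, hR⟩ : ∃ R : ℝ, R = (x : ℝ) / m := ⟨_, rfl⟩
  have hRge : exp (s ^ 2 / 2) ≤ R := by
    rw [hR, le_div_iff₀ hm0, hx]
    calc exp (s ^ 2 / 2) * m ≤ exp (s ^ 2 / 2) * exp (s / 20) := by gcongr
      _ = exp (s ^ 2 / 2 + s / 20) := (exp_add _ _).symm
      _ ≤ exp (s ^ 2) := by apply exp_le_exp.2; nlinarith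
  have hRbig : 1000 ≤ R := by
    have h1 := add_one_le_exp (s ^ 2 / 2)
    nlinarith
  have hRx : R ≤ exp (s ^ 2) := by
    rw [hR, ← hx, div_le_iff₀ hm0]
    have : (0 : ℝ) ≤ x := by positivity
    nlinarith
  set z := x / m with hz
  have hzR : (z : ℝ) ≤ R := by rw [hR]; exact Nat.cast_div_le
  have hzR' : R - 1 ≤ z := by
    have h1 : x < m * (z + 1) := by
      rw [hz]; exact Nat.lt_mul_div_succ x (by omega)
    have h2 : (x : ℝ) < m * (z + 1) := by exact_mod_cast h1
    rw [hR, sub_le_iff_le_add, div_le_iff₀ hm0]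
    linarith
  have hz20 : 20 ≤ z := by
    have : (20 : ℝ) ≤ z := by linarith
    exact_mod_cast this
  have hz0 : (0 : ℝ) < z := by exact_mod_cast (by omega : 0 < z)
  have hcard := card_good M m z hm (by omega)
  -- main term
  have hlogz : log z ≤ s ^ 2 := by
    rw [log_le_iff_le_exp hz0]; exact hzR.trans hRx
  have hlogz0 : 0 < log z := log_pos (by linarith)
  have hmain : R / (4 * s ^ 2) ≤ Nat.primeCounting z := by
    refine le_trans ?_ (pi_lower z hz20)
    rw [div_div, div_le_div_iff₀ (by positivity) (by positivity)]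
    calc R * (2 * log z) ≤ R * (2 * s ^ 2) := by
          apply mul_le_mul_of_nonneg_left _ (by linarith)
          linarith
      _ ≤ (2 * z) * (2 * s ^ 2) := by
          apply mul_le_mul_of_nonneg_right _ (by positivity)
          linarith
      _ = z * (4 * s ^ 2) := by ring
  -- the threshold `M`
  have hM' : (M : ℝ) ≤ R / (16 * s ^ 2) := by
    rw [hR, div_div, le_div_iff₀ (by positivity), hx]
    have h1 : (M : ℝ) * (m * (16 * s ^ 2)) ≤ exp (s / 20) * (exp (s / 20) * (16 * s ^ 2)) := by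
      gcongr
    refine h1.trans ?_
    have h2 : 16 * s ^ 2 ≤ exp (s ^ 2 / 2) := by
      have h3 := Real.quadratic_le_exp_of_nonneg (x := s ^ 2 / 2) (by positivity)
      have h4 : (128 : ℝ) ≤ s ^ 2 := by nlinarith
      nlinarith [mul_nonneg (sq_nonneg s) (sub_nonneg.2 h4)]
    calc exp (s / 20) * (exp (s / 20) * (16 * s ^ 2))
        ≤ exp (s / 20) * (exp (s / 20) * exp (s ^ 2 / 2)) := by gcongr
      _ = exp (s / 20 + (s / 20 + s ^ 2 / 2)) := by rw [exp_add, exp_add]
      _ ≤ exp (s ^ 2) := by apply exp_le_exp.2; nlinarith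
  -- the exceptional set
  have hbad : 8 * (m : ℝ) ^ 5 * (z : ℝ) ^ (1 - 1 / (5 * log (8 * (m : ℝ) ^ 2))) ≤
      R / (16 * s ^ 2) := by
    set θ : ℝ := 1 / (5 * log (8 * (m : ℝ) ^ 2)) with hθ
    have hl8 : log (8 * (m : ℝ) ^ 2) ≤ s / 5 := by
      rw [log_mul (by norm_num) (by positivity), log_pow]
      have h1 : log (m : ℝ) ≤ s / 20 := by rw [log_le_iff_le_exp hm0]; exact hmY
      have h2 : log 8 = 3 * log 2 := by
        rw [show (8 : ℝ) = 2 ^ 3 by norm_num, log_pow]; norm_num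
      have h3 := log_two_lt_d9
      push_cast
      linarith
    have hl8' : 1 ≤ log (8 * (m : ℝ) ^ 2) := by
      rw [le_log_iff_exp_le (by positivity)]
      have := exp_one_lt_d9
      nlinarith
    have hθs : 1 / s ≤ θ := by
      rw [hθ]
      apply one_div_le_one_div_of_le (by linarith) (by linarith)
    have hθ1 : θ ≤ 1 := by
      rw [hθ, div_le_one (by linarith)]; linarith
    have h1 : (z : ℝ) ^ (1 - θ) ≤ R ^ (1 - θ) := rpow_le_rpow hz0.le hzR (by linarith)
    have h2 : R ^ (1 - θ) = R * R ^ (-θ) := by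
      rw [sub_eq_add_neg, rpow_add (by linarith), rpow_one]
    have h3 : R ^ (-θ) ≤ exp (-(s / 2)) := by
      rw [rpow_def_of_pos (by linarith)]
      apply exp_le_exp.2
      have h4 : s ^ 2 / 2 ≤ log R := by
        rw [le_log_iff_exp_le (by linarith)]; exact hRge
      have h5 : s / 2 ≤ log R * θ := by
        calc s / 2 = (s ^ 2 / 2) * (1 / s) := by field_simp
          _ ≤ log R * θ := by
            apply mul_le_mul h4 hθs (by positivity)
            exact le_trans (by positivity) h4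
      linarith
    have h6 : (m : ℝ) ^ 5 ≤ exp (s / 4) := by
      calc (m : ℝ) ^ 5 ≤ (exp (s / 20)) ^ 5 := by gcongr
        _ = exp (s / 4) := by rw [← exp_nat_mul]; congr 1; push_cast; ring
    have h7 : 128 * s ^ 2 ≤ exp (s / 4) := by
      have h10 : (s / 16 + 1) ^ 4 ≤ exp (s / 4) := by
        have h9 := add_one_le_exp (s / 16)
        calc (s / 16 + 1) ^ 4 ≤ (exp (s / 16)) ^ 4 := by gcongr
          _ = exp (s / 4) := by rw [← exp_nat_mul]; congr 1; push_cast; ring
      have h11 : (s / 16) ^ 4 ≤ (s / 16 + 1) ^ 4 := by gcongr; linarith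
      have h12 : (s / 16) ^ 4 = (s ^ 2 / 65536) * s ^ 2 := by ring
      have h13 : (128 : ℝ) * 65536 ≤ s ^ 2 := by nlinarith
      have h14 : 128 * s ^ 2 ≤ (s ^ 2 / 65536) * s ^ 2 := by
        apply mul_le_mul_of_nonneg_right _ (by positivity)
        rw [le_div_iff₀ (by norm_num)]; linarith
      linarith
    calc 8 * (m : ℝ) ^ 5 * (z : ℝ) ^ (1 - θ) ≤ 8 * exp (s / 4) * (R * exp (-(s / 2))) := by
          gcongr
          rw [h2] at h1
          exact h1.trans (by gcongr)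
      _ = 8 * R * (exp (s / 4) * exp (-(s / 2))) := by ring
      _ = 8 * R * exp (-(s / 4)) := by rw [← exp_add]; congr 2; ring
      _ = 8 * R / exp (s / 4) := by rw [exp_neg]; rfl
      _ ≤ 8 * R / (128 * s ^ 2) := by gcongr
      _ = R / (16 * s ^ 2) := by field_simp; norm_num
  have hfin : R / (4 * s ^ 2) - R / (16 * s ^ 2) - R / (16 * s ^ 2) = R / (8 * s ^ 2) := by
    field_simp; norm_num
  have heq : (x : ℝ) / (8 * s ^ 2) * (m : ℝ)⁻¹ = R / (8 * s ^ 2) := by
    rw [hR]; field_simp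
  rw [heq]
  linarith

/-- **The number of solutions up to `x` is at least `x / (320 √(log x))` for large `x`.** -/
theorem count_lower : ∀ᶠ x : ℕ in atTop,
    (x : ℝ) / (320 * √(log x)) ≤ ({n | n ≤ x ∧ IsSolution n}.ncard : ℝ) := by
  have h1 : Tendsto (fun x : ℕ => √(log x)) atTop atTop :=
    tendsto_sqrt_atTop.comp (tendsto_log_atTop.comp tendsto_natCast_atTop_atTop)
  filter_upwards [h1.eventually_ge_atTop 3000, eventually_gt_atTop 1] with x hs hx1
  set s := √(log x) with hsdef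
  have hs0 : 0 < s := by linarith
  have hlog : 0 ≤ log (x : ℝ) := log_nonneg (by exact_mod_cast hx1.le)
  have hs2 : s ^ 2 = log x := sq_sqrt hlog
  have hx : (x : ℝ) = exp (s ^ 2) := by
    rw [hs2, exp_log (by exact_mod_cast (by omega : 0 < x))]
  set M := ⌊exp (s / 20)⌋₊ with hM
  have hM1 : (M : ℝ) ≤ exp (s / 20) := Nat.floor_le (exp_pos _).le
  have hM2 : exp (s / 20) < M + 1 := Nat.lt_floor_add_one _
  have h2 : ∑ m ∈ Icc 2 M, (x : ℝ) / (8 * s ^ 2) * (m : ℝ)⁻¹ ≤
      ((∑ m ∈ Icc 2 M, #(good M m (x / m)) : ℕ) : ℝ) := by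
    push_cast
    refine sum_le_sum fun m hm => ?_
    rw [mem_Icc] at hm
    exact good_lower x m M s hs hx hm.1 hm.2 hM1
  have h3 : ((∑ m ∈ Icc 2 M, #(good M m (x / m)) : ℕ) : ℝ) ≤
      ({n | n ≤ x ∧ IsSolution n}.ncard : ℝ) := by exact_mod_cast sum_good_le M x
  refine le_trans ?_ (h2.trans h3)
  rw [← mul_sum]
  have h4 : s / 20 - 1 ≤ ∑ m ∈ Icc 2 M, (m : ℝ)⁻¹ := by
    have h5 := log_add_one_le_harmonic M
    rw [harmonic_eq_sum_Icc] at h5
    push_cast at h5
    have hM0 : 1 ≤ M := by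
      rw [hM]; apply Nat.le_floor; simp; positivity
    have h6 : ∑ m ∈ Icc 1 M, (m : ℝ)⁻¹ = 1 + ∑ m ∈ Icc 2 M, (m : ℝ)⁻¹ := by
      rw [← Finset.insert_Icc_succ_left_eq_Icc hM0, sum_insert (by simp)]
      simp
    rw [h6] at h5
    have h7 : s / 20 ≤ log (M + 1 : ℝ) := by
      rw [le_log_iff_exp_le (by positivity)]; exact hM2.le
    linarith
  have h8 : s / 40 ≤ ∑ m ∈ Icc 2 M, (m : ℝ)⁻¹ := by linarith
  have hx0 : (0 : ℝ) ≤ (x : ℝ) / (8 * s ^ 2) := by positivity
  calc (x : ℝ) / (320 * s) = (x : ℝ) / (8 * s ^ 2) * (s / 40) := by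
        field_simp; norm_num
    _ ≤ _ := mul_le_mul_of_nonneg_left h8 hx0

end ESGcd
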