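import Pool.Agent.ESGcd.Carry

/-!
# The `u` for which `m ∤ C(m u, j u)` for some `0 < j < m` are rare
-/

namespace ESGcd

open Finset Real

/-- the exceptional multipliers -/
def IsBad (m u : ℕ) : Prop := ∃ j, 0 < j ∧ j < m ∧ ¬ m ∣ (m * u).choose (j * u)

lemma exp_bound {Q T : ℕ} {x B : ℝ} (hQ : 1 < (Q : ℝ)) (hQB : (Q : ℝ) ≤ B) (hx : 1 ≤ x)
    (hT : x ≤ (Q : ℝ) ^ T) : ((13 : ℝ) / 16) ^ T ≤ x ^ (-(1 / (5 * log B))) := by
  have hB : 1 < B := hQ.trans_le hQB
  have hlB : 0 < log B := log_pos hB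
  have hlQ : 0 < log Q := log_pos hQ
  have h1 : log x ≤ T * log Q := by
    rw [← log_pow]; exact log_le_log (by linarith) hT
  have h2 : log (13 / 16 : ℝ) ≤ -(1 / 5) := by
    rw [show (13 / 16 : ℝ) = (16 / 13)⁻¹ by norm_num, log_inv]
    have h3 : (1 / 5 : ℝ) ≤ log (16 / 13) := by
      rw [le_log_iff_exp_le (by norm_num)]
      have h4 : exp (1 / 5 : ℝ) ^ 5 ≤ (16 / 13 : ℝ) ^ 5 := by
        rw [← exp_nat_mul]
        have := exp_one_lt_d9
        norm_num
        linarith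
      exact le_of_pow_le_pow_left₀ (by norm_num) (by norm_num) h4
    linarith
  have hlx : 0 ≤ log x := log_nonneg hx
  have h5 : log x / log B ≤ T := by
    rw [div_le_iff₀ hlB]
    refine h1.trans ?_
    exact mul_le_mul_of_nonneg_left (log_le_log (by linarith) hQB) (by positivity)
  rw [← log_le_log_iff (by positivity) (rpow_pos_of_pos (by linarith) _), log_pow,
    log_rpow (by linarith)]
  calc (T : ℝ) * log (13 / 16) ≤ T * (-(1 / 5)) := mul_le_mul_of_nonneg_left h2 (by positivity)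
    _ ≤ (log x / log B) * (-(1 / 5)) := by nlinarith
    _ = -(1 / (5 * log B)) * log x := by field_simp

/-- For a prime `q ∣ m` and `0 < j < m`: few `u ≤ x` with `v_q C(m u, j u) < v_q m`. -/
lemma few_one (m q j x : ℕ) (hm : 2 ≤ m) (hq : q.Prime) (hqm : q ∣ m) (hj : 0 < j) (hjm : j < m)
    (hx : 1 ≤ x) :
    (#{u ∈ Icc 1 x | ((m * u).choose (j * u)).factorization q < m.factorization q} : ℝ) ≤
      8 * m ^ 3 * (x : ℝ) ^ (1 - 1 / (5 * log (8 * m ^ 2))) := by
  have hq2 : 2 ≤ q := hq.two_le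
  have hqm' : q ≤ m := Nat.le_of_dvd (by omega) hqm
  -- the block length
  obtain ⟨l, hl0, hl1, hl2⟩ : ∃ l, 0 < l ∧ 8 * m ≤ q ^ l ∧ q ^ l ≤ 8 * m ^ 2 := by
    have hex : ∃ l, 8 * m ≤ q ^ l := ⟨8 * m, (Nat.lt_pow_self hq.one_lt).le⟩
    refine ⟨Nat.find hex, ?_, Nat.find_spec hex, ?_⟩
    · rw [Nat.find_pos]; simp; omega
    · have h0 : 0 < Nat.find hex := by rw [Nat.find_pos]; simp; omega
      have h1 := Nat.find_min hex (m := Nat.find hex - 1) (by omega)
      have h2 : q ^ (Nat.find hex) = q ^ (Nat.find hex - 1) * q := by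
        rw [← pow_succ]; congr 1; omega
      rw [h2]
      have h3 : q ^ (Nat.find hex - 1) ≤ 8 * m := by omega
      calc q ^ (Nat.find hex - 1) * q ≤ (8 * m) * m := Nat.mul_le_mul h3 hqm'
        _ = 8 * m ^ 2 := by ring
  set Q := q ^ l with hQdef
  have hQ1 : 1 < Q := by omega
  obtain ⟨T, hT1, hT2⟩ : ∃ T, x < Q ^ T ∧ Q ^ T ≤ Q * x := by
    have hex : ∃ T, x < Q ^ T := ⟨x, Nat.lt_pow_self hQ1⟩
    refine ⟨Nat.find hex, Nat.find_spec hex, ?_⟩
    have h0 : 0 < Nat.find hex := by rw [Nat.find_pos]; simp; omega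
    have h1 := Nat.find_min hex (m := Nat.find hex - 1) (by omega)
    have h2 : Q ^ (Nat.find hex) = Q * Q ^ (Nat.find hex - 1) := by
      rw [← pow_succ']; congr 1; omega
    rw [h2]
    exact Nat.mul_le_mul_left _ (by omega)
  set a := m.factorization q with ha
  have h2a : (2 : ℝ) ^ a ≤ m := by
    have h1 : q ^ a ∣ m := Nat.ordProj_dvd m q
    have h2 : q ^ a ≤ m := Nat.le_of_dvd (by omega) h1
    have h3 : 2 ^ a ≤ q ^ a := Nat.pow_le_pow_left hq2 a
    exact_mod_cast h3.trans h2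
  have hfc := few_carries Q j (m - j) hj (by omega) (by
    have : j + (m - j) = m := by omega
    rw [this]; exact hl1) T a
  have hsub : ({u ∈ Icc 1 x | ((m * u).choose (j * u)).factorization q < m.factorization q} :
      Finset ℕ) ⊆ {u ∈ range (Q ^ T) | cc Q j (m - j) T u < a} := by
    intro u hu
    rw [mem_filter, mem_Icc] at hu
    rw [mem_filter, mem_range]
    refine ⟨by omega, ?_⟩
    have h1 := cc_le_factorization q l j (m - j) T u hq hl0
    have h2 : j + (m - j) = m := by omega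
    rw [h2] at h1
    exact lt_of_le_of_lt h1 hu.2
  have hcard : (#{u ∈ Icc 1 x | ((m * u).choose (j * u)).factorization q < m.factorization q} : ℝ)
      ≤ 2 ^ a * (13 / 16 * Q) ^ T := (by exact_mod_cast card_le_card hsub : _ ≤ _).trans hfc
  refine hcard.trans ?_
  have hx1 : (1 : ℝ) ≤ x := by exact_mod_cast hx
  have hB : ((Q : ℕ) : ℝ) ≤ 8 * (m : ℝ) ^ 2 := by exact_mod_cast hl2
  have hexp := exp_bound (Q := Q) (T := T) (x := x) (B := 8 * (m : ℝ) ^ 2)
    (by exact_mod_cast hQ1) hB hx1 (by exact_mod_cast hT1.le)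
  have hQT : ((Q : ℕ) : ℝ) ^ T ≤ 8 * (m : ℝ) ^ 2 * x := by
    have h1 : ((Q : ℕ) : ℝ) ^ T ≤ Q * x := by exact_mod_cast hT2
    exact h1.trans (mul_le_mul_of_nonneg_right hB (by positivity))
  rw [mul_pow]
  have hxr : (x : ℝ) ^ (1 - 1 / (5 * log (8 * (m : ℝ) ^ 2))) =
      x * (x : ℝ) ^ (-(1 / (5 * log (8 * (m : ℝ) ^ 2)))) := by
    rw [sub_eq_add_neg, rpow_add (by linarith), rpow_one]
  rw [hxr]
  have hr0 : 0 ≤ (x : ℝ) ^ (-(1 / (5 * log (8 * (m : ℝ) ^ 2)))) := by positivity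
  calc (2 : ℝ) ^ a * ((13 / 16) ^ T * (Q : ℝ) ^ T)
      ≤ m * ((x : ℝ) ^ (-(1 / (5 * log (8 * (m : ℝ) ^ 2)))) * (8 * (m : ℝ) ^ 2 * x)) := by
        gcongr
    _ = _ := by ring

/-- **Theorem.** The number of `u ≤ x` such that `m ∤ C(m u, j u)` for some `0 < j < m`. -/
theorem few_bad (m x : ℕ) (hm : 2 ≤ m) (hx : 1 ≤ x) :
    ({u ∈ Set.Icc 1 x | IsBad m u}.ncard : ℝ) ≤
      8 * m ^ 5 * (x : ℝ) ^ (1 - 1 / (5 * log (8 * m ^ 2))) := by
  classical
  have hsub : {u ∈ Set.Icc 1 x | IsBad m u} ⊆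
      ((m.primeFactors ×ˢ Ioo 0 m).biUnion fun p =>
        {u ∈ Icc 1 x | ((m * u).choose (p.2 * u)).factorization p.1 < m.factorization p.1} :
        Finset ℕ) := by
    rintro u ⟨hu, j, hj0, hjm, hndvd⟩
    have hne : (m * u).choose (j * u) ≠ 0 :=
      (Nat.choose_pos (Nat.mul_le_mul_right u hjm.le)).ne'
    rw [← Nat.factorization_le_iff_dvd (by omega) hne] at hndvd
    rw [Finsupp.le_def, not_forall] at hndvd
    obtain ⟨q, hq⟩ := hndvd
    rw [not_le] at hq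
    rw [mem_coe, mem_biUnion]
    refine ⟨(q, j), ?_, ?_⟩
    · rw [mem_product, mem_Ioo]
      refine ⟨?_, hj0, hjm⟩
      have h7 : m.factorization q ≠ 0 := by omega
      rw [← Nat.support_factorization]
      exact Finsupp.mem_support_iff.2 h7
    · rw [mem_filter, mem_Icc]
      exact ⟨hu, hq⟩
  have h1 := (Set.ncard_le_ncard hsub (Finset.finite_toSet _))
  rw [Set.ncard_coe_finset] at h1
  have h2 : (#((m.primeFactors ×ˢ Ioo 0 m).biUnion fun p =>
        {u ∈ Icc 1 x | ((m * u).choose (p.2 * u)).factorization p.1 < m.factorization p.1}) : ℝ) ≤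
      ∑ p ∈ m.primeFactors ×ˢ Ioo 0 m,
        (8 * (m : ℝ) ^ 3 * (x : ℝ) ^ (1 - 1 / (5 * log (8 * m ^ 2)))) := by
    refine (by exact_mod_cast card_biUnion_le : _ ≤
      ((∑ p ∈ m.primeFactors ×ˢ Ioo 0 m, #{u ∈ Icc 1 x |
        ((m * u).choose (p.2 * u)).factorization p.1 < m.factorization p.1} : ℕ) : ℝ)).trans ?_
    push_cast
    refine sum_le_sum fun p hp => ?_
    rw [mem_product, mem_Ioo] at hp
    exact few_one m p.1 p.2 x hm (Nat.prime_of_mem_primeFactors hp.1)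
      (Nat.dvd_of_mem_primeFactors hp.1) hp.2.1 hp.2.2 hx
  rw [sum_const, card_product, Nat.card_Ioo, nsmul_eq_mul] at h2
  have h3 : ((#m.primeFactors * (m - 0 - 1) : ℕ) : ℝ) ≤ m * m := by
    have h4 : #m.primeFactors ≤ m := by
      have : m.primeFactors ⊆ Icc 1 m := by
        intro q hq
        rw [mem_Icc]
        exact ⟨(Nat.prime_of_mem_primeFactors hq).pos,
          Nat.le_of_dvd (by omega) (Nat.dvd_of_mem_primeFactors hq)⟩
      simpa using card_le_card this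
    have h5 : #m.primeFactors * (m - 0 - 1) ≤ m * m := Nat.mul_le_mul h4 (by omega)
    exact_mod_cast h5
  calc ({u ∈ Set.Icc 1 x | IsBad m u}.ncard : ℝ) ≤ _ := by exact_mod_cast h1
    _ ≤ _ := h2
    _ ≤ (m * m) * (8 * (m : ℝ) ^ 3 * (x : ℝ) ^ (1 - 1 / (5 * log (8 * m ^ 2)))) := by
        apply mul_le_mul_of_nonneg_right h3 (by positivity)
    _ = _ := by ring

end ESGcd
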