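import Mathlib

/-!
# Counting lemmas for arithmetic progressions modulo `M`
-/

namespace ESGcd

open Finset

/-- multiples of `c` in an interval of length `L`. -/
lemma card_mul_window (c a L S : ℕ) (hc : 0 < c) :
    #{s ∈ Icc 1 S | a ≤ c * s ∧ c * s < a + L} ≤ L / c + 1 := by
  set b := (a + c - 1) / c with hb
  have h1 : ({s ∈ Icc 1 S | a ≤ c * s ∧ c * s < a + L} : Finset ℕ) ⊆ Icc b (b + L / c) := by
    intro s hs
    rw [mem_filter] at hs
    obtain ⟨-, h2, h3⟩ := hs
    have h4 : a ≤ c * b := by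
      have := Nat.div_add_mod (a + c - 1) c
      have h5 := Nat.mod_lt (a + c - 1) hc
      rw [← hb] at this
      omega
    have h6 : b ≤ s := by
      rw [hb]
      apply Nat.le_of_lt_succ
      rw [Nat.div_lt_iff_lt_mul hc, Nat.succ_mul, mul_comm s c]
      omega
    rw [mem_Icc]
    refine ⟨h6, ?_⟩
    have h7 : (s - b) * c ≤ L := by
      have h8 : (s - b) * c = c * s - c * b := by rw [Nat.sub_mul, mul_comm s c, mul_comm b c]
      omega
    have h9 : s - b ≤ L / c := (Nat.le_div_iff_mul_le hc).2 h7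
    omega
  refine (card_le_card h1).trans ?_
  rw [Nat.card_Icc]
  generalize L / c = q
  omega

/-- The number of `s ≤ S` with `c s mod M < L`. -/
lemma rot (c M L S : ℕ) (hc : 0 < c) :
    #{s ∈ Icc 1 S | (c * s) % M < L} ≤ (c * S / M + 1) * (L / c + 1) := by
  have h1 : ({s ∈ Icc 1 S | (c * s) % M < L} : Finset ℕ) ⊆
      (range (c * S / M + 1)).biUnion fun g =>
        {s ∈ Icc 1 S | g * M ≤ c * s ∧ c * s < g * M + L} := by
    intro s hs
    rw [mem_filter] at hs
    rw [mem_biUnion]
    have h2 := Nat.div_add_mod (c * s) M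
    refine ⟨c * s / M, ?_, ?_⟩
    · rw [mem_range]
      apply Nat.lt_succ_of_le
      apply Nat.div_le_div_right
      exact Nat.mul_le_mul_left c (mem_Icc.1 hs.1).2
    · rw [mem_filter]
      refine ⟨hs.1, ?_, ?_⟩
      · rw [mul_comm]; omega
      · rw [mul_comm (c * s / M) M]; omega
  refine (card_le_card h1).trans (card_biUnion_le.trans ?_)
  refine (sum_le_card_nsmul _ _ _ fun g _ => card_mul_window c (g * M) L S hc).trans ?_
  rw [card_range, smul_eq_mul]

/-- The number of `P ∈ (Y, 2 Y]` with `P s mod M < L`, for `s` coprime to `M`. -/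
lemma residue (s M L Y : ℕ) (hM : 0 < M) (hs : Nat.Coprime s M) :
    #{P ∈ Ioc Y (2 * Y) | (P * s) % M < L} ≤ (Y / M + 2) * L := by
  have h1 : ({P ∈ Ioc Y (2 * Y) | (P * s) % M < L} : Finset ℕ) ⊆
      (range L).biUnion fun r => {P ∈ Ioc Y (2 * Y) | (P * s) % M = r} := by
    intro P hP
    rw [mem_filter] at hP
    rw [mem_biUnion]
    exact ⟨(P * s) % M, mem_range.2 hP.2, by rw [mem_filter]; exact ⟨hP.1, rfl⟩⟩
  refine (card_le_card h1).trans (card_biUnion_le.trans ?_)
  have h2 : ∀ r ∈ range L, #{P ∈ Ioc Y (2 * Y) | (P * s) % M = r} ≤ Y / M + 2 := by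
    intro r _
    have h3 : #{P ∈ Ioc Y (2 * Y) | (P * s) % M = r} ≤ #(Icc (Y / M) (2 * Y / M)) := by
      apply card_le_card_of_injOn (fun P => P / M)
      · intro P hP
        simp only [coe_filter, mem_Ioc, Set.mem_ofPred_eq] at hP
        simp only [coe_Icc, Set.mem_Icc]
        exact ⟨Nat.div_le_div_right hP.1.1.le, Nat.div_le_div_right hP.1.2⟩
      · intro P hP P' hP' heq
        simp only [coe_filter, mem_Ioc, Set.mem_ofPred_eq] at hP hP'
        simp only at heq
        have h4 : P * s ≡ P' * s [MOD M] := by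
          unfold Nat.ModEq; rw [hP.2, hP'.2]
        have h5 : P ≡ P' [MOD M] := Nat.ModEq.cancel_right_of_coprime (by
          rw [Nat.gcd_comm]; exact hs) h4
        rw [← Nat.div_add_mod P M, ← Nat.div_add_mod P' M, heq, h5]
    refine h3.trans ?_
    rw [Nat.card_Icc]
    have h6 : 2 * Y / M ≤ Y / M + Y / M + 1 := by
      rw [two_mul, Nat.add_div hM]
      split_ifs <;> omega
    generalize 2 * Y / M = u at *
    generalize Y / M = v at *
    omega
  refine (sum_le_card_nsmul _ _ _ h2).trans ?_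
  rw [card_range, smul_eq_mul, mul_comm]

end ESGcd
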