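import Pool.Agent.ESGcd.Exist
import Pool.Agent.ESGcd.Rot

/-!
# The exceptional primes `P ∈ (Y, 2 Y]`
-/

namespace ESGcd

open Finset

/-- the integer with signed digits `z`. -/
def NZ (l : ℕ) (T : Finset ℕ) (z : T → ℤ) : ℤ := ∑ t : T, z t * (l : ℤ) ^ (t : ℕ)

lemma NZ_ne_zero {l : ℕ} {T : Finset ℕ} (hl : 2 ≤ l) (z : T → ℤ) (hz : ∀ t, |z t| < l)
    (h0 : NZ l T z = 0) : z = 0 := by
  have key : ∀ n : ℕ, ∀ t : T, (t : ℕ) = n → z t = 0 := by
    intro n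
    induction n using Nat.strong_induction_on with
    | _ n ih =>
      intro t ht
      have h1 : z t * (l : ℤ) ^ (t : ℕ) + ∑ s ∈ univ.erase t, z s * (l : ℤ) ^ (s : ℕ) = 0 := by
        rw [add_sum_erase univ (fun s : T => z s * (l : ℤ) ^ (s : ℕ)) (mem_univ t)]; exact h0
      have h2 : (l : ℤ) ^ ((t : ℕ) + 1) ∣ ∑ s ∈ univ.erase t, z s * (l : ℤ) ^ (s : ℕ) := by
        apply dvd_sum
        intro s hs
        have hne : s ≠ t := ne_of_mem_erase hs
        rcases lt_trichotomy (s : ℕ) (t : ℕ) with h | h | h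
        · rw [ih s (by omega) s rfl]; simp
        · exact absurd (Subtype.ext h) hne
        · exact Dvd.dvd.mul_left (pow_dvd_pow _ h) _
      have h3 : (l : ℤ) ^ ((t : ℕ) + 1) ∣ z t * (l : ℤ) ^ (t : ℕ) := by
        have : z t * (l : ℤ) ^ (t : ℕ) = -∑ s ∈ univ.erase t, z s * (l : ℤ) ^ (s : ℕ) := by
          linarith
        rw [this]; exact (dvd_neg).2 h2
      rw [pow_succ, mul_comm ((l : ℤ) ^ (t : ℕ))] at h3
      have hl0 : (l : ℤ) ^ (t : ℕ) ≠ 0 := by positivity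
      have h4 : (l : ℤ) ∣ z t := Int.dvd_of_mul_dvd_mul_right hl0 h3
      exact Int.eq_zero_of_abs_lt_dvd h4 (hz t)
  funext t
  exact key _ t rfl

lemma abs_NZ_lt {l : ℕ} {T : Finset ℕ} (m : ℕ) (hl : 2 ≤ l) (hT : T ⊆ range m) (z : T → ℤ)
    (hz : ∀ t, |z t| < l) : |NZ l T z| < (l : ℤ) ^ m := by
  have h1 : |NZ l T z| ≤ ∑ t : T, ((l : ℤ) - 1) * (l : ℤ) ^ (t : ℕ) := by
    unfold NZ
    refine (abs_sum_le_sum_abs _ _).trans (sum_le_sum fun t _ => ?_)
    rw [abs_mul, abs_of_nonneg (by positivity : (0 : ℤ) ≤ (l : ℤ) ^ (t : ℕ))]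
    apply mul_le_mul_of_nonneg_right _ (by positivity)
    have := hz t
    omega
  have h2 : ∑ t : T, ((l : ℤ) - 1) * (l : ℤ) ^ (t : ℕ) = ∑ t ∈ T, ((l : ℤ) - 1) * (l : ℤ) ^ t :=
    sum_coe_sort T (fun t => ((l : ℤ) - 1) * (l : ℤ) ^ t)
  have h3 : ∑ t ∈ T, ((l : ℤ) - 1) * (l : ℤ) ^ t ≤ ∑ t ∈ range m, ((l : ℤ) - 1) * (l : ℤ) ^ t := by
    apply sum_le_sum_of_subset_of_nonneg hT
    intro t _ _
    have : (0 : ℤ) ≤ (l : ℤ) - 1 := by omega
    positivity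
  have h4 : ∑ t ∈ range m, ((l : ℤ) - 1) * (l : ℤ) ^ t = (l : ℤ) ^ m - 1 := by
    rw [← mul_sum, mul_comm, geom_sum_mul]
  linarith

/-- **First exceptional set.** -/
lemma card_exc1 (l m y Y : ℕ) (T : Finset ℕ) (hl : 2 ≤ l) (hT : T ⊆ range m) (hy : y < l)
    (hm : l ^ m ≤ Y ^ 2) (E : Finset ℕ)
    (hE : ∀ P ∈ E, P.Prime ∧ Y < P ∧ ¬ Set.InjOn (phi l P T) (box T y)) :
    #E ≤ (2 * y + 1) ^ #T := by
  classical
  have h1 : ∀ P ∈ E, ∃ z : T → ℤ, (∀ t, z t ∈ Icc (-(y : ℤ)) y) ∧ z ≠ 0 ∧ (P : ℤ) ∣ NZ l T z := by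
    intro P hP
    obtain ⟨-, -, h⟩ := hE P hP
    rw [Set.InjOn] at h
    push Not at h
    obtain ⟨d, hd, e, he, hde, hne⟩ := h
    rw [mem_coe, mem_box] at hd he
    refine ⟨fun t => (d t : ℤ) - e t, fun t => ?_, ?_, ?_⟩
    · rw [mem_Icc]
      have := hd t
      have := he t
      show -(y : ℤ) ≤ (d t : ℤ) - e t ∧ (d t : ℤ) - e t ≤ y
      constructor <;> omega
    · intro h0
      apply hne
      funext t
      have := congrFun h0 t
      simp only [Pi.zero_apply] at this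
      omega
    · rw [← ZMod.intCast_zmod_eq_zero_iff_dvd]
      unfold NZ
      unfold phi at hde
      push_cast
      simp only [sub_mul, sum_sub_distrib]
      rw [hde, sub_self]
  choose! z hz1 hz2 hz3 using h1
  have h2 : #E ≤ #(Fintype.piFinset fun _ : T => Icc (-(y : ℤ)) y) := by
    apply card_le_card_of_injOn z
    · intro P hP
      rw [mem_coe, Fintype.mem_piFinset]
      exact hz1 P hP
    · intro P hP P' hP' heq
      by_contra hne
      rw [mem_coe] at hP hP'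
      obtain ⟨p1, p2, -⟩ := hE P hP
      obtain ⟨q1, q2, -⟩ := hE P' hP'
      have hlt : ∀ t, |z P t| < l := by
        intro t
        have := hz1 P hP t
        rw [mem_Icc] at this
        have : |z P t| ≤ y := abs_le.2 this
        omega
      have h0 : NZ l T (z P) ≠ 0 := fun h => hz2 P hP (NZ_ne_zero hl _ hlt h)
      have h3 := abs_NZ_lt m hl hT (z P) hlt
      have h4 : P ∣ (NZ l T (z P)).natAbs := Int.natCast_dvd.1 (hz3 P hP)
      have h5 : P' ∣ (NZ l T (z P)).natAbs := by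
        rw [heq]; exact Int.natCast_dvd.1 (hz3 P' hP')
      have h6 : P * P' ∣ (NZ l T (z P)).natAbs :=
        Nat.Coprime.mul_dvd_of_dvd_of_dvd ((Nat.coprime_primes p1 q1).2 hne) h4 h5
      have h7 := Nat.le_of_dvd (Int.natAbs_pos.2 h0) h6
      have h8 : (NZ l T (z P)).natAbs < l ^ m := by
        zify; exact_mod_cast h3
      have h9 : Y ^ 2 < P * P' := by nlinarith
      omega
  refine h2.trans ?_
  rw [Fintype.card_piFinset, prod_const, Int.card_Icc, card_univ, Fintype.card_coe]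
  apply Nat.pow_le_pow_left
  omega

/-- the number of `s ≤ S` for which the digit of `P s` in position `t` is less than `W`. -/
def cnt (l t W S P : ℕ) : ℕ := #{s ∈ Icc 1 S | (P * s) % l ^ (t + 1) < W * l ^ t}

lemma sum_cnt (l t W S Y : ℕ) (hl : l.Prime) (hW : 1 ≤ W) (hY : l ^ (t + 1) ≤ Y) :
    ((∑ P ∈ Ioc Y (2 * Y), cnt l t W S P : ℕ) : ℝ) ≤ 4 * S * Y * W / l := by
  have hl0 : (0 : ℝ) < l := by exact_mod_cast hl.pos
  have hlt : (0 : ℝ) < (l : ℝ) ^ (t + 1) := by positivity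
  have h1 : (∑ P ∈ Ioc Y (2 * Y), cnt l t W S P : ℕ) =
      ∑ s ∈ Icc 1 S, #{P ∈ Ioc Y (2 * Y) | (P * s) % l ^ (t + 1) < W * l ^ t} := by
    have := sum_card_bipartiteAbove_eq_sum_card_bipartiteBelow (s := Ioc Y (2 * Y)) (t := Icc 1 S)
      (fun P s => (P * s) % l ^ (t + 1) < W * l ^ t)
    simpa only [bipartiteAbove, bipartiteBelow, cnt] using this
  have h2 : ∀ s ∈ Icc 1 S, (#{P ∈ Ioc Y (2 * Y) | (P * s) % l ^ (t + 1) < W * l ^ t} : ℝ) ≤
      3 * Y * W / l + (if l ∣ s then (Y : ℝ) else 0) := by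
    intro s _
    split_ifs with h
    · have h3 : #{P ∈ Ioc Y (2 * Y) | (P * s) % l ^ (t + 1) < W * l ^ t} ≤ Y := by
        refine (card_filter_le _ _).trans ?_
        rw [Nat.card_Ioc]; omega
      have h4 : (#{P ∈ Ioc Y (2 * Y) | (P * s) % l ^ (t + 1) < W * l ^ t} : ℝ) ≤ Y := by
        exact_mod_cast h3
      have : (0 : ℝ) ≤ 3 * Y * W / l := by positivity
      linarith
    · have hl1 := hl.pos
      have hc : Nat.Coprime s (l ^ (t + 1)) :=
        Nat.Coprime.pow_right _ (((Nat.Prime.coprime_iff_not_dvd hl).2 h).symm)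
      have h3 := residue s (l ^ (t + 1)) (W * l ^ t) Y (by positivity) hc
      have h4 : (#{P ∈ Ioc Y (2 * Y) | (P * s) % l ^ (t + 1) < W * l ^ t} : ℝ) ≤
          ((Y / l ^ (t + 1) : ℕ) + 2) * (W * l ^ t) := by exact_mod_cast h3
      have h5 : ((Y / l ^ (t + 1) : ℕ) : ℝ) ≤ Y / (l : ℝ) ^ (t + 1) := by
        exact_mod_cast (Nat.cast_div_le (α := ℝ) (m := Y) (n := l ^ (t + 1)))
      have h6 : (1 : ℝ) ≤ Y / (l : ℝ) ^ (t + 1) := by
        rw [le_div_iff₀ hlt]; exact_mod_cast (by omega : 1 * l ^ (t + 1) ≤ Y)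
      have h7 : ((Y / l ^ (t + 1) : ℕ) : ℝ) + 2 ≤ 3 * (Y / (l : ℝ) ^ (t + 1)) := by linarith
      have h8 : 3 * (Y / (l : ℝ) ^ (t + 1)) * (W * (l : ℝ) ^ t) = 3 * Y * W / l := by
        rw [pow_succ]; field_simp
      rw [add_zero, ← h8]
      exact h4.trans (mul_le_mul_of_nonneg_right h7 (by positivity))
  have h3 : (#{s ∈ Icc 1 S | l ∣ s} : ℝ) ≤ S / l := by
    have h4 : #{s ∈ Icc 1 S | l ∣ s} = S / l := by
      have := Nat.Ioc_filter_dvd_card_eq_div S l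
      rw [← this]; congr 1
    rw [h4]; exact Nat.cast_div_le
  rw [h1]
  push_cast
  refine (sum_le_sum h2).trans ?_
  rw [sum_add_distrib, sum_const, Nat.card_Icc, nsmul_eq_mul]
  have h4 : ∑ s ∈ Icc 1 S, (if l ∣ s then (Y : ℝ) else 0) = (#{s ∈ Icc 1 S | l ∣ s} : ℝ) * Y := by
    rw [← sum_filter, sum_const, nsmul_eq_mul]
  rw [h4]
  have h5 : (#{s ∈ Icc 1 S | l ∣ s} : ℝ) * Y ≤ S * Y * W / l := by
    calc (#{s ∈ Icc 1 S | l ∣ s} : ℝ) * Y ≤ (S / l) * Y :=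
          mul_le_mul_of_nonneg_right h3 (by positivity)
      _ = S * Y * 1 / l := by field_simp
      _ ≤ S * Y * W / l := by
          gcongr
          exact_mod_cast hW
  have h6 : ((S + 1 - 1 : ℕ) : ℝ) * (3 * Y * W / l) = 3 * S * Y * W / l := by
    simp only [Nat.add_sub_cancel]; ring
  rw [h6]
  have h7 : (4 : ℝ) * S * Y * W / l = 3 * S * Y * W / l + S * Y * W / l := by ring
  linarith

/-- **Second exceptional set.** -/
lemma card_exc2 (l t W S Y L : ℕ) (hl : l.Prime) (hW : 1 ≤ W) (hY : l ^ (t + 1) ≤ Y)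
    (hS : 1 ≤ S) (hL : 1 ≤ L) :
    (#{P ∈ Ioc Y (2 * Y) | S < L * cnt l t W S P} : ℝ) ≤ 4 * L * Y * W / l := by
  have h1 := sum_cnt l t W S Y hl hW hY
  have hS' : (0 : ℝ) < S := by exact_mod_cast hS
  have hL' : (0 : ℝ) < L := by exact_mod_cast hL
  have h2 : (#{P ∈ Ioc Y (2 * Y) | S < L * cnt l t W S P} : ℝ) * S ≤
      L * ((∑ P ∈ Ioc Y (2 * Y), cnt l t W S P : ℕ) : ℝ) := by
    push_cast
    rw [mul_sum]
    calc (#{P ∈ Ioc Y (2 * Y) | S < L * cnt l t W S P} : ℝ) * S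
        = ∑ P ∈ Ioc Y (2 * Y) with S < L * cnt l t W S P, (S : ℝ) := by
          rw [sum_const, nsmul_eq_mul]
      _ ≤ ∑ P ∈ Ioc Y (2 * Y) with S < L * cnt l t W S P, (L : ℝ) * cnt l t W S P := by
          refine sum_le_sum fun P hP => ?_
          rw [mem_filter] at hP
          exact_mod_cast hP.2.le
      _ ≤ _ := sum_le_sum_of_subset_of_nonneg (filter_subset _ _) fun _ _ _ => by positivity
  have h3 : (#{P ∈ Ioc Y (2 * Y) | S < L * cnt l t W S P} : ℝ) * S ≤ (4 * L * Y * W / l) * S := by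
    calc _ ≤ _ := h2
      _ ≤ L * (4 * S * Y * W / l) := mul_le_mul_of_nonneg_left h1 hL'.le
      _ = _ := by ring
  exact le_of_mul_le_mul_right h3 hS'

end ESGcd
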