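import Pool.Agent.ESGcd.LS3
import Pool.Agent.ESGcd.Excep

/-!
# Boxes of digits of all types
-/

namespace ESGcd

open Finset

/-- the integers with digits `d t ≤ y t` in the positions `t ∈ T`. -/
def vbox (l : ℕ) (T : Finset ℕ) (y : T → ℕ) : Finset ℕ :=
  (Fintype.piFinset fun t => range (y t + 1)).image fun d : T → ℕ => ∑ t : T, d t * l ^ (t : ℕ)

lemma mem_vbox {l : ℕ} {T : Finset ℕ} {y : T → ℕ} {n : ℕ} :
    n ∈ vbox l T y ↔ ∃ d : T → ℕ, (∀ t, d t ≤ y t) ∧ ∑ t : T, d t * l ^ (t : ℕ) = n := by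
  unfold vbox
  simp only [mem_image, Fintype.mem_piFinset, mem_range, Nat.lt_succ_iff]

lemma card_vbox {l : ℕ} {T : Finset ℕ} {y : T → ℕ} (hl : 2 ≤ l) (hy : ∀ t, y t < l) :
    #(vbox l T y) = ∏ t : T, (y t + 1) := by
  unfold vbox
  rw [card_image_of_injOn, Fintype.card_piFinset]
  · simp
  · intro d hd e he hde
    rw [mem_coe, Fintype.mem_piFinset] at hd he
    simp only [mem_range] at hd he
    have h0 : NZ l T (fun t => (d t : ℤ) - e t) = 0 := by
      unfold NZ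
      simp only [sub_mul, sum_sub_distrib]
      rw [sub_eq_zero]
      exact_mod_cast hde
    have h1 := NZ_ne_zero hl _ (by
      intro t
      have := hd t; have := he t; have := hy t
      rw [abs_lt]
      constructor <;> omega) h0
    funext t
    have := congrFun h1 t
    simp only [Pi.zero_apply] at this
    omega

lemma vbox_subset {l m : ℕ} {T : Finset ℕ} {y : T → ℕ} (hl : 2 ≤ l) (hT : T ⊆ range m)
    (hy : ∀ t, y t < l) : vbox l T y ⊆ range (l ^ m) := by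
  intro n hn
  rw [mem_vbox] at hn
  obtain ⟨d, hd, rfl⟩ := hn
  rw [mem_range]
  have h1 := abs_NZ_lt m hl hT (fun t => (d t : ℤ)) (by
    intro t
    have := hd t; have := hy t
    rw [abs_of_nonneg (by positivity)]
    omega)
  have h2 := lt_of_abs_lt h1
  unfold NZ at h2
  have h3 : ((∑ t : T, d t * l ^ (t : ℕ) : ℕ) : ℤ) < ((l ^ m : ℕ) : ℤ) := by
    push_cast; exact h2
  exact_mod_cast h3

lemma exists_zero {P : ℕ} {A : Finset ℕ} (hP : 0 < P) (h : P + 2 ≤ 2 * #(A.image (· % P))) :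
    ∃ m ∈ A, ∃ n ∈ A, 0 < m ∧ P ∣ m + n := by
  classical
  set B := A.image (· % P) with hB
  have hBP : ∀ b ∈ B, b < P := by
    intro b hb
    rw [hB, mem_image] at hb
    obtain ⟨m, -, rfl⟩ := hb
    exact Nat.mod_lt _ hP
  set B' := B.image fun b => (P - b) % P with hB'
  have h1 : #B' = #B := by
    rw [hB']
    apply card_image_of_injOn
    intro a ha b hb hab
    have ha := hBP a ha
    have hb := hBP b hb
    simp only at hab
    rcases Nat.eq_zero_or_pos a with h0 | h0 <;> rcases Nat.eq_zero_or_pos b with h2 | h2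
    · omega
    · subst h0
      rw [Nat.sub_zero, Nat.mod_self, Nat.mod_eq_of_lt (by omega)] at hab
      omega
    · subst h2
      rw [Nat.sub_zero, Nat.mod_self, Nat.mod_eq_of_lt (by omega)] at hab
      omega
    · rw [Nat.mod_eq_of_lt (by omega), Nat.mod_eq_of_lt (by omega)] at hab
      omega
  have h2 : #(B ∪ B') ≤ P := by
    have : B ∪ B' ⊆ range P := by
      intro b hb
      rw [mem_union] at hb
      rw [mem_range]
      rcases hb with hb | hb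
      · exact hBP b hb
      · rw [hB', mem_image] at hb
        obtain ⟨c, -, rfl⟩ := hb
        exact Nat.mod_lt _ hP
    simpa using card_le_card this
  have h3 := card_union_add_card_inter B B'
  have h4 : 1 < #(B ∩ B') := by omega
  obtain ⟨b, hb, hb0⟩ := exists_mem_ne h4 0
  rw [mem_inter] at hb
  obtain ⟨b1, b2⟩ := hb
  rw [hB', mem_image] at b2
  obtain ⟨c, hc, hcb⟩ := b2
  rw [hB, mem_image] at b1 hc
  obtain ⟨m, hm, rfl⟩ := b1
  obtain ⟨n, hn, rfl⟩ := hc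
  refine ⟨m, hm, n, hn, ?_, ?_⟩
  · exact Nat.pos_of_ne_zero fun h => by subst h; simp at hb0
  · have e1 := Nat.mod_lt n hP
    have e2 := Nat.mod_lt m hP
    have e3 : n % P ≠ 0 := by
      intro h0
      rw [h0, Nat.sub_zero, Nat.mod_self] at hcb
      exact hb0 hcb.symm
    rw [Nat.mod_eq_of_lt (by omega)] at hcb
    have e4 : m % P + n % P = P := by omega
    rw [Nat.dvd_iff_mod_eq_zero, Nat.add_mod, e4, Nat.mod_self]

/-- the types of total at most `H`. -/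
def types (T : Finset ℕ) (H : ℕ) : Finset (T → ℕ) :=
  {a ∈ Fintype.piFinset fun _ => range (H + 1) | ∑ t, a t ≤ H}

lemma mem_types {T : Finset ℕ} {H : ℕ} {a : T → ℕ} : a ∈ types T H ↔ ∑ t, a t ≤ H := by
  unfold types
  rw [mem_filter, Fintype.mem_piFinset]
  refine ⟨fun h => h.2, fun h => ⟨fun t => ?_, h⟩⟩
  rw [mem_range, Nat.lt_succ_iff]
  exact (single_le_sum (f := a) (fun _ _ => Nat.zero_le _) (mem_univ t)).trans h

lemma card_types (T : Finset ℕ) (H : ℕ) : (#(types T H) : ℝ) ≤ 2 ^ (H + #T) := by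
  have h1 : (#(types T H) : ℝ) * (1 / 2) ^ H ≤ 2 ^ #T := by
    calc (#(types T H) : ℝ) * (1 / 2) ^ H = ∑ a ∈ types T H, (1 / 2 : ℝ) ^ H := by
          rw [sum_const, nsmul_eq_mul]
      _ ≤ ∑ a ∈ types T H, ∏ t, (1 / 2 : ℝ) ^ (a t) := by
          refine sum_le_sum fun a ha => ?_
          rw [mem_types] at ha
          rw [prod_pow_eq_pow_sum]
          exact pow_le_pow_of_le_one (by norm_num) (by norm_num) ha
      _ ≤ ∑ a ∈ Fintype.piFinset fun _ : T => range (H + 1), ∏ t, (1 / 2 : ℝ) ^ (a t) := by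
          apply sum_le_sum_of_subset_of_nonneg (filter_subset _ _)
          intro _ _ _; positivity
      _ = ∏ _t : T, ∑ j ∈ range (H + 1), (1 / 2 : ℝ) ^ j :=
          sum_prod_piFinset (range (H + 1)) (fun (_ : T) (j : ℕ) => (1 / 2 : ℝ) ^ j)
      _ ≤ ∏ _t : T, (2 : ℝ) := by
          apply prod_le_prod (fun _ _ => by positivity)
          intro _ _
          rw [geom_sum_eq (by norm_num)]
          have : (0 : ℝ) ≤ (1 / 2) ^ (H + 1) := by positivity
          rw [div_le_iff_of_neg (by norm_num)]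
          linarith
      _ = 2 ^ #T := by simp
  have h2 : (0 : ℝ) < (1 / 2) ^ H := by positivity
  rw [← le_div_iff₀ h2] at h1
  refine h1.trans (le_of_eq ?_)
  rw [one_div, inv_pow, div_inv_eq_mul, pow_add]; ring

/-- the box of a type. -/
def ya (l : ℕ) {T : Finset ℕ} (a : T → ℕ) : T → ℕ := fun t => l / 2 ^ (a t + 2)

lemma ya_lt {l : ℕ} {T : Finset ℕ} (hl : 2 ≤ l) (a : T → ℕ) (t : T) : ya l a t < l := by
  unfold ya
  apply Nat.div_lt_self (by omega)
  calc 1 < 2 ^ 2 := by norm_num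
    _ ≤ 2 ^ (a t + 2) := Nat.pow_le_pow_right (by norm_num) (by omega)

lemma card_vbox_ya {l : ℕ} {T : Finset ℕ} (hl : 2 ≤ l) (a : T → ℕ) :
    (l : ℝ) ^ #T / (2 ^ (∑ t, a t) * 4 ^ #T) ≤ #(vbox l T (ya l a)) := by
  rw [card_vbox hl (ya_lt hl a)]
  push_cast
  have h1 : (l : ℝ) ^ #T / (2 ^ (∑ t, a t) * 4 ^ #T) = ∏ t : T, ((l : ℝ) / 2 ^ (a t + 2)) := by
    rw [prod_div_distrib, prod_const, card_univ, Fintype.card_coe]
    congr 1
    simp only [pow_add, prod_mul_distrib]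
    rw [prod_pow_eq_pow_sum, prod_const, card_univ, Fintype.card_coe]
    norm_num
  rw [h1]
  apply prod_le_prod (fun _ _ => by positivity)
  intro t _
  unfold ya
  have h2 := Nat.lt_div_mul_add (a := l) (b := 2 ^ (a t + 2)) (by positivity)
  rw [div_le_iff₀ (by positivity)]
  have h3 : (l : ℝ) < (l / 2 ^ (a t + 2) : ℕ) * 2 ^ (a t + 2) + 2 ^ (a t + 2) := by
    exact_mod_cast h2
  rw [add_mul, one_mul]
  exact h3.le

/-- the bad primes. -/
noncomputable def badP (l Y H : ℕ) (T : Finset ℕ) : Finset ℕ := by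
  classical
  exact {P ∈ Ioc Y (2 * Y) | P.Prime ∧
    ∃ a ∈ types T H, 2 * #((vbox l T (ya l a)).image (· % P)) ≤ P + 1}

lemma card_badP {l Y H m : ℕ} {T : Finset ℕ} (hl : 2 ≤ l) (hY : 2 ≤ Y) (hT : T ⊆ range m) :
    (#(badP l Y H T) : ℝ) * (l : ℝ) ^ #T ≤ 2 * 8 ^ #T * 4 ^ H *
      (l ^ m + 8 * (Y : ℝ) ^ 2 * (1 + Real.log (4 * (Y : ℝ) ^ 2))) := by
  classical
  set Δ : ℝ := l ^ m + 8 * (Y : ℝ) ^ 2 * (1 + Real.log (4 * (Y : ℝ) ^ 2)) with hΔ
  have hYr : (2 : ℝ) ≤ Y := by exact_mod_cast hY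
  have hlog : 0 ≤ Real.log (4 * (Y : ℝ) ^ 2) := Real.log_nonneg (by nlinarith)
  have hΔ0 : 0 ≤ Δ := by positivity
  have hlr : (0 : ℝ) < (l : ℝ) ^ #T := by positivity
  have h1 : #(badP l Y H T) ≤ ∑ a ∈ types T H,
      #{P ∈ Ioc Y (2 * Y) | P.Prime ∧ 2 * #((vbox l T (ya l a)).image (· % P)) ≤ P + 1} := by
    have : badP l Y H T ⊆ (types T H).biUnion fun a =>
        {P ∈ Ioc Y (2 * Y) | P.Prime ∧ 2 * #((vbox l T (ya l a)).image (· % P)) ≤ P + 1} := by
      intro P hP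
      unfold badP at hP
      rw [mem_filter] at hP
      obtain ⟨h2, h3, a, ha, h4⟩ := hP
      rw [mem_biUnion]
      exact ⟨a, ha, mem_filter.2 ⟨h2, h3, h4⟩⟩
    exact (card_le_card this).trans card_biUnion_le
  have h2 : ∀ a ∈ types T H,
      (#{P ∈ Ioc Y (2 * Y) | P.Prime ∧ 2 * #((vbox l T (ya l a)).image (· % P)) ≤ P + 1} : ℝ) *
        (l : ℝ) ^ #T ≤ 2 ^ H * 4 ^ #T * (2 * Δ) := by
    intro a ha
    rw [mem_types] at ha
    have e1 := few_P (l ^ m) Y (vbox l T (ya l a)) (vbox_subset hl hT (ya_lt hl a)) hY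
    push_cast at e1
    rw [← hΔ] at e1
    have e2 := card_vbox_ya hl a
    rw [div_le_iff₀ (by positivity)] at e2
    have e3 : (2 : ℝ) ^ (∑ t, a t) ≤ 2 ^ H := pow_le_pow_right₀ (by norm_num) ha
    calc (#{P ∈ Ioc Y (2 * Y) | P.Prime ∧ 2 * #((vbox l T (ya l a)).image (· % P)) ≤ P + 1} : ℝ) *
        (l : ℝ) ^ #T ≤ (#{P ∈ Ioc Y (2 * Y) | P.Prime ∧
          2 * #((vbox l T (ya l a)).image (· % P)) ≤ P + 1} : ℝ) *
          (#(vbox l T (ya l a)) * (2 ^ (∑ t, a t) * 4 ^ #T)) := by gcongr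
      _ = ((#{P ∈ Ioc Y (2 * Y) | P.Prime ∧
          2 * #((vbox l T (ya l a)).image (· % P)) ≤ P + 1} : ℝ) * #(vbox l T (ya l a))) *
          (2 ^ (∑ t, a t) * 4 ^ #T) := by ring
      _ ≤ (2 * Δ) * (2 ^ (∑ t, a t) * 4 ^ #T) := by gcongr
      _ ≤ (2 * Δ) * (2 ^ H * 4 ^ #T) := by gcongr
      _ = _ := by ring
  calc (#(badP l Y H T) : ℝ) * (l : ℝ) ^ #T ≤ (∑ a ∈ types T H,
        (#{P ∈ Ioc Y (2 * Y) | P.Prime ∧ 2 * #((vbox l T (ya l a)).image (· % P)) ≤ P + 1} : ℝ)) *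
        (l : ℝ) ^ #T := by
        gcongr
        exact_mod_cast h1
    _ = ∑ a ∈ types T H,
        (#{P ∈ Ioc Y (2 * Y) | P.Prime ∧ 2 * #((vbox l T (ya l a)).image (· % P)) ≤ P + 1} : ℝ) *
        (l : ℝ) ^ #T := by rw [sum_mul]
    _ ≤ ∑ a ∈ types T H, 2 ^ H * 4 ^ #T * (2 * Δ) := sum_le_sum h2
    _ = #(types T H) * (2 ^ H * 4 ^ #T * (2 * Δ)) := by rw [sum_const, nsmul_eq_mul]
    _ ≤ 2 ^ (H + #T) * (2 ^ H * 4 ^ #T * (2 * Δ)) := by
        gcongr
        exact card_types T H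
    _ = 2 * (2 ^ #T * 4 ^ #T) * (2 ^ H * 2 ^ H) * Δ := by rw [pow_add]; ring
    _ = 2 * 8 ^ #T * 4 ^ H * Δ := by
        rw [← mul_pow, ← mul_pow]; norm_num

/-- For a good prime every type has a multiple of `P` with small digits. -/
lemma exists_multiple {l Y H P : ℕ} {T : Finset ℕ} (hP : P.Prime) (hP1 : Y < P) (hP2 : P ≤ 2 * Y)
    (hg : P ∉ badP l Y H T) (a : T → ℕ) (ha : ∑ t, a t ≤ H) :
    ∃ d : T → ℕ, (∀ t, d t ≤ 2 * (l / 2 ^ (a t + 2))) ∧ 0 < ∑ t : T, d t * l ^ (t : ℕ) ∧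
      P ∣ ∑ t : T, d t * l ^ (t : ℕ) := by
  classical
  have h1 : P + 2 ≤ 2 * #((vbox l T (ya l a)).image (· % P)) := by
    by_contra hcon
    apply hg
    unfold badP
    rw [mem_filter, mem_Ioc]
    exact ⟨⟨hP1, hP2⟩, hP, a, mem_types.2 ha, by omega⟩
  obtain ⟨m, hm, n, hn, h2, h3⟩ := exists_zero hP.pos h1
  rw [mem_vbox] at hm hn
  obtain ⟨d, hd, rfl⟩ := hm
  obtain ⟨e, he, rfl⟩ := hn
  have h4 : ∑ t : T, (d t + e t) * l ^ (t : ℕ) =
      ∑ t : T, d t * l ^ (t : ℕ) + ∑ t : T, e t * l ^ (t : ℕ) := by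
    rw [← sum_add_distrib]; exact sum_congr rfl fun t _ => by ring
  refine ⟨fun t => d t + e t, fun t => ?_, ?_, ?_⟩
  · have h5 := hd t
    have h6 := he t
    unfold ya at h5 h6
    show d t + e t ≤ _
    omega
  · rw [h4]; omega
  · rw [h4]; exact h3

/-- The type of a digit. -/
lemma type_spec (l g : ℕ) : 2 * (l / 2 ^ (Nat.log 2 (l / (g + 1)) + 2)) ≤ g := by
  set k := Nat.log 2 (l / (g + 1)) with hk
  have h1 : l / (g + 1) < 2 ^ (k + 1) := Nat.lt_pow_succ_log_self (by norm_num) _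
  rw [Nat.div_lt_iff_lt_mul (by omega)] at h1
  have h2 : l / 2 ^ (k + 1) < g + 1 := by
    rw [Nat.div_lt_iff_lt_mul (by positivity), mul_comm]; exact h1
  have h3 : l / 2 ^ (k + 2) = l / 2 ^ (k + 1) / 2 := by
    rw [Nat.div_div_eq_div_mul, ← pow_succ]
  rw [h3]
  omega

end ESGcd
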