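import Pool.Agent.ESGcd.Param
import Pool.Agent.ESGcd.HT
import Pool.Agent.ESGcd.Typical2

/-!
# Classification of the solutions
-/

namespace ESGcd

open Finset Real

open Classical in
/-- all failures. -/
noncomputable def Z5 (x b u : ℕ) : Finset ℕ :=
  (Icc 1 x).biUnion fun l => (range u).biUnion fun k =>
    if ∃ D h I, Par2 x l (2 ^ k) D h b (2 ^ b) I then failSet x l (2 ^ k) else ∅

lemma card_Z5 (x b u : ℕ) :
    (#(Z5 x b u) : ℝ) ≤ 10 * x / 2 ^ b * u * (1 + log x) := by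
  classical
  have h1 : (#(Z5 x b u) : ℝ) ≤ ∑ l ∈ Icc 1 x, ∑ k ∈ range u, (10 * x / (l * 2 ^ b) : ℝ) := by
    have e1 : #(Z5 x b u) ≤ ∑ l ∈ Icc 1 x, ∑ k ∈ range u,
        #(if ∃ D h I, Par2 x l (2 ^ k) D h b (2 ^ b) I then failSet x l (2 ^ k) else ∅) := by
      unfold Z5
      exact card_biUnion_le.trans (sum_le_sum fun l _ => card_biUnion_le)
    have e2 : (#(Z5 x b u) : ℝ) ≤ ∑ l ∈ Icc 1 x, ∑ k ∈ range u,
        ((#(if ∃ D h I, Par2 x l (2 ^ k) D h b (2 ^ b) I then failSet x l (2 ^ k)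
          else ∅) : ℕ) : ℝ) := by
      exact_mod_cast e1
    refine e2.trans (sum_le_sum fun l _ => sum_le_sum fun k _ => ?_)
    split_ifs with h
    · obtain ⟨D, h, I, p⟩ := h
      have e3 : #(failSet x l (2 ^ k)) ≤ ∑ P ∈ Ioc (2 ^ k) (2 * 2 ^ k) with P.Prime,
          #{s ∈ Icc 1 (x / (P * l)) | s < f (P * l * s)} := by
        unfold failSet
        refine card_biUnion_le.trans (sum_le_sum fun P _ => card_image_le)
      have e4 := p.total
      have e5 : ((#(failSet x l (2 ^ k)) : ℕ) : ℝ) ≤ ∑ P ∈ Ioc (2 ^ k) (2 * 2 ^ k) with P.Prime,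
          (#{s ∈ Icc 1 (x / (P * l)) | s < f (P * l * s)} : ℝ) := by exact_mod_cast e3
      refine e5.trans (e4.trans (le_of_eq ?_))
      push_cast
      rfl
    · simp only [card_empty, Nat.cast_zero]; positivity
  refine h1.trans ?_
  have h2 : ∀ l ∈ Icc 1 x, ∑ k ∈ range u, (10 * x / (l * 2 ^ b) : ℝ) =
      (10 * x / 2 ^ b * u) * ((l : ℝ)⁻¹) := by
    intro l _
    rw [sum_const, card_range, nsmul_eq_mul]
    rw [div_mul_eq_div_div_swap]
    ring
  rw [sum_congr rfl h2, ← mul_sum]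
  apply mul_le_mul_of_nonneg_left _ (by positivity)
  have h3 := harmonic_le_one_add_log x
  rw [harmonic_eq_sum_Icc] at h3
  push_cast at h3
  exact h3

/-- all prime factors are at most `w` or in `(a, b]`. -/
def Sm (w a b : ℝ) (n : ℕ) : Prop := ∀ p : ℕ, p.Prime → p ∣ n → ((p : ℝ) ≤ w ∨ (a < p ∧ (p : ℝ) ≤ b))

/-- `log` of the scales. -/
noncomputable def kap (s : ℝ) (j : ℕ) : ℝ := 1000 * s * 4 ^ j

lemma kap_succ (s : ℝ) (j : ℕ) : kap s (j + 1) = 4 * kap s j := by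
  unfold kap; rw [pow_succ]; ring

lemma exists_scale {s μ : ℝ} (hs : 1 ≤ s) (hμ : exp (kap s 0) < μ) :
    ∃ j, exp (kap s j) < μ ∧ μ ≤ exp (4 * kap s j) := by
  have hex : ∃ j, μ ≤ exp (kap s j) := by
    obtain ⟨j, hj⟩ := exists_nat_ge μ
    refine ⟨j, hj.trans ?_⟩
    have h1 : (j : ℝ) ≤ 4 ^ j := by
      have : j < 4 ^ j := Nat.lt_pow_self (by norm_num)
      exact_mod_cast this.le
    have h2 : (4 : ℝ) ^ j ≤ kap s j := by
      unfold kap
      have : (0 : ℝ) < 4 ^ j := by positivity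
      nlinarith
    have h3 := add_one_le_exp (kap s j)
    linarith
  classical
  set j0 := Nat.find hex with hj0
  have h1 := Nat.find_spec hex
  have h2 : j0 ≠ 0 := by
    intro h0
    rw [← hj0, h0] at h1
    linarith
  obtain ⟨j, hj⟩ := Nat.exists_eq_succ_of_ne_zero h2
  have h3 := Nat.find_min hex (m := j) (by omega)
  push Not at h3
  refine ⟨j, h3, ?_⟩
  rw [← kap_succ]
  rw [← hj0, hj] at h1
  exact h1

lemma classify {x n b u : ℕ} {s : ℝ} (hs : s ^ 2 = log x) (hs1 : 1 ≤ s)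
    (hb : 1 ≤ b) (hb2 : 90 * (b : ℝ) ^ 2 ≤ s) (h6 : 32 * (log x + 1) ≤ 2 ^ b)
    (hn : n ∈ Icc 1 x) (hsol : IsSolution n) (hu : Nat.log 2 x < u) :
    (∃ P m : ℕ, P.Prime ∧ n = P * m ∧ (m : ℝ) ≤ exp (kap s 0)) ∨
    Sm (exp (kap s 0)) (exp (kap s 0)) (exp (kap s 0)) n ∨ n ∈ Z5 x b u ∨
    ∃ j, 1000 * 4 ^ j ≤ s ∧
      ((∃ P m : ℕ, P.Prime ∧ n = P * m ∧ m ≤ P ∧
        Sm (exp (s / 2 ^ j)) (exp (kap s j / 20)) (exp (4 * kap s j)) m) ∨
      Sm (exp (s / 2 ^ j)) (exp (kap s j / 20)) (exp (4 * kap s j)) n) := by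
  classical
  rw [mem_Icc] at hn
  obtain ⟨hn1, hnx⟩ := hn
  obtain ⟨hn2, hnp, hfn⟩ := hsol
  obtain ⟨hP, hPn⟩ := maxPrime_spec (by omega : 2 ≤ n)
  set P := maxPrime n with hPdef
  obtain ⟨m, hm⟩ := hPn
  have hPle : ∀ p, p.Prime → p ∣ n → p ≤ P := fun p hp hd => le_maxPrime (by omega) hp hd
  have hm0 : 0 < m := Nat.pos_of_ne_zero (by rintro rfl; simp at hm; omega)
  have hfm : f n = m := by rw [hfn, hm, Nat.mul_div_cancel_left _ hP.pos]
  have hx0 : 0 < x := by omega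
  have hxr : (0 : ℝ) < x := by exact_mod_cast hx0
  by_cases c1 : (m : ℝ) ≤ exp (kap s 0)
  · left; exact ⟨P, m, hP, hm, c1⟩
  right
  by_cases c2 : (P : ℝ) ≤ exp (kap s 0)
  · left
    intro p hp hd
    left
    exact le_trans (by exact_mod_cast hPle p hp hd) c2
  right
  push Not at c1 c2
  obtain ⟨j, hj1, hj2⟩ := exists_scale hs1 (show exp (kap s 0) < min (P : ℝ) m from lt_min c2 c1)
  set κ := kap s j with hκ
  have hκP : exp κ < P := hj1.trans_le (min_le_left _ _)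
  have hκm : exp κ < m := hj1.trans_le (min_le_right _ _)
  have hs0 : 0 < s := by linarith
  have h4j : (1 : ℝ) ≤ 4 ^ j := one_le_pow₀ (by norm_num)
  have hκpos : 1000 * s ≤ κ := by
    rw [hκ]; unfold kap
    have : (0 : ℝ) ≤ 1000 * s := by positivity
    nlinarith
  have h2κ : 2 * κ < s ^ 2 := by
    have e1 : exp (2 * κ) < x := by
      calc exp (2 * κ) = exp κ * exp κ := by rw [← exp_add]; ring_nf
        _ < P * m := by
          apply mul_lt_mul'' hκP hκm (exp_pos _).le (exp_pos _).le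
        _ = n := by rw [hm]; push_cast; ring
        _ ≤ x := by exact_mod_cast hnx
    have e2 := (lt_log_iff_exp_lt hxr).2 e1
    rw [hs]; exact e2
  have h1000 : 1000 * 4 ^ j ≤ s := by
    have e1 : 2 * κ = 2000 * 4 ^ j * s := by rw [hκ]; unfold kap; ring
    rw [e1, sq] at h2κ
    have e2 : 2000 * (4 : ℝ) ^ j < s := lt_of_mul_lt_mul_right h2κ hs0.le
    have e3 : (0 : ℝ) < 4 ^ j := by positivity
    linarith
  by_cases c3 : ∃ l, l.Prime ∧ l ∣ m ∧ exp (s / 2 ^ j) < l ∧ (l : ℝ) ≤ exp (κ / 20)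
  · left
    obtain ⟨l, hl, hlm, hl1, hl2⟩ := c3
    obtain ⟨s', hs'⟩ := hlm
    have hlr : (0 : ℝ) < l := by exact_mod_cast hl.pos
    have hns : n = P * l * s' := by rw [hm, hs']; ring
    have hs'0 : 0 < s' := Nat.pos_of_ne_zero (by rintro rfl; simp at hs'; omega)
    set k := Nat.log 2 (P - 1) with hk
    have hP2 := hP.two_le
    have hk1 : 2 ^ k ≤ P - 1 := Nat.pow_log_le_self 2 (by omega)
    have hk2 : P - 1 < 2 ^ (k + 1) := Nat.lt_pow_succ_log_self (by norm_num) _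
    have hPn' : P ≤ n := Nat.le_of_dvd (by omega) ⟨m, hm⟩
    have hku : k < u := by
      refine lt_of_le_of_lt ?_ hu
      exact Nat.log_mono_right (by omega)
    have hk3 : P ≤ 2 * 2 ^ k := by rw [pow_succ] at hk2; omega
    have hu1 : s / 2 ^ j < log l := (lt_log_iff_exp_lt hlr).2 hl1
    have hu2 : log l ≤ κ / 20 := (log_le_iff_le_exp hlr).2 hl2
    have h2j : (0 : ℝ) < 2 ^ j := by positivity
    have h44 : (4 : ℝ) ^ j = 2 ^ j * 2 ^ j := by rw [← mul_pow]; norm_num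
    have hpar : ∃ D h I, Par2 x l (2 ^ k) D h b (2 ^ b) I := by
      apply exists_par (κ := κ) hl hx0
      · have e1 : (P : ℝ) ≤ 2 * ((2 ^ k : ℕ) : ℝ) := by exact_mod_cast hk3
        have e2 : exp κ = exp (κ - 1) * exp 1 := by rw [← exp_add]; ring_nf
        have e3 : (2 : ℝ) ≤ exp 1 := by have := add_one_le_exp (1 : ℝ); linarith
        have e4 := exp_pos (κ - 1)
        nlinarith
      · have e1 : ((2 ^ k : ℕ) : ℝ) ≤ P := by exact_mod_cast (by omega : 2 ^ k ≤ P)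
        calc exp κ * ((2 ^ k : ℕ) : ℝ) ≤ m * P := by gcongr
          _ = n := by rw [hm]; push_cast; ring
          _ ≤ x := by exact_mod_cast hnx
      · linarith
      · rw [← hs]
        have e1 : κ * (s / 2 ^ j) ≤ κ * log l := by
          apply mul_le_mul_of_nonneg_left hu1.le
          linarith
        have e2 : κ * (s / 2 ^ j) = 1000 * s ^ 2 * 2 ^ j := by
          rw [hκ]; unfold kap; rw [h44]; field_simp
        have e3 : (1 : ℝ) ≤ 2 ^ j := one_le_pow₀ (by norm_num)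
        have e4 : 1000 * s ^ 2 * 1 ≤ 1000 * s ^ 2 * 2 ^ j :=
          mul_le_mul_of_nonneg_left e3 (by positivity)
        linarith
      · have e1 : 300 * (b : ℝ) * 2 ^ j ≤ s := by
          apply le_of_sq_le_sq _ hs0.le
          rw [h44] at h1000
          calc (300 * (b : ℝ) * 2 ^ j) ^ 2 = 90 * (b : ℝ) ^ 2 * (1000 * (2 ^ j * 2 ^ j)) := by ring
            _ ≤ s * s := by gcongr
            _ = s ^ 2 := by ring
        have e2 : 300 * (b : ℝ) ≤ s / 2 ^ j := by rw [le_div_iff₀ h2j]; exact e1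
        linarith
      · exact hb
      · exact h6
    simp only [Z5, mem_biUnion]
    refine ⟨l, ?_, k, mem_range.2 hku, ?_⟩
    · rw [mem_Icc]
      refine ⟨hl.pos, (Nat.le_of_dvd (by omega) ?_).trans hnx⟩
      exact ⟨P * s', by rw [hns]; ring⟩
    · rw [if_pos hpar]
      simp only [failSet, mem_biUnion, mem_filter, mem_Ioc, mem_image, mem_Icc]
      refine ⟨P, ⟨⟨by omega, hk3⟩, hP⟩, s', ⟨⟨by omega, ?_⟩, ?_⟩, hns.symm⟩
      · rw [Nat.le_div_iff_mul_le (Nat.mul_pos hP.pos hl.pos)]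
        calc s' * (P * l) = n := by rw [hns]; ring
          _ ≤ x := hnx
      · rw [← hns, hfm, hs']
        calc s' = 1 * s' := (one_mul _).symm
          _ < l * s' := Nat.mul_lt_mul_of_pos_right hl.one_lt hs'0
  · right
    push Not at c3
    refine ⟨j, h1000, ?_⟩
    have hsm : ∀ p, p.Prime → p ∣ m → (p : ℝ) ≤ exp (4 * κ) →
        ((p : ℝ) ≤ exp (s / 2 ^ j) ∨ (exp (κ / 20) < p ∧ (p : ℝ) ≤ exp (4 * κ))) := by
      intro p hp hd hb
      by_cases c4 : (p : ℝ) ≤ exp (s / 2 ^ j)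
      · left; exact c4
      · right
        push Not at c4
        exact ⟨c3 p hp hd c4, hb⟩
    rcases le_or_gt m P with c5 | c5
    · left
      refine ⟨P, m, hP, hm, c5, fun p hp hd => hsm p hp hd ?_⟩
      have e1 : min (P : ℝ) m = m := min_eq_right (by exact_mod_cast c5)
      rw [e1] at hj2
      exact le_trans (by exact_mod_cast Nat.le_of_dvd hm0 hd) hj2
    · right
      have e1 : min (P : ℝ) m = P := min_eq_left (by exact_mod_cast c5.le)
      rw [e1] at hj2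
      intro p hp hd
      have hpb : (p : ℝ) ≤ exp (4 * κ) := le_trans (by exact_mod_cast hPle p hp hd) hj2
      have hd' := hd
      rw [hm] at hd'
      rcases (Nat.Prime.dvd_mul hp).1 hd' with h | h
      · right
        refine ⟨?_, hpb⟩
        have e2 : p = P := (Nat.prime_dvd_prime_iff_eq hp hP).1 h
        rw [e2]
        refine lt_of_le_of_lt ?_ hκP
        apply exp_le_exp.2
        linarith
      · exact hsm p hp h hpb

end ESGcd
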