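import Pool.Agent.ESGcd.Crit
import Pool.Agent.ESGcd.Bad

/-!
# Counting the solutions
-/

namespace ESGcd

open Finset Real

/-- primes `P > m` with `m P` not a solution are bad. -/
lemma isBad_of_not {m P : ℕ} (hm : 2 ≤ m) (hP : P.Prime) (hmP : m < P)
    (h : ¬ IsSolution (m * P)) : IsBad m P := by
  rw [isSolution_iff hm hP hmP] at h
  push Not at h
  exact h

/-- The exceptional primes for a fixed cofactor. -/
theorem few_exceptions (m x : ℕ) (hm : 2 ≤ m) (hx : 1 ≤ x) :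
    ({P | P ≤ x ∧ P.Prime ∧ m < P ∧ ¬ IsSolution (m * P)}.ncard : ℝ) ≤
      8 * m ^ 5 * (x : ℝ) ^ (1 - 1 / (5 * log (8 * m ^ 2))) := by
  refine le_trans ?_ (few_bad m x hm hx)
  have hfin : {u ∈ Set.Icc 1 x | IsBad m u}.Finite :=
    (Set.finite_Icc 1 x).subset (Set.sep_subset _ _)
  have hsub : {P | P ≤ x ∧ P.Prime ∧ m < P ∧ ¬ IsSolution (m * P)} ⊆
      {u ∈ Set.Icc 1 x | IsBad m u} := fun P hP =>
    ⟨⟨hP.2.1.pos, hP.1⟩, isBad_of_not hm hP.2.1 hP.2.2.1 hP.2.2.2⟩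
  exact_mod_cast Set.ncard_le_ncard hsub hfin

/-- the primes which give solutions with cofactor `m` -/
noncomputable def good (M m z : ℕ) : Finset ℕ := by
  classical exact {P ∈ Icc 1 z | P.Prime ∧ M < P ∧ ¬ IsBad m P}

lemma mem_good {M m z P : ℕ} : P ∈ good M m z ↔ P ∈ Icc 1 z ∧ P.Prime ∧ M < P ∧ ¬ IsBad m P := by
  classical
  simp [good]

lemma card_good (M m z : ℕ) (hm : 2 ≤ m) (hz : 1 ≤ z) :
    (Nat.primeCounting z : ℝ) - M - 8 * m ^ 5 * (z : ℝ) ^ (1 - 1 / (5 * log (8 * m ^ 2))) ≤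
      #(good M m z) := by
  classical
  have h1 : Nat.primeCounting z ≤ #(good M m z) + M + {u ∈ Set.Icc 1 z | IsBad m u}.ncard := by
    have h2 : Nat.primeCounting z = #({P ∈ Icc 1 z | P.Prime} : Finset ℕ) := by
      rw [Nat.primeCounting, Nat.primeCounting', Nat.count_eq_card_filter_range]
      congr 1
      ext P
      simp only [mem_filter, mem_range, mem_Icc]
      constructor
      · rintro ⟨h1, h2⟩; exact ⟨⟨h2.pos, by omega⟩, h2⟩
      · rintro ⟨h1, h2⟩; exact ⟨by omega, h2⟩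
    have h3 : ({u ∈ Set.Icc 1 z | IsBad m u} : Set ℕ) =
        (({u ∈ Icc 1 z | IsBad m u} : Finset ℕ) : Set ℕ) := by
      ext; simp
    rw [h2, h3, Set.ncard_coe_finset]
    have h4 : ({P ∈ Icc 1 z | P.Prime} : Finset ℕ) ⊆
        (good M m z ∪ Icc 1 M) ∪ ({u ∈ Icc 1 z | IsBad m u} : Finset ℕ) := by
      intro P hP
      rw [mem_filter, mem_Icc] at hP
      rw [mem_union, mem_union, mem_good, mem_filter]
      simp only [mem_Icc]
      by_cases hb : IsBad m P
      · right; exact ⟨hP.1, hb⟩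
      · left
        rcases le_or_gt P M with h | h
        · right; exact ⟨hP.1.1, h⟩
        · left; exact ⟨hP.1, hP.2, h, hb⟩
    calc _ ≤ _ := card_le_card h4
      _ ≤ _ := card_union_le _ _
      _ ≤ _ := by
        gcongr
        refine (card_union_le _ _).trans ?_
        simp
  have h2 := few_bad m z hm hz
  have h3 : (Nat.primeCounting z : ℝ) ≤ #(good M m z) + M +
      ({u ∈ Set.Icc 1 z | IsBad m u}.ncard : ℝ) := by exact_mod_cast h1
  linarith

/-- The number of solutions up to `x`. -/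
lemma sum_good_le (M x : ℕ) :
    ∑ m ∈ Icc 2 M, #(good M m (x / m)) ≤ {n | n ≤ x ∧ IsSolution n}.ncard := by
  classical
  have hfin : {n | n ≤ x ∧ IsSolution n}.Finite :=
    (Set.finite_Iic x).subset fun n hn => hn.1
  have h1 : ((Icc 2 M).sigma fun m => good M m (x / m)).image (fun p => p.1 * p.2) ⊆
      hfin.toFinset := by
    intro n hn
    rw [mem_image] at hn
    obtain ⟨⟨m, P⟩, hmP, rfl⟩ := hn
    rw [mem_sigma, mem_good, mem_Icc, mem_Icc] at hmP
    obtain ⟨⟨h1, h2⟩, ⟨h3, h4⟩, h5, h6, h7⟩ := hmP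
    rw [Set.Finite.mem_toFinset]
    dsimp only at *
    refine ⟨?_, ?_⟩
    · calc m * P ≤ m * (x / m) := Nat.mul_le_mul_left _ h4
        _ ≤ x := Nat.mul_div_le x m
    · by_contra h8
      exact h7 (isBad_of_not h1 h5 (by omega) h8)
  have h2 := card_le_card h1
  rw [← Set.ncard_eq_toFinset_card _ hfin] at h2
  refine le_trans ?_ h2
  rw [card_image_of_injOn, card_sigma]
  rintro ⟨m, P⟩ hp ⟨m', P'⟩ hp' heq
  rw [mem_coe, mem_sigma, mem_good, mem_Icc, mem_Icc] at hp hp'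
  obtain ⟨⟨h1, h2⟩, ⟨h3, h4⟩, h5, h6, h7⟩ := hp
  obtain ⟨⟨h1', h2'⟩, ⟨h3', h4'⟩, h5', h6', h7'⟩ := hp'
  dsimp only at *
  have e1 := maxPrime_mul (m := m) (by omega) h5 (by omega)
  have e2 := maxPrime_mul (m := m') (by omega) h5' (by omega)
  have hPP : P = P' := by rw [← e1, ← e2, heq]
  subst hPP
  have := Nat.eq_of_mul_eq_mul_right h5.pos heq
  subst this
  rfl

end ESGcd
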