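import Mathlib

/-!
# The minimal gcd of `n` with a binomial coefficient `C(n,k)`
-/

namespace ESGcd

/-- `f n = min_{1 < k ≤ n/2} gcd (n, C(n,k))`. -/
noncomputable def f (n : ℕ) : ℕ :=
  sInf {g | ∃ k, 1 < k ∧ 2 * k ≤ n ∧ g = Nat.gcd n (n.choose k)}

/-- The largest prime factor `P(n)` of `n`. -/
def maxPrime (n : ℕ) : ℕ := n.primeFactors.sup id

/-- `n` is composite and `f(n) = n / P(n)`. -/
def IsSolution (n : ℕ) : Prop := 1 < n ∧ ¬ n.Prime ∧ f n = n / maxPrime n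

end ESGcd
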