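import Mathlib

/-!
# A multiple of `P` all of whose digits in given positions are small and positive
-/

namespace ESGcd

open Finset
open scoped Pointwise

variable {l P : ℕ} {T : Finset ℕ}

/-- the value modulo `P` of the digits `d`. -/
def phi (l P : ℕ) (T : Finset ℕ) (d : T → ℕ) : ZMod P := ∑ t : T, (d t : ZMod P) * (l : ZMod P) ^ (t : ℕ)

/-- digit vectors with entries at most `r`. -/
def box (T : Finset ℕ) (r : ℕ) : Finset (T → ℕ) := Fintype.piFinset fun _ => range (r + 1)

lemma mem_box {r : ℕ} {d : T → ℕ} : d ∈ box T r ↔ ∀ t, d t ≤ r := by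
  simp [box]

lemma phi_add (d e : T → ℕ) : phi l P T (d + e) = phi l P T d + phi l P T e := by
  unfold phi
  rw [← sum_add_distrib]
  refine sum_congr rfl fun t _ => ?_
  simp only [Pi.add_apply]; push_cast; ring

/-- the residues with digits at most `r`. -/
def BB (l P : ℕ) (T : Finset ℕ) (r : ℕ) : Finset (ZMod P) := (box T r).image (phi l P T)

lemma BB_nonempty (r : ℕ) : (BB l P T r).Nonempty := by
  refine ⟨phi l P T 0, mem_image_of_mem _ ?_⟩
  rw [mem_box]; simp

lemma BB_add (r y : ℕ) : BB l P T r + BB l P T y ⊆ BB l P T (r + y) := by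
  intro x hx
  rw [mem_add] at hx
  obtain ⟨a, ha, b, hb, rfl⟩ := hx
  simp only [BB, mem_image] at ha hb ⊢
  obtain ⟨d, hd, rfl⟩ := ha
  obtain ⟨e, he, rfl⟩ := hb
  refine ⟨d + e, ?_, phi_add d e⟩
  rw [mem_box] at *
  intro t
  exact Nat.add_le_add (hd t) (he t)

lemma card_BB (hP : P.Prime) (y : ℕ) (j : ℕ) :
    min P (j * (#(BB l P T y) - 1) + 1) ≤ #(BB l P T (j * y)) := by
  induction j with
  | zero =>
    have := (BB_nonempty (l := l) (P := P) (T := T) (0 * y)).card_pos
    simp only [Nat.zero_mul, zero_add] at *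
    exact (min_le_right _ _).trans this
  | succ j ih =>
    have h1 := ZMod.cauchy_davenport hP (BB_nonempty (l := l) (P := P) (T := T) (j * y))
      (BB_nonempty (l := l) (P := P) (T := T) y)
    have h2 := card_le_card (BB_add (l := l) (P := P) (T := T) (j * y) y)
    have h3 : j * y + y = (j + 1) * y := by ring
    rw [h3] at h2
    refine le_trans ?_ (h1.trans h2)
    have h4 := (BB_nonempty (l := l) (P := P) (T := T) y).card_pos
    set u := #(BB l P T y)
    set v := #(BB l P T (j * y))
    have h5 : (j + 1) * (u - 1) + 1 = j * (u - 1) + 1 + (u - 1) := by ring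
    rw [h5]
    omega

/-- **Existence of small digits.** -/
lemma exists_digits (hP : P.Prime) (y k : ℕ)
    (hinj : Set.InjOn (phi l P T) (box T y)) (hk : P ≤ k * ((y + 1) ^ #T - 1) + 1) :
    ∃ d : T → ℕ, (∀ t, 1 ≤ d t ∧ d t ≤ k * y + 1) ∧ P ∣ ∑ t : T, d t * l ^ (t : ℕ) := by
  have := Fact.mk hP
  have h1 : #(BB l P T y) = (y + 1) ^ #T := by
    unfold BB
    rw [card_image_of_injOn hinj]
    simp [box]
  have h2 := card_BB (l := l) (T := T) hP y k
  rw [h1, min_eq_left hk] at h2
  have h3 : BB l P T (k * y) = univ := by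
    apply (card_eq_iff_eq_univ _).1
    apply le_antisymm (card_le_univ _)
    rw [ZMod.card]; exact h2
  have h4 : -phi l P T (fun _ => 1) ∈ BB l P T (k * y) := by rw [h3]; exact mem_univ _
  simp only [BB, mem_image] at h4
  obtain ⟨e, he, he2⟩ := h4
  rw [mem_box] at he
  refine ⟨e + fun _ => 1, fun t => ⟨by simp, by simpa using he t⟩, ?_⟩
  have h5 : phi l P T (e + fun _ => 1) = 0 := by rw [phi_add, he2, neg_add_cancel]
  rw [← ZMod.natCast_eq_zero_iff]
  rw [← h5]
  unfold phi
  push_cast
  rfl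

end ESGcd
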