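import Pool.Agent.ESGcd.Crit

/-!
# `f (P l s) ≤ s` when a suitable `i` exists
-/

namespace ESGcd

open Finset

/-- Kummer: no carries. -/
lemma not_dvd_choose_of_mod_le {q n k : ℕ} (hq : q.Prime) (hkn : k ≤ n)
    (h : ∀ u, k % q ^ u ≤ n % q ^ u) : ¬ q ∣ n.choose k := by
  intro hd
  have h1 := hq.factorization_pos_of_dvd (Nat.choose_pos hkn).ne' hd
  rw [Nat.factorization_choose hq hkn (Nat.lt_succ_self _), card_pos] at h1
  obtain ⟨u, hu⟩ := h1
  rw [mem_filter] at hu
  have h2 := hu.2
  have h3 : (n - k) % q ^ u = n % q ^ u - k % q ^ u := by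
    have h4 : n - k = q ^ u * (n / q ^ u - k / q ^ u) + (n % q ^ u - k % q ^ u) := by
      have h5 := Nat.div_add_mod n (q ^ u)
      have h6 := Nat.div_add_mod k (q ^ u)
      have h7 : k / q ^ u ≤ n / q ^ u := Nat.div_le_div_right hkn
      rw [Nat.mul_sub]
      have h8 : q ^ u * (k / q ^ u) ≤ q ^ u * (n / q ^ u) := Nat.mul_le_mul_left _ h7
      have h9 := h u
      omega
    rw [h4, Nat.mul_add_mod_self_left, Nat.mod_eq_of_lt]
    exact lt_of_le_of_lt (Nat.sub_le _ _) (Nat.mod_lt _ (pow_pos hq.pos u))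
  have h5 := h u
  have h6 := Nat.mod_lt n (pow_pos hq.pos u)
  rw [h3] at h2
  omega

/-- digits -/
lemma mod_pow_le (l W N : ℕ) (T : Finset ℕ) (d : ℕ → ℕ) (hd : ∀ t ∈ T, d t ≤ W)
    (hN : ∀ t ∈ T, W ≤ (N / l ^ t) % l) (u : ℕ) :
    (∑ t ∈ T, d t * l ^ t) % l ^ u ≤ N % l ^ u := by
  have h1 : ∀ u : ℕ, ∑ t ∈ T with t < u, d t * l ^ t ≤ N % l ^ u := by
    intro u
    induction u with
    | zero => simp
    | succ u ih =>
      rw [Nat.mod_pow_succ]
      have h2 : ∑ t ∈ T with t < u + 1, d t * l ^ t ≤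
          ∑ t ∈ T with t < u, d t * l ^ t + (if u ∈ T then d u * l ^ u else 0) := by
        split_ifs with hu
        · have : ({t ∈ T | t < u + 1} : Finset ℕ) = insert u {t ∈ T | t < u} := by
            ext t
            simp only [mem_filter, mem_insert]
            constructor
            · rintro ⟨h1, h2⟩
              rcases Nat.lt_succ_iff_lt_or_eq.1 h2 with h | h
              · right; exact ⟨h1, h⟩
              · left; exact h
            · rintro (h | h)
              · subst h; exact ⟨hu, by omega⟩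
              · exact ⟨h.1, by omega⟩
          rw [this, sum_insert (by simp)]
          omega
        · have : ({t ∈ T | t < u + 1} : Finset ℕ) = {t ∈ T | t < u} := by
            ext t
            simp only [mem_filter]
            constructor
            · rintro ⟨h1, h2⟩
              rcases Nat.lt_succ_iff_lt_or_eq.1 h2 with h | h
              · exact ⟨h1, h⟩
              · subst h; exact absurd h1 hu
            · rintro ⟨h1, h2⟩; exact ⟨h1, by omega⟩
          rw [this]; omega
      refine h2.trans (Nat.add_le_add ih ?_)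
      split_ifs with hu
      · rw [mul_comm]
        exact Nat.mul_le_mul_left _ ((hd u hu).trans (hN u hu))
      · exact Nat.zero_le _
  have h2 : ∑ t ∈ T, d t * l ^ t = ∑ t ∈ T with t < u, d t * l ^ t +
      ∑ t ∈ T with ¬ t < u, d t * l ^ t := (sum_filter_add_sum_filter_not _ _ _).symm
  have h3 : l ^ u ∣ ∑ t ∈ T with ¬ t < u, d t * l ^ t := by
    apply dvd_sum
    intro t ht
    rw [mem_filter] at ht
    exact Dvd.dvd.mul_left (pow_dvd_pow _ (by omega)) _
  obtain ⟨c, hc⟩ := h3
  rw [h2, hc, Nat.add_mul_mod_self_left]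
  exact (Nat.mod_le _ _).trans (h1 u)

/-- **Key lemma.** -/
lemma f_le_of_digits {l P s i W : ℕ} {T : Finset ℕ} {d : ℕ → ℕ} (hl : l.Prime) (hP : P.Prime)
    (hi : 0 < i) (his : i < s) (h1 : l * i ≤ (l * s) % P)
    (hM : P * i = ∑ t ∈ T, d t * l ^ t) (hd : ∀ t ∈ T, d t ≤ W)
    (hN : ∀ t ∈ T, W ≤ (P * s / l ^ t) % l) : f (P * l * s) ≤ s := by
  set n := P * l * s with hn
  set k := P * l * i with hk
  have hPl : 0 < P * l := Nat.mul_pos hP.pos hl.pos
  have hkn : k ≤ n := Nat.mul_le_mul_left _ his.le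
  have hP1 : ¬ P ∣ n.choose k := by
    apply not_dvd_choose_of_mod_le hP hkn
    intro u
    have e1 : k = P * (l * i) := by rw [hk]; ring
    have e2 : n = P * (l * s) := by rw [hn]; ring
    cases u with
    | zero => simp [Nat.mod_one]
    | succ v =>
      rw [e1, e2, pow_succ', Nat.mul_mod_mul_left, Nat.mul_mod_mul_left]
      apply Nat.mul_le_mul_left
      cases v with
      | zero => simp [Nat.mod_one]
      | succ w =>
        have h2 : (l * i) % P ^ (w + 1) ≤ l * i := Nat.mod_le _ _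
        have h3 : ((l * s) % P ^ (w + 1)) % P = (l * s) % P :=
          Nat.mod_mod_of_dvd _ (dvd_pow_self P (by omega))
        have h4 : ((l * s) % P ^ (w + 1)) % P ≤ (l * s) % P ^ (w + 1) := Nat.mod_le _ _
        omega
  have hl1 : ¬ l ∣ n.choose k := by
    apply not_dvd_choose_of_mod_le hl hkn
    intro u
    have e1 : k = l * (P * i) := by rw [hk]; ring
    have e2 : n = l * (P * s) := by rw [hn]; ring
    cases u with
    | zero => simp [Nat.mod_one]
    | succ v =>
      rw [e1, e2, pow_succ', Nat.mul_mod_mul_left, Nat.mul_mod_mul_left]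
      apply Nat.mul_le_mul_left
      rw [hM]
      exact mod_pow_le l W (P * s) T d hd hN v
  -- the gcd
  have hg : ∀ c, ¬ P ∣ c → ¬ l ∣ c → Nat.gcd n c ≤ s := by
    intro c hc1 hc2
    have h2 : Nat.Coprime (P * l) c := Nat.Coprime.mul_left
      ((Nat.Prime.coprime_iff_not_dvd hP).2 hc1) ((Nat.Prime.coprime_iff_not_dvd hl).2 hc2)
    have h3 : Nat.gcd n c = Nat.gcd s c := by
      rw [hn]; exact Nat.Coprime.gcd_mul_left_cancel s h2
    rw [h3]
    exact Nat.le_of_dvd (by omega) (Nat.gcd_dvd_left _ _)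
  have hk2 : 1 < k := by
    have h2 : 2 ≤ P := hP.two_le
    have h3 : 2 ≤ l := hl.two_le
    have h4 : 2 * 2 ≤ P * l := Nat.mul_le_mul h2 h3
    have h5 : P * l * 1 ≤ P * l * i := Nat.mul_le_mul_left _ hi
    omega
  rcases le_or_gt (2 * k) n with h | h
  · exact (f_le hk2 h).trans (hg _ hP1 hl1)
  · have h2 : 1 < n - k := by
      have h2 : 2 ≤ P := hP.two_le
      have h3 : 2 ≤ l := hl.two_le
      have h4 : 2 * 2 ≤ P * l := Nat.mul_le_mul h2 h3
      have h5 : P * l * (i + 1) ≤ P * l * s := Nat.mul_le_mul_left _ his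
      have h6 : P * l * (i + 1) = P * l * i + P * l := by ring
      omega
    have h3 := f_le h2 (by omega : 2 * (n - k) ≤ n)
    rw [Nat.choose_symm hkn] at h3
    exact h3.trans (hg _ hP1 hl1)

end ESGcd
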