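import Pool.Agent.ESGcd.Excep
import Pool.Agent.ESGcd.Good

/-!
# Counting the failures for a prime `l` and `P ∈ (Y, 2 Y]`
-/

namespace ESGcd

open Finset

/-- the positions of the digits -/
def pos (τ : ℕ) : Finset ℕ := range τ ∪ {τ + 1, τ + 2}

lemma card_pos' (τ : ℕ) : #(pos τ) = τ + 2 := by
  unfold pos
  rw [card_union_of_disjoint, card_range, card_pair (by omega)]
  rw [disjoint_left]
  intro a ha
  simp only [mem_range, mem_insert, mem_singleton] at *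
  omega

lemma pos_subset (τ : ℕ) : pos τ ⊆ range (τ + 3) := by
  intro a ha
  simp only [pos, mem_union, mem_range, mem_insert, mem_singleton] at *
  omega

/-- rotation bound for the digits in high positions -/
lemma cnt_high (l t W S P Y : ℕ) (hl : 2 ≤ l) (hY : 1 ≤ Y) (hP1 : Y < P) (hP2 : P ≤ 2 * Y)
    (hW : 1 ≤ W) (hWl : W < l) (ht1 : Y * l ≤ l ^ (t + 1)) (ht2 : l ^ t ≤ Y * l ^ 2) :
    (cnt l t W S P : ℝ) ≤ 3 * S * W / l + (l : ℝ) ^ 3 := by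
  have hP0 : 0 < P := by omega
  have h1 : cnt l t W S P ≤ (P * S / l ^ (t + 1) + 1) * (W * l ^ t / P + 1) :=
    rot P (l ^ (t + 1)) (W * l ^ t) S hP0
  have hl0 : (0 : ℝ) < l := by positivity
  have hPr : (0 : ℝ) < P := by exact_mod_cast hP0
  have hYr : (0 : ℝ) < Y := by exact_mod_cast hY
  have h2 : ((P * S / l ^ (t + 1) : ℕ) : ℝ) ≤ P * S / (l : ℝ) ^ (t + 1) := by
    have := Nat.cast_div_le (α := ℝ) (m := P * S) (n := l ^ (t + 1))
    push_cast at this; exact this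
  have h3 : ((W * l ^ t / P : ℕ) : ℝ) ≤ W * (l : ℝ) ^ t / P := by
    have := Nat.cast_div_le (α := ℝ) (m := W * l ^ t) (n := P)
    push_cast at this; exact this
  have h4 : (cnt l t W S P : ℝ) ≤ (P * S / (l : ℝ) ^ (t + 1) + 1) * (W * (l : ℝ) ^ t / P + 1) := by
    have h5 : (cnt l t W S P : ℝ) ≤
        (((P * S / l ^ (t + 1) : ℕ) : ℝ) + 1) * (((W * l ^ t / P : ℕ) : ℝ) + 1) := by
      exact_mod_cast h1
    refine h5.trans ?_
    gcongr
  have h5 : (P * S / (l : ℝ) ^ (t + 1)) * (W * (l : ℝ) ^ t / P) = S * W / l := by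
    rw [pow_succ]; field_simp
  have h6 : P * S / (l : ℝ) ^ (t + 1) ≤ 2 * S * W / l := by
    rw [div_le_div_iff₀ (by positivity) hl0]
    have h7 : (P : ℝ) * l ≤ 2 * (l : ℝ) ^ (t + 1) := by
      have e1 : (P : ℝ) ≤ 2 * Y := by exact_mod_cast hP2
      have e2 : (Y : ℝ) * l ≤ (l : ℝ) ^ (t + 1) := by exact_mod_cast ht1
      nlinarith
    have e3 : (1 : ℝ) ≤ W := by exact_mod_cast hW
    have e4 : (0 : ℝ) ≤ S := by positivity
    calc (P : ℝ) * S * l = (P * l) * S := by ring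
      _ ≤ (2 * (l : ℝ) ^ (t + 1)) * S := by gcongr
      _ = 2 * S * 1 * (l : ℝ) ^ (t + 1) := by ring
      _ ≤ 2 * S * W * (l : ℝ) ^ (t + 1) := by gcongr
  have h7 : W * (l : ℝ) ^ t / P + 1 ≤ (l : ℝ) ^ 3 := by
    have e1 : W * (l : ℝ) ^ t / P ≤ W * (l : ℝ) ^ 2 := by
      rw [div_le_iff₀ hPr]
      have e2 : (l : ℝ) ^ t ≤ Y * (l : ℝ) ^ 2 := by exact_mod_cast ht2
      have e3 : (Y : ℝ) ≤ P := by exact_mod_cast hP1.le
      calc W * (l : ℝ) ^ t ≤ W * (Y * (l : ℝ) ^ 2) := by gcongr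
        _ ≤ W * (P * (l : ℝ) ^ 2) := by gcongr
        _ = _ := by ring
    have e4 : (W : ℝ) + 1 ≤ l := by exact_mod_cast hWl
    have e5 : (1 : ℝ) ≤ (l : ℝ) ^ 2 := by
      have : (2 : ℝ) ≤ l := by exact_mod_cast hl
      nlinarith
    have e6 : ((W : ℝ) + 1) * (l : ℝ) ^ 2 ≤ l * (l : ℝ) ^ 2 := by gcongr
    have e7 : (l : ℝ) * (l : ℝ) ^ 2 = (l : ℝ) ^ 3 := by ring
    nlinarith
  have h8 : (P * S / (l : ℝ) ^ (t + 1) + 1) * (W * (l : ℝ) ^ t / P + 1) =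
      (P * S / (l : ℝ) ^ (t + 1)) * (W * (l : ℝ) ^ t / P) + P * S / (l : ℝ) ^ (t + 1) +
      (W * (l : ℝ) ^ t / P + 1) := by ring
  rw [h8, h5] at h4
  have h9 : (3 : ℝ) * S * W / l = S * W / l + 2 * S * W / l := by ring
  linarith

/-- The parameters. -/
structure Par (x A L l Y : ℕ) : Prop where
  hl : l.Prime
  hA : x < l ^ A
  hYx : Y ≤ x
  hL : 1 ≤ L
  hbig : (5 * L ^ 4) ^ (A + 1) ≤ l
  hY : l ^ 4 * L ≤ Y
  hS : 4 * l ^ 3 * L ≤ x / (Y * l)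

lemma Par.exists {x A L l Y : ℕ} (h : Par x A L l Y) :
    ∃ τ y : ℕ, l ^ τ ≤ Y ∧ Y < l ^ (τ + 1) ∧ τ < A ∧ 1 ≤ y ∧ L * y ^ (τ + 2) ≤ Y ∧
      Y < L * (y + 1) ^ (τ + 2) ∧ (4 * L * y + 1) * L ^ 3 < l := by
  have hl2 := h.hl.two_le
  have hL := h.hL
  have hl4 : 0 < l ^ 4 := by positivity
  have hLY : L ≤ Y := by
    calc L = 1 * L := by ring
      _ ≤ l ^ 4 * L := Nat.mul_le_mul_right _ hl4
      _ ≤ Y := h.hY
  have hY0 : Y ≠ 0 := by omega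
  set τ := Nat.log l Y with hτ
  have h1 : l ^ τ ≤ Y := Nat.pow_log_le_self l hY0
  have h2 : Y < l ^ (τ + 1) := Nat.lt_pow_succ_log_self h.hl.one_lt Y
  have h3 : τ < A := by
    have : l ^ τ < l ^ A := (h1.trans h.hYx).trans_lt h.hA
    exact (Nat.pow_lt_pow_iff_right h.hl.one_lt).1 this
  have hex : ∃ y, Y < L * (y + 1) ^ (τ + 2) := by
    refine ⟨Y, ?_⟩
    calc Y < Y + 1 := Nat.lt_succ_self _
      _ = (Y + 1) ^ 1 := (pow_one _).symm
      _ ≤ (Y + 1) ^ (τ + 2) := Nat.pow_le_pow_right (by omega) (by omega)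
      _ = 1 * (Y + 1) ^ (τ + 2) := (one_mul _).symm
      _ ≤ L * (Y + 1) ^ (τ + 2) := Nat.mul_le_mul_right _ hL
  set y := Nat.find hex with hy
  have h4 := Nat.find_spec hex
  have h5 : 1 ≤ y := by
    by_contra h0
    have : y = 0 := by omega
    rw [← hy, this] at h4
    simp at h4
    omega
  have h6 : L * y ^ (τ + 2) ≤ Y := by
    have := Nat.find_min hex (m := y - 1) (by omega)
    have e : y - 1 + 1 = y := by omega
    rw [e] at this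
    omega
  refine ⟨τ, y, h1, h2, h3, h5, h6, h4, ?_⟩
  have h7 : (4 * L * y + 1) * L ^ 3 ≤ 5 * L ^ 4 * y := by
    have e1 : 1 ≤ L * y := Nat.one_le_iff_ne_zero.2 (by positivity)
    calc (4 * L * y + 1) * L ^ 3 ≤ (4 * L * y + L * y) * L ^ 3 := by gcongr
      _ = 5 * L ^ 4 * y := by ring
  refine lt_of_le_of_lt h7 ?_
  by_contra hcon
  push Not at hcon
  have h8 : l ^ (τ + 2) ≤ (5 * L ^ 4 * y) ^ (τ + 2) := Nat.pow_le_pow_left hcon _
  have h9 : (5 * L ^ 4 * y) ^ (τ + 2) < l ^ (τ + 2) := by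
    have e1 : (5 * L ^ 4) ^ (τ + 2) ≤ l := by
      refine le_trans (Nat.pow_le_pow_right (by positivity) (by omega)) h.hbig
    have e2 : y ^ (τ + 2) ≤ Y := by
      calc y ^ (τ + 2) = 1 * y ^ (τ + 2) := by ring
        _ ≤ L * y ^ (τ + 2) := Nat.mul_le_mul_right _ hL
        _ ≤ Y := h6
    calc (5 * L ^ 4 * y) ^ (τ + 2) = (5 * L ^ 4) ^ (τ + 2) * y ^ (τ + 2) := mul_pow _ _ _
      _ ≤ l * Y := Nat.mul_le_mul e1 e2
      _ < l * l ^ (τ + 1) := Nat.mul_lt_mul_of_pos_left h2 h.hl.pos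
      _ = l ^ (τ + 2) := by ring
  omega

end ESGcd
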