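import Pool.Agent.ESGcd.Fail

/-!
# For a non-exceptional prime `P` few `s` fail
-/

namespace ESGcd

open Finset

/-- the multiple of `P` with small digits. -/
lemma exists_i {x A L l Y τ y P : ℕ} (h : Par x A L l Y) (h1 : l ^ τ ≤ Y)
    (h4 : 1 ≤ y) (h6 : Y < L * (y + 1) ^ (τ + 2))
    (h7 : (4 * L * y + 1) * L ^ 3 < l) (hP : P.Prime) (hP1 : Y < P) (hP2 : P ≤ 2 * Y)
    (hinj : Set.InjOn (phi l P (pos τ)) (box (pos τ) y)) :
    ∃ i : ℕ, ∃ d : ℕ → ℕ, 0 < i ∧ i < l ^ 3 ∧ P * i = ∑ t ∈ pos τ, d t * l ^ t ∧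
      ∀ t ∈ pos τ, d t ≤ 4 * L * y + 1 := by
  have hl2 := h.hl.two_le
  have hL := h.hL
  have hk : P ≤ (4 * L) * ((y + 1) ^ #(pos τ) - 1) + 1 := by
    rw [card_pos']
    have e1 : 2 ≤ (y + 1) ^ (τ + 2) := by
      calc 2 = 2 ^ 1 := by norm_num
        _ ≤ 2 ^ (τ + 2) := Nat.pow_le_pow_right (by norm_num) (by omega)
        _ ≤ (y + 1) ^ (τ + 2) := Nat.pow_le_pow_left (by omega) _
    have e2 : L * (y + 1) ^ (τ + 2) ≤ (2 * L) * ((y + 1) ^ (τ + 2) - 1) := by
      have e3 : (y + 1) ^ (τ + 2) ≤ 2 * ((y + 1) ^ (τ + 2) - 1) := by omega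
      calc L * (y + 1) ^ (τ + 2) ≤ L * (2 * ((y + 1) ^ (τ + 2) - 1)) := Nat.mul_le_mul_left _ e3
        _ = _ := by ring
    have e4 : (4 * L) * ((y + 1) ^ (τ + 2) - 1) = 2 * ((2 * L) * ((y + 1) ^ (τ + 2) - 1)) := by
      ring
    rw [e4]
    omega
  obtain ⟨d, hd, hPd⟩ := exists_digits (l := l) hP y (4 * L) hinj hk
  set d' : ℕ → ℕ := fun t => if ht : t ∈ pos τ then d ⟨t, ht⟩ else 0 with hd'
  have hdd : ∀ t (ht : t ∈ pos τ), d' t = d ⟨t, ht⟩ := fun t ht => by simp [hd', ht]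
  have hsum : ∑ t : pos τ, d t * l ^ (t : ℕ) = ∑ t ∈ pos τ, d' t * l ^ t := by
    rw [← sum_coe_sort (pos τ) (fun t => d' t * l ^ t)]
    refine sum_congr rfl fun t _ => ?_
    rw [hdd t t.2]
  rw [hsum] at hPd
  obtain ⟨i, hi⟩ := hPd
  have hW : ∀ t ∈ pos τ, d' t ≤ 4 * L * y + 1 := fun t ht => by rw [hdd t ht]; exact (hd _).2
  have hWl : 4 * L * y + 1 < l := by
    refine lt_of_le_of_lt ?_ h7
    exact Nat.le_mul_of_pos_right _ (by positivity)
  refine ⟨i, d', ?_, ?_, hi.symm, hW⟩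
  · rcases Nat.eq_zero_or_pos i with h0 | h0
    · subst h0
      rw [Nat.mul_zero, sum_eq_zero_iff] at hi
      have hm : τ + 1 ∈ pos τ := by simp [pos]
      have h8 := hi (τ + 1) hm
      have h9 := (hd ⟨τ + 1, hm⟩).1
      rw [hdd _ hm] at h8
      have h10 : 0 < l ^ (τ + 1) := by positivity
      have h11 : 0 < d ⟨τ + 1, hm⟩ * l ^ (τ + 1) := Nat.mul_pos h9 h10
      omega
    · exact h0
  · have e1 : ∑ t ∈ pos τ, d' t * l ^ t < l ^ (τ + 3) := by
      have e2 : ∑ t ∈ pos τ, d' t * l ^ t ≤ ∑ t ∈ range (τ + 3), (l - 1) * l ^ t := by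
        calc ∑ t ∈ pos τ, d' t * l ^ t ≤ ∑ t ∈ pos τ, (l - 1) * l ^ t := by
              refine sum_le_sum fun t ht => Nat.mul_le_mul_right _ ?_
              have := hW t ht
              omega
          _ ≤ _ := sum_le_sum_of_subset (pos_subset τ)
      have e3 : ∑ t ∈ range (τ + 3), (l - 1) * l ^ t = l ^ (τ + 3) - 1 := by
        rw [← mul_sum]
        have := Nat.geomSum_eq hl2 (τ + 3)
        rw [this]
        apply Nat.mul_div_cancel'
        have := Nat.sub_dvd_pow_sub_pow l 1 (τ + 3)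
        simpa using this
      have e4 : 0 < l ^ (τ + 3) := by positivity
      omega
    have e5 : l ^ (τ + 3) = l ^ τ * l ^ 3 := by ring
    have e6 : P * i < P * l ^ 3 := by
      rw [← hi]
      refine lt_of_lt_of_le e1 ?_
      rw [e5]
      exact Nat.mul_le_mul_right _ (h1.trans hP1.le)
    exact Nat.lt_of_mul_lt_mul_left e6

/-- few `s` fail. -/
lemma bad_s {x A L l Y τ y P : ℕ} (h : Par x A L l Y) (h1 : l ^ τ ≤ Y) (h2 : Y < l ^ (τ + 1))
    (h3 : τ < A) (h4 : 1 ≤ y) (h6 : Y < L * (y + 1) ^ (τ + 2))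
    (h7 : (4 * L * y + 1) * L ^ 3 < l) (hP : P.Prime) (hP1 : Y < P) (hP2 : P ≤ 2 * Y)
    (hinj : Set.InjOn (phi l P (pos τ)) (box (pos τ) y))
    (h2' : ∀ t < τ, L * cnt l t (4 * L * y + 1) (x / (Y * l)) P ≤ x / (Y * l)) :
    (#{s ∈ Icc 1 (x / (Y * l)) | s < f (P * l * s)} : ℝ) ≤ (A + 8) * (x / (Y * l) : ℕ) / L := by
  have hl2 := h.hl.two_le
  have hL := h.hL
  obtain ⟨i, d, hi0, hi1, hi2, hd⟩ := exists_i h h1 h4 h6 h7 hP hP1 hP2 hinj
  set S := x / (Y * l) with hS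
  set W := 4 * L * y + 1 with hW
  have hWl : W < l := by
    refine lt_of_le_of_lt ?_ h7
    exact Nat.le_mul_of_pos_right _ (by positivity)
  have hY0 : 0 < Y := by
    have := h.hY
    have : 0 < l ^ 4 * L := by positivity
    omega
  -- the failing `s` lie in a union
  have hsub : ({s ∈ Icc 1 S | s < f (P * l * s)} : Finset ℕ) ⊆
      (Icc 1 i ∪ {s ∈ Icc 1 S | (l * s) % P < l * i}) ∪
      (pos τ).biUnion fun t => {s ∈ Icc 1 S | (P * s) % l ^ (t + 1) < W * l ^ t} := by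
    intro s hs
    rw [mem_filter] at hs
    rw [mem_union, mem_union, mem_biUnion, mem_filter]
    by_contra hcon
    push Not at hcon
    obtain ⟨⟨c1, c2⟩, c3⟩ := hcon
    have hs1 := (mem_Icc.1 hs.1).1
    have c1' : i < s := by
      by_contra hc
      apply c1
      rw [mem_Icc]; omega
    have c2' := c2 hs.1
    have c3' : ∀ t ∈ pos τ, W ≤ (P * s / l ^ t) % l := by
      intro t ht
      have c4 := c3 t ht
      rw [mem_filter] at c4
      push Not at c4
      have c5 := c4 hs.1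
      rw [Nat.mod_pow_succ] at c5
      by_contra c6
      push Not at c6
      have c7 : (P * s / l ^ t) % l + 1 ≤ W := c6
      have c8 : l ^ t * ((P * s / l ^ t) % l + 1) ≤ l ^ t * W := Nat.mul_le_mul_left _ c7
      have c9 := Nat.mod_lt (P * s) (show 0 < l ^ t by positivity)
      have c10 : W * l ^ t = l ^ t * W := mul_comm _ _
      have c11 : l ^ t * ((P * s / l ^ t) % l + 1) = l ^ t * ((P * s / l ^ t) % l) + l ^ t := by
        ring
      omega
    have := f_le_of_digits h.hl hP hi0 c1' c2' hi2 hd c3'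
    omega
  have hLr : (0 : ℝ) < L := by exact_mod_cast hL
  have hlr : (0 : ℝ) < l := by positivity
  have hSr : (0 : ℝ) ≤ (S : ℝ) := by positivity
  have hS4 : 4 * (l : ℝ) ^ 3 ≤ S / L := by
    rw [le_div_iff₀ hLr]; exact_mod_cast h.hS
  have b1 : ((#(Icc 1 i) : ℕ) : ℝ) ≤ (l : ℝ) ^ 3 := by
    rw [Nat.card_Icc, Nat.add_sub_cancel]; exact_mod_cast hi1.le
  have b2 : (#{s ∈ Icc 1 S | (l * s) % P < l * i} : ℝ) ≤ S / L + (l : ℝ) ^ 3 := by
    have e1 := rot l P (l * i) S h.hl.pos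
    rw [Nat.mul_div_cancel_left _ h.hl.pos] at e1
    have e2 : (#{s ∈ Icc 1 S | (l * s) % P < l * i} : ℝ) ≤
        (((l * S / P : ℕ) : ℝ) + 1) * ((i : ℝ) + 1) := by exact_mod_cast e1
    have e3 : ((l * S / P : ℕ) : ℝ) ≤ l * S / Y := by
      have e4 := Nat.cast_div_le (α := ℝ) (m := l * S) (n := P)
      push_cast at e4
      refine e4.trans ?_
      have : (Y : ℝ) ≤ P := by exact_mod_cast hP1.le
      have : (0 : ℝ) < Y := by exact_mod_cast hY0
      gcongr
    have e5 : (i : ℝ) + 1 ≤ (l : ℝ) ^ 3 := by exact_mod_cast hi1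
    calc _ ≤ _ := e2
      _ ≤ (l * S / Y + 1) * (l : ℝ) ^ 3 := by gcongr
      _ = (l : ℝ) ^ 4 / Y * S + (l : ℝ) ^ 3 := by ring
      _ ≤ 1 / L * S + (l : ℝ) ^ 3 := by
          gcongr ?_ * _ + _
          rw [div_le_div_iff₀ (by exact_mod_cast hY0) hLr, one_mul]
          exact_mod_cast h.hY
      _ = _ := by ring
  have hWL : 3 * (S : ℝ) * W / l ≤ 3 * (S / L) := by
    have e1 : (W : ℝ) * (L : ℝ) ^ 3 ≤ l := by exact_mod_cast h7.le
    have e2 : (W : ℝ) / l ≤ 1 / L := by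
      rw [div_le_div_iff₀ hlr hLr, one_mul]
      have e3 : (1 : ℝ) ≤ L := by exact_mod_cast hL
      calc (W : ℝ) * L = W * L ^ 1 := by ring
        _ ≤ W * (L : ℝ) ^ 3 :=
          mul_le_mul_of_nonneg_left (pow_le_pow_right₀ e3 (by norm_num)) (by positivity)
        _ ≤ l := e1
    calc 3 * (S : ℝ) * W / l = 3 * S * (W / l) := by ring
      _ ≤ 3 * S * (1 / L) := by gcongr
      _ = _ := by ring
  have b3 : ∀ t ∈ pos τ, (#{s ∈ Icc 1 S | (P * s) % l ^ (t + 1) < W * l ^ t} : ℝ) ≤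
      if t < τ then (S : ℝ) / L else 3 * (S / L) + (l : ℝ) ^ 3 := by
    intro t ht
    have e0 : (#{s ∈ Icc 1 S | (P * s) % l ^ (t + 1) < W * l ^ t} : ℝ) = (cnt l t W S P : ℝ) := rfl
    rw [e0]
    split_ifs with h8
    · rw [le_div_iff₀ hLr, mul_comm]
      exact_mod_cast h2' t h8
    · have ht' : t = τ + 1 ∨ t = τ + 2 := by
        simp only [pos, mem_union, mem_range, mem_insert, mem_singleton] at ht
        omega
      have e1 : Y * l ≤ l ^ (t + 1) := by
        calc Y * l ≤ l ^ (τ + 1) * l := Nat.mul_le_mul_right _ h2.le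
          _ = l ^ (τ + 2) := by ring
          _ ≤ l ^ (t + 1) := Nat.pow_le_pow_right h.hl.pos (by omega)
      have e2 : l ^ t ≤ Y * l ^ 2 := by
        calc l ^ t ≤ l ^ (τ + 2) := Nat.pow_le_pow_right h.hl.pos (by omega)
          _ = l ^ τ * l ^ 2 := by ring
          _ ≤ Y * l ^ 2 := Nat.mul_le_mul_right _ h1
      refine (cnt_high l t W S P Y hl2 hY0 hP1 hP2 (by omega) hWl e1 e2).trans ?_
      linarith
  have hcard : (#{s ∈ Icc 1 S | s < f (P * l * s)} : ℝ) ≤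
      (((#(Icc 1 i) : ℕ) : ℝ) + (#{s ∈ Icc 1 S | (l * s) % P < l * i} : ℝ)) +
      ∑ t ∈ pos τ, (#{s ∈ Icc 1 S | (P * s) % l ^ (t + 1) < W * l ^ t} : ℝ) := by
    have e1 := (card_le_card hsub).trans ((card_union_le _ _).trans
      (Nat.add_le_add (card_union_le _ _) card_biUnion_le))
    exact_mod_cast e1
  have hsum : ∑ t ∈ pos τ, (#{s ∈ Icc 1 S | (P * s) % l ^ (t + 1) < W * l ^ t} : ℝ) ≤
      τ * (S / L) + 2 * (3 * (S / L) + (l : ℝ) ^ 3) := by
    refine (sum_le_sum b3).trans ?_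
    unfold pos
    rw [sum_union, sum_pair (by omega)]
    · have e1 : ∑ t ∈ range τ, (if t < τ then (S : ℝ) / L else 3 * (S / L) + (l : ℝ) ^ 3) =
          τ * (S / L) := by
        rw [sum_congr rfl (g := fun _ => (S : ℝ) / L)]
        · simp
        · intro t ht
          rw [mem_range] at ht
          simp [ht]
      rw [e1, if_neg (by omega), if_neg (by omega)]
      linarith
    · rw [disjoint_left]
      intro a ha
      simp only [mem_range, mem_insert, mem_singleton] at *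
      omega
  have hτ : (τ : ℝ) * (S / L) ≤ A * (S / L) - S / L := by
    have e1 : (τ : ℝ) + 1 ≤ A := by exact_mod_cast h3
    have e2 : (0 : ℝ) ≤ S / L := by positivity
    nlinarith
  have hfin : ((A : ℝ) + 8) * S / L = A * (S / L) + 8 * (S / L) := by ring
  rw [hfin]
  linarith

/-- **All failures for `l` and `P ∈ (Y, 2 Y]`.** -/
lemma fail_sum {x A L l Y : ℕ} (h : Par x A L l Y) :
    (∑ P ∈ Ioc Y (2 * Y) with P.Prime, (#{s ∈ Icc 1 (x / (P * l)) | s < f (P * l * s)} : ℝ)) ≤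
      (3 ^ (A + 1) + 5 * A + 8) * x / (l * L) := by
  classical
  obtain ⟨τ, y, h1, h2, h3, h4, h5, h6, h7⟩ := h.exists
  have hl2 := h.hl.two_le
  have hL := h.hL
  have hLr : (0 : ℝ) < L := by exact_mod_cast hL
  have hlr : (0 : ℝ) < l := by positivity
  have hY0 : 0 < Y := by
    have := h.hY
    have : 0 < l ^ 4 * L := by positivity
    omega
  have hYr : (0 : ℝ) < Y := by exact_mod_cast hY0
  set S := x / (Y * l) with hS
  set W := 4 * L * y + 1 with hW
  have hS1 : 1 ≤ S := by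
    have := h.hS
    have : 0 < 4 * l ^ 3 * L := by positivity
    omega
  have hSr : (S : ℝ) ≤ x / (Y * l) := by
    have := Nat.cast_div_le (α := ℝ) (m := x) (n := Y * l)
    push_cast at this; exact this
  set E1 : Finset ℕ := {P ∈ Ioc Y (2 * Y) | P.Prime ∧
    ¬ Set.InjOn (phi l P (pos τ)) (box (pos τ) y)} with hE1
  set E2 : Finset ℕ := (range τ).biUnion fun t =>
    {P ∈ Ioc Y (2 * Y) | S < L * cnt l t W S P} with hE2
  have hWL : (W : ℝ) / l ≤ 1 / (L : ℝ) ^ 3 := by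
    rw [div_le_div_iff₀ hlr (by positivity), one_mul]
    exact_mod_cast h7.le
  -- the first exceptional set
  have c1 : (#E1 : ℝ) ≤ 3 ^ (A + 1) * Y / L := by
    have e1 : #E1 ≤ (2 * y + 1) ^ #(pos τ) := by
      apply card_exc1 l (τ + 3) y Y (pos τ) hl2 (pos_subset τ)
      · have e2 : y ≤ 4 * L * y := Nat.le_mul_of_pos_left _ (by positivity)
        have e3 : W ≤ W * L ^ 3 := Nat.le_mul_of_pos_right _ (by positivity)
        omega
      · calc l ^ (τ + 3) = l ^ τ * l ^ 3 := by ring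
          _ ≤ Y * Y := by
            apply Nat.mul_le_mul h1
            refine le_trans ?_ h.hY
            calc l ^ 3 = l ^ 3 * 1 := (mul_one _).symm
              _ ≤ l ^ 3 * (l * L) := Nat.mul_le_mul_left _
                  (Nat.one_le_iff_ne_zero.2 (by positivity))
              _ = l ^ 4 * L := by ring
          _ = Y ^ 2 := by ring
      · intro P hP
        rw [hE1, mem_filter, mem_Ioc] at hP
        exact ⟨hP.2.1, hP.1.1, hP.2.2⟩
    rw [card_pos'] at e1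
    have e2 : (2 * y + 1) ^ (τ + 2) ≤ 3 ^ (A + 1) * y ^ (τ + 2) := by
      calc (2 * y + 1) ^ (τ + 2) ≤ (3 * y) ^ (τ + 2) := Nat.pow_le_pow_left (by omega) _
        _ = 3 ^ (τ + 2) * y ^ (τ + 2) := mul_pow _ _ _
        _ ≤ 3 ^ (A + 1) * y ^ (τ + 2) := Nat.mul_le_mul_right _
            (Nat.pow_le_pow_right (by norm_num) (by omega))
    have e3 : (y : ℝ) ^ (τ + 2) ≤ Y / L := by
      rw [le_div_iff₀ hLr, mul_comm]; exact_mod_cast h5
    calc (#E1 : ℝ) ≤ 3 ^ (A + 1) * (y : ℝ) ^ (τ + 2) := by exact_mod_cast e1.trans e2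
      _ ≤ 3 ^ (A + 1) * (Y / L) := by gcongr
      _ = _ := by ring
  -- the second exceptional set
  have c2 : (#E2 : ℝ) ≤ 4 * A * Y / L := by
    have e1 : (#E2 : ℝ) ≤ ∑ t ∈ range τ, (#{P ∈ Ioc Y (2 * Y) | S < L * cnt l t W S P} : ℝ) := by
      exact_mod_cast card_biUnion_le
    have e2 : ∀ t ∈ range τ, (#{P ∈ Ioc Y (2 * Y) | S < L * cnt l t W S P} : ℝ) ≤
        4 * Y / L := by
      intro t ht
      rw [mem_range] at ht
      have e3 : l ^ (t + 1) ≤ Y := (Nat.pow_le_pow_right h.hl.pos (by omega)).trans h1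
      refine (card_exc2 l t W S Y L h.hl (by omega) e3 hS1 hL).trans ?_
      calc 4 * (L : ℝ) * Y * W / l = 4 * L * Y * (W / l) := by ring
        _ ≤ 4 * L * Y * (1 / (L : ℝ) ^ 3) := by gcongr
        _ = 4 * Y / L * (1 / L) := by field_simp
        _ ≤ 4 * Y / L * 1 := by
            gcongr
            rw [div_le_one hLr]; exact_mod_cast hL
        _ = _ := by ring
    refine e1.trans ((sum_le_sum e2).trans ?_)
    rw [sum_const, card_range, nsmul_eq_mul]
    have e4 : (τ : ℝ) ≤ A := by exact_mod_cast h3.le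
    calc (τ : ℝ) * (4 * Y / L) ≤ A * (4 * Y / L) := by gcongr
      _ = _ := by ring
  -- the two kinds of `P`
  have key : ∀ P ∈ ({P ∈ Ioc Y (2 * Y) | P.Prime} : Finset ℕ),
      (#{s ∈ Icc 1 (x / (P * l)) | s < f (P * l * s)} : ℝ) ≤
      (if P ∈ E1 ∪ E2 then (x : ℝ) / (Y * l) else 0) + (A + 8) * (x / (Y * l)) / L := by
    intro P hP
    rw [mem_filter, mem_Ioc] at hP
    obtain ⟨⟨hP1, hP2⟩, hPp⟩ := hP
    have hsub : ({s ∈ Icc 1 (x / (P * l)) | s < f (P * l * s)} : Finset ℕ) ⊆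
        {s ∈ Icc 1 S | s < f (P * l * s)} := by
      apply filter_subset_filter
      apply Icc_subset_Icc_right
      exact Nat.div_le_div_left (Nat.mul_le_mul_right _ hP1.le) (by positivity)
    have hle : (#{s ∈ Icc 1 (x / (P * l)) | s < f (P * l * s)} : ℝ) ≤
        (#{s ∈ Icc 1 S | s < f (P * l * s)} : ℝ) := by exact_mod_cast card_le_card hsub
    have hpos : (0 : ℝ) ≤ (A + 8) * (x / (Y * l)) / L := by positivity
    split_ifs with hmem
    · have e1 : (#{s ∈ Icc 1 S | s < f (P * l * s)} : ℝ) ≤ S := by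
        have := card_filter_le (Icc 1 S) (fun s => s < f (P * l * s))
        rw [Nat.card_Icc, Nat.add_sub_cancel] at this
        exact_mod_cast this
      linarith
    · rw [mem_union, not_or] at hmem
      obtain ⟨m1, m2⟩ := hmem
      have hinj : Set.InjOn (phi l P (pos τ)) (box (pos τ) y) := by
        by_contra hc
        apply m1
        rw [hE1, mem_filter, mem_Ioc]
        exact ⟨⟨hP1, hP2⟩, hPp, hc⟩
      have h2' : ∀ t < τ, L * cnt l t W S P ≤ S := by
        intro t ht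
        by_contra hc
        push Not at hc
        apply m2
        rw [hE2, mem_biUnion]
        refine ⟨t, mem_range.2 ht, ?_⟩
        rw [mem_filter, mem_Ioc]
        exact ⟨⟨hP1, hP2⟩, hc⟩
      have := bad_s h h1 h2 h3 h4 h6 h7 hPp hP1 hP2 hinj h2'
      rw [zero_add]
      refine (hle.trans this).trans ?_
      gcongr
  refine (sum_le_sum key).trans ?_
  rw [sum_add_distrib]
  have s1 : ∑ P ∈ Ioc Y (2 * Y) with P.Prime, (if P ∈ E1 ∪ E2 then (x : ℝ) / (Y * l) else 0) ≤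
      (#(E1 ∪ E2) : ℝ) * (x / (Y * l)) := by
    rw [← sum_filter, sum_const, nsmul_eq_mul]
    apply mul_le_mul_of_nonneg_right _ (by positivity)
    have : ({P ∈ ({P ∈ Ioc Y (2 * Y) | P.Prime} : Finset ℕ) | P ∈ E1 ∪ E2} : Finset ℕ) ⊆
        E1 ∪ E2 := fun P hP => (mem_filter.1 hP).2
    exact_mod_cast card_le_card this
  have s2 : ∑ P ∈ Ioc Y (2 * Y) with P.Prime, ((A : ℝ) + 8) * (x / (Y * l)) / L ≤
      Y * ((A + 8) * (x / (Y * l)) / L) := by
    rw [sum_const, nsmul_eq_mul]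
    apply mul_le_mul_of_nonneg_right _ (by positivity)
    have : #({P ∈ Ioc Y (2 * Y) | P.Prime} : Finset ℕ) ≤ Y := by
      refine (card_filter_le _ _).trans ?_
      rw [Nat.card_Ioc]; omega
    exact_mod_cast this
  have s3 : (#(E1 ∪ E2) : ℝ) ≤ (3 ^ (A + 1) + 4 * A) * Y / L := by
    have : (#(E1 ∪ E2) : ℝ) ≤ #E1 + #E2 := by exact_mod_cast card_union_le _ _
    have e : ((3 : ℝ) ^ (A + 1) + 4 * A) * Y / L = 3 ^ (A + 1) * Y / L + 4 * A * Y / L := by ring
    linarith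
  have s4 : (#(E1 ∪ E2) : ℝ) * (x / (Y * l)) ≤ (3 ^ (A + 1) + 4 * A) * x / (l * L) := by
    calc (#(E1 ∪ E2) : ℝ) * (x / (Y * l)) ≤ ((3 ^ (A + 1) + 4 * A) * Y / L) * (x / (Y * l)) := by
          gcongr
      _ = _ := by field_simp
  have s5 : (Y : ℝ) * ((A + 8) * (x / (Y * l)) / L) = (A + 8) * x / (l * L) := by field_simp
  have s6 : ((3 : ℝ) ^ (A + 1) + 5 * A + 8) * x / (l * L) =
      (3 ^ (A + 1) + 4 * A) * x / (l * L) + (A + 8) * x / (l * L) := by ring
  rw [s6]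
  linarith

end ESGcd
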