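import Pool.Agent.ESGcd.Good2

/-!
# Counting the failures for a prime `l` and `P ∈ (Y, 2 Y]`
-/

namespace ESGcd

open Finset

/-- The parameters. -/
structure Par2 (x l Y D h b L I : ℕ) : Prop where
  hl : l.Prime
  hY : 2 ≤ Y
  hL : 1 ≤ L
  hLl : L ^ 2 ≤ l
  hLb : L ≤ 2 ^ b
  hτ : Nat.log l Y ≤ D
  hDL : D ≤ L
  hbad : 2 * 8 ^ D * 4 ^ (2 * h + 2 * b * (D - Nat.log l Y)) *
    ((l : ℝ) ^ (D + 1) + 8 * (Y : ℝ) ^ 2 * (1 + Real.log (4 * (Y : ℝ) ^ 2))) * L ≤ Y * (l : ℝ) ^ D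
  hlow : 3 * 2 ^ Nat.log l Y * L ≤ 2 ^ h
  hI0 : 1 ≤ I
  hI : l ^ (D + 1) ≤ Y * I
  hIS : 2 * I * L ^ 2 ≤ x / (Y * l)
  hIY : 2 * l * I * L ≤ Y

variable {x l Y D h b L I : ℕ}

lemma Par2.bad (p : Par2 x l Y D h b L I) :
    (#(badP l Y (2 * h + 2 * b * (D - Nat.log l Y)) (pos2 D (Nat.log l Y))) : ℝ) * L ≤ Y := by
  have hl2 := p.hl.two_le
  have h1 := card_badP (l := l) (Y := Y) (H := 2 * h + 2 * b * (D - Nat.log l Y)) (m := D + 1)
    (T := pos2 D (Nat.log l Y)) hl2 p.hY (erase_subset _ _)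
  rw [card_pos2 p.hτ] at h1
  have hlD : (0 : ℝ) < (l : ℝ) ^ D := by positivity
  have hLr : (0 : ℝ) < L := by exact_mod_cast p.hL
  have h2 := p.hbad
  have h3 : (#(badP l Y (2 * h + 2 * b * (D - Nat.log l Y)) (pos2 D (Nat.log l Y))) : ℝ) * L *
      (l : ℝ) ^ D ≤ Y * (l : ℝ) ^ D := by
    calc (#(badP l Y (2 * h + 2 * b * (D - Nat.log l Y)) (pos2 D (Nat.log l Y))) : ℝ) * L *
        (l : ℝ) ^ D = ((#(badP l Y (2 * h + 2 * b * (D - Nat.log l Y))
          (pos2 D (Nat.log l Y))) : ℝ) * (l : ℝ) ^ D) * L := by ring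
      _ ≤ _ := mul_le_mul_of_nonneg_right h1 hLr.le
      _ ≤ _ := h2
  exact le_of_mul_le_mul_right h3 hlD

lemma Par2.high (p : Par2 x l Y D h b L I) {P t : ℕ} (hP1 : Y < P) (hP2 : P ≤ 2 * Y)
    (ht : t ∈ Ioc (Nat.log l Y) D) :
    (#{s ∈ Icc 1 (x / (Y * l)) | (P * s) % l ^ (t + 1) < l / L ^ 2 * l ^ t} : ℝ) ≤
      4 * ((x / (Y * l) : ℕ) : ℝ) / L ^ 2 := by
  set S := x / (Y * l) with hS
  set W := l / L ^ 2 with hW
  rw [mem_Ioc] at ht
  have hl2 := p.hl.two_le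
  have hY := p.hY
  have hL := p.hL
  have hlr : (0 : ℝ) < l := by positivity
  have hLr : (0 : ℝ) < L := by exact_mod_cast p.hL
  have hP0 : 0 < P := by omega
  have hPr : (0 : ℝ) < P := by exact_mod_cast hP0
  have hYr : (0 : ℝ) < Y := by exact_mod_cast (by omega : 0 < Y)
  have h1 := rot P (l ^ (t + 1)) (W * l ^ t) S hP0
  have h2 : ((P * S / l ^ (t + 1) : ℕ) : ℝ) ≤ P * S / (l : ℝ) ^ (t + 1) := by
    have := Nat.cast_div_le (α := ℝ) (m := P * S) (n := l ^ (t + 1))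
    push_cast at this; exact this
  have h3 : ((W * l ^ t / P : ℕ) : ℝ) ≤ W * (l : ℝ) ^ t / P := by
    have := Nat.cast_div_le (α := ℝ) (m := W * l ^ t) (n := P)
    push_cast at this; exact this
  have hWr : (W : ℝ) ≤ l / (L : ℝ) ^ 2 := by
    have := Nat.cast_div_le (α := ℝ) (m := l) (n := L ^ 2)
    push_cast at this; exact this
  have h4 : (#{s ∈ Icc 1 S | (P * s) % l ^ (t + 1) < W * l ^ t} : ℝ) ≤
      (P * S / (l : ℝ) ^ (t + 1) + 1) * (W * (l : ℝ) ^ t / P + 1) := by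
    have h5 : (#{s ∈ Icc 1 S | (P * s) % l ^ (t + 1) < W * l ^ t} : ℝ) ≤
        (((P * S / l ^ (t + 1) : ℕ) : ℝ) + 1) * (((W * l ^ t / P : ℕ) : ℝ) + 1) := by
      exact_mod_cast h1
    refine h5.trans ?_
    gcongr
  have hYl : (Y : ℝ) * l ≤ (l : ℝ) ^ (t + 1) := by
    have e1 : Y < l ^ (Nat.log l Y + 1) := Nat.lt_pow_succ_log_self p.hl.one_lt Y
    have e2 : Y * l ≤ l ^ (t + 1) := by
      calc Y * l ≤ l ^ (Nat.log l Y + 1) * l := Nat.mul_le_mul_right _ e1.le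
        _ = l ^ (Nat.log l Y + 2) := by ring
        _ ≤ l ^ (t + 1) := Nat.pow_le_pow_right (by omega) (by omega)
    exact_mod_cast e2
  have h5 : (P * S / (l : ℝ) ^ (t + 1)) * (W * (l : ℝ) ^ t / P) = S * (W / l) := by
    rw [pow_succ]; field_simp
  have h6 : S * ((W : ℝ) / l) ≤ S / (L : ℝ) ^ 2 := by
    rw [div_eq_mul_one_div (S : ℝ)]
    apply mul_le_mul_of_nonneg_left _ (by positivity)
    rw [div_le_iff₀ hlr]
    calc (W : ℝ) ≤ l / (L : ℝ) ^ 2 := hWr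
      _ = 1 / (L : ℝ) ^ 2 * l := by ring
  have h7 : P * S / (l : ℝ) ^ (t + 1) ≤ 2 * S / (L : ℝ) ^ 2 := by
    rw [div_le_div_iff₀ (by positivity) (by positivity)]
    have e1 : (P : ℝ) ≤ 2 * Y := by exact_mod_cast hP2
    have e2 : (L : ℝ) ^ 2 ≤ l := by exact_mod_cast p.hLl
    calc (P : ℝ) * S * (L : ℝ) ^ 2 ≤ (2 * Y) * S * l := by gcongr
      _ = 2 * S * (Y * l) := by ring
      _ ≤ 2 * S * (l : ℝ) ^ (t + 1) := by gcongr
  have h8 : W * (l : ℝ) ^ t / P + 1 ≤ 2 * I := by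
    have hI0 : (1 : ℝ) ≤ I := by exact_mod_cast p.hI0
    have e1 : W * (l : ℝ) ^ t / P ≤ I := by
      rw [div_le_iff₀ hPr]
      have e2 : (l : ℝ) ^ (D + 1) ≤ Y * I := by exact_mod_cast p.hI
      have e3 : (Y : ℝ) ≤ P := by exact_mod_cast hP1.le
      have e4 : (W : ℝ) ≤ l := by exact_mod_cast Nat.div_le_self l (L ^ 2)
      have e5 : (l : ℝ) ^ (t + 1) ≤ (l : ℝ) ^ (D + 1) := by
        apply pow_le_pow_right₀
        · exact_mod_cast p.hl.one_lt.le
        · omega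
      calc (W : ℝ) * (l : ℝ) ^ t ≤ l * (l : ℝ) ^ t := by gcongr
        _ = (l : ℝ) ^ (t + 1) := by ring
        _ ≤ (l : ℝ) ^ (D + 1) := e5
        _ ≤ Y * I := e2
        _ ≤ P * I := by gcongr
        _ = _ := mul_comm _ _
    linarith
  have h9 : 2 * (I : ℝ) ≤ S / (L : ℝ) ^ 2 := by
    rw [le_div_iff₀ (by positivity)]
    exact_mod_cast p.hIS
  have h10 : (P * S / (l : ℝ) ^ (t + 1) + 1) * (W * (l : ℝ) ^ t / P + 1) =
      (P * S / (l : ℝ) ^ (t + 1)) * (W * (l : ℝ) ^ t / P) + P * S / (l : ℝ) ^ (t + 1) +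
      (W * (l : ℝ) ^ t / P + 1) := by ring
  rw [h10, h5] at h4
  have h11 : 4 * (S : ℝ) / (L : ℝ) ^ 2 = S / (L : ℝ) ^ 2 + 2 * S / (L : ℝ) ^ 2 +
      S / (L : ℝ) ^ 2 := by ring
  rw [h11]
  linarith

/-- failures for one `P`. -/
lemma Par2.one (p : Par2 x l Y D h b L I) {P : ℕ} (hP : P.Prime) (hP1 : Y < P) (hP2 : P ≤ 2 * Y)
    (hg : P ∉ badP l Y (2 * h + 2 * b * (D - Nat.log l Y)) (pos2 D (Nat.log l Y))) :
    (#{s ∈ Icc 1 (x / (Y * l)) | s < f (P * l * s)} : ℝ) ≤ 8 * ((x / (Y * l) : ℕ) : ℝ) / L +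
      #{s ∈ Icc 1 (x / (Y * l)) | ¬ l ∣ s ∧
        2 * h < ∑ t ∈ range (Nat.log l Y), cost l ((P * s / l ^ t) % l)} := by
  classical
  set S := x / (Y * l) with hS
  set τ := Nat.log l Y with hτ
  have hl2 := p.hl.two_le
  have hY := p.hY
  have hL := p.hL
  have hlr : (0 : ℝ) < l := by positivity
  have hLr : (0 : ℝ) < L := by exact_mod_cast p.hL
  have hP0 : 0 < P := by omega
  have hPr : (0 : ℝ) < P := by exact_mod_cast hP0
  have hYr : (0 : ℝ) < Y := by exact_mod_cast (by omega : 0 < Y)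
  have hL1 : (1 : ℝ) ≤ L := by exact_mod_cast hL
  have hI1 : (1 : ℝ) ≤ I := by exact_mod_cast p.hI0
  set A2 : Finset ℕ := {s ∈ Icc 1 S | ¬ l ∣ s ∧
        2 * h < ∑ t ∈ range τ, cost l ((P * s / l ^ t) % l)} with hA2
  have hsub : ({s ∈ Icc 1 S | s < f (P * l * s)} : Finset ℕ) ⊆
      ((({s ∈ Icc 1 S | l ∣ s} ∪ A2) ∪
      (Ioc τ D).biUnion fun t => {s ∈ Icc 1 S | (P * s) % l ^ (t + 1) < l / L ^ 2 * l ^ t}) ∪
      Icc 1 I) ∪ {s ∈ Icc 1 S | (l * s) % P < l * I} := by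
    intro s hs
    rw [mem_filter] at hs
    obtain ⟨hs1, hs2⟩ := hs
    simp only [mem_union, mem_biUnion, hA2, mem_filter]
    by_contra hcon
    push Not at hcon
    obtain ⟨⟨⟨⟨c1, c2⟩, c3⟩, c4⟩, c5⟩ := hcon
    have c1' := c1 hs1
    have c2' := c2 hs1 c1'
    have c4' : I < s := by
      by_contra hc
      apply c4
      have := mem_Icc.1 hs1
      rw [mem_Icc]; omega
    have c5' := c5 hs1
    have c3' : ∀ t ∈ Ioc τ D, l / L ^ 2 ≤ (P * s / l ^ t) % l := by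
      intro t ht
      have c6 := c3 t ht hs1
      rw [Nat.mod_pow_succ] at c6
      by_contra c7
      push Not at c7
      have c8 : l ^ t * ((P * s / l ^ t) % l + 1) ≤ l ^ t * (l / L ^ 2) := Nat.mul_le_mul_left _ c7
      have c9 := Nat.mod_lt (P * s) (show 0 < l ^ t by positivity)
      have c10 : l / L ^ 2 * l ^ t = l ^ t * (l / L ^ 2) := mul_comm _ _
      have c11 : l ^ t * ((P * s / l ^ t) % l + 1) = l ^ t * ((P * s / l ^ t) % l) + l ^ t := by
        ring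
      omega
    have := good_pair p.hl hP hP1 hP2 p.hτ hg hL p.hLb c2' c3' p.hI c4' c5'
    omega
  have hIS : 2 * (I : ℝ) ≤ S / (L : ℝ) ^ 2 := by
    rw [le_div_iff₀ (by positivity)]
    exact_mod_cast p.hIS
  have hLL : (S : ℝ) / (L : ℝ) ^ 2 ≤ S / L := by
    apply div_le_div_of_nonneg_left (by positivity) hLr
    nlinarith
  have b1 : (#{s ∈ Icc 1 S | l ∣ s} : ℝ) ≤ S / L := by
    have e1 : #{s ∈ Icc 1 S | l ∣ s} = S / l := by
      have := Nat.Ioc_filter_dvd_card_eq_div S l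
      rw [← this]; congr 1
    rw [e1]
    refine Nat.cast_div_le.trans ?_
    apply div_le_div_of_nonneg_left (by positivity) hLr
    have : (L : ℝ) ^ 2 ≤ l := by exact_mod_cast p.hLl
    nlinarith
  have b3 : (#((Ioc τ D).biUnion fun t =>
      {s ∈ Icc 1 S | (P * s) % l ^ (t + 1) < l / L ^ 2 * l ^ t}) : ℝ) ≤ 4 * S / L := by
    have e1 : (#((Ioc τ D).biUnion fun t =>
      {s ∈ Icc 1 S | (P * s) % l ^ (t + 1) < l / L ^ 2 * l ^ t}) : ℝ) ≤
      ∑ t ∈ Ioc τ D, (#{s ∈ Icc 1 S | (P * s) % l ^ (t + 1) < l / L ^ 2 * l ^ t} : ℝ) := by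
      exact_mod_cast card_biUnion_le
    refine e1.trans ((sum_le_sum fun t ht => p.high hP1 hP2 ht).trans ?_)
    rw [sum_const, nsmul_eq_mul, Nat.card_Ioc]
    have e2 : ((D - τ : ℕ) : ℝ) ≤ L := by exact_mod_cast (Nat.sub_le _ _).trans p.hDL
    calc ((D - τ : ℕ) : ℝ) * (4 * (S : ℝ) / L ^ 2) ≤ L * (4 * (S : ℝ) / L ^ 2) := by gcongr
      _ = _ := by field_simp
  have b4 : (#(Icc 1 I) : ℝ) ≤ S / L / 2 := by
    rw [Nat.card_Icc, Nat.add_sub_cancel]
    linarith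
  have b5 : (#{s ∈ Icc 1 S | (l * s) % P < l * I} : ℝ) ≤ 2 * S / L := by
    have e1 := rot l P (l * I) S p.hl.pos
    rw [Nat.mul_div_cancel_left _ p.hl.pos] at e1
    have e2 : (#{s ∈ Icc 1 S | (l * s) % P < l * I} : ℝ) ≤
        (((l * S / P : ℕ) : ℝ) + 1) * ((I : ℝ) + 1) := by exact_mod_cast e1
    have e3 : ((l * S / P : ℕ) : ℝ) ≤ l * S / Y := by
      have e4 := Nat.cast_div_le (α := ℝ) (m := l * S) (n := P)
      push_cast at e4
      refine e4.trans ?_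
      have : (Y : ℝ) ≤ P := by exact_mod_cast hP1.le
      gcongr
    have e5 : (I : ℝ) + 1 ≤ 2 * I := by linarith
    have e6 : 2 * (l : ℝ) * I * L ≤ Y := by exact_mod_cast p.hIY
    have e7 : l * S / Y * (2 * (I : ℝ)) ≤ S / L := by
      rw [div_mul_eq_mul_div, div_le_div_iff₀ hYr hLr]
      calc (l : ℝ) * S * (2 * I) * L = S * (2 * l * I * L) := by ring
        _ ≤ S * Y := by gcongr
    calc _ ≤ _ := e2
      _ ≤ (l * S / Y + 1) * (2 * (I : ℝ)) := by gcongr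
      _ = l * S / Y * (2 * (I : ℝ)) + 2 * I := by ring
      _ ≤ S / L + S / L := by linarith
      _ = _ := by ring
  have hcard : (#{s ∈ Icc 1 S | s < f (P * l * s)} : ℝ) ≤
      (((#{s ∈ Icc 1 S | l ∣ s} : ℝ) + (#A2 : ℝ)) + (#((Ioc τ D).biUnion fun t =>
      {s ∈ Icc 1 S | (P * s) % l ^ (t + 1) < l / L ^ 2 * l ^ t}) : ℝ) + (#(Icc 1 I) : ℝ)) +
      (#{s ∈ Icc 1 S | (l * s) % P < l * I} : ℝ) := by
    have e1 := (card_le_card hsub).trans ((card_union_le _ _).trans (Nat.add_le_add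
      ((card_union_le _ _).trans (Nat.add_le_add ((card_union_le _ _).trans (Nat.add_le_add
        (card_union_le _ _) le_rfl)) le_rfl)) le_rfl))
    exact_mod_cast e1
  have hfin : 8 * (S : ℝ) / L = S / L + 4 * S / L + S / L + 2 * S / L := by ring
  have hSL : 0 ≤ (S : ℝ) / L := by positivity
  rw [hfin]
  linarith

/-- **All failures for `l` and `P ∈ (Y, 2 Y]`.** -/
lemma Par2.total (p : Par2 x l Y D h b L I) :
    (∑ P ∈ Ioc Y (2 * Y) with P.Prime, (#{s ∈ Icc 1 (x / (P * l)) | s < f (P * l * s)} : ℝ)) ≤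
      10 * x / (l * L) := by
  classical
  set S := x / (Y * l) with hS
  set τ := Nat.log l Y with hτ
  set B := badP l Y (2 * h + 2 * b * (D - τ)) (pos2 D τ) with hB
  have hl2 := p.hl.two_le
  have hY := p.hY
  have hL := p.hL
  have hlr : (0 : ℝ) < l := by positivity
  have hLr : (0 : ℝ) < L := by exact_mod_cast p.hL
  have hYr : (0 : ℝ) < Y := by exact_mod_cast (by omega : 0 < Y)
  have hSr : (S : ℝ) ≤ x / (Y * l) := by
    have := Nat.cast_div_le (α := ℝ) (m := x) (n := Y * l)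
    push_cast at this; exact this
  have hbad : (#B : ℝ) ≤ Y / L := by
    rw [le_div_iff₀ hLr]; exact p.bad
  have key : ∀ P ∈ ({P ∈ Ioc Y (2 * Y) | P.Prime} : Finset ℕ),
      (#{s ∈ Icc 1 (x / (P * l)) | s < f (P * l * s)} : ℝ) ≤
      (if P ∈ B then (S : ℝ) else 0) + 8 * (S : ℝ) / L +
        #{s ∈ Icc 1 S | ¬ l ∣ s ∧ 2 * h < ∑ t ∈ range τ, cost l ((P * s / l ^ t) % l)} := by
    intro P hP
    rw [mem_filter, mem_Ioc] at hP
    obtain ⟨⟨hP1, hP2⟩, hPp⟩ := hP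
    have hsub : ({s ∈ Icc 1 (x / (P * l)) | s < f (P * l * s)} : Finset ℕ) ⊆
        {s ∈ Icc 1 S | s < f (P * l * s)} := by
      apply filter_subset_filter
      apply Icc_subset_Icc_right
      exact Nat.div_le_div_left (Nat.mul_le_mul_right _ hP1.le) (by positivity)
    have hle : (#{s ∈ Icc 1 (x / (P * l)) | s < f (P * l * s)} : ℝ) ≤
        (#{s ∈ Icc 1 S | s < f (P * l * s)} : ℝ) := by exact_mod_cast card_le_card hsub
    split_ifs with hmem
    · have e1 : (#{s ∈ Icc 1 S | s < f (P * l * s)} : ℝ) ≤ S := by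
        have := card_filter_le (Icc 1 S) (fun s => s < f (P * l * s))
        rw [Nat.card_Icc, Nat.add_sub_cancel] at this
        exact_mod_cast this
      have e2 : (0 : ℝ) ≤ 8 * (S : ℝ) / L := by positivity
      have e3 : (0 : ℝ) ≤ (#{s ∈ Icc 1 S | ¬ l ∣ s ∧
        2 * h < ∑ t ∈ range τ, cost l ((P * s / l ^ t) % l)} : ℝ) := by positivity
      linarith
    · have := p.one hPp hP1 hP2 hmem
      rw [zero_add]
      exact hle.trans this
  refine (sum_le_sum key).trans ?_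
  rw [sum_add_distrib, sum_add_distrib]
  have s1 : ∑ P ∈ Ioc Y (2 * Y) with P.Prime, (if P ∈ B then (S : ℝ) else 0) ≤
      Y / L * S := by
    rw [← sum_filter, sum_const, nsmul_eq_mul]
    apply mul_le_mul_of_nonneg_right _ (by positivity)
    have : ({P ∈ ({P ∈ Ioc Y (2 * Y) | P.Prime} : Finset ℕ) | P ∈ B} : Finset ℕ) ⊆
        B := fun P hP => (mem_filter.1 hP).2
    refine le_trans ?_ hbad
    exact_mod_cast card_le_card this
  have s2 : ∑ P ∈ Ioc Y (2 * Y) with P.Prime, 8 * (S : ℝ) / L ≤ Y * (8 * (S : ℝ) / L) := by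
    rw [sum_const, nsmul_eq_mul]
    apply mul_le_mul_of_nonneg_right _ (by positivity)
    have : #({P ∈ Ioc Y (2 * Y) | P.Prime} : Finset ℕ) ≤ Y := by
      refine (card_filter_le _ _).trans ?_
      rw [Nat.card_Ioc]; omega
    exact_mod_cast this
  have s3 : ∑ P ∈ Ioc Y (2 * Y) with P.Prime, (#{s ∈ Icc 1 S | ¬ l ∣ s ∧
      2 * h < ∑ t ∈ range τ, cost l ((P * s / l ^ t) % l)} : ℝ) ≤ S * (Y / L) := by
    calc ∑ P ∈ Ioc Y (2 * Y) with P.Prime, (#{s ∈ Icc 1 S | ¬ l ∣ s ∧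
          2 * h < ∑ t ∈ range τ, cost l ((P * s / l ^ t) % l)} : ℝ)
        ≤ ∑ P ∈ Ioc Y (2 * Y), (#{s ∈ Icc 1 S | ¬ l ∣ s ∧
          2 * h < ∑ t ∈ range τ, cost l ((P * s / l ^ t) % l)} : ℝ) :=
          sum_le_sum_of_subset_of_nonneg (filter_subset _ _) fun _ _ _ => by positivity
      _ = ∑ s ∈ Icc 1 S, (#{P ∈ Ioc Y (2 * Y) | ¬ l ∣ s ∧
          2 * h < ∑ t ∈ range τ, cost l ((P * s / l ^ t) % l)} : ℝ) := by
          have := sum_card_bipartiteAbove_eq_sum_card_bipartiteBelow (s := Ioc Y (2 * Y))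
            (t := Icc 1 S) (fun P s => ¬ l ∣ s ∧
              2 * h < ∑ t ∈ range τ, cost l ((P * s / l ^ t) % l))
          unfold bipartiteAbove bipartiteBelow at this
          exact_mod_cast this
      _ ≤ ∑ s ∈ Icc 1 S, (Y / L : ℝ) := by
          refine sum_le_sum fun s _ => ?_
          by_cases hs : l ∣ s
          · have : ({P ∈ Ioc Y (2 * Y) | ¬ l ∣ s ∧
              2 * h < ∑ t ∈ range τ, cost l ((P * s / l ^ t) % l)} : Finset ℕ) = ∅ := by
              apply filter_eq_empty_iff.2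
              intro P _ hc
              exact hc.1 hs
            rw [this, card_empty]; push_cast; positivity
          · have e1 := card_costly_P l τ h s Y p.hl hs
              (Nat.pow_log_le_self l (by omega : Y ≠ 0))
            have e2 : #{P ∈ Ioc Y (2 * Y) | ¬ l ∣ s ∧
                2 * h < ∑ t ∈ range τ, cost l ((P * s / l ^ t) % l)} ≤
                #{P ∈ Ioc Y (2 * Y) |
                2 * h < ∑ t ∈ range τ, cost l ((P * s / l ^ t) % l)} :=
              card_le_card fun P hP => by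
                rw [mem_filter] at hP ⊢
                exact ⟨hP.1, hP.2.2⟩
            have e3 : (#{P ∈ Ioc Y (2 * Y) |
                2 * h < ∑ t ∈ range τ, cost l ((P * s / l ^ t) % l)} : ℝ) ≤ Y / L := by
              rw [le_div_iff₀ hLr]
              have e4 : 3 * (2 : ℝ) ^ τ * L ≤ 2 ^ h := by exact_mod_cast p.hlow
              have h2h : (0 : ℝ) < 2 ^ h := by positivity
              have e5 : (#{P ∈ Ioc Y (2 * Y) |
                2 * h < ∑ t ∈ range τ, cost l ((P * s / l ^ t) % l)} : ℝ) * L * 2 ^ h ≤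
                Y * 2 ^ h := by
                calc (#{P ∈ Ioc Y (2 * Y) |
                    2 * h < ∑ t ∈ range τ, cost l ((P * s / l ^ t) % l)} : ℝ) * L * 2 ^ h =
                    ((#{P ∈ Ioc Y (2 * Y) |
                    2 * h < ∑ t ∈ range τ, cost l ((P * s / l ^ t) % l)} : ℝ) * 2 ^ h) * L := by
                      ring
                  _ ≤ (3 * Y * 2 ^ τ) * L := mul_le_mul_of_nonneg_right e1 hLr.le
                  _ = Y * (3 * 2 ^ τ * L) := by ring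
                  _ ≤ Y * 2 ^ h := by gcongr
              exact le_of_mul_le_mul_right e5 h2h
            refine le_trans ?_ e3
            exact_mod_cast e2
      _ = S * (Y / L) := by
          rw [sum_const, nsmul_eq_mul, Nat.card_Icc, Nat.add_sub_cancel]
  have s4 : (Y : ℝ) / L * S + Y * (8 * (S : ℝ) / L) + S * (Y / L) = 10 * (Y * S) / L := by ring
  have s5 : (Y : ℝ) * S ≤ x / l := by
    calc (Y : ℝ) * S ≤ Y * (x / (Y * l)) := by gcongr
      _ = x / l := by field_simp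
  have s6 : 10 * ((Y : ℝ) * S) / L ≤ 10 * x / (l * L) := by
    calc 10 * ((Y : ℝ) * S) / L ≤ 10 * (x / l) / L := by gcongr
      _ = _ := by field_simp
  linarith

end ESGcd
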