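import Pool.Agent.ESGcd.Good
import Pool.Agent.ESGcd.Box2
import Pool.Agent.ESGcd.Cost

/-!
# `f (P l s) ≤ s` when a suitable `i` exists, for digits bounded individually
-/

namespace ESGcd

open Finset

/-- digits -/
lemma mod_pow_le' (l N : ℕ) (T : Finset ℕ) (d : ℕ → ℕ)
    (hN : ∀ t ∈ T, d t ≤ (N / l ^ t) % l) (u : ℕ) :
    (∑ t ∈ T, d t * l ^ t) % l ^ u ≤ N % l ^ u := by
  have h1 : ∀ u : ℕ, ∑ t ∈ T with t < u, d t * l ^ t ≤ N % l ^ u := by
    intro u
    induction u with
    | zero => simp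
    | succ u ih =>
      rw [Nat.mod_pow_succ]
      have h2 : ∑ t ∈ T with t < u + 1, d t * l ^ t ≤
          ∑ t ∈ T with t < u, d t * l ^ t + (if u ∈ T then d u * l ^ u else 0) := by
        split_ifs with hu
        · have : ({t ∈ T | t < u + 1} : Finset ℕ) = insert u {t ∈ T | t < u} := by
            ext t
            simp only [mem_filter, mem_insert]
            constructor
            · rintro ⟨h1, h2⟩
              rcases Nat.lt_succ_iff_lt_or_eq.1 h2 with h | h
              · right; exact ⟨h1, h⟩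
              · left; exact h
            · rintro (h | h)
              · subst h; exact ⟨hu, by omega⟩
              · exact ⟨h.1, by omega⟩
          rw [this, sum_insert (by simp)]
          omega
        · have : ({t ∈ T | t < u + 1} : Finset ℕ) = {t ∈ T | t < u} := by
            ext t
            simp only [mem_filter]
            constructor
            · rintro ⟨h1, h2⟩
              rcases Nat.lt_succ_iff_lt_or_eq.1 h2 with h | h
              · exact ⟨h1, h⟩
              · subst h; exact absurd h1 hu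
            · rintro ⟨h1, h2⟩; exact ⟨h1, by omega⟩
          rw [this]; omega
      refine h2.trans (Nat.add_le_add ih ?_)
      split_ifs with hu
      · rw [mul_comm]
        exact Nat.mul_le_mul_left _ (hN u hu)
      · exact Nat.zero_le _
  have h2 : ∑ t ∈ T, d t * l ^ t = ∑ t ∈ T with t < u, d t * l ^ t +
      ∑ t ∈ T with ¬ t < u, d t * l ^ t := (sum_filter_add_sum_filter_not _ _ _).symm
  have h3 : l ^ u ∣ ∑ t ∈ T with ¬ t < u, d t * l ^ t := by
    apply dvd_sum
    intro t ht
    rw [mem_filter] at ht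
    exact Dvd.dvd.mul_left (pow_dvd_pow _ (by omega)) _
  obtain ⟨c, hc⟩ := h3
  rw [h2, hc, Nat.add_mul_mod_self_left]
  exact (Nat.mod_le _ _).trans (h1 u)

/-- **Key lemma.** -/
lemma f_le_of_digits' {l P s i : ℕ} {T : Finset ℕ} {d : ℕ → ℕ} (hl : l.Prime) (hP : P.Prime)
    (hi : 0 < i) (his : i < s) (h1 : l * i ≤ (l * s) % P)
    (hM : P * i = ∑ t ∈ T, d t * l ^ t)
    (hN : ∀ t ∈ T, d t ≤ (P * s / l ^ t) % l) : f (P * l * s) ≤ s := by
  set n := P * l * s with hn
  set k := P * l * i with hk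
  have hPl : 0 < P * l := Nat.mul_pos hP.pos hl.pos
  have hkn : k ≤ n := Nat.mul_le_mul_left _ his.le
  have hP1 : ¬ P ∣ n.choose k := by
    apply not_dvd_choose_of_mod_le hP hkn
    intro u
    have e1 : k = P * (l * i) := by rw [hk]; ring
    have e2 : n = P * (l * s) := by rw [hn]; ring
    cases u with
    | zero => simp [Nat.mod_one]
    | succ v =>
      rw [e1, e2, pow_succ', Nat.mul_mod_mul_left, Nat.mul_mod_mul_left]
      apply Nat.mul_le_mul_left
      cases v with
      | zero => simp [Nat.mod_one]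
      | succ w =>
        have h2 : (l * i) % P ^ (w + 1) ≤ l * i := Nat.mod_le _ _
        have h3 : ((l * s) % P ^ (w + 1)) % P = (l * s) % P :=
          Nat.mod_mod_of_dvd _ (dvd_pow_self P (by omega))
        have h4 : ((l * s) % P ^ (w + 1)) % P ≤ (l * s) % P ^ (w + 1) := Nat.mod_le _ _
        omega
  have hl1 : ¬ l ∣ n.choose k := by
    apply not_dvd_choose_of_mod_le hl hkn
    intro u
    have e1 : k = l * (P * i) := by rw [hk]; ring
    have e2 : n = l * (P * s) := by rw [hn]; ring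
    cases u with
    | zero => simp [Nat.mod_one]
    | succ v =>
      rw [e1, e2, pow_succ', Nat.mul_mod_mul_left, Nat.mul_mod_mul_left]
      apply Nat.mul_le_mul_left
      rw [hM]
      exact mod_pow_le' l (P * s) T d hN v
  -- the gcd
  have hg : ∀ c, ¬ P ∣ c → ¬ l ∣ c → Nat.gcd n c ≤ s := by
    intro c hc1 hc2
    have h2 : Nat.Coprime (P * l) c := Nat.Coprime.mul_left
      ((Nat.Prime.coprime_iff_not_dvd hP).2 hc1) ((Nat.Prime.coprime_iff_not_dvd hl).2 hc2)
    have h3 : Nat.gcd n c = Nat.gcd s c := by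
      rw [hn]; exact Nat.Coprime.gcd_mul_left_cancel s h2
    rw [h3]
    exact Nat.le_of_dvd (by omega) (Nat.gcd_dvd_left _ _)
  have hk2 : 1 < k := by
    have h2 : 2 ≤ P := hP.two_le
    have h3 : 2 ≤ l := hl.two_le
    have h4 : 2 * 2 ≤ P * l := Nat.mul_le_mul h2 h3
    have h5 : P * l * 1 ≤ P * l * i := Nat.mul_le_mul_left _ hi
    omega
  rcases le_or_gt (2 * k) n with h | h
  · exact (f_le hk2 h).trans (hg _ hP1 hl1)
  · have h2 : 1 < n - k := by
      have h2 : 2 ≤ P := hP.two_le
      have h3 : 2 ≤ l := hl.two_le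
      have h4 : 2 * 2 ≤ P * l := Nat.mul_le_mul h2 h3
      have h5 : P * l * (i + 1) ≤ P * l * s := Nat.mul_le_mul_left _ his
      have h6 : P * l * (i + 1) = P * l * i + P * l := by ring
      omega
    have h3 := f_le h2 (by omega : 2 * (n - k) ≤ n)
    rw [Nat.choose_symm hkn] at h3
    exact h3.trans (hg _ hP1 hl1)

/-- the positions -/
def pos2 (D τ : ℕ) : Finset ℕ := (range (D + 1)).erase τ

lemma card_pos2 {D τ : ℕ} (h : τ ≤ D) : #(pos2 D τ) = D := by
  unfold pos2
  rw [card_erase_of_mem (by rw [mem_range]; omega), card_range]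
  omega

/-- **A good pair.** -/
lemma good_pair {l Y D h b L P s I τ : ℕ} (hl : l.Prime) (hP : P.Prime) (hP1 : Y < P)
    (hP2 : P ≤ 2 * Y) (hτD : τ ≤ D)
    (hgood : P ∉ badP l Y (2 * h + 2 * b * (D - τ)) (pos2 D τ)) (hL : 1 ≤ L) (hLb : L ≤ 2 ^ b)
    (hlow : ∑ t ∈ range τ, cost l ((P * s / l ^ t) % l) ≤ 2 * h)
    (hhigh : ∀ t ∈ Ioc τ D, l / L ^ 2 ≤ (P * s / l ^ t) % l)
    (hI : l ^ (D + 1) ≤ Y * I) (hs : I < s) (hrot : l * I ≤ (l * s) % P) :
    f (P * l * s) ≤ s := by
  have hl2 := hl.two_le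
  set T := pos2 D τ with hT
  set g : ℕ → ℕ := fun t => (P * s / l ^ t) % l with hg
  have hgl : ∀ t, g t < l := fun t => Nat.mod_lt _ hl.pos
  set a : T → ℕ := fun t => cost l (g t) with ha
  have hcost : ∑ t, a t ≤ 2 * h + 2 * b * (D - τ) := by
    have e1 : ∑ t : T, a t = ∑ t ∈ T, cost l (g t) := sum_coe_sort T (fun t => cost l (g t))
    have e2 : T ⊆ range τ ∪ Ioc τ D := by
      intro t ht
      rw [hT, pos2, mem_erase, mem_range] at ht
      rw [mem_union, mem_range, mem_Ioc]
      omega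
    have e3 : ∑ t ∈ T, cost l (g t) ≤ ∑ t ∈ range τ ∪ Ioc τ D, cost l (g t) :=
      sum_le_sum_of_subset e2
    have e4 : Disjoint (range τ) (Ioc τ D) := by
      rw [disjoint_left]
      intro t ht ht2
      rw [mem_range] at ht
      rw [mem_Ioc] at ht2
      omega
    rw [sum_union e4] at e3
    have e5 : ∑ t ∈ Ioc τ D, cost l (g t) ≤ 2 * b * (D - τ) := by
      have e6 : ∀ t ∈ Ioc τ D, cost l (g t) ≤ 2 * b := by
        intro t ht
        have e7 := hhigh t ht
        have hL2 : 0 < L ^ 2 := by positivity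
        have e8 : l / (g t + 1) < 2 ^ (2 * b + 1) := by
          rw [Nat.div_lt_iff_lt_mul (by omega)]
          have e9 : l < (g t + 1) * L ^ 2 := by
            rw [← Nat.div_lt_iff_lt_mul hL2]
            exact Nat.lt_succ_of_le e7
          have e10 : L ^ 2 ≤ 2 ^ (2 * b + 1) := by
            calc L ^ 2 ≤ (2 ^ b) ^ 2 := Nat.pow_le_pow_left hLb 2
              _ = 2 ^ (2 * b) := by rw [← pow_mul, mul_comm]
              _ ≤ _ := Nat.pow_le_pow_right (by norm_num) (by omega)
          calc l < (g t + 1) * L ^ 2 := e9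
            _ ≤ (g t + 1) * 2 ^ (2 * b + 1) := Nat.mul_le_mul_left _ e10
            _ = _ := mul_comm _ _
        unfold cost
        have := Nat.log_lt_of_lt_pow' (by omega) e8
        omega
      refine (sum_le_card_nsmul _ _ _ e6).trans ?_
      rw [Nat.card_Ioc, smul_eq_mul, mul_comm]
    rw [e1]
    have e7 : ∑ t ∈ range τ, cost l (g t) ≤ 2 * h := hlow
    omega
  obtain ⟨d, hd, hpos, hdvd⟩ := exists_multiple hP hP1 hP2 hgood a hcost
  have hdg : ∀ t : T, d t ≤ g t := fun t => (hd t).trans (type_spec l (g t))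
  set d' : ℕ → ℕ := fun t => if ht : t ∈ T then d ⟨t, ht⟩ else 0 with hd'
  have hdd : ∀ t (ht : t ∈ T), d' t = d ⟨t, ht⟩ := fun t ht => by simp [hd', ht]
  have hsum : ∑ t : T, d t * l ^ (t : ℕ) = ∑ t ∈ T, d' t * l ^ t := by
    rw [← sum_coe_sort T (fun t => d' t * l ^ t)]
    refine sum_congr rfl fun t _ => ?_
    rw [hdd t t.2]
  rw [hsum] at hdvd hpos
  obtain ⟨i, hi⟩ := hdvd
  have hi0 : 0 < i := by
    rcases Nat.eq_zero_or_pos i with h0 | h0
    · subst h0; rw [Nat.mul_zero] at hi; omega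
    · exact h0
  have hd'g : ∀ t ∈ T, d' t ≤ g t := fun t ht => by rw [hdd t ht]; exact hdg ⟨t, ht⟩
  have hiI : i < I := by
    have e1 : ∑ t ∈ T, d' t * l ^ t ≤ ∑ t ∈ range (D + 1), (l - 1) * l ^ t := by
      calc ∑ t ∈ T, d' t * l ^ t ≤ ∑ t ∈ T, (l - 1) * l ^ t := by
            refine sum_le_sum fun t ht => Nat.mul_le_mul_right _ ?_
            have := hd'g t ht
            have := hgl t
            omega
        _ ≤ _ := sum_le_sum_of_subset (erase_subset _ _)
    have e3 : ∑ t ∈ range (D + 1), (l - 1) * l ^ t = l ^ (D + 1) - 1 := by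
      rw [← mul_sum]
      have := Nat.geomSum_eq hl2 (D + 1)
      rw [this]
      apply Nat.mul_div_cancel'
      have := Nat.sub_dvd_pow_sub_pow l 1 (D + 1)
      simpa using this
    have e4 : 0 < l ^ (D + 1) := by positivity
    have e5 : P * i < P * I := by
      calc P * i < l ^ (D + 1) := by omega
        _ ≤ Y * I := hI
        _ ≤ P * I := Nat.mul_le_mul_right _ hP1.le
    exact Nat.lt_of_mul_lt_mul_left e5
  exact f_le_of_digits' hl hP hi0 (hiI.trans hs) ((Nat.mul_le_mul_left l hiI.le).trans hrot)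
    hi.symm hd'g

end ESGcd
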