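import Mathlib

/-!
# A weak form of the large sieve inequality
-/

namespace ESGcd

open Finset Complex
open scoped ComplexConjugate

/-- `e(θ)`. -/
noncomputable def ee (θ : ℝ) : ℂ := Complex.exp ((2 * Real.pi * θ : ℝ) * I)

lemma ee_zero : ee 0 = 1 := by simp [ee]

lemma ee_add (a b : ℝ) : ee (a + b) = ee a * ee b := by
  unfold ee
  rw [← Complex.exp_add]; push_cast; ring_nf

lemma ee_nat_mul (n : ℕ) (θ : ℝ) : ee (n * θ) = ee θ ^ n := by
  unfold ee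
  rw [← Complex.exp_nat_mul]; push_cast; ring_nf

lemma norm_ee (θ : ℝ) : ‖ee θ‖ = 1 := by
  unfold ee; exact Complex.norm_exp_ofReal_mul_I _

lemma ee_int (k : ℤ) : ee k = 1 := by
  unfold ee
  rw [Complex.exp_eq_one_iff]
  exact ⟨k, by push_cast; ring⟩

lemma conj_ee (θ : ℝ) : conj (ee θ) = ee (-θ) := by
  unfold ee
  rw [← Complex.exp_conj]
  congr 1
  rw [map_mul, Complex.conj_ofReal, Complex.conj_I]
  push_cast; ring

/-- the Dirichlet kernel -/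
noncomputable def KK (N : ℕ) (θ : ℝ) : ℂ := ∑ n ∈ range N, ee (n * θ)

lemma norm_KK_le (N : ℕ) (θ : ℝ) : ‖KK N θ‖ ≤ N := by
  unfold KK
  refine (norm_sum_le _ _).trans ?_
  simp [norm_ee]

lemma norm_KK_neg (N : ℕ) (θ : ℝ) : ‖KK N (-θ)‖ = ‖KK N θ‖ := by
  have : KK N (-θ) = conj (KK N θ) := by
    unfold KK
    rw [map_sum]
    refine sum_congr rfl fun n _ => ?_
    rw [conj_ee, mul_neg]
  rw [this, Complex.norm_conj]

/-- Duality. -/
theorem duality {ι : Type*} (R : Finset ι) (θ : ι → ℝ) (N : ℕ) (A : Finset ℕ)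
    (hA : A ⊆ range N) (Δ : ℝ) (hΔ : 0 ≤ Δ)
    (h : ∀ r ∈ R, ∑ r' ∈ R, ‖KK N (θ r - θ r')‖ ≤ Δ) :
    ∑ r ∈ R, ‖∑ n ∈ A, ee (n * θ r)‖ ^ 2 ≤ #A * Δ := by
  set S : ι → ℂ := fun r => ∑ n ∈ A, ee (n * θ r) with hS
  set F : ℕ → ℂ := fun n => ∑ r ∈ R, conj (S r) * ee (n * θ r) with hF
  set X : ℝ := ∑ r ∈ R, ‖S r‖ ^ 2 with hX
  have h1 : (X : ℂ) = ∑ n ∈ A, F n := by
    rw [hF, sum_comm, hX]
    push_cast
    refine sum_congr rfl fun r _ => ?_
    rw [← mul_sum, ← Complex.conj_mul']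
  have hX0 : 0 ≤ X := sum_nonneg fun _ _ => by positivity
  have h2 : X ^ 2 ≤ #A * ∑ n ∈ range N, ‖F n‖ ^ 2 := by
    have e1 : X ≤ ∑ n ∈ A, ‖F n‖ := by
      calc X = ‖(X : ℂ)‖ := by rw [Complex.norm_real, Real.norm_of_nonneg hX0]
        _ ≤ _ := by rw [h1]; exact norm_sum_le _ _
    calc X ^ 2 ≤ (∑ n ∈ A, ‖F n‖) ^ 2 := pow_le_pow_left₀ hX0 e1 2
      _ ≤ #A * ∑ n ∈ A, ‖F n‖ ^ 2 := sq_sum_le_card_mul_sum_sq
      _ ≤ _ := by
        apply mul_le_mul_of_nonneg_left _ (by positivity)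
        exact sum_le_sum_of_subset_of_nonneg hA fun _ _ _ => by positivity
  have h3 : ((∑ n ∈ range N, ‖F n‖ ^ 2 : ℝ) : ℂ) =
      ∑ r ∈ R, ∑ r' ∈ R, conj (S r) * S r' * KK N (θ r - θ r') := by
    have e1 : ∀ n ∈ range N, (‖F n‖ ^ 2 : ℂ) =
        ∑ r ∈ R, ∑ r' ∈ R, conj (S r) * S r' * ee (n * (θ r - θ r')) := by
      intro n _
      rw [← Complex.mul_conj', hF]
      simp only [map_sum, map_mul, Complex.conj_conj]
      rw [sum_mul_sum]
      refine sum_congr rfl fun r _ => sum_congr rfl fun r' _ => ?_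
      rw [conj_ee]
      have : (n : ℝ) * (θ r - θ r') = n * θ r + -(n * θ r') := by ring
      rw [this, ee_add]
      ring
    push_cast
    rw [sum_congr rfl e1, sum_comm]
    refine sum_congr rfl fun r _ => ?_
    rw [sum_comm]
    refine sum_congr rfl fun r' _ => ?_
    unfold KK
    exact (mul_sum _ _ _).symm
  have h4 : ∑ n ∈ range N, ‖F n‖ ^ 2 ≤ Δ * X := by
    have e0 : 0 ≤ ∑ n ∈ range N, ‖F n‖ ^ 2 := sum_nonneg fun _ _ => by positivity
    calc ∑ n ∈ range N, ‖F n‖ ^ 2 = ‖((∑ n ∈ range N, ‖F n‖ ^ 2 : ℝ) : ℂ)‖ := by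
          rw [Complex.norm_real, Real.norm_of_nonneg e0]
      _ ≤ ∑ r ∈ R, ∑ r' ∈ R, ‖S r‖ * ‖S r'‖ * ‖KK N (θ r - θ r')‖ := by
          rw [h3]
          refine (norm_sum_le _ _).trans (sum_le_sum fun r _ => ?_)
          refine (norm_sum_le _ _).trans (sum_le_sum fun r' _ => ?_)
          rw [norm_mul, norm_mul, Complex.norm_conj]
      _ ≤ ∑ r ∈ R, ∑ r' ∈ R, (‖S r‖ ^ 2 / 2 * ‖KK N (θ r - θ r')‖ +
            ‖S r'‖ ^ 2 / 2 * ‖KK N (θ r - θ r')‖) := by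
          refine sum_le_sum fun r _ => sum_le_sum fun r' _ => ?_
          rw [← add_mul]
          apply mul_le_mul_of_nonneg_right _ (norm_nonneg _)
          nlinarith [sq_nonneg (‖S r‖ - ‖S r'‖)]
      _ = ∑ r ∈ R, ‖S r‖ ^ 2 / 2 * ∑ r' ∈ R, ‖KK N (θ r - θ r')‖ +
          ∑ r' ∈ R, ‖S r'‖ ^ 2 / 2 * ∑ r ∈ R, ‖KK N (θ r' - θ r)‖ := by
          simp only [sum_add_distrib]
          congr 1
          · refine sum_congr rfl fun r _ => ?_
            rw [mul_sum]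
          · rw [sum_comm]
            refine sum_congr rfl fun r' _ => ?_
            rw [mul_sum]
            refine sum_congr rfl fun r _ => ?_
            rw [← norm_KK_neg, neg_sub]
      _ ≤ ∑ r ∈ R, ‖S r‖ ^ 2 / 2 * Δ + ∑ r ∈ R, ‖S r‖ ^ 2 / 2 * Δ := by
          gcongr with r hr r hr
          · exact h r hr
          · exact h r hr
      _ = Δ * X := by
          rw [← sum_add_distrib, hX, mul_sum]
          exact sum_congr rfl fun r _ => by ring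
  rcases eq_or_lt_of_le hX0 with h5 | h5
  · rw [← h5]; positivity
  · have h6 : X * X ≤ X * (#A * Δ) := by
      calc X * X = X ^ 2 := by ring
        _ ≤ #A * ∑ n ∈ range N, ‖F n‖ ^ 2 := h2
        _ ≤ #A * (Δ * X) := by gcongr
        _ = _ := by ring
    exact le_of_mul_le_mul_left h6 h5

end ESGcd
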