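import Pool.Agent.ESGcd.LS2

/-!
# Few primes `P ∈ (Y, 2Y]` for which the set `A` occupies few residue classes
-/

namespace ESGcd

open Finset Complex
open scoped ComplexConjugate

lemma spacing_frac {Y P P' h h' : ℕ} (hY : 0 < Y) (hP : P.Prime) (hP' : P'.Prime)
    (h1 : P ≤ 2 * Y) (h2 : P' ≤ 2 * Y) (h3 : 0 < h) (h4 : h < P) (h6 : h' < P')
    (hne : ¬ (P = P' ∧ h = h')) (k : ℤ) :
    1 / (4 * (Y : ℝ) ^ 2) ≤ |(h : ℝ) / P - (h' : ℝ) / P' - k| := by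
  have hPr : (0 : ℝ) < P := by exact_mod_cast hP.pos
  have hPr' : (0 : ℝ) < P' := by exact_mod_cast hP'.pos
  have hYr : (0 : ℝ) < Y := by exact_mod_cast hY
  set a : ℤ := h * P' - h' * P - k * P * P' with ha
  have ha0 : a ≠ 0 := by
    intro h0
    have e1 : (h : ℤ) * P' = P * (h' + k * P') := by rw [ha] at h0; linarith
    have e2 : (P : ℤ) ∣ h * P' := Dvd.intro _ e1.symm
    have e3 : P ∣ h * P' := by exact_mod_cast e2
    rcases (hP.dvd_mul).1 e3 with h7 | h7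
    · exact absurd (Nat.le_of_dvd h3 h7) (by omega)
    · have h8 : P = P' := (Nat.prime_dvd_prime_iff_eq hP hP').1 h7
      subst h8
      have hPz : (P : ℤ) ≠ 0 := by exact_mod_cast hP.ne_zero
      have e4 : (h : ℤ) = h' + k * P := by
        have : (P : ℤ) * h = P * (h' + k * P) := by rw [← e1]; ring
        exact mul_left_cancel₀ hPz this
      have e5 : k = 0 := by
        by_contra hk
        have hPp : (0 : ℤ) < P := by exact_mod_cast hP.pos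
        rcases lt_or_gt_of_ne hk with hk | hk
        · have : k * P ≤ -1 * P := mul_le_mul_of_nonneg_right (by omega) hPp.le
          omega
        · have : 1 * (P : ℤ) ≤ k * P := mul_le_mul_of_nonneg_right (by omega) hPp.le
          omega
      rw [e5] at e4
      apply hne
      refine ⟨rfl, ?_⟩
      simpa using e4
  have h7 : (h : ℝ) / P - (h' : ℝ) / P' - k = a / (P * P') := by
    rw [ha]; push_cast; field_simp
  rw [h7, abs_div, abs_of_pos (by positivity : (0 : ℝ) < P * P')]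
  have h8 : (1 : ℝ) ≤ |(a : ℝ)| := by
    have : 1 ≤ |a| := Int.one_le_abs ha0
    exact_mod_cast this
  have h9 : (P : ℝ) * P' ≤ 4 * (Y : ℝ) ^ 2 := by
    have e1 : (P : ℝ) ≤ 2 * Y := by exact_mod_cast h1
    have e2 : (P' : ℝ) ≤ 2 * Y := by exact_mod_cast h2
    nlinarith
  exact div_le_div₀ (abs_nonneg _) h8 (by positivity) h9

lemma orth (n n' P : ℕ) (hP : 0 < P) :
    ∑ h ∈ range P, ee (n * ((h : ℝ) / P)) * ee (-(n' * ((h : ℝ) / P))) =
      if n % P = n' % P then (P : ℂ) else 0 := by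
  have hPr : (0 : ℝ) < P := by exact_mod_cast hP
  set θ : ℝ := ((n : ℝ) - n') / P with hθ
  have h1 : ∀ h ∈ range P, ee (n * ((h : ℝ) / P)) * ee (-(n' * ((h : ℝ) / P))) = ee θ ^ h := by
    intro h _
    rw [← ee_add, ← ee_nat_mul, hθ]
    congr 1; field_simp; ring
  rw [sum_congr rfl h1]
  have h2 : n % P = n' % P ↔ (P : ℤ) ∣ (n : ℤ) - n' := by
    constructor
    · intro h
      exact Nat.modEq_iff_dvd.1 (show n' ≡ n [MOD P] from h.symm)
    · intro h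
      exact (Nat.modEq_iff_dvd.2 h : n' ≡ n [MOD P]).symm
  split_ifs with h3
  · obtain ⟨k, hk⟩ := h2.1 h3
    have h4 : θ = k := by
      rw [hθ, div_eq_iff hPr.ne']
      have : ((n : ℤ) - n' : ℤ) = (P : ℤ) * k := hk
      have h5 : ((n : ℝ) - n') = P * k := by exact_mod_cast this
      rw [h5]; ring
    rw [h4, ee_int]
    simp
  · have h4 : ee θ ≠ 1 := by
      intro hc
      unfold ee at hc
      rw [Complex.exp_eq_one_iff] at hc
      obtain ⟨k, hk⟩ := hc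
      apply h3
      rw [h2]
      refine ⟨k, ?_⟩
      have hI : (2 * Real.pi * θ : ℝ) = 2 * Real.pi * k := by
        have h5 : ((2 * Real.pi * θ : ℝ) : ℂ) * I = ((2 * Real.pi * k : ℝ) : ℂ) * I := by
          rw [hk]; push_cast; ring
        exact_mod_cast mul_right_cancel₀ I_ne_zero h5
      have h5 : θ = k := by
        have : (2 * Real.pi) ≠ 0 := by positivity
        exact mul_left_cancel₀ this hI
      rw [hθ, div_eq_iff hPr.ne'] at h5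
      have h6 : ((n : ℝ) - n') = P * k := by rw [h5]; ring
      exact_mod_cast h6
    rw [geom_sum_eq h4, ← ee_nat_mul]
    have h5 : (P : ℝ) * θ = (((n : ℤ) - n' : ℤ) : ℝ) := by
      rw [hθ]; push_cast; field_simp
    rw [h5, ee_int, sub_self, zero_div]

lemma sum_norm_sq (A : Finset ℕ) (P : ℕ) (hP : 0 < P) :
    ∑ h ∈ range P, ‖∑ n ∈ A, ee (n * ((h : ℝ) / P))‖ ^ 2 =
      P * (#{c ∈ A ×ˢ A | c.1 % P = c.2 % P} : ℝ) := by
  have h1 : ((∑ h ∈ range P, ‖∑ n ∈ A, ee (n * ((h : ℝ) / P))‖ ^ 2 : ℝ) : ℂ) =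
      ∑ c ∈ A ×ˢ A, if c.1 % P = c.2 % P then (P : ℂ) else 0 := by
    push_cast
    rw [sum_product]
    have e1 : ∀ h ∈ range P, (‖∑ n ∈ A, ee (n * ((h : ℝ) / P))‖ ^ 2 : ℂ) =
        ∑ n ∈ A, ∑ n' ∈ A, ee (n * ((h : ℝ) / P)) * ee (-(n' * ((h : ℝ) / P))) := by
      intro h _
      rw [← Complex.mul_conj', map_sum, sum_mul_sum]
      refine sum_congr rfl fun n _ => sum_congr rfl fun n' _ => ?_
      rw [conj_ee]
    rw [sum_congr rfl e1, sum_comm]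
    refine sum_congr rfl fun n _ => ?_
    rw [sum_comm]
    refine sum_congr rfl fun n' _ => ?_
    exact orth n n' P hP
  rw [← sum_filter, sum_const, nsmul_eq_mul] at h1
  have h2 : ((∑ h ∈ range P, ‖∑ n ∈ A, ee (n * ((h : ℝ) / P))‖ ^ 2 : ℝ) : ℂ) =
      ((P * (#{c ∈ A ×ˢ A | c.1 % P = c.2 % P} : ℝ) : ℝ) : ℂ) := by
    rw [h1]; push_cast; ring
  exact_mod_cast h2

lemma card_pairs (A : Finset ℕ) (P : ℕ) :
    (#A : ℝ) ^ 2 ≤ #(A.image (· % P)) * (#{c ∈ A ×ˢ A | c.1 % P = c.2 % P} : ℝ) := by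
  classical
  have h1 : #A = ∑ v ∈ A.image (· % P), #{n ∈ A | n % P = v} :=
    card_eq_sum_card_image (· % P) A
  have h2 : #{c ∈ A ×ˢ A | c.1 % P = c.2 % P} =
      ∑ v ∈ A.image (· % P), #{n ∈ A | n % P = v} ^ 2 := by
    rw [card_eq_sum_card_fiberwise (f := fun c : ℕ × ℕ => c.1 % P) (t := A.image (· % P))]
    · refine sum_congr rfl fun v _ => ?_
      rw [sq, ← card_product]
      congr 1
      ext ⟨a, b⟩
      simp only [mem_filter, mem_product]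
      constructor
      · rintro ⟨⟨⟨h3, h4⟩, h5⟩, h6⟩
        exact ⟨⟨h3, h6⟩, h4, by rw [← h5]; exact h6⟩
      · rintro ⟨⟨h3, h4⟩, h5, h6⟩
        exact ⟨⟨⟨h3, h5⟩, by rw [h4, h6]⟩, h4⟩
    · intro c hc
      rw [mem_coe, mem_filter, mem_product] at hc
      exact mem_coe.2 (mem_image_of_mem _ hc.1.1)
  have h3 : ((∑ v ∈ A.image (· % P), (#{n ∈ A | n % P = v} : ℝ)) ^ 2 : ℝ) ≤
      #(A.image (· % P)) * ∑ v ∈ A.image (· % P), (#{n ∈ A | n % P = v} : ℝ) ^ 2 :=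
    sq_sum_le_card_mul_sum_sq
  rw [h2]
  rw [h1]
  push_cast
  exact h3

/-- **Few primes are bad for the set `A`.** -/
theorem few_P (N Y : ℕ) (A : Finset ℕ) (hA : A ⊆ range N) (hY : 2 ≤ Y) :
    (#{P ∈ Ioc Y (2 * Y) | P.Prime ∧ 2 * #(A.image (· % P)) ≤ P + 1} : ℝ) * #A ≤
      2 * (N + 8 * (Y : ℝ) ^ 2 * (1 + Real.log (4 * (Y : ℝ) ^ 2))) := by
  classical
  set B : Finset ℕ := {P ∈ Ioc Y (2 * Y) | P.Prime ∧ 2 * #(A.image (· % P)) ≤ P + 1} with hB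
  have hYr : (2 : ℝ) ≤ Y := by exact_mod_cast hY
  set Δ : ℝ := N + 8 * (Y : ℝ) ^ 2 * (1 + Real.log (4 * (Y : ℝ) ^ 2)) with hΔ
  have hlog : 0 ≤ Real.log (4 * (Y : ℝ) ^ 2) := Real.log_nonneg (by nlinarith)
  have hΔ0 : 0 ≤ Δ := by positivity
  set R : Finset (Σ _ : ℕ, ℕ) := B.sigma fun P => Ico 1 P with hR
  have h1 : ∀ r ∈ R, ∑ r' ∈ R, ‖KK N ((r.2 : ℝ) / r.1 - (r'.2 : ℝ) / r'.1)‖ ≤ Δ := by
    intro r hr
    have h2 := spacing_sum R (fun r : (Σ _ : ℕ, ℕ) => (r.2 : ℝ) / r.1) N (1 / (4 * (Y : ℝ) ^ 2))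
      (by positivity) (by
        rw [div_le_div_iff₀ (by positivity) (by norm_num)]
        nlinarith) ?_ r hr
    · refine h2.trans (le_of_eq ?_)
      rw [hΔ]
      have e1 : 1 / (1 / (4 * (Y : ℝ) ^ 2)) = 4 * (Y : ℝ) ^ 2 := by rw [one_div_one_div]
      have e2 : 2 / (1 / (4 * (Y : ℝ) ^ 2)) = 8 * (Y : ℝ) ^ 2 := by
        rw [div_div_eq_mul_div]; ring
      rw [e1, e2]
    · rintro ⟨P, h⟩ hr1 ⟨P', h'⟩ hr2 hne k
      rw [hR, mem_sigma, hB, mem_filter, mem_Ioc, mem_Ico] at hr1 hr2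
      apply spacing_frac (by omega) hr1.1.2.1 hr2.1.2.1 hr1.1.1.2 hr2.1.1.2 (by
        have := hr1.2.1; exact this) hr1.2.2 hr2.2.2
      rintro ⟨rfl, rfl⟩
      exact hne rfl
  have h2 := duality R (fun r : (Σ _ : ℕ, ℕ) => (r.2 : ℝ) / r.1) N A hA Δ hΔ0 h1
  rw [hR, sum_sigma] at h2
  have h3 : ∀ P ∈ B, (#A : ℝ) ^ 2 / 2 ≤
      ∑ h ∈ Ico 1 P, ‖∑ n ∈ A, ee (n * ((h : ℝ) / P))‖ ^ 2 := by
    intro P hP
    rw [hB, mem_filter, mem_Ioc] at hP
    have hP0 : 0 < P := hP.2.1.pos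
    have hP3 : (3 : ℝ) ≤ P := by exact_mod_cast (by omega : 3 ≤ P)
    have e1 := sum_norm_sq A P hP0
    rw [range_eq_Ico, sum_eq_sum_Ico_succ_bot hP0] at e1
    have e2 : ‖∑ n ∈ A, ee (n * (((0 : ℕ) : ℝ) / P))‖ ^ 2 = (#A : ℝ) ^ 2 := by
      simp [ee_zero]
    rw [e2] at e1
    have e3 := card_pairs A P
    set E : ℝ := (#{c ∈ A ×ˢ A | c.1 % P = c.2 % P} : ℝ) with hE
    have hE0 : 0 ≤ E := by positivity
    have e4 : 2 * (#(A.image (· % P)) : ℝ) ≤ P + 1 := by exact_mod_cast hP.2.2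
    have e5 : 2 * (#A : ℝ) ^ 2 ≤ (P + 1) * E := by nlinarith
    have e6 : (3 / 2) * (#A : ℝ) ^ 2 ≤ P * E := by nlinarith [sq_nonneg (#A : ℝ)]
    have e7 : ∑ h ∈ Ico (0 + 1) P, ‖∑ n ∈ A, ee (n * ((h : ℝ) / P))‖ ^ 2 =
      ∑ h ∈ Ico 1 P, ‖∑ n ∈ A, ee (n * ((h : ℝ) / P))‖ ^ 2 := rfl
    rw [e7] at e1
    linarith
  have h4 : (#B : ℝ) * ((#A : ℝ) ^ 2 / 2) ≤ #A * Δ := by
    refine le_trans ?_ h2
    rw [← nsmul_eq_mul]
    exact card_nsmul_le_sum _ _ _ h3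
  rcases (Nat.eq_zero_or_pos #A) with h5 | h5
  · rw [h5]; simp; positivity
  · have h6 : (0 : ℝ) < #A := by exact_mod_cast h5
    have h7 : (#A : ℝ) * (#B * #A) ≤ #A * (2 * Δ) := by nlinarith
    exact le_of_mul_le_mul_left h7 h6

end ESGcd
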