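import Pool.Agent.ESGcd.Fail3

/-!
# Choice of the parameters
-/

namespace ESGcd

open Finset Real

lemma exists_par {x l Y b : ℕ} {κ : ℝ} (hl : l.Prime) (hx : 1 ≤ x)
    (h1 : exp (κ - 1) ≤ Y) (h2 : exp κ * Y ≤ x) (h3 : 20 * log l ≤ κ)
    (h4 : 1000 * log x ≤ κ * log l) (h5 : 300 * (b : ℝ) ≤ log l) (hb : 1 ≤ b)
    (h6 : 32 * (log x + 1) ≤ 2 ^ b) : ∃ D h I, Par2 x l Y D h b (2 ^ b) I := by
  have hl2 := hl.two_le
  have hlr : (0 : ℝ) < l := by positivity
  have hbr : (1 : ℝ) ≤ b := by exact_mod_cast hb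
  set u := log (l : ℝ) with hu
  set lam := log (x : ℝ) with hlam
  have hu0 : 300 ≤ u := by linarith
  have hκ : 6000 ≤ κ := by linarith
  have hlu : (l : ℝ) = exp u := (exp_log hlr).symm
  have hYr : (0 : ℝ) < Y := lt_of_lt_of_le (exp_pos _) h1
  have hxr : (0 : ℝ) < x := by exact_mod_cast hx
  have hY0 : 0 < Y := by exact_mod_cast hYr
  have e1 : (2 : ℝ) ≤ exp 1 := by have := add_one_le_exp (1 : ℝ); linarith
  have e4 : (4 : ℝ) ≤ exp 2 := by
    have : exp 2 = exp 1 * exp 1 := by rw [← exp_add]; norm_num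
    rw [this]; nlinarith
  have e8 : (8 : ℝ) ≤ exp 3 := by
    have : exp 3 = exp 2 * exp 1 := by rw [← exp_add]; norm_num
    rw [this]; nlinarith [exp_pos (2 : ℝ)]
  have h2b : ((2 ^ b : ℕ) : ℝ) ≤ exp b := by
    push_cast
    calc (2 : ℝ) ^ b ≤ (exp 1) ^ b := pow_le_pow_left₀ (by norm_num) e1 b
      _ = exp b := by rw [← exp_nat_mul, mul_one]
  -- `I`
  set I : ℕ := ⌊exp (κ / 2)⌋₊ with hI
  have hI1 : (I : ℝ) ≤ exp (κ / 2) := Nat.floor_le (exp_pos _).le
  have hI2 : exp (κ / 2 - 1) ≤ I := by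
    have f1 : exp (κ / 2) - 1 < I := by
      have := Nat.lt_floor_add_one (exp (κ / 2)); linarith
    have f2 : exp (κ / 2) = exp (κ / 2 - 1) * exp 1 := by rw [← exp_add]; ring_nf
    have f3 : 1 ≤ exp (κ / 2 - 1) := one_le_exp (by linarith)
    nlinarith
  have hI0 : 1 ≤ I := by
    have : (1 : ℝ) ≤ I := (one_le_exp (by linarith)).trans hI2
    exact_mod_cast this
  have hlI : l ≤ I := by
    have : (l : ℝ) ≤ I := by
      rw [hlu]
      exact (exp_le_exp.2 (by linarith)).trans hI2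
    exact_mod_cast this
  have hIYr : (I : ℝ) ≤ Y := hI1.trans ((exp_le_exp.2 (by linarith)).trans h1)
  -- `D`
  set τ := Nat.log l Y with hτ
  set E := Nat.log l (Y * I) with hE
  have hYI : Y * I ≠ 0 := Nat.mul_ne_zero (by omega) (by omega)
  have hE1 : l ^ E ≤ Y * I := Nat.pow_log_le_self l hYI
  have hE2 : Y * I < l ^ (E + 1) := Nat.lt_pow_succ_log_self hl.one_lt _
  have hτ1 : l ^ τ ≤ Y := Nat.pow_log_le_self l (by omega)
  have hτ2 : Y < l ^ (τ + 1) := Nat.lt_pow_succ_log_self hl.one_lt _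
  have hτE : τ + 1 ≤ E := by
    apply Nat.le_log_of_pow_le hl.one_lt
    rw [pow_succ]
    exact Nat.mul_le_mul hτ1 hlI
  obtain ⟨D, hD⟩ : ∃ D, E = D + 1 := ⟨E - 1, by omega⟩
  have hτD : τ ≤ D := by omega
  rw [hD] at hE1 hE2
  have hy : log Y + κ ≤ lam := by
    have f1 := log_le_log (by positivity) h2
    rw [log_mul (exp_pos _).ne' hYr.ne', log_exp] at f1
    linarith
  have hDu : ((D : ℝ) + 1) * u ≤ lam := by
    have f1 : ((l ^ (D + 1) : ℕ) : ℝ) ≤ ((Y * I : ℕ) : ℝ) := by exact_mod_cast hE1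
    push_cast at f1
    have f2 := log_le_log (by positivity) f1
    rw [log_pow, log_mul hYr.ne' (by positivity)] at f2
    have f3 : log I ≤ κ / 2 := by
      have := log_le_log (by positivity) hI1
      rwa [log_exp] at this
    push_cast at f2
    linarith
  have hu1 : 0 < u := by linarith
  have hDκ : (D : ℝ) + 1 ≤ κ / 1000 := by
    have f1 : ((D : ℝ) + 1) * u ≤ κ / 1000 * u := by linarith
    exact le_of_mul_le_mul_right f1 hu1
  have hDlam : (D : ℝ) ≤ lam := by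
    have f0 : (0 : ℝ) ≤ D := by positivity
    have f1 : ((D : ℝ) + 1) * 1 ≤ ((D : ℝ) + 1) * u := by
      apply mul_le_mul_of_nonneg_left _ (by positivity)
      linarith
    linarith
  have hlam0 : 0 ≤ lam := le_trans (by positivity) hDlam
  have hDτ : ((D - τ : ℕ) : ℝ) * u ≤ κ / 2 := by
    have f1 : l ^ (D - τ) < I := by
      have f2 : l ^ (D + 1) = l ^ (τ + 1) * l ^ (D - τ) := by
        rw [← pow_add]; congr 1; omega
      have f3 : l ^ (τ + 1) * l ^ (D - τ) < l ^ (τ + 1) * I := by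
        rw [← f2]
        exact lt_of_le_of_lt hE1 (Nat.mul_lt_mul_of_pos_right hτ2 (by omega))
      exact Nat.lt_of_mul_lt_mul_left f3
    have f2 : ((l ^ (D - τ) : ℕ) : ℝ) ≤ exp (κ / 2) := by
      refine le_trans ?_ hI1
      exact_mod_cast f1.le
    push_cast at f2
    have f3 := log_le_log (by positivity) f2
    rw [log_pow, log_exp] at f3
    exact f3
  -- `h`
  set h : ℕ := ⌊κ / 20⌋₊ with hh
  have hh1 : (h : ℝ) ≤ κ / 20 := Nat.floor_le (by linarith)
  have hh2 : κ / 20 < h + 1 := Nat.lt_floor_add_one _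
  have hbu : (b : ℝ) ≤ κ / 6000 := by linarith
  refine ⟨D, h, I, ?_⟩
  constructor
  · exact hl
  · have : (2 : ℝ) ≤ Y := e1.trans ((exp_le_exp.2 (by linarith)).trans h1)
    exact_mod_cast this
  · exact Nat.one_le_two_pow
  · have : (((2 ^ b) ^ 2 : ℕ) : ℝ) ≤ l := by
      rw [Nat.cast_pow, hlu]
      calc ((2 ^ b : ℕ) : ℝ) ^ 2 ≤ (exp b) ^ 2 := by gcongr
        _ = exp (2 * b) := by rw [← exp_nat_mul]; push_cast; ring_nf
        _ ≤ exp u := exp_le_exp.2 (by linarith)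
    exact_mod_cast this
  · exact le_rfl
  · exact hτD
  · have : (D : ℝ) ≤ ((2 ^ b : ℕ) : ℝ) := by push_cast; linarith
    exact_mod_cast this
  · rw [← hτ]
    push_cast
    set X : ℝ := 2 * 8 ^ D * 4 ^ (2 * h + 2 * b * (D - τ)) with hX
    have hX0 : 0 ≤ X := by positivity
    have g1 : X * (2 ^ b) ^ 2 * (l : ℝ) ^ 2 ≤ I := by
      have f1 : (8 : ℝ) ^ D ≤ exp (3 * D) := by
        calc (8 : ℝ) ^ D ≤ (exp 3) ^ D := pow_le_pow_left₀ (by norm_num) e8 D
          _ = _ := by rw [← exp_nat_mul]; ring_nf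
      have f2 : (4 : ℝ) ^ (2 * h + 2 * b * (D - τ)) ≤
          exp (2 * (2 * h + 2 * (b * ((D - τ : ℕ) : ℝ)))) := by
        calc (4 : ℝ) ^ (2 * h + 2 * b * (D - τ)) ≤ (exp 2) ^ (2 * h + 2 * b * (D - τ)) :=
              pow_le_pow_left₀ (by norm_num) e4 _
          _ = _ := by rw [← exp_nat_mul]; push_cast; ring_nf
      have f3 : ((2 : ℝ) ^ b) ^ 2 ≤ exp (2 * b) := by
        calc ((2 : ℝ) ^ b) ^ 2 ≤ (exp b) ^ 2 := by
              gcongr
              exact_mod_cast h2b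
          _ = exp (2 * b) := by rw [← exp_nat_mul]; push_cast; ring_nf
      have f4 : (l : ℝ) ^ 2 = exp (2 * u) := by
        rw [hlu, ← exp_nat_mul]; push_cast; ring_nf
      have f5 : (b : ℝ) * ((D - τ : ℕ) : ℝ) ≤ κ / 600 := by
        have : (b : ℝ) * ((D - τ : ℕ) : ℝ) ≤ u / 300 * ((D - τ : ℕ) : ℝ) := by
          apply mul_le_mul_of_nonneg_right _ (by positivity)
          linarith
        have : u / 300 * ((D - τ : ℕ) : ℝ) = (((D - τ : ℕ) : ℝ) * u) / 300 := by ring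
        linarith
      calc X * (2 ^ b) ^ 2 * (l : ℝ) ^ 2
          ≤ (exp 1 * exp (3 * D) * exp (2 * (2 * h + 2 * (b * ((D - τ : ℕ) : ℝ))))) *
            exp (2 * b) * exp (2 * u) := by
            rw [hX, f4]
            gcongr
        _ = exp (1 + 3 * D + 2 * (2 * h + 2 * (b * ((D - τ : ℕ) : ℝ))) + 2 * b + 2 * u) := by
            simp only [exp_add]
        _ ≤ exp (κ / 2 - 1) := by
            apply exp_le_exp.2
            linarith
        _ ≤ I := hI2
    have g2 : (l : ℝ) ^ (D + 1) + 8 * (Y : ℝ) ^ 2 * (1 + log (4 * (Y : ℝ) ^ 2)) ≤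
        (Y : ℝ) ^ 2 * 2 ^ b := by
      have f1 : (l : ℝ) ^ (D + 1) ≤ Y * I := by exact_mod_cast hE1
      have f2 : log (4 * (Y : ℝ) ^ 2) ≤ 2 + 2 * lam := by
        rw [log_mul (by norm_num) (by positivity), log_pow]
        have : log 4 ≤ 2 := by
          have := log_le_log (by norm_num) e4
          rwa [log_exp] at this
        push_cast
        linarith
      have f3 : (Y : ℝ) * I ≤ (Y : ℝ) ^ 2 := by
        rw [sq]; exact mul_le_mul_of_nonneg_left hIYr hYr.le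
      have f4 : (0 : ℝ) < (Y : ℝ) ^ 2 := by positivity
      calc (l : ℝ) ^ (D + 1) + 8 * (Y : ℝ) ^ 2 * (1 + log (4 * (Y : ℝ) ^ 2)) ≤
            (Y : ℝ) ^ 2 + 8 * (Y : ℝ) ^ 2 * (1 + (2 + 2 * lam)) := by
            gcongr
            linarith
        _ = (Y : ℝ) ^ 2 * (1 + 8 * (3 + 2 * lam)) := by ring
        _ ≤ (Y : ℝ) ^ 2 * 2 ^ b := by
            apply mul_le_mul_of_nonneg_left _ f4.le
            linarith
    have g3 : (Y : ℝ) * I ≤ (l : ℝ) ^ D * (l : ℝ) ^ 2 := by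
      have : ((Y * I : ℕ) : ℝ) ≤ ((l ^ (D + 1 + 1) : ℕ) : ℝ) := by exact_mod_cast hE2.le
      push_cast at this
      calc (Y : ℝ) * I ≤ _ := this
        _ = _ := by rw [← pow_add]
    have hl22 : (0 : ℝ) < (l : ℝ) ^ 2 := by positivity
    have g4 : X * ((l : ℝ) ^ (D + 1) + 8 * (Y : ℝ) ^ 2 * (1 + log (4 * (Y : ℝ) ^ 2))) * 2 ^ b *
        (l : ℝ) ^ 2 ≤ (Y * (l : ℝ) ^ D) * (l : ℝ) ^ 2 := by
      calc X * ((l : ℝ) ^ (D + 1) + 8 * (Y : ℝ) ^ 2 * (1 + log (4 * (Y : ℝ) ^ 2))) * 2 ^ b *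
        (l : ℝ) ^ 2 ≤ X * ((Y : ℝ) ^ 2 * 2 ^ b) * 2 ^ b * (l : ℝ) ^ 2 := by gcongr
        _ = (X * (2 ^ b) ^ 2 * (l : ℝ) ^ 2) * (Y : ℝ) ^ 2 := by ring
        _ ≤ I * (Y : ℝ) ^ 2 := by gcongr
        _ = Y * (Y * I) := by ring
        _ ≤ Y * ((l : ℝ) ^ D * (l : ℝ) ^ 2) := by gcongr
        _ = _ := by ring
    exact le_of_mul_le_mul_right g4 hl22
  · rw [← hτ]
    have f1 : 2 + τ + b ≤ h := by
      have : (2 : ℝ) + τ + b ≤ h := by
        have : (τ : ℝ) ≤ D := by exact_mod_cast hτD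
        linarith
      exact_mod_cast this
    calc 3 * 2 ^ τ * 2 ^ b ≤ 2 ^ 2 * 2 ^ τ * 2 ^ b := by gcongr; norm_num
      _ = 2 ^ (2 + τ + b) := by rw [pow_add, pow_add]
      _ ≤ 2 ^ h := Nat.pow_le_pow_right (by norm_num) f1
  · exact hI0
  · exact hE1
  · rw [Nat.le_div_iff_mul_le (Nat.mul_pos hY0 hl.pos)]
    have : ((2 * I * (2 ^ b) ^ 2 * (Y * l) : ℕ) : ℝ) ≤ x := by
      rw [Nat.cast_mul, Nat.cast_mul, Nat.cast_mul, Nat.cast_pow, Nat.cast_mul]
      calc ((2 : ℕ) : ℝ) * I * ((2 ^ b : ℕ) : ℝ) ^ 2 * (Y * l)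
          ≤ exp 1 * exp (κ / 2) * (exp b) ^ 2 * (Y * exp u) := by
            rw [hlu]
            gcongr
            exact_mod_cast e1
        _ = exp (1 + κ / 2 + 2 * b + u) * Y := by
            have : (exp (b : ℝ)) ^ 2 = exp (2 * b) := by
              rw [← exp_nat_mul]; push_cast; ring_nf
            rw [this]
            simp only [exp_add]
            ring
        _ ≤ exp κ * Y := by
            apply mul_le_mul_of_nonneg_right _ hYr.le
            apply exp_le_exp.2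
            linarith
        _ ≤ x := h2
    exact_mod_cast this
  · have : ((2 * l * I * 2 ^ b : ℕ) : ℝ) ≤ Y := by
      rw [Nat.cast_mul, Nat.cast_mul, Nat.cast_mul]
      calc ((2 : ℕ) : ℝ) * l * I * ((2 ^ b : ℕ) : ℝ)
          ≤ exp 1 * exp u * exp (κ / 2) * exp b := by
            rw [hlu]
            gcongr
            exact_mod_cast e1
        _ = exp (1 + u + κ / 2 + b) := by simp only [exp_add]
        _ ≤ exp (κ - 1) := by
            apply exp_le_exp.2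
            linarith
        _ ≤ Y := h1
    exact_mod_cast this

end ESGcd
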