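import Pool.Agent.CoprimeSieve.Mertens

/-!
# Integers without prime factors in a given set of primes

`sum_inv_primes_lower` is the lemma of the same name of `Pool.Agent.CoprimeSieve.Strong`.
-/

namespace ESGcd

open Finset Pool.Agent.CoprimeSieve

/-- `∑_{x^{1/2^j} < p ≤ x} 1/p ≥ j/4` for large `x`. -/
lemma sum_inv_primes_lower (j : ℕ) : ∃ x0 : ℝ, 1 ≤ x0 ∧ ∀ x : ℝ, x0 ≤ x →
    (j:ℝ) / 4 ≤ ∑ p ∈ (pr x).filter (fun p : ℕ => x ^ ((1:ℝ) / 2^j) < (p:ℝ)), (1:ℝ) / p := by
  obtain ⟨C, hC, hM⟩ := mertens_first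
  induction j with
  | zero =>
    refine ⟨1, le_rfl, ?_⟩
    intro x _
    simp only [Nat.cast_zero, zero_div]
    exact Finset.sum_nonneg (fun p _ => by positivity)
  | succ j ih =>
    obtain ⟨x0, hx0, h⟩ := ih
    refine ⟨max (x0^2) (Real.exp (8 * C + 1)), ?_, ?_⟩
    · refine le_trans ?_ (le_max_left _ _)
      nlinarith
    · intro x hx
      have hx1 : x0^2 ≤ x := (le_max_left _ _).trans hx
      have hx2 : Real.exp (8 * C + 1) ≤ x := (le_max_right _ _).trans hx
      have hxpos : 0 < x := lt_of_lt_of_le (Real.exp_pos _) hx2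
      have hlogx : 8 * C + 1 ≤ Real.log x := by
        rw [← Real.log_exp (8 * C + 1)]
        exact Real.log_le_log (Real.exp_pos _) hx2
      have hlogx0 : 0 < Real.log x := by linarith
      have hx1' : 1 ≤ x := by
        have : (1:ℝ) ≤ x0^2 := by nlinarith
        linarith
      set s := Real.sqrt x with hs
      have hsx0 : x0 ≤ s := by
        rw [hs]
        exact Real.le_sqrt_of_sq_le hx1
      have hs1 : 1 ≤ s := by linarith
      have hss : s ≤ x := by
        have h2 : s * s = x := Real.mul_self_sqrt hxpos.le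
        nlinarith
      have hlogs : Real.log s = Real.log x / 2 := Real.log_sqrt hxpos.le
      have hpow : x ^ ((1:ℝ) / 2^(j+1)) = s ^ ((1:ℝ) / 2^j) := by
        rw [hs, Real.sqrt_eq_rpow, ← Real.rpow_mul hxpos.le]
        congr 1
        rw [pow_succ]
        field_simp
      have hple : s ^ ((1:ℝ) / 2^j) ≤ s := by
        calc s ^ ((1:ℝ) / 2^j) ≤ s ^ (1:ℝ) := by
              apply Real.rpow_le_rpow_of_exponent_le hs1
              rw [div_le_one (by positivity)]
              exact one_le_pow₀ (by norm_num)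
          _ = s := Real.rpow_one s
      have h1 := h s hsx0
      have e : (pr x).filter (fun p : ℕ => x ^ ((1:ℝ) / 2^(j+1)) < (p:ℝ))
          = (pr x).filter (fun p : ℕ => s < (p:ℝ)) ∪ (pr s).filter (fun p : ℕ => s ^ ((1:ℝ) / 2^j) < (p:ℝ)) := by
        rw [hpow]
        ext p
        simp only [mem_filter, mem_union, mem_pr]
        constructor
        · rintro ⟨⟨h2, h3⟩, h4⟩
          rcases le_or_gt (p:ℝ) s with h5 | h5
          · exact Or.inr ⟨⟨h2, h5⟩, h4⟩
          · exact Or.inl ⟨⟨h2, h3⟩, h5⟩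
        · rintro (⟨⟨h2, h3⟩, h4⟩ | ⟨⟨h2, h3⟩, h4⟩)
          · exact ⟨⟨h2, h3⟩, lt_of_le_of_lt hple h4⟩
          · exact ⟨⟨h2, h3.trans hss⟩, h4⟩
      rw [e, Finset.sum_union]
      · have h2 : (1:ℝ)/4 ≤ ∑ p ∈ (pr x).filter (fun p : ℕ => s < (p:ℝ)), (1:ℝ) / p := by
          have h3 : ∑ p ∈ (pr x).filter (fun p : ℕ => s < (p:ℝ)), Real.log p / p = mE x - mE s := by
            have h4 := Finset.sum_filter_add_sum_filter_not (pr x) (fun p : ℕ => s < (p:ℝ))
              (fun p => Real.log p / (p:ℝ))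
            have h5 : (pr x).filter (fun p : ℕ => ¬ s < (p:ℝ)) = pr s := by
              ext p
              simp only [mem_filter, mem_pr, not_lt]
              constructor
              · rintro ⟨⟨h2, _⟩, h4⟩; exact ⟨h2, h4⟩
              · rintro ⟨h2, h4⟩; exact ⟨⟨h2, h4.trans hss⟩, h4⟩
            rw [h5] at h4
            unfold mE
            linarith
          have h4 : ∑ p ∈ (pr x).filter (fun p : ℕ => s < (p:ℝ)), Real.log p / p
              ≤ Real.log x * ∑ p ∈ (pr x).filter (fun p : ℕ => s < (p:ℝ)), (1:ℝ) / p := by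
            rw [Finset.mul_sum]
            apply Finset.sum_le_sum
            intro p hp
            have hp' := mem_pr.mp (mem_filter.mp hp).1
            have hp0 : (0:ℝ) < p := by exact_mod_cast hp'.1.pos
            have := Real.log_le_log hp0 hp'.2
            rw [div_eq_mul_one_div]
            exact mul_le_mul_of_nonneg_right this (by positivity)
          have m1 := (abs_le.mp (hM x hx1')).1
          have m2 := (abs_le.mp (hM s hs1)).2
          have h5 : Real.log x * (1/4) ≤ Real.log x * ∑ p ∈ (pr x).filter (fun p : ℕ => s < (p:ℝ)), (1:ℝ) / p := by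
            linarith
          exact le_of_mul_le_mul_left h5 hlogx0
        push_cast
        linarith
      · rw [Finset.disjoint_left]
        intro p hp hp2
        rw [mem_filter, mem_pr] at *
        linarith [hp.2, hp2.1.2]

/-- the number of multiples of `d` up to `x`. -/
lemma card_mult (d x : ℕ) : #{n ∈ Icc 1 x | d ∣ n} = x / d := by
  have := Nat.Ioc_filter_dvd_card_eq_div x d
  rw [← this]; congr 1

/-- **Few integers have no prime factor in `Q`.** -/
lemma few_free (Q : Finset ℕ) (hQ : ∀ p ∈ Q, p.Prime) (x : ℕ) (l : ℝ) (hl : 0 < l)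
    (hlQ : l ≤ ∑ p ∈ Q, (1 : ℝ) / p) :
    (#{n ∈ Icc 1 x | ∀ p ∈ Q, ¬ p ∣ n} : ℝ) ≤ (x + 2 * #Q) / l := by
  classical
  set L : ℝ := ∑ p ∈ Q, (1 : ℝ) / p with hL
  have hL0 : 0 < L := hl.trans_le hlQ
  set w : ℕ → ℝ := fun n => ∑ p ∈ Q, (if p ∣ n then (1 : ℝ) else 0) with hw
  have hcount : ∀ d : ℕ, ∑ n ∈ Icc 1 x, (if d ∣ n then (1 : ℝ) else 0) = (x / d : ℕ) := by
    intro d
    rw [← card_mult d x, card_filter]; push_cast; rfl
  -- first moment
  have m1 : (x : ℝ) * L - #Q ≤ ∑ n ∈ Icc 1 x, w n := by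
    simp only [hw]
    rw [sum_comm]
    have : ∀ p ∈ Q, (x : ℝ) * (1 / p) - 1 ≤ ∑ n ∈ Icc 1 x, (if p ∣ n then (1 : ℝ) else 0) := by
      intro p hp
      rw [hcount p]
      have hp0 : 0 < p := (hQ p hp).pos
      have h1 : (x : ℝ) / p < (x / p : ℕ) + 1 := by
        rw [div_lt_iff₀ (by exact_mod_cast hp0)]
        have := Nat.lt_mul_div_succ x hp0
        have h2 : (x : ℝ) < p * ((x / p : ℕ) + 1) := by exact_mod_cast this
        linarith
      rw [mul_one_div]; linarith
    refine le_trans ?_ (sum_le_sum this)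
    rw [sum_sub_distrib, ← mul_sum]
    simp [hL]
  -- second moment
  have m2 : ∑ n ∈ Icc 1 x, w n ^ 2 ≤ x * L ^ 2 + x * L := by
    have e1 : ∀ n, w n ^ 2 = ∑ p ∈ Q, ∑ q ∈ Q,
        (if p ∣ n then (1 : ℝ) else 0) * (if q ∣ n then (1 : ℝ) else 0) := by
      intro n
      simp only [hw]
      rw [sq, sum_mul_sum]
    simp only [e1]
    rw [sum_comm]
    have e2 : ∀ p ∈ Q, ∑ n ∈ Icc 1 x, ∑ q ∈ Q,
        (if p ∣ n then (1 : ℝ) else 0) * (if q ∣ n then (1 : ℝ) else 0) ≤
        ∑ q ∈ Q, (x : ℝ) * (1 / p) * (1 / q) + x * (1 / p) := by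
      intro p hp
      have hp0 : (0 : ℝ) < p := by exact_mod_cast (hQ p hp).pos
      rw [sum_comm]
      have e3 : ∀ q ∈ Q, ∑ n ∈ Icc 1 x,
          (if p ∣ n then (1 : ℝ) else 0) * (if q ∣ n then (1 : ℝ) else 0) ≤
          (x : ℝ) * (1 / p) * (1 / q) + (if q = p then x * (1 / (p : ℝ)) else 0) := by
        intro q hq
        have hq0 : (0 : ℝ) < q := by exact_mod_cast (hQ q hq).pos
        split_ifs with h
        · subst h
          have e4 : ∑ n ∈ Icc 1 x, (if q ∣ n then (1 : ℝ) else 0) * (if q ∣ n then (1 : ℝ) else 0)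
              = (x / q : ℕ) := by
            rw [← hcount q]
            refine sum_congr rfl fun n _ => ?_
            split_ifs <;> simp
          rw [e4]
          have e5 : ((x / q : ℕ) : ℝ) ≤ x / q := Nat.cast_div_le
          have e6 : (0 : ℝ) ≤ x * (1 / q) * (1 / q) := by positivity
          have e9 : (x : ℝ) * (1 / q) = x / q := mul_one_div _ _
          linarith
        · have hcop : Nat.Coprime p q := (Nat.coprime_primes (hQ p hp) (hQ q hq)).2 (Ne.symm h)
          have e4 : ∑ n ∈ Icc 1 x, (if p ∣ n then (1 : ℝ) else 0) * (if q ∣ n then (1 : ℝ) else 0)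
              = (x / (p * q) : ℕ) := by
            rw [← hcount (p * q)]
            refine sum_congr rfl fun n _ => ?_
            have e7 : p * q ∣ n ↔ p ∣ n ∧ q ∣ n :=
              ⟨fun h => ⟨(Dvd.intro _ rfl).trans h, (Dvd.intro_left _ rfl).trans h⟩,
                fun h => hcop.mul_dvd_of_dvd_of_dvd h.1 h.2⟩
            by_cases a1 : p ∣ n <;> by_cases a2 : q ∣ n <;> simp [e7, a1, a2]
          rw [e4, add_zero]
          have e5 : ((x / (p * q) : ℕ) : ℝ) ≤ x / ((p * q : ℕ) : ℝ) := Nat.cast_div_le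
          refine e5.trans (le_of_eq ?_)
          push_cast; field_simp
      refine (sum_le_sum e3).trans (le_of_eq ?_)
      rw [sum_add_distrib, sum_ite_eq' Q p, if_pos hp]
    refine (sum_le_sum e2).trans (le_of_eq ?_)
    rw [sum_add_distrib]
    have e8 : ∑ p ∈ Q, ∑ q ∈ Q, (x : ℝ) * (1 / p) * (1 / q) = x * L ^ 2 := by
      have : ∀ p ∈ Q, ∑ q ∈ Q, (x : ℝ) * (1 / p) * (1 / q) = (x * L) * (1 / p) := by
        intro p _
        rw [← mul_sum, ← hL]; ring
      rw [sum_congr rfl this, ← mul_sum, ← hL]; ring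
    rw [e8, ← mul_sum, ← hL]
  -- variance
  have v : ∑ n ∈ Icc 1 x, (w n - L) ^ 2 ≤ x * L + 2 * L * #Q := by
    have e1 : ∑ n ∈ Icc 1 x, (w n - L) ^ 2 =
        ∑ n ∈ Icc 1 x, w n ^ 2 - 2 * L * ∑ n ∈ Icc 1 x, w n + x * L ^ 2 := by
      have : ∀ n ∈ Icc 1 x, (w n - L) ^ 2 = w n ^ 2 - 2 * L * w n + L ^ 2 := fun n _ => by ring
      rw [sum_congr rfl this, sum_add_distrib, sum_sub_distrib, ← mul_sum, sum_const, Nat.card_Icc,
        Nat.add_sub_cancel, nsmul_eq_mul]
    rw [e1]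
    nlinarith
  have z : (#{n ∈ Icc 1 x | ∀ p ∈ Q, ¬ p ∣ n} : ℝ) * L ^ 2 ≤ ∑ n ∈ Icc 1 x, (w n - L) ^ 2 := by
    calc (#{n ∈ Icc 1 x | ∀ p ∈ Q, ¬ p ∣ n} : ℝ) * L ^ 2
        = ∑ n ∈ Icc 1 x with ∀ p ∈ Q, ¬ p ∣ n, L ^ 2 := by rw [sum_const, nsmul_eq_mul]
      _ = ∑ n ∈ Icc 1 x with ∀ p ∈ Q, ¬ p ∣ n, (w n - L) ^ 2 := by
          refine sum_congr rfl fun n hn => ?_
          rw [mem_filter] at hn
          have : w n = 0 := by
            simp only [hw]
            apply sum_eq_zero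
            intro p hp
            rw [if_neg (hn.2 p hp)]
          rw [this]; ring
      _ ≤ _ := sum_le_sum_of_subset_of_nonneg (filter_subset _ _) fun _ _ _ => sq_nonneg _
  have h1 : (#{n ∈ Icc 1 x | ∀ p ∈ Q, ¬ p ∣ n} : ℝ) * L ≤ x + 2 * #Q := by
    have : (#{n ∈ Icc 1 x | ∀ p ∈ Q, ¬ p ∣ n} : ℝ) * L * L ≤ (x + 2 * #Q) * L := by
      nlinarith
    exact le_of_mul_le_mul_right this hL0
  rw [le_div_iff₀ hl]
  refine le_trans ?_ h1
  gcongr

end ESGcd
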