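import Pool.Agent.ESGcd.Fail2
import Pool.Agent.ESGcd.Sieve

/-!
# For almost all `n`: `f(n) P(n) ≤ n^(1-c)`
-/

namespace ESGcd

open Finset Real Pool.Agent.CoprimeSieve

/-- the failures for `l` and `Y`. -/
noncomputable def failSet (x l Y : ℕ) : Finset ℕ :=
  ({P ∈ Ioc Y (2 * Y) | P.Prime} : Finset ℕ).biUnion fun P =>
    ({s ∈ Icc 1 (x / (P * l)) | s < f (P * l * s)} : Finset ℕ).image fun s => P * l * s

lemma card_failSet {x A L l Y : ℕ} (h : Par x A L l Y) :
    (#(failSet x l Y) : ℝ) ≤ (3 ^ (A + 1) + 5 * A + 8) * x / (l * L) := by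
  refine le_trans ?_ (fail_sum h)
  have h1 : #(failSet x l Y) ≤ ∑ P ∈ Ioc Y (2 * Y) with P.Prime,
      #{s ∈ Icc 1 (x / (P * l)) | s < f (P * l * s)} := by
    unfold failSet
    refine card_biUnion_le.trans (sum_le_sum fun P _ => card_image_le)
  exact_mod_cast h1

open Classical in
/-- all failures. -/
noncomputable def Z4 (x A L u : ℕ) : Finset ℕ :=
  (Icc 1 x).biUnion fun l => (range u).biUnion fun κ =>
    if Par x A L l (2 ^ κ) then failSet x l (2 ^ κ) else ∅

lemma card_Z4 (x A L u : ℕ) (hx : 1 ≤ x) :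
    (#(Z4 x A L u) : ℝ) ≤ (3 ^ (A + 1) + 5 * A + 8) * x / L * u * (1 + log x) := by
  classical
  have h1 : (#(Z4 x A L u) : ℝ) ≤ ∑ l ∈ Icc 1 x, ∑ κ ∈ range u,
      ((3 ^ (A + 1) + 5 * A + 8) * x / (l * L) : ℝ) := by
    have e1 : #(Z4 x A L u) ≤ ∑ l ∈ Icc 1 x, ∑ κ ∈ range u,
        #(if Par x A L l (2 ^ κ) then failSet x l (2 ^ κ) else ∅) := by
      unfold Z4
      exact card_biUnion_le.trans (sum_le_sum fun l _ => card_biUnion_le)
    have e2 : (#(Z4 x A L u) : ℝ) ≤ ∑ l ∈ Icc 1 x, ∑ κ ∈ range u,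
        ((#(if Par x A L l (2 ^ κ) then failSet x l (2 ^ κ) else ∅) : ℕ) : ℝ) := by
      exact_mod_cast e1
    refine e2.trans (sum_le_sum fun l _ => sum_le_sum fun κ _ => ?_)
    split_ifs with h
    · exact card_failSet h
    · simp only [card_empty, Nat.cast_zero]; positivity
  refine h1.trans ?_
  have h2 : ∀ l ∈ Icc 1 x, ∑ κ ∈ range u, ((3 ^ (A + 1) + 5 * A + 8) * x / (l * L) : ℝ) =
      ((3 ^ (A + 1) + 5 * A + 8) * x / L * u) * ((l : ℝ)⁻¹) := by
    intro l _
    rw [sum_const, card_range, nsmul_eq_mul]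
    rw [div_mul_eq_div_div_swap]
    ring
  rw [sum_congr rfl h2, ← mul_sum]
  apply mul_le_mul_of_nonneg_left _ (by positivity)
  have h3 := harmonic_le_one_add_log x
  rw [harmonic_eq_sum_Icc] at h3
  push_cast at h3
  exact h3

open Classical in
/-- integers with a very large prime factor. -/
noncomputable def Z3 (x C : ℕ) : Finset ℕ :=
  {n ∈ Icc 1 x | ∃ P m : ℕ, P.Prime ∧ n = P * m ∧ m ^ C ≤ x}

lemma pi_upper (x m : ℕ) (hm : 1 ≤ m) (hmx : m ^ 2 ≤ x) (hx1 : 16 ≤ x)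
    (hx : log x ≤ √(√x)) : (Nat.primeCounting (x / m) : ℝ) ≤ 7 * (x / m) / log x := by
  have hm0 : (0 : ℝ) < m := by exact_mod_cast (by omega : 0 < m)
  have hx0 : (0 : ℝ) < x := by exact_mod_cast (by omega : 0 < x)
  set z : ℝ := (x : ℝ) / m with hz
  have hxz : √x ≤ z := by
    rw [hz, le_div_iff₀ hm0]
    have h1 : (m : ℝ) ≤ √x := by
      apply le_sqrt_of_sq_le
      exact_mod_cast hmx
    calc √x * m ≤ √x * √x := by gcongr
      _ = x := mul_self_sqrt hx0.le
  have hsx : (4 : ℝ) ≤ √x := by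
    apply le_sqrt_of_sq_le
    have : (16 : ℝ) ≤ x := by exact_mod_cast hx1
    linarith
  have hz4 : 4 ≤ z := hsx.trans hxz
  have hfl : x / m = ⌊z⌋₊ := by rw [hz]; exact (Nat.floor_div_eq_div x m).symm
  rw [hfl]
  have h1 := Chebyshev.pi_le_log4_mul_div (x := z) (by linarith)
  refine h1.trans ?_
  have hlogx : 0 < log x := log_pos (by
    have : (16 : ℝ) ≤ x := by exact_mod_cast hx1
    linarith)
  have h2 : log x / 4 ≤ log √z := by
    rw [log_sqrt (by linarith)]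
    have h3 : log √x ≤ log z := log_le_log (by linarith) hxz
    rw [log_sqrt hx0.le] at h3
    linarith
  have h3 : log 4 * z / log √z ≤ 6 * z / log x := by
    have h4 : log 4 < 1.4 := by
      rw [show (4 : ℝ) = 2 ^ 2 by norm_num, log_pow]
      have := log_two_lt_d9
      push_cast; linarith
    calc log 4 * z / log √z ≤ 1.4 * z / (log x / 4) := by
          gcongr
      _ = 5.6 * z / log x := by field_simp; norm_num
      _ ≤ 6 * z / log x := by gcongr; norm_num
  have h5 : √z ≤ z / log x := by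
    rw [le_div_iff₀ hlogx]
    have h6 : log x ≤ √z := hx.trans (sqrt_le_sqrt hxz)
    calc √z * log x ≤ √z * √z := by gcongr
      _ = z := mul_self_sqrt (by linarith)
  have h7 : 7 * z / log x = 6 * z / log x + z / log x := by ring
  rw [h7]
  linarith

lemma card_Z3 (x C : ℕ) (hC : 2 ≤ C) (hx1 : 16 ≤ x) (hx : log x ≤ √(√x)) :
    (#(Z3 x C) : ℝ) ≤ 7 * x / C + 7 * x / log x := by
  classical
  have hx0 : (0 : ℝ) < x := by exact_mod_cast (by omega : 0 < x)
  have hlogx : 0 < log x := log_pos (by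
    have : (16 : ℝ) ≤ x := by exact_mod_cast hx1
    linarith)
  set I : Finset ℕ := {m ∈ Icc 1 x | m ^ C ≤ x} with hI
  have hsub : Z3 x C ⊆ I.biUnion fun m =>
      ({P ∈ Icc 1 (x / m) | P.Prime} : Finset ℕ).image fun P => P * m := by
    intro n hn
    simp only [Z3, mem_filter, mem_Icc] at hn
    obtain ⟨⟨hn1, hn2⟩, P, m, hP, rfl, hm⟩ := hn
    have hm0 : 0 < m := Nat.pos_of_ne_zero (by rintro rfl; simp at hn1)
    rw [mem_biUnion]
    refine ⟨m, ?_, ?_⟩
    · rw [hI, mem_filter, mem_Icc]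
      refine ⟨⟨hm0, ?_⟩, hm⟩
      calc m = 1 * m := (one_mul m).symm
        _ ≤ P * m := Nat.mul_le_mul_right _ hP.pos
        _ ≤ x := hn2
    · rw [mem_image]
      refine ⟨P, ?_, rfl⟩
      rw [mem_filter, mem_Icc]
      exact ⟨⟨hP.pos, (Nat.le_div_iff_mul_le hm0).2 hn2⟩, hP⟩
  have hpi : ∀ z : ℕ, #({P ∈ Icc 1 z | P.Prime} : Finset ℕ) = Nat.primeCounting z := by
    intro z
    rw [Nat.primeCounting, Nat.primeCounting', Nat.count_eq_card_filter_range]
    congr 1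
    ext P
    simp only [mem_filter, mem_range, mem_Icc]
    constructor
    · rintro ⟨h1, h2⟩; exact ⟨by omega, h2⟩
    · rintro ⟨h1, h2⟩; exact ⟨⟨h2.pos, by omega⟩, h2⟩
  have h1 : (#(Z3 x C) : ℝ) ≤ ∑ m ∈ I, (Nat.primeCounting (x / m) : ℝ) := by
    have e1 := (card_le_card hsub).trans (card_biUnion_le.trans
      (sum_le_sum fun m _ => card_image_le))
    have e2 : #(Z3 x C) ≤ ∑ m ∈ I, Nat.primeCounting (x / m) := by
      refine e1.trans (le_of_eq (sum_congr rfl fun m _ => hpi _))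
    exact_mod_cast e2
  have h2 : ∀ m ∈ I, (Nat.primeCounting (x / m) : ℝ) ≤ (7 * x / log x) * (m : ℝ)⁻¹ := by
    intro m hm
    rw [hI, mem_filter, mem_Icc] at hm
    have e1 : m ^ 2 ≤ x := (Nat.pow_le_pow_right hm.1.1 hC).trans hm.2
    refine (pi_upper x m hm.1.1 e1 hx1 hx).trans (le_of_eq ?_)
    field_simp
  refine h1.trans ((sum_le_sum h2).trans ?_)
  rw [← mul_sum]
  have h3 : ∑ m ∈ I, (m : ℝ)⁻¹ ≤ 1 + log x / C := by
    set M := ⌊(x : ℝ) ^ ((1 : ℝ) / C)⌋₊ with hM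
    have hC0 : (0 : ℝ) < C := by exact_mod_cast (by omega : 0 < C)
    have e1 : I ⊆ Icc 1 M := by
      intro m hm
      rw [hI, mem_filter, mem_Icc] at hm
      rw [mem_Icc]
      refine ⟨hm.1.1, Nat.le_floor ?_⟩
      have e2 : ((m : ℝ) ^ C) ^ ((1 : ℝ) / C) = m := by
        rw [← rpow_natCast, ← rpow_mul (by positivity), mul_one_div_cancel hC0.ne', rpow_one]
      rw [← e2]
      apply rpow_le_rpow (by positivity) _ (by positivity)
      exact_mod_cast hm.2
    have e3 : ∑ m ∈ I, (m : ℝ)⁻¹ ≤ ∑ m ∈ Icc 1 M, (m : ℝ)⁻¹ :=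
      sum_le_sum_of_subset_of_nonneg e1 fun _ _ _ => by positivity
    have e4 := harmonic_le_one_add_log M
    rw [harmonic_eq_sum_Icc] at e4
    push_cast at e4
    have e5 : log M ≤ log x / C := by
      have e6 : (M : ℝ) ≤ (x : ℝ) ^ ((1 : ℝ) / C) := Nat.floor_le (by positivity)
      rcases Nat.eq_zero_or_pos M with h0 | h0
      · rw [h0]; simp only [Nat.cast_zero, log_zero]; positivity
      · have e7 := log_le_log (by exact_mod_cast h0) e6
        rw [log_rpow hx0] at e7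
        refine e7.trans (le_of_eq ?_)
        ring
    linarith
  calc 7 * (x : ℝ) / log x * ∑ m ∈ I, (m : ℝ)⁻¹ ≤ 7 * (x : ℝ) / log x * (1 + log x / C) := by
        gcongr
    _ = 7 * x / C + 7 * x / log x := by
        have : (C : ℝ) ≠ 0 := by exact_mod_cast (by omega : C ≠ 0)
        field_simp; ring

end ESGcd
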